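import Pool.Agent.Lib.MP_651af7_nt.Sh.AFin
import Pool.Agent.Lib.MP_8865d3_nt.GmFinExt

/-! From the factors of the fibre equation to its roots in number fields. -/

namespace Pool.Agent.Lib.MP_651af7_nt.Sh

open MvPolynomial Height NumberField IsDedekindDomain
open Pool.Agent.Lib.MP_651af7_nt.Av Pool.Agent.Lib.MP_651af7_nt.Vj Pool.Agent.Lib.MP_8865d3_nt.Sv
open Pool.Agent.Lib.MP_8865d3_nt.Gm (und ldeg log_und)

theorem sup_pow {α : Type} [Finite α] [Nonempty α] {f : α → ℝ} (h : ∀ j, 0 ≤ f j) (m : ℕ) :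
    ⨆ j, f j ^ m = (⨆ j, f j) ^ m := by
  obtain ⟨i, hi⟩ := exists_eq_ciSup_of_finite (f := f)
  refine le_antisymm (ciSup_le fun j => pow_le_pow_left₀ (h j)
    (le_ciSup (Finite.bddAbove_range _) j) m) ?_
  rw [← hi]
  exact le_ciSup (f := fun j => f j ^ m) (Finite.bddAbove_range _) i

section gauss

variable {L ι : Type} [Field L] [Fintype ι] {l : ℕ} {y : ι → L} {V : AbsoluteValue L ℝ}

theorem gs_eq (hy : y ≠ 0) (p : Polynomial L) :
    gs l p y V * (nm V y ^ l) ^ p.natDegree = p.gaussNorm V (nm V y ^ l) := by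
  have pN := nm_pos V hy
  have h1 : ∀ j : Fin (p.natDegree + 1), V (p.coeff j) / nm V y ^ ((p.natDegree - j) * l) *
      (nm V y ^ l) ^ p.natDegree = V (p.coeff j) * (nm V y ^ l) ^ (j : ℕ) := fun j => by
    obtain ⟨m, hm⟩ := Nat.exists_eq_add_of_le (Nat.lt_succ_iff.1 j.2)
    generalize (j : ℕ) = i at hm
    rw [hm, Nat.add_sub_cancel_left, mul_comm m, pow_mul, pow_add]
    field_simp
  refine le_antisymm ?_ ?_
  · obtain ⟨j, hj⟩ := exists_eq_ciSup_of_finite
      (f := fun j : Fin (p.natDegree + 1) => V (p.coeff j) / nm V y ^ ((p.natDegree - j) * l))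
    rw [gs, ← hj, h1]
    exact p.le_gaussNorm V (by positivity) j
  · obtain ⟨i, hi⟩ := p.exists_eq_gaussNorm V (nm V y ^ l)
    rw [hi]
    rcases lt_or_ge i (p.natDegree + 1) with h | h
    · rw [← h1 ⟨i, h⟩]
      exact mul_le_mul_of_nonneg_right (le_gs _) (by positivity)
    · rw [Polynomial.coeff_eq_zero_of_natDegree_lt h, map_zero, zero_mul]
      exact mul_nonneg (le_trans (by positivity) (le_gs 0)) (by positivity)

theorem gs_mul (hV : IsNonarchimedean V) (hy : y ≠ 0) {p q : Polynomial L} (hp : p.Monic)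
    (hq : q.Monic) : gs l (p * q) y V = gs l p y V * gs l q y V := by
  have pN := pow_pos (nm_pos V hy) l
  refine mul_right_cancel₀ (pow_pos pN (p * q).natDegree).ne' ?_
  rw [gs_eq hy, Polynomial.gaussNorm_mul hV pN, ← gs_eq hy, ← gs_eq hy, hp.natDegree_mul hq,
    pow_add]
  ring

omit [Fintype ι] in
theorem gs_of {p : Polynomial L} {d : ℕ} (h : p.natDegree = d) : gs l p y V =
    ⨆ j : Fin (d + 1), V (p.coeff j) / nm V y ^ ((d - j) * l) := by
  subst h
  rfl

theorem gs_lin (u : L) : Real.log (gs l (Polynomial.X - Polynomial.C u) y V) =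
    Real.posLog (V u / nm V y ^ l) := by
  rw [gs_of (Polynomial.natDegree_X_sub_C u), Real.posLog_eq_log_max_one
    (div_nonneg (V.nonneg _) (pow_nonneg (nm_nn V y) _))]
  refine congrArg _ (le_antisymm (ciSup_le (Fin.forall_fin_two.2 ⟨?_, ?_⟩)) (max_le
    (le_ciSup_of_le (Finite.bddAbove_range _) 1 ?_)
    (le_ciSup_of_le (Finite.bddAbove_range _) 0 ?_))) <;> simp [Polynomial.coeff_X]

/-- The lemma of Gauss. -/
theorem gs_prod (hV : IsNonarchimedean V) (hy : y ≠ 0) (s : Multiset L) :
    Real.log (gs l (s.map fun u => Polynomial.X - Polynomial.C u).prod y V) =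
      (s.map fun u => Real.posLog (V u / nm V y ^ l)).sum := by
  induction s using Multiset.induction_on with
  | empty => simp [gs_of Polynomial.natDegree_one]
  | cons u s ih =>
    have h1 := Polynomial.monic_X_sub_C u
    have h2 := Polynomial.monic_multiset_prod_of_monic s _ fun u _ => Polynomial.monic_X_sub_C u
    rw [Multiset.map_cons, Multiset.prod_cons, Multiset.map_cons, Multiset.sum_cons,
      gs_mul hV hy h1 h2, Real.log_mul (zero_lt_one.trans_le (one_le_gs h1)).ne'
        (zero_lt_one.trans_le (one_le_gs h2)).ne', gs_lin, ih]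

end gauss

variable {k K L ι : Type} [Field k] [NumberField k] [Field K] [NumberField K] [Algebra k K]
  [Field L] [NumberField L] [Algebra k L] [Fintype ι]

theorem ldeg_ne (W : FinitePlace K) : ldeg k W.maximalIdeal.asIdeal ≠ 0 := by
  have := W.maximalIdeal.isPrime
  have := (W.maximalIdeal.under (𝓞 k)).isMaximal
  exact mul_ne_zero (Ideal.IsDedekindDomain.ramificationIdx'_ne_zero_of_liesOver _
    (W.maximalIdeal.under (𝓞 k)).ne_bot) (Ideal.inertiaDeg'_pos' _ _).ne'

theorem pow_und (W : FinitePlace K) (x : k) :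
    W.1 (algebraMap k K x) = (und k W).1 x ^ ldeg k W.maximalIdeal.asIdeal := by
  rcases eq_or_ne x 0 with rfl | hx
  · simp [ldeg_ne W]
  · refine Real.log_injOn_pos (W.1.pos ((map_ne_zero _).2 hx)) (pow_pos ((und k W).1.pos hx) _) ?_
    rw [Real.log_pow]
    exact log_und W hx

theorem und_eq_iff (W : FinitePlace K) (w : FinitePlace k) :
    und k W = w ↔ W.maximalIdeal.asIdeal.LiesOver w.maximalIdeal.asIdeal := by
  rw [← FinitePlace.maximalIdeal_inj, und, FinitePlace.maximalIdeal_mk]
  exact ⟨fun h => ⟨(congrArg HeightOneSpectrum.asIdeal h).symm⟩,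
    fun h => HeightOneSpectrum.ext h.1.symm⟩

theorem und_und [Algebra K L] [IsScalarTower k K L] (V : FinitePlace L) :
    und k (und K V) = und k V := by
  rw [und, und, und, FinitePlace.maximalIdeal_mk]
  exact congrArg _ (HeightOneSpectrum.ext (Ideal.under_under _))

variable (K) in
theorem fib_sum (v : FinitePlace k) : ∃ F : Finset (FinitePlace K), (∀ w, w ∈ F ↔ und k w = v) ∧
    ∑ w ∈ F, ldeg k w.maximalIdeal.asIdeal = Module.finrank k K := by
  classical
  have inj : Function.Injective fun w : FinitePlace K => w.maximalIdeal.asIdeal :=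
    HeightOneSpectrum.asIdeal_injective.comp FinitePlace.maximalIdeal_injective
  have := v.maximalIdeal.isMaximal
  have mem := fun P =>
    IsDedekindDomain.mem_primesOverFinset_iff (P := P) v.maximalIdeal.ne_bot (𝓞 K)
  refine ⟨(IsDedekindDomain.primesOverFinset v.maximalIdeal.asIdeal (𝓞 K)).preimage _ inj.injOn,
    fun w => ?_, ?_⟩
  · rw [Finset.mem_preimage, mem, und_eq_iff]
    exact ⟨fun h => h.2, fun h => ⟨w.maximalIdeal.isPrime, h⟩⟩
  rw [← Ideal.sum_ramification_inertia (𝓞 K) k K v.maximalIdeal.ne_bot,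
    Finset.sum_preimage _ _ _ (ldeg k) fun P hP h => absurd ?_ h]
  · exact Finset.sum_congr rfl fun P hP => by rw [ldeg, ← ((mem P).1 hP).2.1]
  · obtain ⟨h1, h2⟩ := (mem P).1 hP
    exact ⟨FinitePlace.mk ⟨P, h1, Ideal.ne_bot_of_liesOver_of_ne_bot v.maximalIdeal.ne_bot P⟩,
      by simp only [FinitePlace.maximalIdeal_mk]⟩

/-- Sums over the places of an extension. -/
theorem tower (s : Set (FinitePlace k)) {f : AbsoluteValue k ℝ → ℝ} (hf : FinS f)
    {F : FinitePlace K → ℝ} (h : ∀ W, F W = ldeg k W.maximalIdeal.asIdeal * f (und k W).1) :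
    ∑ᶠ W ∈ {W | und k W ∈ s}, F W = Module.finrank k K * ∑ᶠ w ∈ s, f w.1 := by
  classical
  choose G hG hs using fib_sum (k := k) K
  have hf' : (Function.support fun w : FinitePlace k => f w.1).Finite := hf
  obtain ⟨T, hT⟩ : ∃ T : Finset (FinitePlace k), ∀ w, w ∈ T ↔ w ∈ s ∧ f w.1 ≠ 0 :=
    ⟨(hf'.inter_of_right s).toFinset, fun w => Set.Finite.mem_toFinset _⟩
  rw [finsum_mem_eq_sum_of_inter_support_eq (t := T.biUnion G), Finset.sum_biUnion,
    finsum_mem_eq_sum_of_inter_support_eq (t := T), Finset.mul_sum]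
  · refine Finset.sum_congr rfl fun v _ => ?_
    rw [Finset.sum_congr rfl fun W hW => by rw [h, (hG _ _).1 hW], ← Finset.sum_mul,
      ← Nat.cast_sum, hs]
  · ext w
    simp [hT]
  · exact fun v _ v' _ h => Finset.disjoint_left.2 fun w h1 h2 =>
      h (((hG _ _).1 h1).symm.trans ((hG _ _).1 h2))
  · ext W
    simp [hT, hG, h, ldeg_ne W]

theorem fin_und {f : AbsoluteValue k ℝ → ℝ} (hf : FinS f) {F : FinitePlace K → ℝ}
    (h : ∀ W, F W = ldeg k W.maximalIdeal.asIdeal * f (und k W).1) :
    (Function.support F).Finite := by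
  have hf' : (Function.support fun w : FinitePlace k => f w.1).Finite := hf
  refine (hf'.preimage' (f := und k) fun v _ => ?_).subset fun W hW =>
    right_ne_zero_of_mul ((h W).symm.trans_ne hW)
  obtain ⟨G, hG, -⟩ := fib_sum K v
  exact G.finite_toSet.subset fun W hW => (hG W).2 hW

theorem nm_und (W : FinitePlace K) {x : ι → k} (hx : x ≠ 0) :
    nm W.1 (fun i => algebraMap k K (x i)) = nm (und k W).1 x ^ ldeg k W.maximalIdeal.asIdeal := by
  have : Nonempty ι := ⟨(Function.ne_iff.1 hx).choose⟩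
  simp only [nm, pow_und]
  exact sup_pow (fun _ => AbsoluteValue.nonneg _ _) _

theorem sup_und (W : FinitePlace K) {x : ι → k} (hx : x ≠ 0) {N : ℕ} (c : Fin (N + 1) → k)
    (m : Fin (N + 1) → ℕ) : Real.log (⨆ j, W.1 (algebraMap k K (c j)) /
      nm W.1 (fun i => algebraMap k K (x i)) ^ m j) = ldeg k W.maximalIdeal.asIdeal *
      Real.log (⨆ j, (und k W).1 (c j) / nm (und k W).1 x ^ m j) := by
  rw [← Real.log_pow, ← sup_pow fun j =>
    div_nonneg (AbsoluteValue.nonneg _ _) (pow_nonneg (nm_nn _ _) _)]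
  simp only [nm_und W hx, pow_und, div_pow, ← pow_mul, mul_comm]

omit [NumberField k] [NumberField K] [Fintype ι] in
theorem alg_ne {x : ι → k} (hx : x ≠ 0) : (fun i => algebraMap k K (x i)) ≠ 0 := fun h =>
  hx (funext fun i => (map_eq_zero _).1 (congrFun h i))

/-- The counting function of a root, averaged over the places of its field. -/
noncomputable def avg (S : Finset (FinitePlace k)) (l : ℕ) (x : ι → k) (t : K) : ℝ :=
  (∑ᶠ W ∈ {W : FinitePlace K | und k W ∈ (S : Set (FinitePlace k))ᶜ},
    Real.posLog (W.1 t / nm W.1 (fun i => algebraMap k K (x i)) ^ l)) / Module.finrank k K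

theorem avg_hom (S : Finset (FinitePlace k)) (l : ℕ) {x : ι → k} (hx : x ≠ 0) (φ : K →ₐ[k] L)
    (t : K) : avg S l x (φ t) = avg S l x t := by
  let _ := φ.toRingHom.toAlgebra
  have : IsScalarTower k K L := IsScalarTower.of_algebraMap_eq fun y => (φ.commutes y).symm
  have : Module.Finite K L := Module.Finite.of_restrictScalars_finite ℚ K L
  have h1 := tower (K := L) {W : FinitePlace K | und k W ∈ (S : Set (FinitePlace k))ᶜ}
    (finS_pos (alg_ne (K := K) hx) t l) (F := fun V =>
      Real.posLog (V.1 (φ t) / nm V.1 (fun i => algebraMap k L (x i)) ^ l)) fun V => by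
    have h2 := nm_und V (alg_ne (K := K) hx)
    simp only [← IsScalarTower.algebraMap_apply] at h2
    rw [h2, ← Real.posLog_pow, div_pow, ← pow_und, ← pow_mul, ← pow_mul, mul_comm l]
    rfl
  simp only [Set.mem_ofPred_eq, und_und] at h1
  have h2 : (0 : ℝ) < Module.finrank K L := by exact_mod_cast Module.finrank_pos
  rw [avg, avg, ← Module.finrank_mul_finrank k K L, Nat.cast_mul, mul_comm, ← div_div]
  exact congrArg (· / _) ((div_eq_iff h2.ne').2 (h1.trans (mul_comm _ _)))

theorem finsum_ms {α β : Type} (T : Set α) {F : β → α → ℝ}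
    (h : ∀ u, (Function.support (F u)).Finite) (s : Multiset β) :
    (Function.support fun V => (s.map (F · V)).sum).Finite ∧
      ∑ᶠ V ∈ T, (s.map (F · V)).sum = (s.map fun u => ∑ᶠ V ∈ T, F u V).sum := by
  induction s using Multiset.induction_on with
  | empty => simp
  | cons u s ih =>
    simp only [Multiset.map_cons, Multiset.sum_cons]
    exact ⟨((h u).union ih.1).subset (Function.support_add _ _), by
      rw [finsum_mem_add_distrib' ((h u).inter_of_right T) (ih.1.inter_of_right T), ih.2]⟩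

/-- The conjugates of a root have the same counting function. -/
theorem avg_root (S : Finset (FinitePlace k)) (l : ℕ) {x : ι → k} (hx : x ≠ 0) (t : K) :
    (minpoly k t).natDegree * avg S l x t =
      ∑ᶠ w ∈ (S : Set (FinitePlace k))ᶜ, Real.log (gs l (minpoly k t) x w.1) := by
  have : Module.Finite k K := Module.Finite.of_restrictScalars_finite ℚ k K
  have hi : IsIntegral k t := Algebra.IsIntegral.isIntegral t
  have hm := minpoly.monic hi
  have : Fact (Irreducible (minpoly k t)) := ⟨minpoly.irreducible hi⟩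
  have ht := minpoly.aeval k t
  generalize minpoly k t = g at *
  have := (AdjoinRoot.powerBasis hm.ne_zero).finite
  have : NumberField (AdjoinRoot g) := NumberField.of_module_finite k _
  have : NumberField g.SplittingField := NumberField.of_module_finite k _
  have h1 : ∀ (M : Type) [Field M] [NumberField M] [Algebra k M] (u : M),
      Polynomial.aeval u g = 0 → avg S l x u = avg S l x (AdjoinRoot.root g) := fun M _ _ _ u hu => by
    rw [← avg_hom S l hx (AdjoinRoot.liftAlgHom g (Algebra.ofId k M) u hu),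
      AdjoinRoot.liftAlgHom_root]
  have hs := Polynomial.SplittingField.splits g
  have h2 := hs.natDegree_eq_card_roots
  have h3 := hs.eq_prod_roots_of_monic (hm.map _)
  have h4 := tower (K := g.SplittingField) (S : Set (FinitePlace k))ᶜ (finS_gs hx g l)
    (F := fun V => (((g.map (algebraMap k g.SplittingField)).roots.map fun u =>
      Real.posLog (V.1 u / nm V.1 (fun i => algebraMap k g.SplittingField (x i)) ^ l)).sum))
    fun V => by
      rw [← gs_prod (fun a b => V.add_le a b) (alg_ne hx), ← h3, gs_of (g.natDegree_map _)]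
      simp only [Polynomial.coeff_map]
      exact sup_und V hx _ _
  rw [(finsum_ms _ (F := fun u (V : FinitePlace g.SplittingField) =>
    Real.posLog (V.1 u / nm V.1 (fun i => algebraMap k g.SplittingField (x i)) ^ l))
    (fun u => finS_pos (alg_ne hx) u l) _).2] at h4
  have h5 : (0 : ℝ) < Module.finrank k g.SplittingField := by exact_mod_cast Module.finrank_pos
  refine mul_left_cancel₀ h5.ne' (Eq.trans ?_ h4)
  rw [Multiset.map_congr rfl (g := fun _ => Module.finrank k g.SplittingField * avg S l x t)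
    fun u hu => ?_, Multiset.map_const', Multiset.sum_replicate, ← h2, g.natDegree_map,
    nsmul_eq_mul, mul_left_comm]
  rw [h1 K t ht, ← h1 _ u (by
    rw [Polynomial.aeval_def, Polynomial.eval₂_eq_eval_map]
    exact Polynomial.isRoot_of_mem_roots hu), avg, mul_div_cancel₀ _ h5.ne']

theorem not_above (S : Finset (FinitePlace k)) :
    {W : FinitePlace K | ∀ w ∈ S, ¬W.maximalIdeal.asIdeal.LiesOver w.maximalIdeal.asIdeal} =
      {W | und k W ∈ (S : Set (FinitePlace k))ᶜ} := Set.ext fun W =>
  ⟨fun h hS => h _ hS ((und_eq_iff W _).1 rfl), fun h w hS hW => h ((und_eq_iff W w).2 hW ▸ hS)⟩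

theorem split_avg (S : Finset (FinitePlace k)) (l : ℕ) {x : ι → k} (hx : x ≠ 0) (t : K) (b : ℝ)
    {N : ℕ} {c : Fin (N + 1) → k} {m : Fin (N + 1) → ℕ}
    (f2 : FinS fun w => Real.log (⨆ j, w (c j) / nm w x ^ m j)) :
    (∑ᶠ W ∈ {W : FinitePlace K | ∀ w ∈ S, ¬W.maximalIdeal.asIdeal.LiesOver w.maximalIdeal.asIdeal},
      (b * Real.posLog (W.1 t / nm W.1 (fun i => algebraMap k K (x i)) ^ l) -
        Real.log (⨆ j, W.1 (algebraMap k K (c j)) /
          nm W.1 (fun i => algebraMap k K (x i)) ^ m j))) / Module.finrank k K =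
      b * avg S l x t - osum (Cn.plc S) fun w => Real.log (⨆ j, w (c j) / nm w x ^ m j) := by
  have : Module.Finite k K := Module.Finite.of_restrictScalars_finite ℚ k K
  have h8 := fun W : FinitePlace K => sup_und W hx c m
  have f3 : (Function.support fun W : FinitePlace K => b *
      Real.posLog (W.1 t / nm W.1 (fun i => algebraMap k K (x i)) ^ l)).Finite :=
    (finS_pos (alg_ne hx) t l).const_mul _
  have f4 := fin_und (f2.const_mul (-1)) (F := fun W : FinitePlace K => -1 * _) fun W =>
    (congrArg (-1 * ·) (h8 W)).trans (mul_left_comm _ _ _)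
  have h6 : (0 : ℝ) < Module.finrank k K := by exact_mod_cast Module.finrank_pos
  simp only [sub_eq_add_neg (b * Real.posLog _), neg_eq_neg_one_mul (Real.log _)]
  rw [not_above, finsum_mem_add_distrib' (f3.inter_of_right _) (f4.inter_of_right _),
    ← mul_finsum_mem, ← mul_finsum_mem, tower (S : Set (FinitePlace k))ᶜ f2 h8, add_div,
    mul_div_assoc, mul_div_assoc, mul_div_cancel_left₀ _ h6.ne', Cn.osum_plc, avg, neg_one_mul,
    sub_eq_add_neg]

/-- The estimate for a root from the estimate for its minimal polynomial. -/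
theorem ext_root {e a l : ℕ} {ρ : Fin (e + 2) → MvPolynomial ι k}
    (hρ : ∀ j : Fin (e + 2), (ρ j).IsHomogeneous (a + (e + 1 - j) * l))
    (S : Finset (FinitePlace k)) {x : ι → k} (hx : x ≠ 0) (h1 : eval x (ρ (Fin.last _)) ≠ 0) {t : K}
    (ht : ∑ j, eval x (ρ j) • t ^ (j : ℕ) = 0) {H R : ℝ} (h : ∀ g : Polynomial k, g.Monic →
      g ∣ fx ρ x → |g.natDegree * a * H - osum (Cn.plc S) (locA a l ρ x g)| ≤ R) :
    |a * H - (∑ᶠ W ∈ {W : FinitePlace K |
        ∀ w ∈ S, ¬W.maximalIdeal.asIdeal.LiesOver w.maximalIdeal.asIdeal},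
      ((e + 1 : ℕ) * Real.posLog (W.1 t / nm W.1 (fun i => algebraMap k K (x i)) ^ l) -
        Real.log (⨆ j, W.1 (algebraMap k K (eval x (ρ j))) /
          nm W.1 (fun i => algebraMap k K (x i)) ^ (a + (e + 1 - j) * l)))) /
      Module.finrank k K| ≤ R := by
  have : Module.Finite k K := Module.Finite.of_restrictScalars_finite ℚ k K
  have hi : IsIntegral k t := Algebra.IsIntegral.isIntegral t
  have h2 := h _ (minpoly.monic hi) (minpoly.dvd k t (by
    simpa only [fx, map_sum, Polynomial.aeval_monomial, ← Algebra.smul_def] using ht))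
  have f1 := finS_gs hx (minpoly k t) l
  have f2 := finS_ws hρ hx h1
  have h3 := osum_sub (Cn.plc S) (f1.const_mul (e + 1 : ℕ)) (f2.const_mul (minpoly k t).natDegree)
  rw [osum_const_mul _ f1, osum_const_mul _ f2, Cn.osum_plc S fun w => Real.log (gs _ _ _ w),
    ← avg_root S l hx t] at h3
  have h7 : (1 : ℝ) ≤ (minpoly k t).natDegree := by exact_mod_cast minpoly.natDegree_pos hi
  rw [split_avg S l hx t _ f2]
  refine le_trans ((le_mul_of_one_le_left (abs_nonneg _) h7).trans_eq ?_) h2
  rw [← Nat.abs_cast (minpoly k t).natDegree, ← abs_mul, Nat.abs_cast]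
  refine congrArg _ (Eq.trans ?_ (congrArg (_ - ·) h3.symm))
  simp only [ws]
  ring

end Pool.Agent.Lib.MP_651af7_nt.Sh
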