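import Pool.Agent.Lib.MP_651af7_nt.Cn.SFin

/-! Sheets of finite covers of abelian varieties: simple abelian varieties, coefficients without
a common divisor, integral roots. -/

namespace Pool.Agent.Lib.MP_651af7_nt.Sh

open MvPolynomial Height NumberField
open Pool.Agent.Lib.MP_651af7_nt.Av Pool.Agent.Lib.MP_651af7_nt.Cn
open Pool.Agent.Lib.MP_651af7_nt.Vj Pool.Agent.Lib.MP_8865d3_nt.Sv

section simple

variable {k ι Ω A : Type} [Field k] [Finite ι] [Field Ω] [IsAlgClosed Ω] [Algebra k Ω]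
  {I : Ideal (MvPolynomial ι k)} {co : A → ι → Ω}

theorem le_of_all [Nonempty A] (hp : (I.map (MvPolynomial.map (algebraMap k Ω))).IsPrime)
    (h0 : ∀ p, co p ≠ 0) (hz : ∀ p, ∀ P ∈ I, aeval (co p) P = 0)
    (hs : ∀ v : ι → Ω, v ≠ 0 → (∀ P ∈ I, aeval v P = 0) → ∃! p, ∃ c : Ω, v = c • co p)
    {q : Ideal (MvPolynomial ι k)} (hq : ∀ P ∈ q, ∀ d, homogeneousComponent d P ∈ q)
    (hall : ∀ p, ∀ P ∈ q, aeval (co p) P = 0) : q ≤ I := by
  have hI := prime_of_isAlgClosed Ω hp k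
  rw [show (MvPolynomial.map (algebraMap k k) : MvPolynomial ι k →+* MvPolynomial ι k) =
    RingHom.id _ from RingHom.ext fun p => MvPolynomial.map_id p, Ideal.map_id] at hI
  intro P hP
  obtain ⟨p⟩ := ‹Nonempty A›
  obtain ⟨a, ha⟩ := Function.ne_iff.1 (h0 p)
  refine (hI.mem_or_mem (x := P) (y := X a) ?_).resolve_right fun h => ha (by simpa using hz p _ h)
  rw [← IsPrime.vanishingIdeal_zeroLocus (K := Ω) I]
  intro v hv
  rcases eq_or_ne v 0 with rfl | h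
  · simp
  · obtain ⟨p', ⟨c, rfl⟩, -⟩ := hs v h hv
    rw [map_mul]
    exact mul_eq_zero_of_left (zero_mul_of_hom hq (hall p') c P hP) _

/-- If every subgroup with a coset cut out by forms over `k` is finite or everything, a property
of `I` holds for the ideals of all cosets of infinite subgroups. -/
theorem of_simple [AddCommGroup A] (hp : (I.map (MvPolynomial.map (algebraMap k Ω))).IsPrime)
    (h0 : ∀ p, co p ≠ 0) (hz : ∀ p, ∀ P ∈ I, aeval (co p) P = 0)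
    (hs : ∀ v : ι → Ω, v ≠ 0 → (∀ P ∈ I, aeval v P = 0) → ∃! p, ∃ c : Ω, v = c • co p)
    (hS : ∀ (B : AddSubgroup A) (q : Ideal (MvPolynomial ι k)) (c : A),
      (∀ P ∈ q, ∀ d, homogeneousComponent d P ∈ q) →
      (∀ p, (∀ P ∈ q, aeval (co p) P = 0) ↔ p - c ∈ B) → (B : Set A).Finite ∨ B = ⊤)
    {Irr : Ideal (MvPolynomial ι k) → Prop} (h : Irr I) (B : AddSubgroup A) :
    (B : Set A).Finite ∨ ∃ (Θ : MvPolynomial ι k) (d : ℕ), Θ.IsHomogeneous d ∧ Θ ∉ I ∧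
      ∀ (q : Ideal (MvPolynomial ι k)) (c : A), q.IsPrime →
        (∀ P ∈ q, ∀ d, homogeneousComponent d P ∈ q) → I ≤ q → Θ ∉ q →
        (∀ p, (∀ P ∈ q, aeval (co p) P = 0) ↔ p - c ∈ B) → Irr q := by
  refine or_iff_not_imp_left.2 fun hB => ⟨1, 0, isHomogeneous_one _ _,
    fun h1 => by simpa using hz 0 1 h1, fun q c _ hq hle _ hc => ?_⟩
  obtain rfl := (hS B q c hq hc).resolve_left hB
  rwa [le_antisymm (le_of_all hp h0 hz hs hq fun p => (hc p).2 trivial) hle]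

end simple

variable {k ι : Type} [Field k] [Fintype ι] {e a l : ℕ}

/-- The coefficients brought to the same degree. -/
noncomputable def lev (l : ℕ) (ρ : Fin (e + 1) → MvPolynomial ι k) (p : Fin (e + 1) × ι) :
    MvPolynomial ι k := ρ p.1 * X p.2 ^ ((p.1 : ℕ) * l)

theorem lev_deg (j : Fin (e + 1)) : a + (e - j) * l + j * l = a + e * l := by
  rw [add_assoc, ← add_mul, Nat.sub_add_cancel (Nat.lt_succ_iff.1 j.2)]

omit [Fintype ι] in
theorem lev_hom {ρ : Fin (e + 1) → MvPolynomial ι k}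
    (hρ : ∀ j, (ρ j).IsHomogeneous (a + (e - j) * l)) (p : Fin (e + 1) × ι) :
    (lev l ρ p).IsHomogeneous (a + e * l) := by
  rw [← lev_deg p.1]
  simpa only [one_mul, lev] using (hρ p.1).mul ((isHomogeneous_X k p.2).pow (p.1 * l))

theorem nm_lev (ρ : Fin (e + 1) → MvPolynomial ι k) (w : AbsoluteValue k ℝ) {x : ι → k}
    (hx : x ≠ 0) : (nm w fun p => eval x (lev l ρ p)) =
      nm w x ^ (a + e * l) * ⨆ j, w (eval x (ρ j)) / nm w x ^ (a + (e - j) * l) := by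
  have : Nonempty ι := ⟨(Function.ne_iff.1 hx).choose⟩
  have h1 := nm_pos w hx
  have h2 : ∀ j : Fin (e + 1), nm w x ^ (a + e * l) * (w (eval x (ρ j)) /
      nm w x ^ (a + (e - j) * l)) = w (eval x (ρ j)) * nm w x ^ ((j : ℕ) * l) := fun j => by
    rw [← lev_deg (a := a) (l := l) j, pow_add]
    field_simp
  have h3 : ∀ p, w (eval x (lev l ρ p)) = w (eval x (ρ p.1)) * w (x p.2) ^ ((p.1 : ℕ) * l) :=
    fun p => by simp only [lev, map_mul, map_pow, eval_X]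
  rw [Real.mul_iSup_of_nonneg (pow_pos h1 _).le]
  simp only [h2]
  refine le_antisymm (ciSup_le fun p => le_ciSup_of_le (Finite.bddAbove_range _) p.1 ?_)
    (ciSup_le fun j => ?_)
  · rw [h3]
    gcongr
    exact le_nm w x p.2
  · obtain ⟨i, hi⟩ := exists_nm w x
    rw [← hi, ← h3 (j, i)]
    exact le_nm w (fun p => eval x (lev l ρ p)) (j, i)

omit [Fintype ι] in
theorem lev_height {I : Ideal (MvPolynomial ι k)} (ha : 0 < a)
    {ρ : Fin (e + 1) → MvPolynomial ι k} (hρ : ∀ j, (ρ j).IsHomogeneous (a + (e - j) * l))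
    (hc : 2 ≤ ((Ideal.span (Set.range ρ)).map (Ideal.Quotient.mk I)).height) :
    2 ≤ ((Ideal.span (Set.range (lev l ρ))).map (Ideal.Quotient.mk I)).height := by
  rw [Ideal.height_eq_inf_minimalPrimes]
  refine le_iInf₂ fun P hP => hc.trans (Ideal.height_mono ?_)
  have := hP.isPrime
  rw [Ideal.map_le_iff_le_comap, Ideal.span_le]
  rintro _ ⟨j, rfl⟩
  by_contra h
  have hq : (P.comap (Ideal.Quotient.mk I)).IsPrime := inferInstance
  have h1 : ∀ i, X i ∈ P.comap (Ideal.Quotient.mk I) := fun i => hq.mem_of_pow_mem _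
    ((hq.mem_or_mem (hP.1.2 (Ideal.mem_map_of_mem _
      (Ideal.subset_span ⟨(j, i), rfl⟩)))).resolve_left h)
  refine h ?_
  rw [(ρ j).as_sum]
  refine Ideal.sum_mem _ fun μ hμ => ?_
  have h2 : μ ≠ 0 := by
    rintro rfl
    have := hρ j (mem_support_iff.1 hμ)
    rw [map_zero] at this
    omega
  obtain ⟨i, hi⟩ := Finsupp.support_nonempty_iff.2 h2
  exact Ideal.mem_of_dvd _ (X_dvd_monomial.2 (Or.inr (Finsupp.mem_support_iff.1 hi))) (h1 i)

variable [NumberField k]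

/-- The common divisor of the coefficients is small. -/
theorem gcd_term (A : AV k ι) (ha : 0 < a) {ρ : Fin (e + 1) → MvPolynomial ι k}
    (hρ : ∀ j, (ρ j).IsHomogeneous (a + (e - j) * l))
    (hc : 2 ≤ ((Ideal.span (Set.range ρ)).map (Ideal.Quotient.mk A.I)).height) {ε : ℝ}
    (hε : 0 < ε) : ∃ (Θ : MvPolynomial ι k) (d : ℕ) (C : ℝ), Θ.IsHomogeneous d ∧ Θ ∉ A.I ∧
      ∀ (T : Finset (AbsoluteValue k ℝ)) (x : ι → k), x ≠ 0 → (∀ f ∈ A.I, eval x f = 0) →
        eval x Θ ≠ 0 →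
        FinS (fun w => Real.log (⨆ j, w (eval x (ρ j)) / nm w x ^ (a + (e - j) * l))) ∧
        -osum T (fun w => Real.log (⨆ j, w (eval x (ρ j)) / nm w x ^ (a + (e - j) * l))) ≤
          ε * logHeight x + C := by
  obtain ⟨Θ, d, C, h1, h2, h3⟩ := A.gcd_part _ (lev_hom hρ) (lev_height ha hρ hc) hε
  obtain ⟨c, h, hA, hl⟩ := exists_ad_fam (lev l ρ)
  refine ⟨Θ, d, C + h, h1, h2, fun T x hx hz h0 => ?_⟩
  obtain ⟨h4, h5⟩ := h3 x hx hz h0
  have hG : ∀ p, Rng (a + e * l) (a + e * l) (lev l ρ p) := fun p μ hμ => by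
    have : μ.degree = a + e * l := by
      rw [Finsupp.degree_eq_weight_one]
      exact lev_hom hρ p (mem_support_iff.1 hμ)
    exact ⟨this.ge, this.le⟩
  have e1 : (fun w : AbsoluteValue k ℝ =>
      Real.log (⨆ j, w (eval x (ρ j)) / nm w x ^ (a + (e - j) * l))) =
      fun w => -1 * Cn.mv (a + e * l) (a + e * l) (lev l ρ) x w := funext fun w => by
    have h6 := nm_pos w h4
    have h7 := pow_pos (nm_pos w hx) (a + e * l)
    rw [nm_lev (a := a) ρ w hx] at h6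
    rw [Cn.mv, nm_lev (a := a) ρ w hx, Real.log_mul h7.ne' ((mul_pos_iff_of_pos_left h7).1 h6).ne',
      Real.log_pow, ell]
    ring
  have f1 := finS_mv (a := a + e * l) (b := a + e * l) (G := lev l ρ) hx
  rw [e1, osum_const_mul T f1]
  refine ⟨f1.const_mul _, ?_⟩
  have h6 := osum_le_gsum T (f1.add hA.fin) fun w _ => mv_ge hG hx h4 (hl w)
  rw [osum_add T f1 hA.fin, gsum_add f1 hA.fin, Cn.gsum_mv hx, sub_self, zero_mul] at h6
  have h7 := osum_nonneg T (f := fun w => Real.log (c w)) fun w _ _ => Real.log_nonneg (hA.one w)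
  linarith [hA.le]

theorem finS_posLog (t : k) (x : ι → k) (l : ℕ) :
    FinS fun w => Real.posLog (w t / nm w x ^ l) := by
  refine pf_finS_of_le ((finS_abs (finS_log t)).add ((finS_abs (finS_nm x)).const_mul l))
    (fun _ => Real.posLog_nonneg) fun w => max_le (by positivity) ?_
  rcases eq_or_ne (w t / nm w x ^ l) 0 with h | h
  · rw [h, Real.log_zero]
    positivity
  · rw [Real.log_div (div_ne_zero_iff.1 h).1 (div_ne_zero_iff.1 h).2, Real.log_pow]
    have h1 := mul_le_mul_of_nonneg_left (neg_le_abs (Real.log (nm w x))) (l.cast_nonneg (α := ℝ))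
    linarith [le_abs_self (Real.log (w t))]

/-- The inequality for coefficients without a common divisor on the abelian variety. -/
theorem coprime_of (A : AV k ι) {ρ : Fin (e + 1) → MvPolynomial ι k}
    (hρ : ∀ j, (ρ j).IsHomogeneous (a + (e - j) * l))
    (hc : 2 ≤ ((Ideal.span (Set.range ρ)).map (Ideal.Quotient.mk A.I)).height)
    (H : ∀ ε : ℝ, 0 < ε → ∃ (Θ : MvPolynomial ι k) (d : ℕ), Θ.IsHomogeneous d ∧ Θ ∉ A.I ∧
      ∀ S : Finset (FinitePlace k), ∃ C : ℝ, ∀ (x : ι → k) (t : k), x ≠ 0 →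
        (∀ P ∈ A.I, eval x P = 0) → eval x Θ ≠ 0 → ∑ j, eval x (ρ j) * t ^ (j : ℕ) = 0 →
        a * logHeight x ≤ ∑ᶠ w ∈ (S : Set (FinitePlace k))ᶜ,
          (e * Real.posLog (w t / nm w.1 x ^ l) -
            Real.log (⨆ j, w (eval x (ρ j)) / nm w.1 x ^ (a + (e - j) * l))) +
          ε * logHeight x + C) {ε : ℝ} (hε : 0 < ε) :
    ∃ (Θ : MvPolynomial ι k) (d : ℕ), Θ.IsHomogeneous d ∧ Θ ∉ A.I ∧
      ∀ S : Finset (FinitePlace k), ∃ C : ℝ, ∀ (x : ι → k) (t : k), x ≠ 0 →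
        (∀ P ∈ A.I, eval x P = 0) → eval x Θ ≠ 0 → ∑ j, eval x (ρ j) * t ^ (j : ℕ) = 0 →
        a * logHeight x ≤ e * ∑ᶠ w ∈ (S : Set (FinitePlace k))ᶜ,
          Real.posLog (w t / nm w.1 x ^ l) + ε * logHeight x + C := by
  have hp := A.isPrime
  rcases a.eq_zero_or_pos with rfl | ha
  · refine ⟨1, 0, isHomogeneous_one _ _, (Ideal.ne_top_iff_one _).1 hp.ne_top, fun S =>
      ⟨0, fun x t _ _ _ _ => ?_⟩⟩
    rw [Nat.cast_zero, zero_mul, add_zero]
    exact add_nonneg (mul_nonneg e.cast_nonneg (finsum_nonneg fun _ => finsum_nonneg fun _ =>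
      Real.posLog_nonneg)) (mul_nonneg hε.le (logHeight_nonneg x))
  obtain ⟨Θ, d, h1, h2, h3⟩ := H _ (half_pos hε)
  obtain ⟨Θ', d', C', h4, h5, h6⟩ := gcd_term A ha hρ hc (half_pos hε)
  refine ⟨Θ * Θ', _, h1.mul h4, fun h => (hp.mem_or_mem h).elim h2 h5, fun S => ?_⟩
  obtain ⟨C, h3⟩ := h3 S
  refine ⟨C + C', fun x t hx hz h0 ht => ?_⟩
  rw [map_mul, mul_ne_zero_iff] at h0
  obtain ⟨f2, h7⟩ := h6 (plc S) x hx hz h0.2
  have f1 := finS_posLog t x l
  have e1 := osum_sub (plc S) (f1.const_mul e) f2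
  rw [osum_const_mul _ f1, osum_plc, osum_plc S fun w => Real.posLog _] at e1
  have h8 := (h3 x t hx hz h0.1 ht).trans_eq (congrArg (· + ε / 2 * logHeight x + C) e1)
  refine h8.trans ?_
  change _ ≤ e * ∑ᶠ w ∈ (S : Set (FinitePlace k))ᶜ, Real.posLog (w.1 t / nm w.1 x ^ l) + _ + _
  linarith

/-- Integral roots lie over points of bounded height. -/
theorem integral_of {I : Ideal (MvPolynomial ι k)} (ha : 0 < a)
    {ρ : Fin (e + 1) → MvPolynomial ι k}
    (H : ∀ ε : ℝ, 0 < ε → ∃ (Θ : MvPolynomial ι k) (d : ℕ), Θ.IsHomogeneous d ∧ Θ ∉ I ∧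
      ∀ S : Finset (FinitePlace k), ∃ C : ℝ, ∀ (x : ι → k) (t : k), x ≠ 0 →
        (∀ P ∈ I, eval x P = 0) → eval x Θ ≠ 0 → ∑ j, eval x (ρ j) * t ^ (j : ℕ) = 0 →
        a * logHeight x ≤ e * ∑ᶠ w ∈ (S : Set (FinitePlace k))ᶜ,
          Real.posLog (w t / nm w.1 x ^ l) + ε * logHeight x + C) :
    ∃ (Θ : MvPolynomial ι k) (d : ℕ), Θ.IsHomogeneous d ∧ Θ ∉ I ∧
      ∀ S : Finset (FinitePlace k), ∃ C : ℝ, ∀ (x : ι → k) (t : k), x ≠ 0 →
        (∀ P ∈ I, eval x P = 0) → eval x Θ ≠ 0 → ∑ j, eval x (ρ j) * t ^ (j : ℕ) = 0 →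
        (∀ w ∉ S, w t ≤ nm w.1 x ^ l) → logHeight x ≤ C := by
  obtain ⟨Θ, d, h1, h2, h3⟩ := H (1 / 2) one_half_pos
  refine ⟨Θ, d, h1, h2, fun S => (h3 S).elim fun C h => ⟨2 * C, fun x t hx hz h0 ht hw => ?_⟩⟩
  have h4 := h x t hx hz h0 ht
  rw [finsum_mem_eq_zero_of_forall_eq_zero (s := (S : Set (FinitePlace k))ᶜ)
    (f := fun w => Real.posLog (w t / nm w.1 x ^ l)) fun w hS => (Real.posLog_eq_zero_iff _).2
    ((abs_of_nonneg (div_nonneg (w.1.nonneg t) (pow_pos (nm_pos w.1 hx) l).le)).trans_le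
      (div_le_one_of_le₀ (hw w hS) (pow_pos (nm_pos w.1 hx) l).le))] at h4
  have h5 : (1 : ℝ) ≤ a := by exact_mod_cast ha
  nlinarith [logHeight_nonneg x]

/-- A set of points of bounded height off a hypersurface lies on a hypersurface. -/
theorem degenerate_of (A : AV k ι) {Ω G : Type} [Field Ω] [Algebra k Ω] [Nontrivial G]
    {co : G → ι → Ω} (h0 : ∀ p, co p ≠ 0) (hz : ∀ p, ∀ P ∈ A.I, aeval (co p) P = 0)
    (hs : ∀ v : ι → Ω, v ≠ 0 → (∀ P ∈ A.I, aeval v P = 0) → ∃! p, ∃ c : Ω, v = c • co p)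
    {Θ : MvPolynomial ι k} {d : ℕ} (h1 : Θ.IsHomogeneous d) (h2 : Θ ∉ A.I) (W : ℝ) :
    ∃ (Θ' : MvPolynomial ι k) (d' : ℕ), Θ'.IsHomogeneous d' ∧ Θ' ∉ A.I ∧
      ∀ x : ι → k, x ≠ 0 → (∀ P ∈ A.I, eval x P = 0) → (eval x Θ ≠ 0 → logHeight x ≤ W) →
        eval x Θ' = 0 := by
  classical
  have hp := A.isPrime
  have key : ∀ Q : A.Pt k, ∃ L : MvPolynomial ι k, L.IsHomogeneous 1 ∧ L ∉ A.I ∧
      eval Q.co L = 0 := fun Q => by
    by_contra! h
    obtain ⟨b, hb⟩ := (AV.rep_co Q).unit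
    have h3 : ∀ p a, algebraMap k Ω (Q.co b) * co p a = algebraMap k Ω (Q.co a) * co p b :=
      fun p a => by
        have := hz p (C (Q.co b) * X a - C (Q.co a) * X b) (not_not.1 fun h4 => h _
          (((isHomogeneous_X k a).C_mul _).sub ((isHomogeneous_X k b).C_mul _)) h4
          (by simp [mul_comm]))
        simpa [sub_eq_zero] using this
    have h4 : algebraMap k Ω (Q.co b) ≠ 0 := by simpa using hb.ne_zero
    have h5 : ∀ p, co p b ≠ 0 := fun p h6 => h0 p (funext fun a => by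
      simpa [h6, h4] using h3 p a)
    obtain ⟨p, p', h6⟩ := exists_pair_ne G
    refine h6 ((hs (co p) (h0 p) (hz p)).unique ⟨1, (one_smul _ _).symm⟩
      ⟨co p b / co p' b, funext fun a => mul_left_cancel₀ h4 ?_⟩)
    have := h5 p'
    rw [Pi.smul_apply, smul_eq_mul, h3 p a, mul_left_comm, h3 p' a]
    field_simp
  choose L g1 g2 g3 using key
  have hf := A.finite_ht_le (K := k) W
  refine ⟨Θ * ∏ Q ∈ hf.toFinset, L Q, _, h1.mul (IsHomogeneous.prod _ _ (fun _ => 1)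
    fun Q _ => g1 Q), fun h => (hp.mem_or_mem h).elim h2 fun h => ?_, fun x hx hI h => ?_⟩
  · obtain ⟨Q, -, h⟩ := (Ideal.IsPrime.prod_mem_iff (hp := hp)).1 h
    exact g2 Q h
  rw [map_mul, mul_eq_zero, or_iff_not_imp_left]
  intro h3
  obtain ⟨Q, u, hu⟩ := AV.exists_rep_of_ne (A := A) hx (by simpa only [aeval_eq_eval] using hI)
  obtain rfl : x = fun a => u * Q.co a := funext hu
  have h4 := h h3
  rw [logHeight_mul_left u.ne_zero] at h4
  rw [map_prod]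
  exact Finset.prod_eq_zero (hf.mem_toFinset.2 h4) (by rw [eval_mul_of_hom (g1 Q), g3, mul_zero])

end Pool.Agent.Lib.MP_651af7_nt.Sh
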