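import Pool.Agent.Lib.MP_651af7_nt.Sh.ACore
import Pool.Agent.Lib.MP_651af7_nt.Sh.AExt
import Pool.Agent.Lib.MP_651af7_nt.Sh.OSim

/-! Algebraic roots: coefficients without a common divisor, integral roots. -/

namespace Pool.Agent.Lib.MP_651af7_nt.Sh

open MvPolynomial Height NumberField
open Pool.Agent.Lib.MP_651af7_nt.Av Pool.Agent.Lib.MP_651af7_nt.Vj Pool.Agent.Lib.MP_8865d3_nt.Sv

variable {k ι : Type} [Field k] [NumberField k] [Fintype ι] {e a l : ℕ}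

theorem finalG (A : AV k ι) {ρ : Fin (e + 2) → MvPolynomial ι k}
    (hρ : ∀ j : Fin (e + 2), (ρ j).IsHomogeneous (a + (e + 1 - j) * l))
    (h0 : ρ 0 ∉ A.I) (h1 : ρ (Fin.last _) ∉ A.I) (hG : ∀ L : MvPolynomial ι k, L.IsHomogeneous 1 →
      L ∉ A.I → Gm A fun j => ρ j * L ^ (l * j)) {ε : ℝ} (hε : 0 < ε) :
    ∃ (Θ : MvPolynomial ι k) (d : ℕ), Θ.IsHomogeneous d ∧ Θ ∉ A.I ∧
      ∀ T : Finset (AbsoluteValue k ℝ), ∃ C : ℝ, ∀ (x : ι → k) (g : Polynomial k), x ≠ 0 →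
        (∀ f ∈ A.I, eval x f = 0) → eval x Θ ≠ 0 → eval x (ρ (Fin.last _)) ≠ 0 ∧ (g.Monic →
          g ∣ fx ρ x → |g.natDegree * a * logHeight x - osum T (locA a l ρ x g)| ≤
            ε * logHeight x + C) :=
  finalB A hρ h0 h1 (fun L hL hL' => coreA_of (μ := a + (e + 1) * l) (fun j => by
      have h : a + (e + 1 - j) * l + 1 * (l * j) = a + (e + 1) * l := by
        rw [one_mul, add_assoc, mul_comm l, ← add_mul, Nat.sub_add_cancel (Nat.lt_succ_iff.1 j.2)]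
      exact h ▸ (hρ j).mul (hL.pow (l * j)))
    (fun h => (A.isPrime.mem_or_mem h).elim h1 fun h => hL' (A.isPrime.mem_of_pow_mem _ h))
    (hG L hL hL')) hε

theorem coprimeA_of (A : AV k ι) (ha : 0 < a) {ρ : Fin (e + 1) → MvPolynomial ι k}
    (hρ : ∀ j, (ρ j).IsHomogeneous (a + (e - j) * l))
    (hc : 2 ≤ ((Ideal.span (Set.range ρ)).map (Ideal.Quotient.mk A.I)).height)
    (H : ∀ ε : ℝ, 0 < ε → ∃ (Θ : MvPolynomial ι k) (d : ℕ), Θ.IsHomogeneous d ∧ Θ ∉ A.I ∧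
      ∀ S : Finset (FinitePlace k), ∃ C : ℝ, ∀ (K : Type) [Field K] [NumberField K] [Algebra k K]
        (x : ι → k) (t : K), x ≠ 0 → (∀ P ∈ A.I, eval x P = 0) → eval x Θ ≠ 0 →
        ∑ j, eval x (ρ j) • t ^ (j : ℕ) = 0 →
        |a * logHeight x - (∑ᶠ W ∈ {W : FinitePlace K |
            ∀ w ∈ S, ¬W.maximalIdeal.asIdeal.LiesOver w.maximalIdeal.asIdeal},
          (e * Real.posLog (W.1 t / nm W.1 (fun i => algebraMap k K (x i)) ^ l) -
            Real.log (⨆ j, W.1 (algebraMap k K (eval x (ρ j))) /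
              nm W.1 (fun i => algebraMap k K (x i)) ^ (a + (e - j) * l)))) /
          Module.finrank k K| ≤ ε * logHeight x + C) {ε : ℝ} (hε : 0 < ε) :
    ∃ (Θ : MvPolynomial ι k) (d : ℕ), Θ.IsHomogeneous d ∧ Θ ∉ A.I ∧
      ∀ S : Finset (FinitePlace k), ∃ C : ℝ, ∀ (K : Type) [Field K] [NumberField K] [Algebra k K]
        (x : ι → k) (t : K), x ≠ 0 → (∀ P ∈ A.I, eval x P = 0) → eval x Θ ≠ 0 →
        ∑ j, eval x (ρ j) • t ^ (j : ℕ) = 0 →
        |a * logHeight x - e * ((∑ᶠ W ∈ {W : FinitePlace K |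
            ∀ w ∈ S, ¬W.maximalIdeal.asIdeal.LiesOver w.maximalIdeal.asIdeal},
          Real.posLog (W.1 t / nm W.1 (fun i => algebraMap k K (x i)) ^ l)) /
          Module.finrank k K)| ≤ ε * logHeight x + C := by
  have hp := A.isPrime
  obtain ⟨Θ, d, h1, h2, h3⟩ := H _ (half_pos hε)
  obtain ⟨Θ', d', C', h4, h5, h6⟩ := gcd_term A ha hρ hc (half_pos hε)
  obtain ⟨c, h, hA, hl⟩ := exists_ad_fam ρ
  refine ⟨Θ * Θ', _, h1.mul h4, fun h => (hp.mem_or_mem h).elim h2 h5, fun S => ?_⟩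
  obtain ⟨C, h3⟩ := h3 S
  refine ⟨C + |C'| + h, fun K _ _ _ x t hx hz h0 ht => ?_⟩
  rw [map_mul, mul_ne_zero_iff] at h0
  obtain ⟨f2, h7⟩ := h6 (Cn.plc S) x hx hz h0.2
  have h8 := h3 K x t hx hz h0.1 ht
  have h9 := osum_mono (Cn.plc S) f2 hA.fin fun w _ _ => by
    have pN := fun m => pow_pos (nm_pos w hx) m
    rcases (Real.iSup_nonneg fun j : Fin (e + 1) => div_nonneg (w.nonneg (eval x (ρ j)))
      (pN (a + (e - j) * l)).le).eq_or_lt with g | g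
    · exact g ▸ Real.log_zero.trans_le (Real.log_nonneg (hA.one w))
    · exact Real.log_le_log g (ciSup_le fun j => (div_le_iff₀ (pN _)).2
        ((Cn.sloc_eval_le (hρ j) x w).trans (mul_le_mul_of_nonneg_right (hl w j) (pN _).le)))
  rw [split_avg S l hx t _ f2, abs_le] at h8
  rw [not_above, ← avg, abs_le]
  have := mul_nonneg hε.le (logHeight_nonneg x)
  constructor <;> linarith [ad_osum_le hA (Cn.plc S), le_abs_self C', abs_nonneg C', hA.nonneg]

theorem integralA_of {K : Type} [Field K] [NumberField K] [Algebra k K] (ha : 0 < a) {x : ι → k}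
    (hx : x ≠ 0) {t : K} {T : Set (FinitePlace K)} {C : ℝ}
    (H : |a * logHeight x - e * ((∑ᶠ W ∈ T,
      Real.posLog (W.1 t / nm W.1 (fun i => algebraMap k K (x i)) ^ l)) / Module.finrank k K)| ≤
      1 / 2 * logHeight x + C)
    (hw : ∀ W ∈ T, W.1 t ≤ nm W.1 (fun i => algebraMap k K (x i)) ^ l) : logHeight x ≤ 2 * C := by
  rw [finsum_mem_eq_zero_of_forall_eq_zero fun W hW => (Real.posLog_eq_zero_iff _).2
    ((abs_of_nonneg (div_nonneg (W.1.nonneg t) (pow_pos (nm_pos W.1 (alg_ne hx)) l).le)).trans_le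
      (div_le_one_of_le₀ (hw W hW) (pow_pos (nm_pos W.1 (alg_ne hx)) l).le)), zero_div, mul_zero,
    sub_zero] at H
  have h5 : (1 : ℝ) ≤ a := by exact_mod_cast ha
  nlinarith [logHeight_nonneg x, le_abs_self (a * logHeight x)]

end Pool.Agent.Lib.MP_651af7_nt.Sh
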