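import Pool.Agent.Lib.MP_651af7_nt.Sh.OVoc

/-! Irreducibility over the function field of the cone gives minimality. -/

namespace Pool.Agent.Lib.MP_651af7_nt.Sh

open MvPolynomial
open Pool.Agent.Lib.MP_651af7_nt.Av Pool.Agent.Lib.MP_651af7_nt.Av.AV

variable {k ι : Type} [Field k] {e a l : ℕ} {ρ : Fin (e + 2) → MvPolynomial ι k}

theorem oirr_emb {F : Type} [Field F] [Algebra k F] (v : ι → F) :
    ∃ (Ω : Type) (_ : Field Ω) (χ : FractionRing (MvPolynomial ι k ⧸ idl k v) →+* Ω)
      (i : F →+* Ω) (s : Ω), s ≠ 0 ∧ ∀ (P : MvPolynomial ι k) (n : ℕ), P.IsHomogeneous n →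
        χ (algebraMap (MvPolynomial ι k) _ P) = s ^ n * i (aeval v P) := by
  have := idl_prime k v
  let φ : MvPolynomial ι k →ₐ[k] Polynomial F := aeval fun a => Polynomial.C (v a) * Polynomial.X
  let Ω := FractionRing (Polynomial F)
  let ψ : MvPolynomial ι k ⧸ idl k v →+* Ω :=
    (algebraMap (Polynomial F) Ω).comp (Ideal.Quotient.lift _ φ.toRingHom fun _ h => h)
  have hψ : Function.Injective ψ := (IsFractionRing.injective (Polynomial F) Ω).comp
    (RingHom.lift_injective_of_ker_le_ideal (idl k v) (f := φ.toRingHom) (fun _ h => h)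
      fun _ h => h)
  refine ⟨Ω, inferInstance, IsFractionRing.lift hψ,
    (algebraMap (Polynomial F) Ω).comp Polynomial.C, algebraMap (Polynomial F) Ω Polynomial.X,
    (map_ne_zero_iff _ (IsFractionRing.injective (Polynomial F) Ω)).2 Polynomial.X_ne_zero,
    fun P n hP => ?_⟩
  rw [IsScalarTower.algebraMap_apply (MvPolynomial ι k) (MvPolynomial ι k ⧸ idl k v),
    IsFractionRing.lift_algebraMap]
  have h1 : φ P = Polynomial.X ^ n * Polynomial.C (aeval v P) := by
    have h2 := aeval_mul_of_hom hP (Polynomial.X : Polynomial F) fun a => Polynomial.C (v a)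
    have h3 := aeval_hom ((Polynomial.CAlgHom : F →ₐ[F] Polynomial F).restrictScalars k) v P
    simp only [AlgHom.restrictScalars_apply, Polynomial.CAlgHom_apply] at h3
    simp only [φ, mul_comm _ Polynomial.X]
    rw [h2, ← h3]
  change algebraMap (Polynomial F) Ω (φ P) = _
  rw [h1, map_mul, map_pow]
  rfl

theorem oirr_coeff {N : ℕ} (σ : Fin N → MvPolynomial ι k) (q : Ideal (MvPolynomial ι k))
    (j : Fin N) : (fq σ q).coeff j = algebraMap (MvPolynomial ι k) _ (σ j) := by
  simp only [fq, Polynomial.finsetSum_coeff, Polynomial.coeff_monomial, Fin.val_inj,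
    Finset.sum_ite_eq', Finset.mem_univ, if_true]

/-- Embed `FractionRing (k[X] / idl k v)` in `FractionRing (Polynomial F)` by `X ↦ v * s`. If `t`
is a root of the twisted equation at `v`, then `t * (L (v) * s) ^ l` is a root of `fq ρ _` and of
`∑ j, τ j * L ^ (l * (e - j)) * T ^ j`, of smaller degree. -/
theorem min_of_irr (hρ : ∀ j : Fin (e + 2), (ρ j).IsHomogeneous (a + (e + 1 - j) * l))
    {L : MvPolynomial ι k} (hL : L.IsHomogeneous 1) {F : Type} [Field F] [Algebra k F] {v : ι → F}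
    (h0 : aeval v L ≠ 0) (h1 : aeval v (ρ (Fin.last _)) ≠ 0) (h : Irreducible (fq ρ (idl k v))) :
    Min (fun j => ρ j * L ^ (l * j)) v := by
  intro t ht τ d hτ hz
  have := idl_prime k v
  obtain ⟨Ω, _, χ, i, s, hs, hχ⟩ := oirr_emb (k := k) v
  set u : Ω := s * i (aeval v L) with hu
  have hu0 : u ≠ 0 := mul_ne_zero hs ((map_ne_zero i).2 h0)
  let σ : Fin (e + 1) → MvPolynomial ι k := fun j => τ j * L ^ (l * (e - j))
  have hσ : ∀ j, χ (algebraMap (MvPolynomial ι k) _ (σ j)) =
      s ^ d * i (aeval v (τ j)) * u ^ (l * (e - j)) := fun j => by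
    simp only [σ, map_mul, map_pow, hχ _ _ (hτ j), hχ _ _ hL, pow_one, hu]
  have e1 : (fq ρ (idl k v)).eval₂ χ (i t * u ^ l) = 0 := by
    have h2 := congrArg (fun z => s ^ (a + (e + 1) * l) * i z) ht
    simp only [map_zero, mul_zero, map_sum, Finset.mul_sum, map_mul, map_pow] at h2
    rw [fq, Polynomial.eval₂_finsetSum, ← h2]
    refine Finset.sum_congr rfl fun j _ => ?_
    obtain ⟨c, hc⟩ := Nat.exists_eq_add_of_le (Nat.lt_succ_iff.1 j.2)
    rw [Polynomial.eval₂_monomial, hχ _ _ (hρ j), hu, hc, Nat.add_sub_cancel_left]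
    ring
  have e2 : (fq σ (idl k v)).eval₂ χ (i t * u ^ l) = 0 := by
    have h2 := congrArg (fun z => s ^ d * u ^ (l * e) * i z) hz
    simp only [map_zero, mul_zero, map_sum, Finset.mul_sum, map_mul, map_pow] at h2
    rw [fq, Polynomial.eval₂_finsetSum, ← h2]
    refine Finset.sum_congr rfl fun j _ => ?_
    have h3 : u ^ (l * e) = u ^ (l * (e - j)) * (u ^ l) ^ (j : ℕ) := by
      rw [← pow_mul, ← pow_add, ← mul_add, Nat.sub_add_cancel (Nat.lt_succ_iff.1 j.2)]
    rw [Polynomial.eval₂_monomial, hσ, h3]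
    ring
  have e3 : fq σ (idl k v) = 0 := by
    by_contra hne
    by_cases hd : fq ρ (idl k v) ∣ fq σ (idl k v)
    · have h2 := Polynomial.natDegree_le_of_dvd hd hne
      have h3 : e + 1 ≤ (fq ρ (idl k v)).natDegree := Polynomial.le_natDegree_of_ne_zero (by
        have h4 := oirr_coeff ρ (idl k v) (Fin.last _)
        rw [Fin.val_last] at h4
        rw [h4, ← map_ne_zero χ, hχ _ _ (hρ _)]
        exact mul_ne_zero (pow_ne_zero _ hs) ((map_ne_zero i).2 h1))
      have h4 : (fq σ (idl k v)).natDegree ≤ e :=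
        Polynomial.natDegree_sum_le_of_forall_le _ _ fun j _ =>
          (Polynomial.natDegree_monomial_le _).trans (Nat.lt_succ_iff.1 j.2)
      omega
    · obtain ⟨p, r, hpr⟩ := h.coprime_iff_not_dvd.2 hd
      have h2 := congrArg (Polynomial.eval₂ χ (i t * u ^ l)) hpr
      rw [Polynomial.eval₂_add, Polynomial.eval₂_mul, Polynomial.eval₂_mul, e1, e2,
        Polynomial.eval₂_one, mul_zero, mul_zero, add_zero] at h2
      exact zero_ne_one h2
  intro j
  have h2 := hσ j
  rw [← oirr_coeff, e3, Polynomial.coeff_zero, map_zero] at h2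
  have h3 := (mul_eq_zero.1 h2.symm).resolve_right (pow_ne_zero _ hu0)
  exact (map_eq_zero i).1 ((mul_eq_zero.1 h3).resolve_left (pow_ne_zero _ hs))

end Pool.Agent.Lib.MP_651af7_nt.Sh
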