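import Pool.Agent.Lib.MP_651af7_nt.Sh.OIrr
import Pool.Agent.Lib.MP_651af7_nt.Cn.SCod

/-! The dictionary between geometric points and the group functors. -/

namespace Pool.Agent.Lib.MP_651af7_nt.Sh

open MvPolynomial
open Pool.Agent.Lib.MP_651af7_nt.Av Pool.Agent.Lib.MP_651af7_nt.Av.AV

variable {k ι : Type} [Field k] {A B : AV k ι} {F M : Type} [Field F] [Algebra k F] [Field M]
  [Algebra k M]

/-- The ideal of a generic point of a coset cuts out the coset. -/
theorem idl_cos (h : Sub A B) {a : A.Pt k} {b : B.Pt F} {v : ι → F} (hb : Gen B.I b.co)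
    (hv : Rep (h.inc F b + A.map (Algebra.ofId k F) a) v) {p : A.Pt M} {w : ι → M} (hp : Rep p w) :
    (∀ P ∈ idl k v, aeval w P = 0) ↔ p - A.map (Algebra.ofId k M) a ∈ (h.inc M).range := by
  have ha := (rep_co a).map (Algebra.ofId k M)
  refine ⟨fun hs => ?_, fun ⟨b', hb'⟩ => spec_iff_idl.1 fun f n hf h0 => ?_⟩
  · obtain ⟨c, d, hu⟩ := exists_unit_ph hp ha
    refine (h.mem_range_inc (rep_sub hp ha hu)).2 fun f hf => ?_
    rw [← sum_homogeneousComponent f, map_sum]
    refine Finset.sum_eq_zero fun n _ => ?_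
    have h1 := hs _ ((mem_idl_hom ((homogeneousComponent_isHomogeneous n f).aeval _
      fun b => ph_hom (A := A) a.co c b)).2 (by
        rw [A.geo_aeval_ph _ _ (fun _ => c) (fun b => b) _ v]
        simp only [aeval_C, aeval_X]
        exact Cn.cos_zero (K := k) h hv ⟨b, (add_sub_cancel_right _ _).symm⟩ (B.hom f hf n) c))
    rw [A.geo_aeval_ph _ _ (fun _ => c) (fun b => b) _ w] at h1
    simp only [aeval_C, aeval_X] at h1
    exact h1
  · obtain ⟨q, -, hq⟩ := exists_ph_eq (h.rep_inc (rep_co b)) ((rep_co a).map (Algebra.ofId k F)) hv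
    obtain ⟨q', ⟨c, hc⟩, hq'⟩ := (exists_ph_eq (h.rep_inc (rep_co b')) ha (s := w)
      (by rwa [hb', sub_add_cancel])).imp fun _ h => And.intro h.1.unit h.2
    have h1 := (rep_co b').zero _ (hb _ _ (shift_hom (A := A) a.co hf c) (by
      rw [aeval_shift]
      refine (congrArg (fun z => aeval z f) (funext fun d => hq d c)).trans ?_
      rw [aeval_mul_of_hom hf, h0, mul_zero]))
    rw [aeval_shift] at h1
    have h2 := (congrArg (fun z => aeval z f) (funext fun d => hq' d c)).symm.trans h1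
    rw [aeval_mul_of_hom hf] at h2
    exact (hc.pow _).mul_right_eq_zero.1 h2

theorem gm_of {e a l : ℕ} {ρ : Fin (e + 2) → MvPolynomial ι k} {G : Type} [AddCommGroup G]
    {co : G → ι → M} (ψ : G ≃+ A.Pt M) (hψ : ∀ x, Rep (ψ x) (co x))
    (hρ : ∀ j : Fin (e + 2), (ρ j).IsHomogeneous (a + (e + 1 - j) * l)) (h1 : ρ (Fin.last _) ∉ A.I)
    (hG : ∀ B : AddSubgroup G, (B : Set G).Finite ∨
      ∃ (Θ : MvPolynomial ι k) (d : ℕ), Θ.IsHomogeneous d ∧ Θ ∉ A.I ∧
        ∀ (q : Ideal (MvPolynomial ι k)) (c : G), q.IsPrime →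
          (∀ P ∈ q, ∀ d, homogeneousComponent d P ∈ q) → A.I ≤ q → Θ ∉ q →
          (∀ p, (∀ P ∈ q, aeval (co p) P = 0) ↔ p - c ∈ B) → Irreducible (fq ρ q))
    {L : MvPolynomial ι k} (hL : L.IsHomogeneous 1) (hL' : L ∉ A.I) :
    Gm A fun j => ρ j * L ^ (l * j) := by
  intro B h hB
  have hp := A.isPrime
  obtain ⟨Θ, d, a1, a2, a3⟩ := (hG ((h.inc M).range.comap ψ.toAddMonoidHom)).resolve_left
    (Set.infinite_of_injective_forall_mem
      (f := fun b : B.Pt k => ψ.symm (h.inc M (B.map (Algebra.ofId k M) b)))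
      (ψ.symm.injective.comp (h.inc_injective.comp (map_injective (Algebra.ofId k M).injective)))
      fun b => ⟨_, (ψ.apply_symm_apply _).symm⟩)
  refine ⟨Θ * ρ (Fin.last _) * L, _, (a1.mul (hρ _)).mul hL, fun hm => ?_,
    fun c F _ _ b v hb hv h0 => ?_⟩
  · simp only [hp.mul_mem_iff_mem_or_mem, a2, h1, hL', or_self] at hm
  simp only [map_mul, mul_ne_zero_iff] at h0
  refine min_of_irr hρ hL h0.2 h0.1.2 (a3 _ (ψ.symm (A.map (Algebra.ofId k M) c)) (idl_prime k v)
    (idl_hom v) (fun f hf => mem_idl.2 fun n => hv.zero _ (A.hom f hf n))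
    (fun h2 => h0.1.1 ((mem_idl_hom a1).1 h2)) fun p => ?_)
  rw [idl_cos h hb hv (hψ p), AddSubgroup.mem_comap, AddEquiv.coe_toAddMonoidHom, map_sub,
    AddEquiv.apply_symm_apply]

end Pool.Agent.Lib.MP_651af7_nt.Sh
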