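import Pool.Agent.Lib.MP_651af7_nt.Sh.ASim

/-! Approximation of a fixed number by the roots of the fibre equations. -/

namespace Pool.Agent.Lib.MP_651af7_nt.Sh

open MvPolynomial Height NumberField
open Pool.Agent.Lib.MP_651af7_nt.Av Pool.Agent.Lib.MP_651af7_nt.Vj Pool.Agent.Lib.MP_8865d3_nt.Sv
open Pool.Agent.Lib.MP_8865d3_nt.Gm (und ldeg)

theorem px_pow {K : Type} [Field K] (W : AbsoluteValue K ℝ) {a b : K} {M : ℝ} (h1 : 1 ≤ M)
    (ha : W a ≤ M) (hb : W b ≤ M) (j : ℕ) : W (a ^ j - b ^ j) ≤ j * W (a - b) * M ^ j := by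
  induction j with
  | zero => simp
  | succ j ih =>
    have h2 : a ^ (j + 1) - b ^ (j + 1) = a * (a ^ j - b ^ j) + (a - b) * b ^ j := by ring
    have h3 : W b ^ j ≤ M ^ (j + 1) :=
      (pow_le_pow_left₀ (W.nonneg _) hb j).trans (pow_le_pow_right₀ h1 j.le_succ)
    have h4 := mul_le_mul ha ih (W.nonneg _) (zero_le_one.trans h1)
    have h5 := mul_le_mul_of_nonneg_left h3 (W.nonneg (a - b))
    rw [h2]
    refine (W.add_le _ _).trans ?_
    rw [map_mul, map_mul, map_pow, Nat.cast_succ]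
    refine (add_le_add h4 h5).trans_eq ?_
    ring

variable {k K ι : Type} [Field k] [Field K] [Algebra k K] [Fintype ι] {e : ℕ}

theorem px_loc {w : AbsoluteValue k ℝ} {W : AbsoluteValue K ℝ} {m : ℕ} (hm : m ≠ 0)
    (h : ∀ y, W (algebraMap k K y) = w y ^ m) {c : Fin (e + 1) → k} {t : K}
    (ht : ∑ j, c j • t ^ (j : ℕ) = 0) {β : k} (h0 : ∑ j, c j * β ^ (j : ℕ) ≠ 0) {R : ℝ}
    (hR : ∀ j, w (c j) ≤ R) : Real.posLog (W (t - algebraMap k K β)⁻¹) ≤
      m * Real.posLog ((e + 1) ^ 2 * (w β + 1) ^ e * (R / w (∑ j, c j * β ^ (j : ℕ)))) := by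
  rw [← Real.posLog_pow]
  rcases le_total 1 (W (t - algebraMap k K β)) with g | g
  · rw [(Real.posLog_eq_zero_iff _).2 ((abs_of_nonneg (W.nonneg _)).trans_le (by
      rw [map_inv₀]
      exact inv_le_one_of_one_le₀ g))]
    exact Real.posLog_nonneg
  have R0 := (w.nonneg _).trans (hR 0)
  have p0 := w.pos h0
  have w0 := w.nonneg β
  have h1 : W (algebraMap k K β) + 1 ≤ (w β + 1) ^ m := by
    simpa only [h, one_pow] using pow_add_pow_le w0 zero_le_one hm
  have h2 : 1 ≤ (w β + 1) ^ m := one_le_pow₀ (by linarith)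
  have h3 : W t ≤ (w β + 1) ^ m := by
    have := W.add_le (t - algebraMap k K β) (algebraMap k K β)
    rw [sub_add_cancel] at this
    linarith
  have h4 : w (∑ j, c j * β ^ (j : ℕ)) ^ m ≤
      W (t - algebraMap k K β) * ((e + 1) ^ 2 * (w β + 1) ^ e * R) ^ m := by
    have h5 : algebraMap k K (∑ j, c j * β ^ (j : ℕ)) =
        -∑ j, algebraMap k K (c j) * (t ^ (j : ℕ) - algebraMap k K β ^ (j : ℕ)) := by
      simp only [mul_sub, Finset.sum_sub_distrib, ← Algebra.smul_def _ (t ^ _), ht, map_sum,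
        map_mul, map_pow, zero_sub, neg_neg]
    have h6 : ((e : ℝ) + 1) ^ 2 ≤ ((e + 1) ^ 2) ^ m :=
      le_self_pow₀ (one_le_pow₀ (by linarith [e.cast_nonneg (α := ℝ)])) hm
    rw [← h, h5, W.map_neg]
    refine (W.sum_le _ _).trans ((Finset.sum_le_card_nsmul _ _
      (R ^ m * ((e + 1) * W (t - algebraMap k K β) * ((w β + 1) ^ m) ^ e)) fun j _ => ?_).trans ?_)
    · have h7 : ((j : ℕ) : ℝ) ≤ e + 1 := by exact_mod_cast j.2.le
      rw [map_mul, h]
      refine mul_le_mul (pow_le_pow_left₀ (w.nonneg _) (hR j) m)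
        ((px_pow W h2 h3 (by linarith) j).trans ?_) (W.nonneg _) (by positivity)
      have := pow_le_pow_right₀ h2 (Nat.lt_succ_iff.1 j.2)
      gcongr
    · rw [Finset.card_univ, Fintype.card_fin, nsmul_eq_mul, mul_pow, mul_pow, ← pow_mul (w β + 1),
        ← pow_mul (w β + 1), mul_comm e m]
      push_cast
      calc _ = W (t - algebraMap k K β) * (((e : ℝ) + 1) ^ 2 * (w β + 1) ^ (m * e) * R ^ m) := by
            ring
        _ ≤ _ := by gcongr
  refine Real.posLog_le_posLog (W.nonneg _) ?_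
  rcases (W.nonneg (t - algebraMap k K β)).eq_or_lt with g' | g'
  · rw [map_inv₀, ← g', inv_zero]
    positivity
  rw [map_inv₀, ← mul_div_assoc, div_pow, le_div_iff₀ (pow_pos p0 m), inv_mul_le_iff₀ g']
  exact h4

variable [NumberField k]

/-- The proximity of the roots to a number of `k`, by the theorem of Faltings. -/
theorem prox_root (A : AV k ι) {a : ℕ} {ρ : Fin (e + 1) → MvPolynomial ι k}
    (hρ : ∀ j, (ρ j).IsHomogeneous a) (β : k) (S : Finset (FinitePlace k)) {ε : ℝ} (hε : 0 < ε) :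
    ∃ C : ℝ, ∀ (K : Type) [Field K] [NumberField K] [Algebra k K] (x : ι → k) (t : K), x ≠ 0 →
      (∀ P ∈ A.I, eval x P = 0) → ∑ j, eval x (ρ j) * β ^ (j : ℕ) ≠ 0 →
      ∑ j, eval x (ρ j) • t ^ (j : ℕ) = 0 → logHeight₁ (t - algebraMap k K β)⁻¹ -
        ∑ᶠ W ∈ {W : FinitePlace K | ∀ w ∈ S,
          ¬W.maximalIdeal.asIdeal.LiesOver w.maximalIdeal.asIdeal},
          Real.posLog (W.1 (t - algebraMap k K β)⁻¹) ≤
        Module.finrank k K * (ε * logHeight x + C) := by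
  classical
  obtain ⟨N, hN⟩ : ∃ N : ℝ, N = (Module.finrank ℚ k + S.card : ℕ) := ⟨_, rfl⟩
  have N0 : 0 ≤ N := hN ▸ Nat.cast_nonneg _
  have hF : (∑ j, ρ j * C (β ^ (j : ℕ))).IsHomogeneous a :=
    IsHomogeneous.sum _ _ _ fun j _ => (hρ j).mul (isHomogeneous_C _ _)
  obtain ⟨s, -, hs, hl⟩ := exists_ad_fam ρ
  choose! c hc using fun (w : AbsoluteValue k ℝ) (hw : Adm w) =>
    A.prox_part hF hw (show 0 < ε / (N + 1) by positivity)
  obtain ⟨D, hD⟩ : ∃ D, D = ∑ w ∈ Cn.plc S,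
    (Real.posLog ((e + 1) ^ 2 * (w β + 1) ^ e * s w) + |c w|) := ⟨_, rfl⟩
  have D0 : 0 ≤ D := hD ▸ Finset.sum_nonneg fun w _ => add_nonneg Real.posLog_nonneg (abs_nonneg _)
  refine ⟨N * D, fun K _ _ _ x t hx hz h0 ht => ?_⟩
  have e0 := mul_nonneg (show 0 ≤ ε / (N + 1) by positivity) (logHeight_nonneg x)
  have key : ∀ (W : AbsoluteValue K ℝ) (w : AbsoluteValue k ℝ) (m : ℕ), Adm w → w ∈ Cn.plc S →
      m ≠ 0 → (∀ y, W (algebraMap k K y) = w y ^ m) → Real.posLog (W (t - algebraMap k K β)⁻¹) ≤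
        m * (ε / (N + 1) * logHeight x + D) := fun W w m h1 h2 hm h => by
    refine (px_loc hm h ht h0 fun j => (Cn.sloc_eval_le (hρ j) x w).trans
      (mul_le_mul_of_nonneg_right (hl w j) (pow_nonneg (nm_nn w x) _))).trans
      (mul_le_mul_of_nonneg_left ?_ m.cast_nonneg)
    have h3 := hc w h1 x hx hz (by simpa using h0)
    have h4 := Finset.single_le_sum (f := fun w : AbsoluteValue k ℝ =>
      Real.posLog ((e + 1) ^ 2 * (w β + 1) ^ e * s w) + |c w|)
      (fun w _ => add_nonneg Real.posLog_nonneg (abs_nonneg _)) h2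
    simp only [map_sum, map_mul, eval_C] at h3
    rw [mul_div_assoc, ← mul_assoc]
    refine Real.posLog_mul.trans ?_
    have h5 : Real.posLog (nm w x ^ a / w (∑ j, eval x (ρ j) * β ^ (j : ℕ))) ≤
        ε / (N + 1) * logHeight x + |c w| :=
      max_le (add_nonneg e0 (abs_nonneg _)) (h3.trans (add_le_add le_rfl (le_abs_self _)))
    linarith
  choose G hG hs' using fib_sum (k := k) K
  have h1 : {W : FinitePlace K | und k W ∈ (S : Set (FinitePlace k))ᶜ} =
      (S.biUnion G : Set (FinitePlace K))ᶜ := Set.ext fun W => by simp [hG]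
  have h2 : (fun W : AbsoluteValue K ℝ => Real.posLog (W (t - algebraMap k K β)⁻¹)) =
      fun W => Real.log (max (W (t - algebraMap k K β)⁻¹) 1) := funext fun W => by
    rw [max_comm, Real.posLog_eq_log_max_one (W.nonneg _)]
  have h3 := isum_add_osum (Cn.plc (S.biUnion G)) (finS_max (t - algebraMap k K β)⁻¹)
  rw [gsum_max, ← h2, Cn.osum_plc, Cn.isum_plc, Finset.sum_biUnion fun v _ v' _ h =>
    Finset.disjoint_left.2 fun w h1 h2 => h (((hG _ _).1 h1).symm.trans ((hG _ _).1 h2))] at h3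
  have h4 := Finset.sum_le_sum fun (W : InfinitePlace K) (_ : W ∈ Finset.univ) =>
    mul_le_mul_of_nonneg_left (key W.1 (W.comap (algebraMap k K)).1 1
      (Or.inl (mem_multisetInfinitePlace.2 (W.comap (algebraMap k K)).isInfinitePlace))
      (Cn.mem_plc_inf S _) one_ne_zero fun y => (pow_one _).symm) (W.mult.cast_nonneg (α := ℝ))
  have h5 := Finset.sum_le_sum fun w (hw : w ∈ S) => Finset.sum_le_sum fun W (hW : W ∈ G w) =>
    key W.1 w.1 _ (Or.inr w.2) (Cn.mem_plc_fin.2 hw) (ldeg_ne (k := k) W) fun y =>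
      (hG _ _).1 hW ▸ pow_und W y
  have : Module.Finite k K := Module.Finite.of_restrictScalars_finite ℚ k K
  simp only [← Finset.sum_mul, ← Nat.cast_sum, hs', InfinitePlace.sum_mult_eq, Finset.sum_const,
    smul_eq_mul, ← Module.finrank_mul_finrank ℚ k K] at h4 h5
  have h6 : N * (ε / (N + 1) * logHeight x) ≤ ε * logHeight x := by
    rw [← mul_assoc]
    refine mul_le_mul_of_nonneg_right ?_ (logHeight_nonneg x)
    rw [mul_div_assoc', div_le_iff₀ (by positivity)]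
    linarith
  have h7 := mul_le_mul_of_nonneg_left h6 (Nat.cast_nonneg (α := ℝ) (Module.finrank k K))
  rw [not_above, h1, ← h3, add_sub_cancel_right]
  refine (add_le_add h4 h5).trans ?_
  subst hN
  push_cast at h7 ⊢
  linarith

theorem cnt_le {K : Type} [Field K] [NumberField K] (T : Set (FinitePlace K)) (t : K) :
    ∑ᶠ W ∈ T, Real.posLog (W.1 t) ≤ logHeight₁ t := by
  have h1 : ∀ W : AbsoluteValue K ℝ, Real.log (max (W t) 1) = Real.posLog (W t) := fun W => by
    rw [max_comm, Real.posLog_eq_log_max_one (W.nonneg _)]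
  have h2 : (Function.support fun W : FinitePlace K => Real.log (max (W.1 t) 1)).Finite :=
    finS_max t
  simp only [h1] at h2
  rw [← gsum_max, Cn.gsum_eq, finsum_mem_def]
  simp only [h1]
  exact le_add_of_nonneg_of_le (Finset.sum_nonneg fun W _ =>
    mul_nonneg W.mult.cast_nonneg Real.posLog_nonneg) (finsum_le_finsum'
      (h2.subset (Set.support_indicator.le.trans Set.inter_subset_right)) h2
      (Set.indicator_le_self' fun _ _ => Real.posLog_nonneg))

/-- The inequality on the line for the roots of the fibre equations. -/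
theorem line_of (A : AV k ι) {a : ℕ} (ha : 0 < a) {ρ : Fin (e + 1) → MvPolynomial ι k}
    (hρ : ∀ j, (ρ j).IsHomogeneous a) (D : Finset k)
    (hD : ∀ β ∈ D, ∑ j, ρ j * C (β ^ (j : ℕ)) ∉ A.I) {Θ : MvPolynomial ι k} {d : ℕ}
    (h1 : Θ.IsHomogeneous d) (h2 : Θ ∉ A.I) {C₀ : ℝ} {ε : ℝ} (hε : 0 < ε) :
    ∃ (Θ' : MvPolynomial ι k) (d : ℕ), Θ'.IsHomogeneous d ∧ Θ' ∉ A.I ∧
      ∀ S : Finset (FinitePlace k), ∃ C : ℝ, ∀ (K : Type) [Field K] [NumberField K] [Algebra k K]
        (x : ι → k) (t : K) (T : Set (FinitePlace K)), x ≠ 0 → (∀ P ∈ A.I, eval x P = 0) →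
        eval x Θ' ≠ 0 → ∑ j, eval x (ρ j) • t ^ (j : ℕ) = 0 → (eval x Θ ≠ 0 →
          |a * logHeight x - e * ((∑ᶠ W ∈ T, Real.posLog (W.1 t)) / Module.finrank k K)| ≤
            1 / 2 * logHeight x + C₀) →
        ∑ β ∈ D, (logHeight₁ (t - algebraMap k K β)⁻¹ - ∑ᶠ W ∈ {W : FinitePlace K | ∀ w ∈ S,
          ¬W.maximalIdeal.asIdeal.LiesOver w.maximalIdeal.asIdeal},
          Real.posLog (W.1 (t - algebraMap k K β)⁻¹)) ≤
        ε * logHeight₁ t + Module.finrank k K * C := by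
  have hp := A.isPrime
  obtain ⟨δ, h3, h4⟩ : ∃ δ : ℝ, 0 < δ ∧ D.card * δ * (2 * e) ≤ ε :=
    ⟨ε / (D.card * (2 * e) + 1), by positivity, by
      rw [mul_right_comm, mul_div_assoc', div_le_iff₀ (by positivity)]
      linarith⟩
  refine ⟨Θ * ∏ β ∈ D, ∑ j, ρ j * C (β ^ (j : ℕ)), _, h1.mul (IsHomogeneous.prod _ _ (fun _ => a)
    fun β _ => IsHomogeneous.sum _ _ _ fun j _ => (hρ j).mul (isHomogeneous_C _ _)),
    fun h => (hp.mem_or_mem h).elim h2 fun h => ?_, fun S => ?_⟩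
  · obtain ⟨β, h5, h⟩ := (Ideal.IsPrime.prod_mem_iff (hp := hp)).1 h
    exact hD β h5 h
  choose c hc using fun β => prox_root A hρ β S h3
  refine ⟨D.card * δ * (2 * C₀) + ∑ β ∈ D, c β, fun K _ _ _ x t T hx hz h0 ht h => ?_⟩
  have : Module.Finite k K := Module.Finite.of_restrictScalars_finite ℚ k K
  have n0 : (0 : ℝ) < Module.finrank k K := by exact_mod_cast Module.finrank_pos
  rw [map_mul, map_prod, mul_ne_zero_iff, Finset.prod_ne_zero_iff] at h0
  refine (Finset.sum_le_sum fun β hβ => hc β K x t hx hz (by simpa using h0.2 β hβ) ht).trans ?_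
  have h5 := mul_le_mul_of_nonneg_left ((le_abs_self _).trans (h h0.1)) n0.le
  rw [mul_sub, mul_left_comm _ (e : ℝ), mul_div_cancel₀ _ n0.ne'] at h5
  have h6 := mul_le_mul_of_nonneg_left (cnt_le T t) (Nat.cast_nonneg (α := ℝ) e)
  have h7 := mul_le_mul_of_nonneg_left (le_mul_of_one_le_left (logHeight_nonneg x)
    (show (1 : ℝ) ≤ a by exact_mod_cast ha)) n0.le
  have h8 := mul_le_mul_of_nonneg_left (show Module.finrank k K * logHeight x ≤
    2 * e * logHeight₁ t + Module.finrank k K * (2 * C₀) by linarith)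
    (show 0 ≤ D.card * δ by positivity)
  have h9 := mul_le_mul_of_nonneg_right h4 (zero_le_logHeight₁ t)
  rw [← Finset.mul_sum, Finset.sum_add_distrib, Finset.sum_const, nsmul_eq_mul]
  linarith

end Pool.Agent.Lib.MP_651af7_nt.Sh
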