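import Pool.Agent.Lib.MP_651af7_nt.Sh.OCoreA
import Pool.Agent.Lib.MP_651af7_nt.Sh.OSim

/-! Rational points on proper closed subsets of simple abelian varieties. -/

namespace Pool.Agent.Lib.MP_651af7_nt.Sh

open MvPolynomial Height Filter
open Pool.Agent.Lib.MP_651af7_nt.Av Pool.Agent.Lib.MP_651af7_nt.Av.AV

variable {k ι : Type} [Field k] [NumberField k] [Fintype ι]

/-- The theorem of Faltings for a hypersurface section of a simple abelian variety. -/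
theorem simple_bdd (A : AV k ι)
    (hS : ∀ (B : AV k ι), Sub A B → Infinite (B.Pt k) → B.I ≤ A.I) {Θ : MvPolynomial ι k} {d : ℕ}
    (hΘ : Θ.IsHomogeneous d) (h0 : Θ ∉ A.I) : ∃ C : ℝ, ∀ x : ι → k, x ≠ 0 →
      (∀ f ∈ A.I, eval x f = 0) → eval x Θ = 0 → logHeight x ≤ C := by
  by_contra! hcon
  have h1 : ∀ n : ℕ, ∃ P : A.Pt k, eval P.co Θ = 0 ∧ (n : ℝ) ≤ ht P := fun n => by
    obtain ⟨x, hx, hz, h2, h3⟩ := hcon n
    obtain ⟨P, hP⟩ := exists_rep_of_ne (A := A) hx (by simpa only [aeval_eq_eval] using hz)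
    refine ⟨P, ?_, h3.le.trans_eq (ht_eq hP).symm⟩
    obtain ⟨u, hu⟩ := hP
    rw [funext hu, eval_mul_of_hom hΘ] at h2
    exact (mul_eq_zero.1 h2).resolve_left (pow_ne_zero _ u.ne_zero)
  choose x hx hx' using h1
  obtain ⟨B, h, y, a, hH, Z, Y, aK, a', H⟩ := A.exists_coset (U := hyperfilter ℕ) x
    (tendsto_atTop_mono hx' (tendsto_natCast_atTop_atTop.mono_left
      (hyperfilter_le_cofinite.trans Nat.cofinite_eq_atTop.le)))
  have hY : td (Sm k hH) (rat Y.co) = B.dim := Cn.Cos.gen (h := h) ⟨H.gX, H.gY, H.gens, H.add,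
    H.sub, H.co, H.rep, H.small, H.lo, 1, .of_forall fun n => (one_mul _).ge⟩
  have hI : B.I = A.I := le_antisymm (hS B h (infinite_pt hH)) fun f hf => by
    simpa only [Algebra.algebraMap_self, MvPolynomial.map_id] using h.le f hf
  have hd : B.dim = A.dim := by rw [AV.dim, AV.dim, hI]
  obtain ⟨L, hL, hL'⟩ := tr_cl (K := Sm k hH) (rat Z.co)
  have h2 : td (Sm k hH) (rat Y.co) ≤ td (Sm k hH) (rat Z.co) := by
    rw [← A.tr_rat_rep (h.rep_inc (rep_co Y)), H.sub]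
    refine tr_td_le ((A.rat_add_sub (K := Sm k hH) _ _).2.trans
      (Matroid.closure_subset_closure_of_subset_closure (Set.union_subset ?_ ?_))) <;> rw [← hL]
    · exact hL'
    · rw [A.tr_rat_rep ((rep_co aK).map _)]
      rintro _ ⟨p, rfl⟩
      exact L.div_mem (L.algebraMap_mem _) (L.algebraMap_mem _)
  have h3 := (A.gen_iff (K := Sm k hH) (Function.ne_iff.2 ((rep_co Z).unit.imp fun _ h => h.ne_zero)) (rep_co Z).zero).2
    (le_antisymm (A.td_le_dim (rep_co Z).zero) (by rwa [hY, hd] at h2))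
  refine h0 (A.mem_IK_iff.1 (h3 _ d (hΘ.map _) ?_))
  rw [aeval_map_algebraMap]
  exact (aeval_germ_co H.gX hΘ).2 (.of_forall hx)

/-- The same with simplicity read on the geometric points. -/
theorem simple_bdd' (A : AV k ι) {Ω G : Type} [Field Ω] [IsAlgClosed Ω] [Algebra k Ω]
    [AddCommGroup G] {co : G → ι → Ω} (hp : (A.I.map (MvPolynomial.map (algebraMap k Ω))).IsPrime)
    (hn : ∀ p, co p ≠ 0) (hz : ∀ p, ∀ P ∈ A.I, aeval (co p) P = 0)
    (hs : ∀ v : ι → Ω, v ≠ 0 → (∀ P ∈ A.I, aeval v P = 0) → ∃! p, ∃ c : Ω, v = c • co p)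
    (ψ : G ≃+ A.Pt Ω) (hψ : ∀ x, Rep (ψ x) (co x))
    (hS : ∀ (B : AddSubgroup G) (q : Ideal (MvPolynomial ι k)) (c : G),
      (∀ P ∈ q, ∀ d, homogeneousComponent d P ∈ q) →
      (∀ p, (∀ P ∈ q, aeval (co p) P = 0) ↔ p - c ∈ B) → (B : Set G).Finite ∨ B = ⊤)
    {Θ : MvPolynomial ι k} {d : ℕ} (hΘ : Θ.IsHomogeneous d) (h0 : Θ ∉ A.I) :
    ∃ C : ℝ, ∀ x : ι → k, x ≠ 0 → (∀ f ∈ A.I, eval x f = 0) → eval x Θ = 0 → logHeight x ≤ C := by
  refine simple_bdd A (fun B h hB => ?_) hΘ h0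
  have h1 : ∀ p, (∀ P ∈ B.I, aeval (co p) P = 0) ↔
      p - 0 ∈ (h.inc Ω).range.comap ψ.toAddMonoidHom := fun p => by
    rw [sub_zero, AddSubgroup.mem_comap, AddEquiv.coe_toAddMonoidHom, h.mem_range_inc (hψ p)]
  have h2 := (hS _ B.I 0 B.hom h1).resolve_left (Set.infinite_of_injective_forall_mem
    (f := fun b : B.Pt k => ψ.symm (h.inc Ω (B.map (Algebra.ofId k Ω) b)))
    (ψ.symm.injective.comp (h.inc_injective.comp (map_injective (Algebra.ofId k Ω).injective)))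
    fun b => ⟨_, (ψ.apply_symm_apply _).symm⟩)
  exact le_of_all hp hn hz hs B.hom fun p => (h1 p).2 (h2 ▸ trivial)

end Pool.Agent.Lib.MP_651af7_nt.Sh
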