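import Pool.Agent.Lib.MP_651af7_nt.Sh.OVoc

/-! Factors of the fibre equation: vocabulary. -/

namespace Pool.Agent.Lib.MP_651af7_nt.Sh

open MvPolynomial Height
open Pool.Agent.Lib.MP_651af7_nt.Av

variable {k ι : Type} [Field k] {e : ℕ}

/-- The equation of the fibre over `x`. -/
noncomputable def fx {N : ℕ} (ρ : Fin N → MvPolynomial ι k) (x : ι → k) : Polynomial k :=
  ∑ j : Fin N, Polynomial.monomial j (eval x (ρ j))

/-- A rational factor of the equation of the fibre has its share of the height. -/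
def CoreA [NumberField k] [Fintype ι] (A : AV k ι) (ρ : Fin (e + 2) → MvPolynomial ι k) : Prop :=
  ∀ ε : ℝ, 0 < ε → ∃ (Θ : MvPolynomial ι k) (d : ℕ) (C : ℝ), Θ.IsHomogeneous d ∧ Θ ∉ A.I ∧
    ∀ (x : ι → k) (g : Polynomial k), x ≠ 0 → (∀ f ∈ A.I, eval x f = 0) → eval x Θ ≠ 0 →
      g.Monic → g ∣ fx ρ x → g.natDegree * logHeight (fun j => eval x (ρ j)) ≤
        (e + 1) * logHeight (fun j : Fin (g.natDegree + 1) => g.coeff j) + ε * logHeight x + C

end Pool.Agent.Lib.MP_651af7_nt.Sh
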