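import Pool.Agent.Lib.MP_651af7_nt.Sh.AShr
import Pool.Agent.Lib.MP_651af7_nt.Sh.AVoc
import Pool.Agent.Lib.MP_651af7_nt.Nc.Rel
import Pool.Agent.Lib.MP_651af7_nt.Nc.MspB

/-! A rational factor of the equation of the fibre has its share of the height. -/

namespace Pool.Agent.Lib.MP_651af7_nt.Sh

open MvPolynomial Height Filter
open Pool.Agent.Lib.MP_651af7_nt.Av Pool.Agent.Lib.MP_651af7_nt.Av.AV
open Pool.Agent.Lib.MP_651af7_nt.As (gv)
open Pool.Agent.Lib.MP_651af7_nt.Jn (rr rr_coeff)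

variable {k ι : Type} [Field k] [NumberField k] [Fintype ι] {α : Type} {U : Ultrafilter α}
  {e μ : ℕ} {A : AV k ι} {ρ : Fin (e + 2) → MvPolynomial ι k}

omit [NumberField k] [Fintype ι] in
theorem fx_mul {a : Fin (e + 2) → k} {c : k} {x : ι → k} (h : ∀ j, a j = c * eval x (ρ j)) :
    ∑ j : Fin (e + 2), Polynomial.monomial j (a j) = Polynomial.C c * fx ρ x := by
  simp only [fx, h, Finset.mul_sum, Polynomial.C_mul_monomial]

theorem seqA (hρ : ∀ j, (ρ j).IsHomogeneous μ) (hl : ρ (Fin.last _) ∉ A.I) (hG : Gm A ρ)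
    (x : α → A.Pt k) (g : α → Polynomial k) {d : ℕ} (hx : Tendsto (fun n => ht (x n)) U atTop)
    (hgen : ∀ (f : MvPolynomial ι k) (n : ℕ), f.IsHomogeneous n → f ∉ A.I →
      ∀ᶠ l in U, eval (x l).co f ≠ 0)
    (h0 : ∀ᶠ n in U, (g n).Monic ∧ (g n).natDegree = d ∧ g n ∣ fx ρ (x n).co) {ε : ℝ}
    (hε : 0 < ε) : ∀ᶠ n in U, d * logHeight (fun j => eval (x n).co (ρ j)) ≤
      (e + 1) * logHeight (fun j : Fin (d + 1) => (g n).coeff j) + ε * ht (x n) := by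
  classical
  obtain ⟨B, h, y, a, hH, Z, Y, aK, a', H⟩ := A.exists_coset x hx
  have hX : Gen A.I Z.co := fun f n hf h1 => by
    by_contra h2
    obtain ⟨l, h3, h4⟩ := (((aeval_germ_co H.gX hf).1 h1).and (hgen f n hf h2)).exists
    exact h4 h3
  have hY : td (Sm k hH) (rat Y.co) = B.dim := Cn.Cos.gen (h := h) ⟨H.gX, H.gY, H.gens, H.add,
    H.sub, H.co, H.rep, H.small, H.lo, 1, .of_forall fun n => (one_mul _).ge⟩
  obtain ⟨Θ, d₀, hΘ, hΘ', hm⟩ := hG B h (infinite_pt hH)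
  obtain ⟨a₁, b₀, v, hv⟩ := exists_norm H
  have hv' : ∀ᶠ n in U, Rep (y n) (v n) ∧ v n a₁ = 1 := hv.mono fun n g => ⟨g.1, g.2.1⟩
  have hYv : Rep Y (gv U v) := H.gY.rep (hv.mono fun n g => g.1)
  rw [B.tr_rat_rep hYv] at hY
  have e1 : ∀ j, aeval (gv U v) (A.shift aK.co (ρ j) b₀) =
      germ U fun n => eval (v n) (A.shift (a' n) (ρ j) b₀) := fun j =>
    (repr_shift H (ρ j) b₀).aeval' v
  have hlead : aeval (gv U v) (A.shift aK.co (ρ (Fin.last _)) b₀) ≠ 0 := by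
    rw [e1, germ_ne_zero]
    filter_upwards [hv, hgen _ _ (hρ _) hl] with n ⟨_, _, c, g1, g⟩ g2
    rw [g _ _ (hρ _)]
    exact mul_ne_zero (pow_ne_zero _ g1) g2
  have hI : Nc.Irp (fun j => A.shift aK.co (ρ j) b₀) (gv U v) := by
    obtain ⟨l, hl'⟩ := hYv.unit
    refine Nc.irp_of_minG (B := B) (a₁ := a₁) (hv.mono fun n g => ⟨g.2.1, g.1.zero⟩)
      ((B.gen_iff (fun h => hl'.ne_zero (congrFun h l)) hYv.zero).2 hY)
      (fun j => repr_shift H (ρ j) b₀) hlead ?_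
    filter_upwards [hv, H.rep, hgen _ _ hΘ hΘ'] with n ⟨g1, _, c, g3, g4⟩ g13 g14
    have n1 : ∀ (G : MvPolynomial ι k) (d : ℕ), G.IsHomogeneous d → eval (x n).co G ≠ 0 →
        A.shift (a' n) G b₀ ∉ B.I := fun G d h1 h2 h3 => by
      have h4 := g1.zero _ h3
      rw [aeval_eq_eval, g4 G d h1] at h4
      exact mul_ne_zero (pow_ne_zero _ g3) h2 h4
    obtain ⟨l, hl⟩ := (rep_co (x n)).unit
    exact min_shift h g13 (hm (a n)) ⟨l, n1 _ _ (isHomogeneous_X _ _)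
      (by rw [eval_X]; exact hl.ne_zero)⟩ hΘ (n1 _ _ hΘ g14)
  obtain ⟨p, hp, hd⟩ := exists_lift_rr (fun j => A.shift aK.co (ρ j) b₀) (gv U v)
  have c1 : ∀ j : Fin (e + 2), algebraMap _ (Up U k) (p.coeff j) =
      aeval (gv U v) (A.shift aK.co (ρ j) b₀) := fun j => by
    rw [← Polynomial.coeff_map, hp, rr_coeff]
  have h1 := shr_factor (Nc.share hv' hY) (Nc.bd hv') hH (hI p hp)
    (Polynomial.natDegree_eq_of_le_of_coeff_ne_zero hd fun h2 => hlead (by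
      rw [← c1, Fin.val_last, h2, map_zero]))
    (a := fun n j => eval (v n) (A.shift (a' n) (ρ j) b₀)) (fun j => (c1 j).trans (e1 j))
    (g := g) (d := d) (by
      filter_upwards [hv, h0] with n ⟨_, _, c, _, g4⟩ g5
      rw [fx_mul fun j => g4 _ _ (hρ j)]
      exact ⟨g5.1, g5.2.1, g5.2.2.mul_left _⟩) (half_pos hε)
  filter_upwards [h1, hv, H.le] with n g1 ⟨_, _, c, g3, g4⟩ g5
  simp only [g4 _ _ (hρ _), logHeight_mul_left (pow_ne_zero μ g3)] at g1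
  have := mul_le_mul_of_nonneg_left g5 (half_pos hε).le
  linarith

theorem coreA_of (hρ : ∀ j, (ρ j).IsHomogeneous μ) (hl : ρ (Fin.last _) ∉ A.I) (hG : Gm A ρ) :
    CoreA A ρ := by
  intro ε hε
  by_contra hcon
  have hp := A.isPrime
  let β := {z : A.Pt k × Polynomial k // z.2.Monic ∧ z.2 ∣ fx ρ z.1.co}
  let T := {t : MvPolynomial ι k × ℕ × ℝ // t.1.IsHomogeneous t.2.1 ∧ t.1 ∉ A.I}
  let S : T → Set β := fun t => {z | eval z.1.1.co t.1.1 ≠ 0 ∧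
    (e + 1) * logHeight (fun j : Fin (z.1.2.natDegree + 1) => z.1.2.coeff j) + ε * ht z.1.1 +
      t.1.2.2 < z.1.2.natDegree * logHeight fun j => eval z.1.1.co (ρ j)}
  have hS : ∀ t, (S t).Nonempty := fun t => by
    by_contra h
    refine hcon ⟨t.1.1, t.1.2.1, t.1.2.2, t.2.1, t.2.2, fun x s h0 hz h1 hm h2 =>
      not_lt.1 fun h3 => h ?_⟩
    obtain ⟨P, u, hu⟩ := exists_rep_of_ne (A := A) h0 (by simpa only [aeval_eq_eval] using hz)
    obtain rfl : x = fun a => u * P.co a := funext hu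
    simp only [eval_mul_of_hom (hρ _), logHeight_mul_left u.ne_zero,
      logHeight_mul_left (pow_ne_zero μ u.ne_zero)] at h3
    rw [eval_mul_of_hom t.2.1] at h1
    rw [fx, fx_mul fun j => eval_mul_of_hom (hρ j) _ _,
      (Polynomial.isUnit_C.2 (u.isUnit.pow μ)).dvd_mul_left] at h2
    exact ⟨⟨(P, s), hm, h2⟩, right_ne_zero_of_mul h1, h3⟩
  have hdir : Directed (· ≥ ·) fun t => 𝓟 (S t) := fun t t' =>
    ⟨⟨(t.1.1 * t'.1.1, t.1.2.1 + t'.1.2.1, max t.1.2.2 t'.1.2.2), t.2.1.mul t'.2.1,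
      fun h => (hp.mem_or_mem h).elim t.2.2 t'.2.2⟩,
      principal_mono.2 fun z hz => ⟨left_ne_zero_of_mul (map_mul (eval z.1.1.co) _ _ ▸ hz.1),
        lt_of_le_of_lt (by gcongr; exact le_max_left _ _) hz.2⟩,
      principal_mono.2 fun z hz => ⟨right_ne_zero_of_mul (map_mul (eval z.1.1.co) _ _ ▸ hz.1),
        lt_of_le_of_lt (by gcongr; exact le_max_right _ _) hz.2⟩⟩
  have h1 : (1 : MvPolynomial ι k) ∉ A.I := (Ideal.ne_top_iff_one _).1 hp.ne_top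
  have : Nonempty β := (hS ⟨(1, 0, 0), isHomogeneous_one _ _, h1⟩).to_type
  have hne := iInf_neBot_of_directed hdir fun t => principal_neBot_iff.2 (hS t)
  obtain ⟨V, hU⟩ : ∃ V : Ultrafilter β, ∀ t, ∀ᶠ z in V, z ∈ S t :=
    ⟨Ultrafilter.of (⨅ t, 𝓟 (S t)), fun t =>
      (Ultrafilter.of_le _).trans (iInf_le _ t) (mem_principal_self _)⟩
  have hd : ∀ᶠ z : β in V, z.1.2.natDegree ≤ e + 1 :=
    (hU ⟨(_, μ, 0), hρ _, hl⟩).mono fun z hz => (Polynomial.natDegree_le_of_dvd z.2.2 fun h =>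
      hz.1 (by rw [← coeff_fin (fun j => eval z.1.1.co (ρ j)), ← fx, h]; rfl)).trans
        (natDegree_fin _)
  obtain ⟨d, h2⟩ := Ultrafilter.eventually_exists_iff.1 (hd.mono fun z hz =>
    (⟨⟨_, Nat.lt_succ_of_le hz⟩, rfl⟩ : ∃ d : Fin (e + 2), z.1.2.natDegree = d))
  obtain ⟨C₀, hC₀⟩ := logHeight_eval_le' hρ
  have e0 : (0 : ℝ) < e + 1 := by positivity
  have h3 := seqA hρ hl hG (U := V) (fun z => z.1.1) (fun z => z.1.2) (tendsto_atTop.2 fun W => ?_)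
    (fun f n hf h => (hU ⟨(f, n, 0), hf, h⟩).mono fun _ h => h.1)
    (h2.mono fun z hz => ⟨z.2.1, hz, z.2.2⟩) hε
  · obtain ⟨z, ⟨g1, g2⟩, g3⟩ :=
      ((h3.and (hU ⟨(1, 0, 0), isHomogeneous_one _ _, h1⟩)).and h2).exists
    rw [← g3] at g1
    exact g2.2.not_ge (by simpa only [add_zero] using g1)
  filter_upwards [hd, hU ⟨(1, 0, (e + 1) * (C₀ + μ * W)), isHomogeneous_one _ _, h1⟩] with z g1 g2
  have g3 : _ + ε * ht z.1.1 + (e + 1) * (C₀ + μ * W) < _ := g2.2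
  have g4 : _ ≤ C₀ + μ * ht z.1.1 := hC₀ z.1.1.co
  have g5 := mul_nonneg hε.le (ht_nonneg z.1.1)
  have g6 := mul_nonneg e0.le
    (logHeight_nonneg fun j : Fin (z.1.2.natDegree + 1) => z.1.2.coeff j)
  have g7 := mul_le_mul (show (z.1.2.natDegree : ℝ) ≤ e + 1 by exact_mod_cast g1) g4
    (logHeight_nonneg _) e0.le
  have g8 := lt_of_mul_lt_mul_left
    (by linarith : (e + 1 : ℝ) * (C₀ + μ * W) < (e + 1) * (C₀ + μ * ht z.1.1)) e0.le
  exact (lt_of_mul_lt_mul_left (by linarith : (μ : ℝ) * W < μ * ht z.1.1) μ.cast_nonneg).le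

end Pool.Agent.Lib.MP_651af7_nt.Sh
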