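import Pool.Agent.Lib.MP_651af7_nt.Av.Fin

/-! A hyperplane that shares no component with a given hypersurface. -/

namespace Pool.Agent.Lib.MP_651af7_nt.Sh

open MvPolynomial Height
open Pool.Agent.Lib.MP_651af7_nt.Av Pool.Agent.Lib.MP_651af7_nt.Av.AV

variable {k ι : Type} [Field k] [NumberField k] [Fintype ι]

omit [NumberField k] [Fintype ι] in
theorem olin_const {P : Ideal (MvPolynomial ι k)} (h : ∀ a, X a ∈ P) (f : MvPolynomial ι k) :
    f - C (eval 0 f) ∈ P := by
  induction f using MvPolynomial.induction_on with
  | C c => simp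
  | add f g hf hg =>
    have := P.add_mem hf hg
    rwa [sub_add_sub_comm, ← map_add, ← map_add] at this
  | mul_X f a _ => simpa using P.mul_mem_left f (h a)

omit [NumberField k] [Fintype ι] in
theorem olin_idl {P : Ideal (MvPolynomial ι k)} (h : ∀ a, X a ∈ P) (x : ι → k) : idl k x ≤ P := by
  intro f hf
  have h1 := mem_idl.1 hf 0
  rw [homogeneousComponent_zero, aeval_C] at h1
  have h2 := olin_const h f
  have h3 : eval 0 f = 0 := by
    rw [eval_zero, constantCoeff_eq]
    exact h1
  rwa [h3, map_zero, sub_zero] at h2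

/-- If no minimal prime of `A.I + (R)` contains all variables: a linear form outside `A.I` and
these primes. Otherwise the ideal of the variables has height at most one over `A.I` (Krull), so
`idl k x = A.I` for every zero `x ≠ 0`, and all zeros are proportional. -/
theorem exists_lin (A : AV k ι) {R : MvPolynomial ι k} {d : ℕ} (_hR : R.IsHomogeneous d)
    (h : R ∉ A.I) : (∃ L : MvPolynomial ι k, L.IsHomogeneous 1 ∧ L ∉ A.I ∧
      2 ≤ ((Ideal.span (Set.range ![R, L ^ d])).map (Ideal.Quotient.mk A.I)).height) ∨
      ∃ C : ℝ, ∀ x : ι → k, (∀ f ∈ A.I, eval x f = 0) → logHeight x ≤ C := by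
  classical
  have hp := A.isPrime
  set π := Ideal.Quotient.mk A.I with hπ
  have hr : π R ≠ 0 := fun e => h (Ideal.Quotient.eq_zero_iff_mem.1 e)
  have hbot : ∀ p ∈ (Ideal.span {π R}).minimalPrimes, ⊥ < p := fun p hp' =>
    bot_lt_iff_ne_bot.2 fun e => hr (by
      have := hp'.1.2 (Ideal.mem_span_singleton_self (π R))
      rwa [e, Ideal.mem_bot] at this)
  by_cases hall : ∃ p ∈ (Ideal.span {π R}).minimalPrimes, ∀ a, π (X a) ∈ p
  · obtain ⟨p, hp1, hp2⟩ := hall
    have := hp1.isPrime
    have hk := Ideal.height_le_one_of_isPrincipal_of_mem_minimalPrimes _ p hp1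
    have key : ∀ x : ι → k, x ≠ 0 → (∀ f ∈ A.I, eval x f = 0) → idl k x ≤ A.I := by
      intro x hx hz
      have h1 : A.I ≤ idl k x := fun f hf => mem_idl.2 fun n => by
        simpa only [aeval_eq_eval] using hz _ (A.hom f hf n)
      have := idl_prime k x
      have hq : ((idl k x).map π).IsPrime :=
        Ideal.map_isPrime_of_surjective Ideal.Quotient.mk_surjective (by rwa [Ideal.mk_ker])
      have hc : ((idl k x).map π).comap π = idl k x := by
        rw [Ideal.comap_map_of_surjective π Ideal.Quotient.mk_surjective, ← RingHom.ker_eq_comap_bot,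
          Ideal.mk_ker, sup_eq_left.2 h1]
      have hle : (idl k x).map π ≤ p :=
        Ideal.map_le_iff_le_comap.2 (olin_idl (P := p.comap π) hp2 x)
      obtain ⟨a, ha⟩ := Function.ne_iff.1 hx
      have hlt : (idl k x).map π < p := lt_of_le_of_ne hle fun e => ha (by
        have h2 : X a ∈ ((idl k x).map π).comap π := by
          rw [e]
          exact hp2 a
        rw [hc, mem_idl_hom (isHomogeneous_X k a), aeval_X] at h2
        exact h2)
      have h3 := (Ideal.height_add_one_le_of_lt_of_isPrime hlt).trans hk
      have h4 : ((idl k x).map π).height = 0 := by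
        by_contra h5
        have h6 := (add_le_add_left (Order.one_le_iff_ne_zero.2 h5) 1).trans h3
        exact absurd h6 (by decide)
      rw [Ideal.height_eq_zero_iff_eq_bot, Ideal.map_eq_bot_iff_le_ker, Ideal.mk_ker] at h4
      exact h4
    obtain ⟨b, hb⟩ := (rep_co (0 : A.Pt k)).unit
    have hz := (rep_co (0 : A.Pt k)).zero
    set o := (0 : A.Pt k).co
    refine Or.inr ⟨logHeight o, fun x hx => ?_⟩
    have e : x = fun a => x b / o b * o a := funext fun a => by
      have h1 : (C (o b) * X a - C (o a) * X b : MvPolynomial ι k) ∈ idl k o := by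
        rw [mem_idl_hom (((isHomogeneous_X k a).C_mul _).sub ((isHomogeneous_X k b).C_mul _))]
        simp [mul_comm]
      have h2 := hx _ (key o (fun e => hb.ne_zero (congrFun e b))
        (by simpa only [aeval_eq_eval] using hz) h1)
      simp only [map_sub, map_mul, eval_C, eval_X] at h2
      have := hb.ne_zero
      field_simp
      linear_combination h2
    by_cases h0 : x b / o b = 0
    · rw [e, h0]
      simpa using (logHeight_zero.trans_le (logHeight_nonneg o) : logHeight (0 : ι → k) ≤ _)
    · rw [e, logHeight_mul_left h0]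
  · push Not at hall
    have hfin : (Ideal.span {π R}).minimalPrimes.Finite :=
      Ideal.finite_minimalPrimes_of_isNoetherianRing _ _
    have := hfin.to_subtype
    let ℓ : (ι → k) →ₗ[k] MvPolynomial ι k := Fintype.linearCombination k X
    let q : Option (Ideal.span {π R}).minimalPrimes → Ideal (MvPolynomial ι k) := fun o =>
      o.elim A.I fun p => p.1.comap π
    obtain ⟨c, hc⟩ := Submodule.exists_forall_notMem_of_forall_ne_top
      (fun o => ((q o).restrictScalars k).comap ℓ) fun o e => by
        have h1 : ∀ a, X a ∈ q o := fun a => by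
          have h2 : Pi.single a (1 : k) ∈ ((q o).restrictScalars k).comap ℓ := e ▸ Submodule.mem_top
          simpa [ℓ] using h2
        cases o with
        | none =>
          obtain ⟨b, hb⟩ := (rep_co (0 : A.Pt k)).unit
          exact hb.ne_zero (by simpa using (rep_co (0 : A.Pt k)).zero _ (h1 b))
        | some p =>
          obtain ⟨a, ha⟩ := hall p.1 p.2
          exact ha (h1 a)
    refine Or.inl ⟨ℓ c, ?_, hc none, ?_⟩
    · rw [Fintype.linearCombination_apply]
      exact IsHomogeneous.sum _ _ _ fun a _ => by
        rw [smul_eq_C_mul]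
        exact (isHomogeneous_X k a).C_mul _
    · rw [Ideal.height_eq_inf_minimalPrimes]
      refine le_iInf₂ fun P hP => ?_
      have := hP.isPrime
      have hm : ∀ i, π (![R, ℓ c ^ d] i) ∈ P := fun i =>
        hP.1.2 (Ideal.mem_map_of_mem _ (Ideal.subset_span ⟨i, rfl⟩))
      obtain ⟨p, hp1, hp2⟩ := Ideal.exists_minimalPrimes_le
        ((Ideal.span_singleton_le_iff_mem P).2 (hm 0 : π R ∈ P))
      have := hp1.isPrime
      have hlt : p < P := lt_of_le_of_ne hp2 fun e => hc (some ⟨p, hp1⟩) (by
        have h1 : π (ℓ c ^ d) ∈ p := e ▸ hm 1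
        rw [map_pow] at h1
        exact this.mem_of_pow_mem d h1)
      have h1 := Ideal.height_add_one_le_of_lt_of_isPrime (hbot p hp1)
      rw [Ideal.height_bot, zero_add] at h1
      exact (add_le_add_left h1 1).trans (Ideal.height_add_one_le_of_lt_of_isPrime hlt)

end Pool.Agent.Lib.MP_651af7_nt.Sh
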