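import Pool.Agent.Lib.MP_651af7_nt.Sh.OVoc
import Pool.Agent.Lib.MP_651af7_nt.Sh.OLin
import Pool.Agent.Lib.MP_651af7_nt.Cn.SFin

/-! From the height of the roots to the counting function. -/

namespace Pool.Agent.Lib.MP_651af7_nt.Sh

open MvPolynomial Height
open Pool.Agent.Lib.MP_651af7_nt.Av Pool.Agent.Lib.MP_651af7_nt.Av.AV
open Pool.Agent.Lib.MP_651af7_nt.Vj Pool.Agent.Lib.MP_8865d3_nt.Sv
open Pool.Agent.Lib.MP_651af7_nt.Cn (ell lam)

variable {k ι : Type} [Field k] [Fintype ι] {e a l : ℕ} {ρ : Fin (e + 2) → MvPolynomial ι k}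
  {x : ι → k} {t : k} {L : MvPolynomial ι k} {w : AbsoluteValue k ℝ} {s : ℝ}

/-- The weighted maximum of the coefficients. -/
noncomputable def ws (a l : ℕ) (ρ : Fin (e + 2) → MvPolynomial ι k) (x : ι → k)
    (w : AbsoluteValue k ℝ) : ℝ := ⨆ j, w (eval x (ρ j)) / nm w x ^ (a + (e + 1 - j) * l)

/-- The local term of the inequality. -/
noncomputable def loc (a l : ℕ) (ρ : Fin (e + 2) → MvPolynomial ι k) (x : ι → k) (t : k)
    (w : AbsoluteValue k ℝ) : ℝ :=
  (e + 1 : ℕ) * Real.posLog (w t / nm w x ^ l) - Real.log (ws a l ρ x w)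

omit [Fintype ι] in
theorem le_ws (j : Fin (e + 2)) :
    w (eval x (ρ j)) / nm w x ^ (a + (e + 1 - j) * l) ≤ ws a l ρ x w :=
  le_ciSup (f := fun j : Fin (e + 2) => w (eval x (ρ j)) / nm w x ^ (a + (e + 1 - j) * l))
    (Finite.bddAbove_range _) j

theorem ws_le (hρ : ∀ j : Fin (e + 2), (ρ j).IsHomogeneous (a + (e + 1 - j) * l)) (hx : x ≠ 0)
    (hs : ∀ j, pl w (ρ j) ≤ s) : ws a l ρ x w ≤ s := ciSup_le fun j => by
  have h := pow_pos (nm_pos w hx) (a + (e + 1 - j) * l)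
  rw [div_le_iff₀ h]
  exact (Cn.sloc_eval_le (hρ j) x w).trans (mul_le_mul_of_nonneg_right (hs j) h.le)

theorem ws_pos (hx : x ≠ 0) (h1 : eval x (ρ (Fin.last _)) ≠ 0) : 0 < ws a l ρ x w :=
  (div_pos (w.pos h1) (pow_pos (nm_pos w hx) _)).trans_le (le_ws _)

theorem lam_ws (hx : x ≠ 0) (h1 : eval x (ρ (Fin.last _)) ≠ 0) :
    0 ≤ Real.log (ws a l ρ x w) + lam a (ρ (Fin.last _)) x w := by
  have p := pow_pos (nm_pos w hx) a
  have h := le_ws (a := a) (l := l) (ρ := ρ) (x := x) (w := w) (Fin.last _)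
  rw [Fin.val_last, Nat.sub_self, zero_mul, add_zero] at h
  have h2 := Real.log_le_log (div_pos (w.pos h1) p) h
  rw [Real.log_div (w.pos h1).ne' p.ne', Real.log_pow] at h2
  unfold Cn.lam ell
  linarith

theorem loc_gcd (hρ : ∀ j : Fin (e + 2), (ρ j).IsHomogeneous (a + (e + 1 - j) * l)) (hx : x ≠ 0)
    (hL : L.IsHomogeneous 1) (s1 : 1 ≤ s) (hs : ∀ j, pl w (ρ j) ≤ s) (hs' : pl w L ≤ s) :
    ws a l ρ x w * nm w (fun i => eval x (![ρ 0, L ^ (a + (e + 1) * l)] i)) ≤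
      s ^ (a + (e + 1) * l + 1) * nm w fun j => eval x (ρ j * L ^ (l * j)) := by
  have pN := nm_pos w hx
  have s0 := zero_le_one.trans s1
  obtain ⟨i, hi⟩ := exists_nm w fun i => eval x (![ρ 0, L ^ (a + (e + 1) * l)] i)
  rw [← hi]
  fin_cases i
  · have h := le_nm w (fun j => eval x (ρ j * L ^ (l * j))) 0
    simp only [Fin.val_zero, mul_zero, pow_zero, mul_one] at h
    exact mul_le_mul ((ws_le hρ hx hs).trans (le_self_pow₀ s1 (Nat.succ_ne_zero _))) h
      (w.nonneg _) (pow_nonneg s0 _)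
  · obtain ⟨j, hj⟩ := exists_eq_ciSup_of_finite
      (f := fun j : Fin (e + 2) => w (eval x (ρ j)) / nm w x ^ (a + (e + 1 - j) * l))
    have h := le_nm w (fun j => eval x (ρ j * L ^ (l * j))) j
    have h1 := (Cn.sloc_eval_le hL x w).trans (mul_le_mul_of_nonneg_right hs' (pow_pos pN 1).le)
    have h2 : a + (e + 1) * l = l * j + (a + (e + 1 - j) * l) := by
      rw [add_left_comm, mul_comm l, ← add_mul, Nat.add_sub_cancel' (Nat.lt_succ_iff.1 j.2)]
    have h3 := pow_le_pow_left₀ (w.nonneg _) h1 (a + (e + 1 - j) * l)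
    have h4 : s ^ (a + (e + 1 - j) * l) ≤ s ^ (a + (e + 1) * l + 1) :=
      pow_le_pow_right₀ s1 (by omega)
    simp only [map_mul, map_pow] at h
    rw [pow_one, mul_pow, ← div_le_iff₀ (pow_pos pN _)] at h3
    change ws a l ρ x w * w (eval x (L ^ (a + (e + 1) * l))) ≤ _
    rw [ws, ← hj, map_pow, map_pow]
    calc _ = w (eval x L) ^ (a + (e + 1 - j) * l) / nm w x ^ (a + (e + 1 - j) * l) *
          (w (eval x (ρ j)) * w (eval x L) ^ (l * j)) := by
            conv_lhs => rw [h2, pow_add (w (eval x L))]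
            ring
      _ ≤ _ := by
        simp only [map_mul, map_pow]
        exact mul_le_mul (h3.trans h4) h (by positivity) (pow_nonneg s0 _)

theorem loc_t (hx : x ≠ 0) (hL : L.IsHomogeneous 1) (h0 : eval x L ≠ 0) (s1 : 1 ≤ s)
    (hs' : pl w L ≤ s) : Real.log (max (w (t / eval x L ^ l)) 1) ≤
      Real.posLog (w t / nm w x ^ l) + l * (lam 1 L x w + Real.log s) := by
  have pN := nm_pos w hx
  have pL := w.pos h0
  have h1 : w (t / eval x L ^ l) = w t / nm w x ^ l * (nm w x / w (eval x L)) ^ l := by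
    rw [map_div₀, map_pow, div_pow]
    field_simp
  have h2 := Cn.lam_ge hL hx h0 hs'
  have h3 := Real.log_nonneg s1
  rw [max_comm, ← Real.posLog_eq_log_max_one (w.nonneg _), h1]
  refine Real.posLog_mul.trans (add_le_add le_rfl ?_)
  rw [Real.posLog_pow]
  refine mul_le_mul_of_nonneg_left ?_ (Nat.cast_nonneg _)
  rw [Real.posLog_apply, Real.log_div pN.ne' pL.ne']
  unfold Cn.lam ell at *
  push_cast at *
  exact max_le h2 (by linarith)

theorem loc_root (hρ : ∀ j : Fin (e + 2), (ρ j).IsHomogeneous (a + (e + 1 - j) * l)) (hx : x ≠ 0)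
    (h1 : eval x (ρ (Fin.last _)) ≠ 0) (ht : ∑ j, eval x (ρ j) * t ^ (j : ℕ) = 0)
    (hs : ∀ j, pl w (ρ j) ≤ s) : loc a l ρ x t w ≤
      (e + 1 : ℕ) * (Real.log (e + 1 : ℕ) + lam a (ρ (Fin.last _)) x w) + e * Real.log s := by
  have pN := nm_pos w hx
  have pM := ws_pos (a := a) (l := l) (w := w) hx h1
  have h2 := lam_ws (a := a) (l := l) (w := w) hx h1
  have h3 := Real.log_le_log pM (ws_le hρ hx hs)
  have h4 : 0 ≤ Real.log (e + 1 : ℕ) := Real.log_natCast_nonneg _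
  have h5 : Real.posLog (w t / nm w x ^ l) ≤
      Real.log (e + 1 : ℕ) + Real.log (ws a l ρ x w) + lam a (ρ (Fin.last _)) x w := by
    obtain ⟨u, hu⟩ : ∃ u, u = w t / nm w x ^ l := ⟨_, rfl⟩
    rw [← hu]
    rcases le_total u 1 with h | h
    · rw [(Real.posLog_eq_zero_iff _).2 (abs_le.2 ⟨by
        have : 0 ≤ u := hu ▸ by positivity
        linarith, h⟩)]
      linarith
    have u0 := zero_lt_one.trans_le h
    have e1 : w t = u * nm w x ^ l := by
      rw [hu]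
      field_simp
    rw [Fin.sum_univ_castSucc, add_eq_zero_iff_eq_neg'] at ht
    have h6 : w (eval x (ρ (Fin.last _))) * (u * nm w x ^ l) ^ (e + 1) ≤
        (e + 1 : ℕ) * (ws a l ρ x w * u ^ e * nm w x ^ (a + (e + 1) * l)) := by
      have h7 := congrArg w ht
      rw [map_mul, map_pow, Fin.val_last, e1, w.map_neg] at h7
      rw [h7]
      refine (w.sum_le _ _).trans ((Finset.sum_le_card_nsmul _ _ _ fun j _ => ?_).trans
        (by rw [Finset.card_univ, Fintype.card_fin, nsmul_eq_mul]))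
      have h8 := (div_le_iff₀ (pow_pos pN _)).1 (le_ws (a := a) (l := l) (ρ := ρ) (x := x) (w := w)
        j.castSucc)
      have h9 : u ^ (j : ℕ) ≤ u ^ e := pow_le_pow_right₀ h (Nat.lt_succ_iff.1 j.2)
      have h10 : a + (e + 1) * l = a + (e + 1 - j) * l + l * j := by
        rw [add_assoc, mul_comm l, ← add_mul, Nat.sub_add_cancel j.2.le]
      rw [map_mul, map_pow, e1, Fin.val_castSucc, mul_pow, ← pow_mul, h10, pow_add]
      rw [Fin.val_castSucc] at h8
      calc _ ≤ ws a l ρ x w * nm w x ^ (a + (e + 1 - j) * l) * (u ^ e * nm w x ^ (l * j)) := by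
            gcongr
        _ = _ := by ring
    have h7 := Real.log_le_log (mul_pos (w.pos h1) (by positivity)) h6
    rw [Real.log_mul (w.pos h1).ne' (by positivity), Real.log_mul (by positivity) (by positivity),
      Real.log_mul (by positivity) (by positivity), Real.log_mul pM.ne' (by positivity),
      Real.log_pow, Real.log_mul u0.ne' (by positivity), Real.log_pow, Real.log_pow,
      Real.log_pow] at h7
    rw [Real.posLog_eq_log (by rwa [abs_of_pos u0])]
    unfold Cn.lam ell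
    push_cast at h7 ⊢
    linarith
  have h6 := mul_le_mul_of_nonneg_left h5 (Nat.cast_nonneg (α := ℝ) (e + 1))
  have h7 := mul_le_mul_of_nonneg_left h3 (Nat.cast_nonneg (α := ℝ) e)
  unfold loc
  push_cast at h6 h7 ⊢
  linarith

variable [NumberField k]

theorem finS_ws (hρ : ∀ j : Fin (e + 2), (ρ j).IsHomogeneous (a + (e + 1 - j) * l)) (hx : x ≠ 0)
    (h1 : eval x (ρ (Fin.last _)) ≠ 0) : FinS fun w => Real.log (ws a l ρ x w) := by
  obtain ⟨c, h, hc, hl⟩ := exists_ad_fam ρ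
  have h2 := pf_finS_of_le (hc.fin.add (Cn.finS_lam a (ρ (Fin.last _)) x))
    (fun w => lam_ws (a := a) (l := l) hx h1) fun w =>
      add_le_add (Real.log_le_log (ws_pos hx h1) (ws_le hρ hx (hl w))) le_rfl
  simpa only [add_sub_cancel_right] using finS_sub h2 (Cn.finS_lam a (ρ (Fin.last _)) x)

theorem finS_pos (hx : x ≠ 0) (t : k) (l : ℕ) :
    FinS fun w => Real.posLog (w t / nm w x ^ l) := by
  refine pf_of_le ((finS_abs (finS_log t)).add (finS_abs (finS_nm x))) fun w h => ?_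
  rw [add_eq_zero_iff_of_nonneg (abs_nonneg _) (abs_nonneg _), abs_eq_zero, abs_eq_zero] at h
  rw [Real.eq_one_of_pos_of_log_eq_zero (nm_pos w hx) h.2, one_pow, div_one, Real.posLog_apply, h.1,
    max_self]

/-- The sum over all places. -/
theorem glob (hρ : ∀ j : Fin (e + 2), (ρ j).IsHomogeneous (a + (e + 1 - j) * l))
    (hL : L.IsHomogeneous 1) : ∃ C : ℝ, ∀ (x : ι → k) (t : k), x ≠ 0 →
      eval x (ρ (Fin.last _)) ≠ 0 → eval x L ≠ 0 →
      (e + 1) * logHeight₁ (t / eval x L ^ l) - logHeight (fun j => eval x (ρ j * L ^ (l * j))) +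
        logHeight (fun i => eval x (![ρ 0, L ^ (a + (e + 1) * l)] i)) ≤
        gsum (loc a l ρ x t) + (e + 1) * l * logHeight x + C := by
  obtain ⟨c, h, hc, hl⟩ := exists_ad_fam (Option.elim · L ρ)
  refine ⟨(e + 1) * (l * h) + (a + (e + 1) * l + 1 : ℕ) * h, fun x t hx h1 h0 => ?_⟩
  have f1 := finS_ws hρ hx h1
  have f2 := finS_pos hx t l
  have f3 := Cn.finS_lam 1 L x
  have n1 : (fun j => eval x (ρ j * L ^ (l * j))) ≠ 0 := fun h => by
    have := congrFun h (Fin.last _)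
    rw [map_mul, map_pow] at this
    exact mul_ne_zero h1 (pow_ne_zero _ h0) this
  have n2 : (fun i => eval x (![ρ 0, L ^ (a + (e + 1) * l)] i)) ≠ 0 := fun h => by
    have : eval x (L ^ _) = 0 := congrFun h 1
    rw [map_pow] at this
    exact pow_ne_zero _ h0 this
  have g1 := gsum_mono (finS_max _) (f2.add ((f3.add hc.fin).const_mul l)) fun w _ =>
    loc_t (t := t) hx hL h0 (hc.one w) (hl w none)
  have g2 := gsum_mono (f1.add (finS_nm _)) ((hc.fin.const_mul _).add (finS_nm _)) fun w _ => by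
    have h2 := Real.log_le_log (mul_pos (ws_pos hx h1) (nm_pos w n2))
      (loc_gcd hρ hx hL (hc.one w) (fun j => hl w (some j)) (hl w none))
    rwa [Real.log_mul (ws_pos hx h1).ne' (nm_pos w n2).ne',
      Real.log_mul (pow_pos (hc.pos w) _).ne' (nm_pos w n1).ne', Real.log_pow] at h2
  rw [gsum_max, gsum_add f2 ((f3.add hc.fin).const_mul l), gsum_const_mul (f3.add hc.fin),
    gsum_add f3 hc.fin, Cn.gsum_lam 1 hx h0] at g1
  rw [gsum_add f1 (finS_nm _), gsum_add (hc.fin.const_mul _) (finS_nm _), gsum_const_mul hc.fin,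
    gsum_nm n1, gsum_nm n2] at g2
  have g3 := gsum_sub (f2.const_mul (e + 1 : ℕ)) f1
  rw [gsum_const_mul f2] at g3
  have g4 := mul_le_mul_of_nonneg_left hc.le (Nat.cast_nonneg (α := ℝ) (a + (e + 1) * l + 1))
  have g5 := mul_le_mul_of_nonneg_left (g1.trans (add_le_add le_rfl (mul_le_mul_of_nonneg_left
    (add_le_add le_rfl hc.le) (Nat.cast_nonneg l)))) (Nat.cast_nonneg (α := ℝ) (e + 1))
  change _ ≤ gsum (fun w => _ - _) + _ + _
  rw [g3]
  push_cast at g5 ⊢
  push_cast at g2 g4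
  linarith

theorem finS_loc (hρ : ∀ j : Fin (e + 2), (ρ j).IsHomogeneous (a + (e + 1 - j) * l)) (hx : x ≠ 0)
    (h1 : eval x (ρ (Fin.last _)) ≠ 0) : FinS (loc a l ρ x t) :=
  finS_sub ((finS_pos hx t l).const_mul _) (finS_ws hρ hx h1)

/-- The places of `T` by the theorem of Faltings. -/
theorem isum_loc (A : AV k ι) (hρ : ∀ j : Fin (e + 2), (ρ j).IsHomogeneous (a + (e + 1 - j) * l))
    (T : Finset (AbsoluteValue k ℝ)) {ε : ℝ} (hε : 0 < ε) : ∃ C : ℝ, ∀ (x : ι → k) (t : k), x ≠ 0 →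
      (∀ f ∈ A.I, eval x f = 0) → eval x (ρ (Fin.last _)) ≠ 0 →
      ∑ j, eval x (ρ j) * t ^ (j : ℕ) = 0 → isum T (loc a l ρ x t) ≤ ε * logHeight x + C := by
  obtain ⟨c, h, hc, hl⟩ := exists_ad_fam ρ
  obtain ⟨N, hN⟩ : ∃ N, N = (∑ w ∈ T, mlt w) * (e + 1 : ℕ) := ⟨_, rfl⟩
  have hN0 : 0 ≤ N := hN ▸ mul_nonneg (Finset.sum_nonneg fun w _ => mlt_nonneg w) (Nat.cast_nonneg _)
  have h1 := hρ (Fin.last _)
  rw [Fin.val_last, Nat.sub_self, zero_mul, add_zero] at h1
  choose! c' h2 using fun (w : AbsoluteValue k ℝ) (hw : Adm w) =>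
    A.prox_part h1 hw (show 0 < ε / (N + 1) by positivity)
  refine ⟨∑ w ∈ T, mlt w * ((e + 1 : ℕ) * (Real.log (e + 1 : ℕ) + c' w) + e * Real.log (c w)),
    fun x t hx hz h3 ht => ?_⟩
  have h4 : isum T (loc a l ρ x t) ≤ isum T fun w => (e + 1 : ℕ) * (ε / (N + 1) * logHeight x) +
      ((e + 1 : ℕ) * (Real.log (e + 1 : ℕ) + c' w) + e * Real.log (c w)) :=
    isum_mono T fun w hw _ => (loc_root hρ hx h3 ht (hl w)).trans (by
      have h5 : Real.log (nm w x ^ a / _) ≤ _ := h2 w hw x hx hz h3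
      rw [Real.log_div (pow_pos (nm_pos w hx) a).ne' (w.pos h3).ne', Real.log_pow] at h5
      have h6 := mul_le_mul_of_nonneg_left h5 (Nat.cast_nonneg (α := ℝ) (e + 1))
      unfold Cn.lam ell
      linarith)
  rw [isum_eq_sum T fun w => _ + _] at h4
  simp only [mul_add (mlt _) (_ * (_ * logHeight x)), Finset.sum_add_distrib, ← Finset.sum_mul] at h4
  rw [← mul_assoc, ← hN, ← mul_assoc] at h4
  refine h4.trans (add_le_add (mul_le_mul_of_nonneg_right ?_ (logHeight_nonneg _)) le_rfl)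
  rw [mul_div_assoc', div_le_iff₀ (by positivity)]
  linarith

theorem final (A : AV k ι) (hρ : ∀ j : Fin (e + 2), (ρ j).IsHomogeneous (a + (e + 1 - j) * l))
    (h0 : ρ 0 ∉ A.I) (h1 : ρ (Fin.last _) ∉ A.I) (hc : ∀ L : MvPolynomial ι k, L.IsHomogeneous 1 →
      L ∉ A.I → Core A fun j => ρ j * L ^ (l * j)) {ε : ℝ} (hε : 0 < ε) :
    ∃ (Θ : MvPolynomial ι k) (d : ℕ), Θ.IsHomogeneous d ∧ Θ ∉ A.I ∧
      ∀ T : Finset (AbsoluteValue k ℝ), ∃ C : ℝ, ∀ (x : ι → k) (t : k), x ≠ 0 →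
        (∀ f ∈ A.I, eval x f = 0) → eval x Θ ≠ 0 → ∑ j, eval x (ρ j) * t ^ (j : ℕ) = 0 →
        a * logHeight x ≤ osum T (loc a l ρ x t) + ε * logHeight x + C := by
  have hp := A.isPrime
  rcases exists_lin A (hρ 0) h0 with ⟨L, hL, hL', hh⟩ | ⟨C, hC⟩
  · have h3 : 0 < ε / 3 := by positivity
    obtain ⟨Θ, d, C, a1, a2, a3⟩ := hc L hL hL' _ h3
    obtain ⟨Θ', d', C', b1, b2, b3⟩ := A.gcd_part ![ρ 0, L ^ (a + (e + 1) * l)]
      (d := a + (e + 1) * l) (Fin.forall_fin_two.2 ⟨hρ 0, by simpa using hL.pow _⟩) hh h3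
    obtain ⟨C₀, c1⟩ := glob hρ hL
    refine ⟨Θ * Θ' * ρ (Fin.last _) * L, _, ((a1.mul b1).mul (hρ _)).mul hL, fun hm => ?_,
      fun T => ?_⟩
    · simp only [hp.mul_mem_iff_mem_or_mem, a2, b2, h1, hL', or_self] at hm
    obtain ⟨C₁, c2⟩ := isum_loc A hρ T h3
    refine ⟨C + C' + C₀ + C₁, fun x t hx hz hΘ ht => ?_⟩
    simp only [map_mul, mul_ne_zero_iff] at hΘ
    have e1 := a3 x (t / eval x L ^ l) hx hz hΘ.1.1.1 (ht ▸ Finset.sum_congr rfl fun j _ => by
      have := hΘ.2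
      rw [map_mul, map_pow, div_pow, ← pow_mul]
      field_simp)
    have e2 := (b3 x hx hz hΘ.1.1.2).2
    have e3 := c1 x t hx hΘ.1.2 hΘ.2
    have e4 := c2 x t hx hz hΘ.1.2 ht
    have e5 := isum_add_osum T (finS_loc (t := t) hρ hx hΘ.1.2)
    push_cast at e2
    linarith
  · obtain ⟨c, h, hc, hl⟩ := exists_ad_fam ρ
    refine ⟨_, _, hρ _, h1, fun T => ⟨a * C + h, fun x t hx hz hΘ _ => ?_⟩⟩
    have e1 := osum_mono T (finS_neg hc.fin) (finS_loc (t := t) hρ hx hΘ) fun w _ _ =>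
      (neg_le_neg (Real.log_le_log (ws_pos hx hΘ) (ws_le hρ hx (hl w)))).trans
        (le_sub_iff_add_le.2 (by
          rw [neg_add_cancel]
          exact mul_nonneg (Nat.cast_nonneg _) Real.posLog_nonneg))
    have e2 := osum_const_mul T hc.fin (-1)
    simp only [neg_mul, one_mul] at e2
    have e3 := mul_le_mul_of_nonneg_left (hC x hz) (Nat.cast_nonneg (α := ℝ) a)
    linarith [ad_osum_le hc T, mul_nonneg hε.le (logHeight_nonneg x)]

end Pool.Agent.Lib.MP_651af7_nt.Sh
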