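import Pool.Agent.Lib.MP_651af7_nt.Sh.AVoc
import Pool.Agent.Lib.MP_651af7_nt.Sh.OFin
import Pool.Agent.Lib.MP_651af7_nt.Jn.Gel

/-! From the height of the factors to the counting function. -/

namespace Pool.Agent.Lib.MP_651af7_nt.Sh

open MvPolynomial Height
open Pool.Agent.Lib.MP_651af7_nt.Av Pool.Agent.Lib.MP_651af7_nt.Av.AV
open Pool.Agent.Lib.MP_651af7_nt.Vj Pool.Agent.Lib.MP_8865d3_nt.Sv
open Pool.Agent.Lib.MP_651af7_nt.Cn (ell lam)

variable {k ι : Type} [Field k] [Fintype ι] {e a l : ℕ} {ρ : Fin (e + 2) → MvPolynomial ι k}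
  {x : ι → k} {g : Polynomial k} {L : MvPolynomial ι k} {w : AbsoluteValue k ℝ} {s : ℝ}

/-- The weighted maximum of the coefficients of a factor. -/
noncomputable def gs (l : ℕ) (g : Polynomial k) (x : ι → k) (w : AbsoluteValue k ℝ) : ℝ :=
  ⨆ j : Fin (g.natDegree + 1), w (g.coeff j) / nm w x ^ ((g.natDegree - j) * l)

/-- The local term of the inequality. -/
noncomputable def locA (a l : ℕ) (ρ : Fin (e + 2) → MvPolynomial ι k) (x : ι → k)
    (g : Polynomial k) (w : AbsoluteValue k ℝ) : ℝ :=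
  (e + 1 : ℕ) * Real.log (gs l g x w) - g.natDegree * Real.log (ws a l ρ x w)

omit [Fintype ι] in
theorem af_coeff {N : ℕ} (ρ : Fin N → MvPolynomial ι k) (x : ι → k) (j : Fin N) :
    (fx ρ x).coeff j = eval x (ρ j) := by
  simp [fx, Polynomial.coeff_monomial, Fin.val_inj]

omit [Fintype ι] in
theorem af_le {N : ℕ} (ρ : Fin (N + 1) → MvPolynomial ι k) (x : ι → k) :
    (fx ρ x).natDegree ≤ N :=
  Polynomial.natDegree_sum_le_of_forall_le _ _ fun j _ =>
    (Polynomial.natDegree_monomial_le _).trans (Nat.lt_succ_iff.1 j.2)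

omit [Fintype ι] in
theorem af_deg {N : ℕ} {ρ : Fin (N + 1) → MvPolynomial ι k} (h1 : eval x (ρ (Fin.last _)) ≠ 0) :
    (fx ρ x).natDegree = N :=
  Polynomial.natDegree_eq_of_le_of_coeff_ne_zero (af_le ρ x) ((af_coeff ρ x (Fin.last _)).trans_ne h1)

omit [Fintype ι] in
theorem af_ne {N : ℕ} {ρ : Fin N → MvPolynomial ι k} {j : Fin N} (h1 : eval x (ρ j) ≠ 0) :
    fx ρ x ≠ 0 := fun h => h1 (by rw [← af_coeff, h, Polynomial.coeff_zero])

theorem af_scale (g : Polynomial k) {u : k} (hu : u ≠ 0) :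
    g.comp (Polynomial.C u * Polynomial.X) = g.scaleRoots u⁻¹ * Polynomial.C (u ^ g.natDegree) := by
  ext j
  rw [Polynomial.comp_C_mul_X_coeff, Polynomial.coeff_mul_C, Polynomial.coeff_scaleRoots]
  rcases le_or_gt j g.natDegree with h | h
  · obtain ⟨m, hm⟩ := Nat.exists_eq_add_of_le h
    rw [hm, Nat.add_sub_cancel_left, pow_add, inv_pow]
    field_simp
  · rw [Polynomial.coeff_eq_zero_of_natDegree_lt h, zero_mul, zero_mul, zero_mul]

omit [Fintype ι] in
theorem af_twist (hg : g ∣ fx ρ x) (h0 : eval x L ≠ 0) :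
    g.scaleRoots (eval x L ^ l)⁻¹ ∣ fx (fun j => ρ j * L ^ (l * j)) x := by
  obtain ⟨q, hq⟩ := hg
  have h : fx (fun j => ρ j * L ^ (l * j)) x =
      (fx ρ x).comp (Polynomial.C (eval x L ^ l) * Polynomial.X) := by
    rw [fx, fx, Polynomial.sum_comp]
    refine Finset.sum_congr rfl fun j _ => ?_
    rw [Polynomial.monomial_comp]
    simp only [map_mul, map_pow, mul_pow, ← Polynomial.C_mul_X_pow_eq_monomial, pow_mul, mul_assoc]
  rw [h, hq, Polynomial.mul_comp, af_scale g (pow_ne_zero l h0), mul_assoc]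
  exact dvd_mul_right _ _

omit [Fintype ι] in
theorem le_gs (j : Fin (g.natDegree + 1)) :
    w (g.coeff j) / nm w x ^ ((g.natDegree - j) * l) ≤ gs l g x w :=
  le_ciSup (f := fun j : Fin (g.natDegree + 1) => w (g.coeff j) / nm w x ^ ((g.natDegree - j) * l))
    (Finite.bddAbove_range _) j

omit [Fintype ι] in
theorem one_le_gs (hg : g.Monic) : 1 ≤ gs l g x w := by
  simpa [hg.coeff_natDegree] using le_gs (l := l) (g := g) (x := x) (w := w) (Fin.last _)

theorem af_co (hg : g.Monic) (c : k) :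
    (fun j : Fin (g.natDegree + 1) => g.coeff j * c ^ (g.natDegree - j)) ≠ 0 := fun h => by
  simpa [hg.coeff_natDegree] using congrFun h (Fin.last _)

theorem loc_g (hg : g.Monic) (hx : x ≠ 0) (hL : L.IsHomogeneous 1) (h0 : eval x L ≠ 0) (s1 : 1 ≤ s)
    (hs' : pl w L ≤ s) : Real.log (nm w fun j : Fin (g.natDegree + 1) =>
      g.coeff j * (eval x L ^ l)⁻¹ ^ (g.natDegree - j)) ≤
      Real.log (gs l g x w) + g.natDegree * l * (lam 1 L x w + Real.log s) := by
  have pN := nm_pos w hx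
  have pL := w.pos h0
  have pn := nm_pos w (af_co hg (eval x L ^ l)⁻¹)
  obtain ⟨j, hj⟩ := exists_nm w fun j : Fin (g.natDegree + 1) =>
    g.coeff j * (eval x L ^ l)⁻¹ ^ (g.natDegree - j)
  rw [← hj] at pn ⊢
  rw [map_mul, map_pow, map_inv₀, map_pow] at pn ⊢
  have pg : 0 < w (g.coeff j) := pos_of_mul_pos_left pn (by positivity)
  have h1 := Real.log_le_log (by positivity) (le_gs (l := l) (g := g) (x := x) (w := w) j)
  have h2 := Cn.lam_ge hL hx h0 hs'
  have h3 : ((g.natDegree - j : ℕ) : ℝ) * l * (lam 1 L x w + Real.log s) ≤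
      g.natDegree * l * (lam 1 L x w + Real.log s) := by
    gcongr
    exact Nat.sub_le _ _
  have h4 : 0 ≤ ((g.natDegree - j : ℕ) : ℝ) * l * Real.log s :=
    mul_nonneg (by positivity) (Real.log_nonneg s1)
  rw [Real.log_div pg.ne' (by positivity), Real.log_pow, Nat.cast_mul] at h1
  rw [Real.log_mul pg.ne' (by positivity), Real.log_pow, Real.log_inv, Real.log_pow]
  refine le_trans ?_ (add_le_add h1 h3)
  unfold Cn.lam ell
  push_cast
  linarith

variable [NumberField k]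

omit [Fintype ι] [NumberField k] in
theorem af_cof (h1 : eval x (ρ (Fin.last _)) ≠ 0) (hg : g.Monic) (hd : g ∣ fx ρ x) :
    ∃ q : Polynomial k, q.Monic ∧ g.natDegree + q.natDegree = e + 1 ∧
      fx ρ x = g * (q * Polynomial.C (eval x (ρ (Fin.last _)))) := by
  obtain ⟨q, hq⟩ := hd
  have hq0 : q ≠ 0 := fun h => af_ne h1 (by rw [hq, h, mul_zero])
  have hl : q.leadingCoeff = eval x (ρ (Fin.last _)) := by
    rw [← af_coeff, Fin.val_last, ← Polynomial.leadingCoeff_monic_mul hg, ← hq,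
      Polynomial.leadingCoeff, af_deg h1]
  refine ⟨_, Polynomial.monic_mul_leadingCoeff_inv hq0, ?_, ?_⟩
  · rw [Polynomial.natDegree_mul_leadingCoeff_inv _ hq0, ← hg.natDegree_mul' hq0, ← hq, af_deg h1]
  · rw [mul_assoc, ← map_mul, hl, inv_mul_cancel₀ h1, map_one, mul_one, hq]

theorem loc_two (hw : Adm w) (hx : x ≠ 0) (h1 : eval x (ρ (Fin.last _)) ≠ 0) (hg : g.Monic)
    {q : Polynomial k} (hq : q.Monic) (hdeg : g.natDegree + q.natDegree = e + 1)
    (hd : fx ρ x = g * (q * Polynomial.C (eval x (ρ (Fin.last _))))) :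
    Real.log (gs l g x w) + Real.log (gs l q x w) ≤
      (3 * (e + 1) : ℕ) * Real.log (E (IsNonarchimedean w) 2) + Real.log (ws a l ρ x w) +
        lam a (ρ (Fin.last _)) x w := by
  have pN := nm_pos w hx
  have pM := ws_pos (a := a) (l := l) (w := w) hx h1
  have p1 := w.pos h1
  have pE := (ad_E (k := k) one_le_two).pos w
  have : Nonempty ι := ⟨(Function.ne_iff.1 hx).choose⟩
  obtain ⟨i, hi⟩ := exists_nm w x
  have hc : ∀ p : Polynomial k, (p.comp (Polynomial.C (x i ^ l) * Polynomial.X)).natDegree ≤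
      p.natDegree := fun p => Polynomial.natDegree_le_iff_coeff_eq_zero.2 fun m hm => by
    rw [Polynomial.comp_C_mul_X_coeff, Polynomial.coeff_eq_zero_of_natDegree_lt hm, zero_mul]
  obtain ⟨j, hj⟩ := exists_eq_ciSup_of_finite
    (f := fun j : Fin (g.natDegree + 1) => w (g.coeff j) / nm w x ^ ((g.natDegree - j) * l))
  obtain ⟨n, hn⟩ := exists_eq_ciSup_of_finite
    (f := fun j : Fin (q.natDegree + 1) => w (q.coeff j) / nm w x ^ ((q.natDegree - j) * l))
  have h2 := Jn.gl_div hw (n := 1) (a := e + 1) (e := e + 1) (b := e + 1)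
    (Q := (q * Polynomial.C (eval x (ρ (Fin.last _)))).comp (Polynomial.C (x i ^ l) * Polynomial.X))
    (y := g.comp (Polynomial.C (x i ^ l) * Polynomial.X))
    (G := (fx ρ x).comp (Polynomial.C (x i ^ l) * Polynomial.X))
    (M := ws a l ρ x w * nm w x ^ (a + (e + 1) * l))
    (by rw [pow_one, hd, Polynomial.mul_comp g, mul_comm])
    ((hc _).trans ((Polynomial.natDegree_mul_C_le _ _).trans (by omega)))
    ((hc g).trans (by omega)) ((hc _).trans (af_le ρ x)) (by positivity) (fun m => by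
      rw [Polynomial.comp_C_mul_X_coeff]
      rcases lt_or_ge m (e + 2) with h | h
      · have h8 := (div_le_iff₀ (pow_pos pN _)).1
          (le_ws (a := a) (l := l) (ρ := ρ) (x := x) (w := w) ⟨m, h⟩)
        have h10 : a + (e + 1) * l = a + (e + 1 - m) * l + l * m := by
          rw [add_assoc, mul_comm l, ← add_mul, Nat.sub_add_cancel (Nat.lt_succ_iff.1 h)]
        rw [af_coeff ρ x ⟨m, h⟩, map_mul, map_pow, map_pow, hi, ← pow_mul, h10, pow_add,
          ← mul_assoc]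
        exact mul_le_mul_of_nonneg_right h8 (by positivity)
      · rw [Polynomial.coeff_eq_zero_of_natDegree_lt ((af_le ρ x).trans_lt h), zero_mul, map_zero]
        positivity) n j
  have pg : 0 < w (g.coeff j) :=
    pos_of_mul_pos_left ((zero_lt_one.trans_le (one_le_gs hg)).trans_eq hj.symm) (by positivity)
  have pq : 0 < w (q.coeff n) :=
    pos_of_mul_pos_left ((zero_lt_one.trans_le (one_le_gs hq)).trans_eq hn.symm) (by positivity)
  rw [Polynomial.comp_C_mul_X_coeff, Polynomial.comp_C_mul_X_coeff, pow_one,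
    Polynomial.coeff_mul_C] at h2
  simp only [map_mul, map_pow, hi] at h2
  have h4 := Real.log_le_log (by positivity) h2
  have h5 : (g.natDegree : ℝ) * l + q.natDegree * l = (e + 1) * l := by
    rw [← add_mul, ← Nat.cast_add, hdeg, Nat.cast_add_one]
  rw [Real.log_mul (by positivity) (by positivity), Real.log_mul (by positivity) (by positivity),
    Real.log_mul pq.ne' p1.ne', Real.log_mul pg.ne' (by positivity),
    Real.log_mul (by positivity) (by positivity), Real.log_mul pM.ne' (by positivity)] at h4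
  simp only [Real.log_pow] at h4
  rw [gs, gs, ← hj, ← hn, Real.log_div pg.ne' (by positivity), Real.log_div pq.ne' (by positivity),
    Real.log_pow, Real.log_pow, Nat.cast_mul, Nat.cast_mul, Nat.cast_sub (Nat.lt_succ_iff.1 j.2),
    Nat.cast_sub (Nat.lt_succ_iff.1 n.2)]
  have h6 := congrArg (· * Real.log (nm w x)) h5
  unfold Cn.lam ell
  push_cast at h4 ⊢
  linarith

theorem loc_div (hw : Adm w) (hx : x ≠ 0) (h1 : eval x (ρ (Fin.last _)) ≠ 0) (hg : g.Monic)
    (hd : g ∣ fx ρ x) : Real.log (gs l g x w) ≤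
      (3 * (e + 1) : ℕ) * Real.log (E (IsNonarchimedean w) 2) + Real.log (ws a l ρ x w) +
        lam a (ρ (Fin.last _)) x w := by
  obtain ⟨q, hq, h2, h3⟩ := af_cof h1 hg hd
  exact (le_add_of_nonneg_right (Real.log_nonneg (one_le_gs hq))).trans
    (loc_two hw hx h1 hg hq h2 h3)

theorem locA_le (hρ : ∀ j : Fin (e + 2), (ρ j).IsHomogeneous (a + (e + 1 - j) * l)) (hw : Adm w)
    (hx : x ≠ 0) (h1 : eval x (ρ (Fin.last _)) ≠ 0) (hg : g.Monic) (hd : g ∣ fx ρ x) (s1 : 1 ≤ s)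
    (hs : ∀ j, pl w (ρ j) ≤ s) : locA a l ρ x g w ≤
      (e + 1 : ℕ) * ((3 * (e + 1) : ℕ) * Real.log (E (IsNonarchimedean w) 2) +
        lam a (ρ (Fin.last _)) x w) + (e + 1 : ℕ) * Real.log s := by
  have h2 := mul_le_mul_of_nonneg_left (loc_div (a := a) (l := l) hw hx h1 hg hd)
    (Nat.cast_nonneg (α := ℝ) (e + 1))
  have h3 : (g.natDegree : ℝ) ≤ (e + 1 : ℕ) :=
    Nat.cast_le.2 ((Polynomial.natDegree_le_of_dvd hd (af_ne h1)).trans (af_le ρ x))
  have h4 := mul_le_mul_of_nonneg_left (Real.log_le_log (ws_pos hx h1) (ws_le hρ hx hs))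
    (sub_nonneg.2 h3)
  have h5 := mul_nonneg (Nat.cast_nonneg (α := ℝ) g.natDegree) (Real.log_nonneg s1)
  unfold locA
  linarith

theorem finS_gs (hx : x ≠ 0) (g : Polynomial k) (l : ℕ) : FinS fun w => Real.log (gs l g x w) := by
  refine pf_of_le ((finS_abs (finS_nm fun j : Fin (g.natDegree + 1) => g.coeff j)).add
    (finS_abs (finS_nm x))) fun w h => ?_
  rw [add_eq_zero_iff_of_nonneg (abs_nonneg _) (abs_nonneg _), abs_eq_zero, abs_eq_zero] at h
  simp only [gs, Real.eq_one_of_pos_of_log_eq_zero (nm_pos w hx) h.2, one_pow, div_one]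
  exact h.1

theorem finS_locA (hρ : ∀ j : Fin (e + 2), (ρ j).IsHomogeneous (a + (e + 1 - j) * l)) (hx : x ≠ 0)
    (h1 : eval x (ρ (Fin.last _)) ≠ 0) (g : Polynomial k) : FinS (locA a l ρ x g) :=
  finS_sub ((finS_gs hx g l).const_mul _) ((finS_ws hρ hx h1).const_mul _)

/-- The sum over all places. -/
theorem globA (hρ : ∀ j : Fin (e + 2), (ρ j).IsHomogeneous (a + (e + 1 - j) * l))
    (hL : L.IsHomogeneous 1) : ∃ C : ℝ, ∀ (x : ι → k) (g : Polynomial k), x ≠ 0 →
      eval x (ρ (Fin.last _)) ≠ 0 → eval x L ≠ 0 → g.Monic →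
      (e + 1) * logHeight (fun j : Fin (g.natDegree + 1) =>
        g.coeff j * (eval x L ^ l)⁻¹ ^ (g.natDegree - j)) -
        g.natDegree * logHeight (fun j => eval x (ρ j * L ^ (l * j))) +
        g.natDegree * logHeight (fun i => eval x (![ρ 0, L ^ (a + (e + 1) * l)] i)) ≤
        gsum (locA a l ρ x g) + (e + 1) * g.natDegree * l * logHeight x + g.natDegree * C := by
  obtain ⟨c, h, hc, hl⟩ := exists_ad_fam (Option.elim · L ρ)
  refine ⟨(e + 1) * (l * h) + (a + (e + 1) * l + 1 : ℕ) * h, fun x g hx h1 h0 hg => ?_⟩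
  have f1 := finS_ws hρ hx h1
  have f2 := finS_gs hx g l
  have f3 := Cn.finS_lam 1 L x
  have n1 : (fun j => eval x (ρ j * L ^ (l * j))) ≠ 0 := fun h => by
    have := congrFun h (Fin.last _)
    rw [map_mul, map_pow] at this
    exact mul_ne_zero h1 (pow_ne_zero _ h0) this
  have n2 : (fun i => eval x (![ρ 0, L ^ (a + (e + 1) * l)] i)) ≠ 0 := fun h => by
    have : eval x (L ^ _) = 0 := congrFun h 1
    rw [map_pow] at this
    exact pow_ne_zero _ h0 this
  have g1 := gsum_mono (finS_nm _) (f2.add ((f3.add hc.fin).const_mul (g.natDegree * l)))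
    fun w _ => loc_g hg hx hL h0 (hc.one w) (hl w none)
  have g2 := gsum_mono (f1.add (finS_nm _)) ((hc.fin.const_mul _).add (finS_nm _)) fun w _ => by
    have h2 := Real.log_le_log (mul_pos (ws_pos hx h1) (nm_pos w n2))
      (loc_gcd hρ hx hL (hc.one w) (fun j => hl w (some j)) (hl w none))
    rwa [Real.log_mul (ws_pos hx h1).ne' (nm_pos w n2).ne',
      Real.log_mul (pow_pos (hc.pos w) _).ne' (nm_pos w n1).ne', Real.log_pow] at h2
  rw [gsum_nm (af_co hg _), gsum_add f2 ((f3.add hc.fin).const_mul _),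
    gsum_const_mul (f3.add hc.fin), gsum_add f3 hc.fin, Cn.gsum_lam 1 hx h0] at g1
  rw [gsum_add f1 (finS_nm _), gsum_add (hc.fin.const_mul _) (finS_nm _), gsum_const_mul hc.fin,
    gsum_nm n1, gsum_nm n2] at g2
  have g3 := gsum_sub (f2.const_mul (e + 1 : ℕ)) (f1.const_mul g.natDegree)
  rw [gsum_const_mul f2, gsum_const_mul f1] at g3
  have g4 := mul_le_mul_of_nonneg_left (g2.trans (add_le_add (mul_le_mul_of_nonneg_left hc.le
    (Nat.cast_nonneg _)) le_rfl)) (Nat.cast_nonneg (α := ℝ) g.natDegree)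
  have g5 := mul_le_mul_of_nonneg_left (g1.trans (add_le_add le_rfl (mul_le_mul_of_nonneg_left
    (add_le_add le_rfl hc.le) (by positivity)))) (Nat.cast_nonneg (α := ℝ) (e + 1))
  change _ ≤ gsum (fun w => _ - _) + _ + _
  rw [g3]
  push_cast at g4 g5 ⊢
  linarith

/-- The places of `T` by the theorem of Faltings. -/
theorem isum_locA (A : AV k ι) (hρ : ∀ j : Fin (e + 2), (ρ j).IsHomogeneous (a + (e + 1 - j) * l))
    (T : Finset (AbsoluteValue k ℝ)) {ε : ℝ} (hε : 0 < ε) : ∃ C : ℝ, ∀ (x : ι → k)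
      (g : Polynomial k), x ≠ 0 → (∀ f ∈ A.I, eval x f = 0) → eval x (ρ (Fin.last _)) ≠ 0 →
      g.Monic → g ∣ fx ρ x → isum T (locA a l ρ x g) ≤ ε * logHeight x + C := by
  obtain ⟨c, h, hc, hl⟩ := exists_ad_fam ρ
  obtain ⟨N, hN⟩ : ∃ N, N = (∑ w ∈ T, mlt w) * (e + 1 : ℕ) := ⟨_, rfl⟩
  have hN0 : 0 ≤ N := hN ▸ mul_nonneg (Finset.sum_nonneg fun w _ => mlt_nonneg w) (Nat.cast_nonneg _)
  have h1 := hρ (Fin.last _)
  rw [Fin.val_last, Nat.sub_self, zero_mul, add_zero] at h1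
  choose! c' h2 using fun (w : AbsoluteValue k ℝ) (hw : Adm w) =>
    A.prox_part h1 hw (show 0 < ε / (N + 1) by positivity)
  refine ⟨∑ w ∈ T, mlt w * ((e + 1 : ℕ) * ((3 * (e + 1) : ℕ) *
    Real.log (E (IsNonarchimedean w) 2) + c' w) + (e + 1 : ℕ) * Real.log (c w)),
    fun x g hx hz h3 hg hd => ?_⟩
  have h4 : isum T (locA a l ρ x g) ≤ isum T fun w => (e + 1 : ℕ) * (ε / (N + 1) * logHeight x) +
      ((e + 1 : ℕ) * ((3 * (e + 1) : ℕ) * Real.log (E (IsNonarchimedean w) 2) + c' w) +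
        (e + 1 : ℕ) * Real.log (c w)) :=
    isum_mono T fun w hw _ => (locA_le hρ hw hx h3 hg hd (hc.one w) (hl w)).trans (by
      have h5 : Real.log (nm w x ^ a / _) ≤ _ := h2 w hw x hx hz h3
      rw [Real.log_div (pow_pos (nm_pos w hx) a).ne' (w.pos h3).ne', Real.log_pow] at h5
      have h6 := mul_le_mul_of_nonneg_left h5 (Nat.cast_nonneg (α := ℝ) (e + 1))
      unfold Cn.lam ell
      linarith)
  rw [isum_eq_sum T fun w => _ + _] at h4
  simp only [mul_add (mlt _) (_ * (_ * logHeight x)), Finset.sum_add_distrib, ← Finset.sum_mul] at h4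
  rw [← mul_assoc, ← hN, ← mul_assoc] at h4
  refine h4.trans (add_le_add (mul_le_mul_of_nonneg_right ?_ (logHeight_nonneg _)) le_rfl)
  rw [mul_div_assoc', div_le_iff₀ (by positivity)]
  linarith

omit [Fintype ι] in
theorem af_ht {p : Polynomial k} {d : ℕ} (h : p.natDegree = d) :
    logHeight (fun j : Fin (p.natDegree + 1) => p.coeff j) =
      logHeight fun j : Fin (d + 1) => p.coeff j := by
  subst h
  rfl

theorem finalA (A : AV k ι) (hρ : ∀ j : Fin (e + 2), (ρ j).IsHomogeneous (a + (e + 1 - j) * l))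
    (h0 : ρ 0 ∉ A.I) (h1 : ρ (Fin.last _) ∉ A.I) (hc : ∀ L : MvPolynomial ι k, L.IsHomogeneous 1 →
      L ∉ A.I → CoreA A fun j => ρ j * L ^ (l * j)) {ε : ℝ} (hε : 0 < ε) :
    ∃ (Θ : MvPolynomial ι k) (d : ℕ), Θ.IsHomogeneous d ∧ Θ ∉ A.I ∧
      ∀ T : Finset (AbsoluteValue k ℝ), ∃ C : ℝ, ∀ (x : ι → k) (g : Polynomial k), x ≠ 0 →
        (∀ f ∈ A.I, eval x f = 0) → eval x Θ ≠ 0 → g.Monic → g ∣ fx ρ x →
        g.natDegree * a * logHeight x ≤ osum T (locA a l ρ x g) + ε * logHeight x + C := by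
  have hp := A.isPrime
  have hd : ∀ (x : ι → k) (g : Polynomial k) (C : ℝ), eval x (ρ (Fin.last _)) ≠ 0 → g ∣ fx ρ x →
      g.natDegree * C ≤ (e + 1) * |C| := fun x g C h3 hd =>
    (mul_le_mul_of_nonneg_left (le_abs_self C) (Nat.cast_nonneg _)).trans
      (mul_le_mul_of_nonneg_right (by
        exact_mod_cast (Polynomial.natDegree_le_of_dvd hd (af_ne h3)).trans (af_le ρ x))
        (abs_nonneg C))
  rcases exists_lin A (hρ 0) h0 with ⟨L, hL, hL', hh⟩ | ⟨C, hC⟩
  · have h3 : 0 < ε / (e + 3) := by positivity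
    obtain ⟨Θ, d, C, a1, a2, a3⟩ := hc L hL hL' _ h3
    obtain ⟨Θ', d', C', b1, b2, b3⟩ := A.gcd_part ![ρ 0, L ^ (a + (e + 1) * l)]
      (d := a + (e + 1) * l) (Fin.forall_fin_two.2 ⟨hρ 0, by simpa using hL.pow _⟩) hh h3
    obtain ⟨C₀, c1⟩ := globA hρ hL
    refine ⟨Θ * Θ' * ρ (Fin.last _) * L, _, ((a1.mul b1).mul (hρ _)).mul hL, fun hm => ?_,
      fun T => ?_⟩
    · simp only [hp.mul_mem_iff_mem_or_mem, a2, b2, h1, hL', or_self] at hm
    obtain ⟨C₁, c2⟩ := isum_locA A hρ T h3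
    refine ⟨C + (e + 1) * |C'| + (e + 1) * |C₀| + C₁, fun x g hx hz hΘ hg ht => ?_⟩
    simp only [map_mul, mul_ne_zero_iff] at hΘ
    have e1 := a3 x _ hx hz hΘ.1.1.1 ((Polynomial.monic_scaleRoots_iff _).2 hg) (af_twist ht hΘ.2)
    rw [af_ht (g.natDegree_scaleRoots _), g.natDegree_scaleRoots] at e1
    simp only [Polynomial.coeff_scaleRoots] at e1
    have e2 := mul_le_mul_of_nonneg_left (b3 x hx hz hΘ.1.1.2).2
      (Nat.cast_nonneg (α := ℝ) g.natDegree)
    have e3 := c1 x g hx hΘ.1.2 hΘ.2 hg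
    have e4 := c2 x g hx hz hΘ.1.2 hg ht
    have e5 := isum_add_osum T (finS_locA hρ hx hΘ.1.2 g)
    have e6 := hd x g C' hΘ.1.2 ht
    have e7 := hd x g C₀ hΘ.1.2 ht
    have e8 := hd x g (ε / (e + 3) * logHeight x) hΘ.1.2 ht
    have e9 : ε * logHeight x = (e + 3) * (ε / (e + 3) * logHeight x) := by field_simp
    rw [abs_of_nonneg (mul_nonneg h3.le (logHeight_nonneg x))] at e8
    push_cast at e2
    linarith
  · obtain ⟨c, h, hc, hl⟩ := exists_ad_fam ρ
    refine ⟨_, _, hρ _, h1, fun T => ⟨(e + 1) * |a * C| + (e + 1) * |h|,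
      fun x g hx hz hΘ hg ht => ?_⟩⟩
    have e1 := osum_mono T (hc.fin.const_mul (-g.natDegree)) (finS_locA hρ hx hΘ g)
      fun w _ _ => by
        have h2 := mul_le_mul_of_nonneg_left (Real.log_le_log (ws_pos hx hΘ) (ws_le hρ hx (hl w)))
          (Nat.cast_nonneg (α := ℝ) g.natDegree)
        have h3 := mul_nonneg (Nat.cast_nonneg (α := ℝ) (e + 1))
          (Real.log_nonneg (one_le_gs (l := l) (x := x) (w := w) hg))
        unfold locA
        linarith
    rw [osum_const_mul T hc.fin] at e1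
    have e2 := mul_le_mul_of_nonneg_left (ad_osum_le hc T) (Nat.cast_nonneg (α := ℝ) g.natDegree)
    have e3 := mul_le_mul_of_nonneg_left (hC x hz)
      (mul_nonneg (Nat.cast_nonneg (α := ℝ) g.natDegree) (Nat.cast_nonneg a))
    linarith [hd x g h hΘ ht, hd x g (a * C) hΘ ht, mul_nonneg hε.le (logHeight_nonneg x)]

/-- The other side comes from the cofactor. -/
theorem finalB (A : AV k ι) (hρ : ∀ j : Fin (e + 2), (ρ j).IsHomogeneous (a + (e + 1 - j) * l))
    (h0 : ρ 0 ∉ A.I) (h1 : ρ (Fin.last _) ∉ A.I) (hc : ∀ L : MvPolynomial ι k, L.IsHomogeneous 1 →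
      L ∉ A.I → CoreA A fun j => ρ j * L ^ (l * j)) {ε : ℝ} (hε : 0 < ε) :
    ∃ (Θ : MvPolynomial ι k) (d : ℕ), Θ.IsHomogeneous d ∧ Θ ∉ A.I ∧
      ∀ T : Finset (AbsoluteValue k ℝ), ∃ C : ℝ, ∀ (x : ι → k) (g : Polynomial k), x ≠ 0 →
        (∀ f ∈ A.I, eval x f = 0) → eval x Θ ≠ 0 → eval x (ρ (Fin.last _)) ≠ 0 ∧ (g.Monic →
          g ∣ fx ρ x → |g.natDegree * a * logHeight x - osum T (locA a l ρ x g)| ≤
            ε * logHeight x + C) := by
  obtain ⟨Θ, d, h2, h3, h4⟩ := finalA A hρ h0 h1 hc hε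
  obtain ⟨c, h, hA, hl⟩ := exists_ad_fam ρ
  obtain ⟨h', hE⟩ : ∃ h', Ad (fun v : AbsoluteValue k ℝ => E (IsNonarchimedean v) 2) h' :=
    ⟨_, ad_E one_le_two⟩
  have h5 := hρ (Fin.last _)
  rw [Fin.val_last, Nat.sub_self, zero_mul, add_zero] at h5
  refine ⟨_, _, h2.mul h5, fun h => (A.isPrime.mem_or_mem h).elim h3 h1, fun T => ?_⟩
  obtain ⟨C, h4⟩ := h4 T
  refine ⟨C + (e + 1 : ℕ) * ((3 * (e + 1) : ℕ) * h' + h), fun x g hx hz hΘ => ?_⟩
  rw [map_mul, mul_ne_zero_iff] at hΘ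
  refine ⟨hΘ.2, fun hg hd => ?_⟩
  obtain ⟨q, hq, h6, h7⟩ := af_cof hΘ.2 hg hd
  have e1 := h4 x g hx hz hΘ.1 hg hd
  have e2 := h4 x q hx hz hΘ.1 hq ⟨_, h7.trans (mul_left_comm _ _ _)⟩
  have h8 : (g.natDegree : ℝ) + q.natDegree = (e + 1 : ℕ) := by exact_mod_cast h6
  have f1 := finS_locA hρ hx hΘ.2 g
  have f2 := finS_locA hρ hx hΘ.2 q
  have f3 := Cn.finS_lam a (ρ (Fin.last _)) x
  have f4 := hE.fin.const_mul (3 * (e + 1) : ℕ)
  have e3 := osum_mono T (f1.add f2) ((f4.add f3).const_mul (e + 1 : ℕ)) fun w hw _ => by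
    have h9 := mul_le_mul_of_nonneg_left (loc_two (a := a) (l := l) hw hx hΘ.2 hg hq h6 h7)
      (Nat.cast_nonneg (α := ℝ) (e + 1))
    have h10 := congrArg (· * Real.log (ws a l ρ x w)) h8
    unfold locA
    linarith
  rw [osum_add T f1 f2, osum_const_mul T (f4.add f3), osum_add T f4 f3,
    osum_const_mul T hE.fin] at e3
  have e4 := osum_le_gsum T (f3.add hA.fin) fun w _ => Cn.lam_ge h5 hx hΘ.2 (hl w _)
  rw [osum_add T f3 hA.fin, gsum_add f3 hA.fin, Cn.gsum_lam a hx hΘ.2] at e4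
  have e5 := osum_nonneg T (f := fun w => Real.log (c w)) fun w _ _ => Real.log_nonneg (hA.one w)
  have e6 := mul_le_mul_of_nonneg_left (add_le_add (mul_le_mul_of_nonneg_left (ad_osum_le hE T)
    (Nat.cast_nonneg (3 * (e + 1)))) (show osum T (lam a (ρ (Fin.last _)) x) ≤
      a * logHeight x + h by linarith [hA.le])) (Nat.cast_nonneg (α := ℝ) (e + 1))
  have e7 := mul_nonneg (Nat.cast_nonneg (α := ℝ) (e + 1)) (add_nonneg
    (mul_nonneg (Nat.cast_nonneg (α := ℝ) (3 * (e + 1))) hE.nonneg) hA.nonneg)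
  have e8 := congrArg (· * (a * logHeight x)) h8
  exact abs_le.2 ⟨by linarith, by linarith⟩

end Pool.Agent.Lib.MP_651af7_nt.Sh
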