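import Mathlib

/-! The norm of a quotient of two values of a divisor of an irreducible polynomial. -/

namespace Pool.Agent.Lib.MP_651af7_nt.Sh

open Polynomial IntermediateField

variable {M K : Type} [Field M] [Field K] [Algebra M K]

theorem nrm_min [FiniteDimensional M K] (z : K) :
    Algebra.norm M z ^ (2 * (minpoly M z).natDegree) =
      (minpoly M z).coeff 0 ^ (2 * Module.finrank M K) := by
  have hz : IsIntegral M z := .of_finite M z
  have h1 := Algebra.PowerBasis.norm_gen_eq_coeff_zero_minpoly (adjoin.powerBasis hz)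
  rw [adjoin.powerBasis_gen, minpoly_gen] at h1
  rw [Algebra.norm_eq_norm_adjoin M z, h1, ← Module.finrank_mul_finrank M M⟮z⟯ K,
    adjoin.finrank hz, ← pow_mul, mul_left_comm, mul_pow, pow_right_comm,
    (even_two_mul _).neg_one_pow, one_pow, one_mul, mul_comm (minpoly M z).natDegree]

theorem nrm_val [FiniteDimensional M K] {f : M[X]} (hf : Irreducible f) {r : Multiset K}
    (hr : ∀ t ∈ r, aeval t f = 0) (a : M) :
    Algebra.norm M (r.map fun t => algebraMap M K a - t).prod ^ (2 * f.natDegree) =
      (f.eval a * f.leadingCoeff⁻¹) ^ (2 * Module.finrank M K * r.card) := by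
  rw [pow_mul _ (2 * Module.finrank M K), map_multiset_prod, Multiset.map_map,
    ← Multiset.prod_map_pow, ← Multiset.prod_replicate, ← Multiset.map_const']
  refine congrArg _ (Multiset.map_congr rfl fun t ht => ?_)
  have h2 := nrm_min (M := M) (t - algebraMap M K a)
  rw [minpoly.sub_algebraMap, ← minpoly.eq_of_irreducible hf (hr t ht), natDegree_comp,
    natDegree_X_add_C, mul_one, natDegree_mul_C (inv_ne_zero (leadingCoeff_ne_zero.2 hf.ne_zero)),
    coeff_zero_eq_eval_zero] at h2
  rw [Function.comp_apply, ← neg_sub, neg_eq_neg_one_mul, map_mul, mul_pow, h2,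
    show (-1 : K) = algebraMap M K (-1) by simp, Algebra.norm_algebraMap, pow_right_comm,
    (even_two_mul _).neg_one_pow]
  simp

/-- The constant coefficient of the minimal polynomial of `g (al) / g (be)`. -/
theorem nrm_pow {f : M[X]} (hf : Irreducible f) {g : K[X]} (hg : g ∣ f.map (algebraMap M K))
    (al be : M) (_hb : f.eval be ≠ 0) {s : K}
    (hs : s = g.eval (algebraMap M K al) / g.eval (algebraMap M K be)) :
    IsIntegral M s ∧ ∃ m, 0 < m ∧ (minpoly M s).coeff 0 ^ (f.natDegree * m) =
      (f.eval al / f.eval be) ^ (g.natDegree * (minpoly M s).natDegree * m) := by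
  let Ω := AlgebraicClosure K
  let E := adjoin M (f.rootSet Ω)
  have : FiniteDimensional M E := finiteDimensional_adjoin fun t ht =>
    (isAlgebraic_of_mem_rootSet ht).isIntegral
  have g0 : g ≠ 0 := ne_zero_of_dvd_ne_zero (map_ne_zero hf.ne_zero) hg
  have hsp := IsAlgClosed.splits (g.map (algebraMap K Ω))
  have h0 : ∀ t ∈ (g.map (algebraMap K Ω)).roots, aeval t f = 0 := fun t ht => by
    have h := (isRoot_of_mem_roots ht).dvd (map_dvd (algebraMap K Ω) hg)
    rwa [Polynomial.map_map, ← IsScalarTower.algebraMap_eq, IsRoot, eval_map_algebraMap] at h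
  obtain ⟨r, hr⟩ : ∃ r : Multiset E, r.map (algebraMap E Ω) = (g.map (algebraMap K Ω)).roots :=
    CanLift.prf _ fun t ht => subset_adjoin M _ ((mem_rootSet_of_ne hf.ne_zero).2 (h0 t ht))
  have h1 : ∀ t ∈ r, aeval t f = 0 := fun t ht => (algebraMap E Ω).injective (by
    rw [← aeval_algebraMap_apply, h0 _ (hr ▸ Multiset.mem_map_of_mem _ ht), map_zero])
  have h2 : ∀ a : M, algebraMap K Ω (g.eval (algebraMap M K a)) = algebraMap K Ω g.leadingCoeff *
      algebraMap E Ω (r.map fun t => algebraMap M E a - t).prod := fun a => by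
    rw [← eval₂_at_apply, ← eval_map, hsp.eval_eq_prod_roots, leadingCoeff_map, ← hr,
      map_multiset_prod, Multiset.map_map, Multiset.map_map]
    simp only [Function.comp_def, map_sub, ← IsScalarTower.algebraMap_apply]
  have hl : f.leadingCoeff⁻¹ ≠ 0 := inv_ne_zero (leadingCoeff_ne_zero.2 hf.ne_zero)
  have hd : g.natDegree = r.card := by
    rw [← natDegree_map (algebraMap K Ω), hsp.natDegree_eq_card_roots, ← hr, Multiset.card_map]
  have h3 := nrm_val hf h1 al
  have h4 := nrm_val hf h1 be
  have h5 := h2 al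
  have h6 := h2 be
  generalize (r.map fun t => algebraMap M E al - t).prod = u at h3 h5
  generalize (r.map fun t => algebraMap M E be - t).prod = v at h4 h6
  have h7 : algebraMap K Ω s = algebraMap E Ω (u / v) := by
    rw [hs, map_div₀, map_div₀, h5, h6, mul_div_mul_left _ _
      ((_root_.map_ne_zero _).2 (leadingCoeff_ne_zero.2 g0))]
  have h8 : minpoly M s = minpoly M (u / v) := by
    rw [← minpoly.algebraMap_eq (algebraMap K Ω).injective, h7,
      minpoly.algebraMap_eq (algebraMap E Ω).injective]
  refine ⟨(isIntegral_algebraMap_iff (algebraMap K Ω).injective).1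
    (h7 ▸ (IsIntegral.of_finite M _).algebraMap), 2 * Module.finrank M E,
    Nat.mul_pos two_pos Module.finrank_pos, ?_⟩
  have h9 : Algebra.norm M (u / v) = Algebra.norm M u / Algebra.norm M v := by
    rw [div_eq_mul_inv, map_mul, Algebra.norm_inv, div_eq_mul_inv]
  rw [h8, mul_comm f.natDegree, pow_mul, ← nrm_min, h9, ← pow_mul, mul_right_comm, pow_mul, div_pow,
    h3, h4, ← div_pow, mul_div_mul_right _ _ hl, ← pow_mul, hd]
  congr 1
  ring

end Pool.Agent.Lib.MP_651af7_nt.Sh
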