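import Pool.Agent.Lib.MP_651af7_nt.Sh.ANrm
import Pool.Agent.Lib.MP_651af7_nt.Nc.RDefs
import Pool.Agent.Lib.MP_651af7_nt.Nc.Pen
import Pool.Agent.Lib.MP_651af7_nt.Av.LosB

/-! A factor of an irreducible equation has its share of the height. -/

namespace Pool.Agent.Lib.MP_651af7_nt.Sh

open Height Filter Polynomial
open Pool.Agent.Lib.MP_651af7_nt.Av Pool.Agent.Lib.MP_651af7_nt.Nc

variable {k α : Type} [Field k] {U : Ultrafilter α}

variable (U) in
/-- The family `p` represents the polynomial `P`. -/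
def PR (P : (Up U k)[X]) (p : α → k[X]) : Prop :=
  ∃ Q : (α → k)[X], P = Q.map (germ U) ∧ ∀ᶠ m in U, Q.map (Pi.evalRingHom (fun _ => k) m) = p m

section

variable {P P' : (Up U k)[X]} {p p' : α → k[X]}

theorem PR.coeff (h : PR U P p) (j : ℕ) : P.coeff j = germ U fun m => (p m).coeff j := by
  obtain ⟨Q, rfl, h⟩ := h
  rw [coeff_map, germ_eq]
  exact h.mono fun m hm => by rw [← hm, coeff_map]; rfl

theorem PR.eval (h : PR U P p) (c : ℤ) :
    P.eval (c : Up U k) = germ U fun m => (p m).eval (c : k) := by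
  obtain ⟨Q, rfl, h⟩ := h
  rw [eval_intCast_map, germ_eq]
  exact h.mono fun m hm => by rw [← hm, eval_intCast_map]; rfl

theorem PR.mul (h : PR U P p) (h' : PR U P' p') : PR U (P * P') fun m => p m * p' m := by
  obtain ⟨Q, rfl, h⟩ := h
  obtain ⟨Q', rfl, h'⟩ := h'
  exact ⟨Q * Q', (Polynomial.map_mul _).symm, (h.and h').mono fun m hm => by
    rw [Polynomial.map_mul, hm.1, hm.2]⟩

theorem PR.eq (h : PR U P p) (h' : PR U P' p') (he : ∀ᶠ m in U, p m = p' m) : P = P' := by
  ext j
  rw [h.coeff, h'.coeff, germ_eq]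
  exact he.mono fun m hm => by rw [hm]

theorem exists_pr {N : ℕ} (h : ∀ᶠ m in U, (p m).natDegree ≤ N) : ∃ P, PR U P p :=
  ⟨_, ∑ j ∈ Finset.range (N + 1), monomial j fun m => (p m).coeff j, rfl, h.mono fun m hm => by
    simp only [Polynomial.map_sum, map_monomial, Pi.evalRingHom_apply]
    exact (as_sum_range' _ _ (Nat.lt_succ_of_le hm)).symm⟩

end

theorem germ_div (f g : α → k) : germ U f / germ U g = germ U fun m => f m / g m := rfl

theorem coeff_fin {R : Type} [Semiring R] {N : ℕ} (a : Fin N → R) (j : Fin N) :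
    (∑ i : Fin N, monomial i (a i)).coeff j = a j := by
  simp only [finsetSum_coeff, coeff_monomial, Fin.val_inj, Finset.sum_ite_eq', Finset.mem_univ,
    if_true]

theorem natDegree_fin {R : Type} [Semiring R] {N : ℕ} (a : Fin (N + 1) → R) :
    (∑ i : Fin (N + 1), monomial i (a i)).natDegree ≤ N :=
  natDegree_sum_le_of_forall_le _ _ fun j _ =>
    (natDegree_monomial_le _).trans (Nat.lt_succ_iff.1 j.2)

variable [NumberField k]

theorem ht_ratio (d : ℕ) (b c : ℤ) : ∃ C : ℝ, ∀ g : k[X], g.natDegree ≤ d →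
    logHeight₁ (g.eval (b : k) / g.eval (c : k)) ≤
      logHeight (fun j : Fin (d + 1) => g.coeff j) + C := by
  refine ⟨totalWeight k * Real.log (Nat.card (Fin (d + 1))) +
    logHeight fun p : Fin 2 × Fin (d + 1) => ![(b : k), c] p.1 ^ (p.2 : ℕ), fun g hg => ?_⟩
  have h1 := logHeight_linearMap_apply_le
    (fun p : Fin 2 × Fin (d + 1) => ![(b : k), c] p.1 ^ (p.2 : ℕ)) fun j => g.coeff j
  rw [logHeight₁_div_eq_logHeight]
  refine le_trans (le_of_eq (congrArg _ (funext fun i => ?_))) (h1.trans (add_comm _ _).le)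
  have h2 : ∀ z : k, g.eval z = ∑ j : Fin (d + 1), z ^ (j : ℕ) * g.coeff j := fun z => by
    rw [eval_eq_sum_range' (Nat.lt_succ_of_le hg), Finset.sum_range]
    exact Finset.sum_congr rfl fun _ _ => mul_comm _ _
  fin_cases i <;> simp [h2]

variable {q : α → ℝ} {M : Type} [Field M] [Algebra M (Up U k)]

/-- The values at two integers. -/
theorem shr_pair (hS : Shr (k := k) U q M) {p : M[X]} (hp : Irreducible p) {f g : α → k[X]}
    {G : (Up U k)[X]} (hf : PR U (p.map (algebraMap M _)) f) (hg : PR U G g)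
    (hd : G ∣ p.map (algebraMap M _)) (b c : ℤ) (hc : p.eval (c : M) ≠ 0) {ε : ℝ} (hε : 0 < ε) :
    ∀ᶠ m in U, G.natDegree * logHeight₁ ((f m).eval (b : k) / (f m).eval (c : k)) ≤
      p.natDegree * (logHeight₁ ((g m).eval (b : k) / (g m).eval (c : k)) + ε * |q m|) := by
  have e1 : (germ U fun m => (g m).eval (b : k) / (g m).eval (c : k)) =
      G.eval (algebraMap M _ (b : M)) / G.eval (algebraMap M _ (c : M)) := by
    rw [map_intCast, map_intCast, hg.eval, hg.eval, germ_div]
  obtain ⟨h1, n, hn, h2⟩ := nrm_pow hp hd b c hc e1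
  obtain ⟨s, hs⟩ : ∃ s, s = germ U fun m => (g m).eval (b : k) / (g m).eval (c : k) := ⟨_, rfl⟩
  rw [← hs] at h1 h2
  obtain ⟨d, hd'⟩ := Nat.exists_eq_add_one_of_ne_zero (minpoly.natDegree_pos h1).ne'
  choose r hr using fun j : Fin (d + 2) =>
    germ_surj U (algebraMap M (Up U k) ((minpoly M s).coeff j))
  have h3 := hS d _ _ (fun m j => r j m) (minpoly.irreducible h1) hd'
    ((congrArg (fun z => aeval z (minpoly M s)) hs).symm.trans (minpoly.aeval M s))
    (fun j => (hr j).symm) ε hε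
  have h4 : ∀ᶠ m in U, r (Fin.last _) m = 1 := (germ_eq U).1 (by
    rw [hr, Fin.val_last, ← hd', (minpoly.monic h1).coeff_natDegree, map_one]
    exact (map_one (germ U)).symm)
  have h5 := congrArg (algebraMap M (Up U k)) h2
  rw [map_pow, map_pow, map_div₀, ← eval_intCast_map, ← eval_intCast_map, hf.eval, hf.eval,
    germ_div, show algebraMap M (Up U k) ((minpoly M s).coeff 0) = _ from (hr 0).symm,
    ← map_pow (germ U), ← map_pow (germ U), germ_eq, hd'] at h5
  filter_upwards [h3, h4, h5] with m g1 g2 g3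
  have g4 := logHeight₁_div_le (fun j => r j m) 0 (Fin.last _)
  have g5 := congrArg logHeight₁ g3
  simp only [Pi.pow_apply, logHeight₁_pow] at g5
  rw [g2, div_one] at g4
  have g6 : ε * q m ≤ (d + 1) * (ε * |q m|) := by
    have := mul_nonneg hε.le (abs_nonneg (q m))
    have := mul_le_mul_of_nonneg_left (le_abs_self (q m)) hε.le
    nlinarith [Nat.cast_nonneg (α := ℝ) d]
  have n0 : (0 : ℝ) < n * (d + 1) := by positivity
  refine le_of_mul_le_mul_left ?_ n0
  have g7 := mul_le_mul_of_nonneg_left (g4.trans (g1.trans (add_le_add le_rfl g6)))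
    (Nat.cast_nonneg (α := ℝ) (p.natDegree * n))
  push_cast at g5 g7
  nlinarith

theorem shr_factor (hS : Shr (k := k) U q M) (hB : Bdd (k := k) U q M) (hq : Tendsto q U atTop)
    {e d : ℕ} {p : M[X]} (hp : Irreducible p) (he : p.natDegree = e + 1)
    {a : α → Fin (e + 2) → k}
    (ha : ∀ j : Fin (e + 2), algebraMap M (Up U k) (p.coeff j) = germ U fun m => a m j)
    {g : α → k[X]} (hg : ∀ᶠ m in U, (g m).Monic ∧ (g m).natDegree = d ∧
      g m ∣ ∑ j : Fin (e + 2), monomial j (a m j)) {ε : ℝ} (hε : 0 < ε) :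
    ∀ᶠ m in U, d * logHeight (a m) ≤
      (e + 1) * logHeight (fun j : Fin (d + 1) => (g m).coeff j) + ε * q m := by
  have : CharZero (Up U k) := charZero_of_injective_algebraMap (algebraMap k _).injective
  have : CharZero M := (algebraMap M (Up U k)).charZero
  obtain ⟨f, hf⟩ : ∃ f : α → k[X], f = fun m => ∑ j : Fin (e + 2), monomial j (a m j) := ⟨_, rfl⟩
  have f1 : ∀ m, (f m).natDegree ≤ e + 1 := fun m => hf ▸ natDegree_fin _
  obtain ⟨F, hF⟩ := exists_pr (U := U) (.of_forall f1)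
  obtain rfl : F = p.map (algebraMap M _) := by
    ext j
    rw [hF.coeff, coeff_map]
    by_cases hj : j < e + 2
    · rw [ha ⟨j, hj⟩, hf]
      exact congrArg _ (funext fun m => coeff_fin (a m) ⟨j, hj⟩)
    · rw [coeff_eq_zero_of_natDegree_lt (by omega), map_zero, germ_eq_zero]
      exact .of_forall fun m => coeff_eq_zero_of_natDegree_lt (by have := f1 m; omega)
  obtain ⟨G, hG⟩ := exists_pr (hg.mono fun m h => h.2.1.le)
  have g1 : G.natDegree = d := natDegree_eq_of_le_of_coeff_ne_zero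
    (natDegree_le_iff_coeff_eq_zero.2 fun j hj => by
      rw [hG.coeff, germ_eq_zero]
      exact hg.mono fun m h => coeff_eq_zero_of_natDegree_lt (h.2.1.trans_lt hj)) (by
      rw [hG.coeff, germ_ne_zero]
      exact hg.mono fun m h => by rw [← h.2.1, h.1.coeff_natDegree]; exact one_ne_zero)
  obtain ⟨H, hH⟩ := exists_pr (U := U) (p := fun m => f m /ₘ g m) (N := e + 1)
    (.of_forall fun m => (natDegree_le_natDegree (degree_divByMonic_le _ _)).trans (f1 m))
  have g2 : G ∣ p.map (algebraMap M _) := ⟨H, hF.eq (hG.mul hH) (hg.mono fun m h => by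
    have h1 := modByMonic_add_div (f m) (g m)
    rw [(modByMonic_eq_zero_iff_dvd h.1).2 (hf ▸ h.2.2), zero_add] at h1
    exact h1.symm)⟩
  choose K hK using fun j : Fin (e + 2) => hB _ _ (ha j)
  obtain ⟨s, hs⟩ := exists_nat_ge (3 * ((e + 2 : ℕ) * (d * ∑ j, |K j|)) / ε)
  have h1 : {z : ℤ | p.IsRoot z}.Finite :=
    (finite_setOfPred_isRoot hp.ne_zero).preimage Int.cast_injective.injOn
  let c : Fin (s + 1) → ℤ := fun i => h1.infinite_compl.natEmbedding _ i
  have c1 : Function.Injective c := fun i j h =>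
    Fin.ext ((h1.infinite_compl.natEmbedding _).injective (Subtype.ext h))
  have c2 : ∀ i, p.eval (c i : M) ≠ 0 := fun i => (h1.infinite_compl.natEmbedding _ i).2
  obtain ⟨C, -, hC⟩ := pen (e + 2) c1
  choose D hD using fun i j => ht_ratio (k := k) d (c i) (c j)
  have e0 : (0 : ℝ) < e + 1 := by positivity
  have h2 := eventually_all.2 fun i => eventually_all.2 fun j =>
    shr_pair hS hp hF hG g2 (c i) (c j) (c2 j) (show 0 < ε / (3 * (e + 1)) by positivity)
  have h3 : ∀ᶠ m in U, ∀ i, (f m).eval (c i : k) ≠ 0 := eventually_all.2 fun i => by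
    rw [← germ_ne_zero, ← hF.eval, eval_intCast_map]
    exact (_root_.map_ne_zero _).2 (c2 i)
  filter_upwards [h2, h3, hg, eventually_all.2 hK, hq.eventually_ge_atTop 0,
    (hq.const_mul_atTop (show 0 < ε / 3 by positivity)).eventually_ge_atTop
      |(e + 1) * ∑ i, ∑ j, D i j + d * (C * totalWeight k)|] with m g3 g4 g5 g6 g7 g8
  have l1 : ∀ i, (f m).eval (c i : k) = ∑ b : Fin (e + 2), (c i : k) ^ (b : ℕ) * a m b := by
    intro i
    simp only [hf, eval_finsetSum, eval_monomial, mul_comm]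
  have l2 := hC k (a m) _ (fun h => g4 0 (by simp [l1, h])) l1 g4
  have l3 : d * ∑ i, ∑ j, logHeight₁ ((f m).eval (c i : k) / (f m).eval (c j : k)) ≤
      ∑ i, ∑ j, ((e + 1) * logHeight (fun j : Fin (d + 1) => (g m).coeff j) + ε / 3 * q m +
        (e + 1) * D i j) := by
    simp only [Finset.mul_sum]
    refine Finset.sum_le_sum fun i _ => Finset.sum_le_sum fun j _ => ?_
    have l4 := g3 i j
    have l5 := mul_le_mul_of_nonneg_left (hD i j (g m) g5.2.1.le) e0.le
    have l6 : (e + 1) * (ε / (3 * (e + 1)) * q m) = ε / 3 * q m := by field_simp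
    rw [g1, he, abs_of_nonneg g7, Nat.cast_add_one, mul_add, l6] at l4
    linarith
  simp only [Finset.sum_add_distrib, Finset.sum_const, Finset.card_univ, Fintype.card_fin,
    nsmul_eq_mul, ← Finset.mul_sum] at l3
  have l4 : logHeight (a m) ≤ (∑ j, |K j|) * q m := by
    rw [Finset.sum_mul]
    exact (logHeight_le_sum _).trans (Finset.sum_le_sum fun j _ => (g6 j).trans
      (mul_le_mul_of_nonneg_right (le_abs_self _) g7))
  rw [div_le_iff₀ hε] at hs
  have l5 := mul_le_mul_of_nonneg_left l2 (Nat.cast_nonneg (α := ℝ) d)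
  have l6 := mul_le_mul_of_nonneg_left l4 (Nat.cast_nonneg (α := ℝ) ((e + 2) * d))
  have l7 := mul_le_mul_of_nonneg_right hs g7
  have l8 := (le_abs_self _).trans g8
  have l9 := mul_nonneg hε.le g7
  obtain ⟨S, hS'⟩ : ∃ S : ℝ, S = (s + 1 : ℕ) := ⟨_, rfl⟩
  have s1 : (s : ℝ) + 1 = S := by rw [hS']; push_cast; rfl
  have s2 : 1 ≤ S := by linarith [Nat.cast_nonneg (α := ℝ) s]
  rw [← hS'] at l3 l5
  have l10 : ((e + 2 : ℕ) * d : ℝ) * logHeight (a m) ≤ S * (ε / 3 * q m) := by
    push_cast at l6 l7 ⊢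
    nlinarith
  have l11 := mul_le_mul_of_nonneg_left l10 (zero_le_one.trans s2)
  have l12 : ε / 3 * q m ≤ S * S * (ε / 3 * q m) :=
    le_mul_of_one_le_left (by linarith) (by nlinarith)
  refine le_of_mul_le_mul_left ?_ (show 0 < S * S by positivity)
  nlinarith

end Pool.Agent.Lib.MP_651af7_nt.Sh
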