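import Pool.Agent.Lib.MP_651af7_nt.Jn.Defs

/-! Sheets of finite covers of abelian varieties: vocabulary of the engine. -/

namespace Pool.Agent.Lib.MP_651af7_nt.Sh

open MvPolynomial Finset Height
open Pool.Agent.Lib.MP_651af7_nt.Av Pool.Agent.Lib.MP_651af7_nt.Av.AV
open Pool.Agent.Lib.MP_651af7_nt.Jn (rr)

/-- The value of `P` at `(T, x)` as a polynomial in `T`. -/
noncomputable def pT {k ι R : Type} [Field k] [CommRing R] [Algebra k R] (x : ι → R)
    (P : MvPolynomial (Option ι) k) : Polynomial R :=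
  aeval (fun c : Option ι => c.elim Polynomial.X fun a => Polynomial.C (x a)) P

/-- The data attached to one point of the cover. -/
structure Blk {k ι : Type} [Field k] (B : AV k ι) (g e : ℕ) where
  /-- the point of the abelian variety -/
  P : B.Pt k
  /-- its coordinates and the root -/
  z : Option ι → k
  /-- the chart of the cover -/
  C : Chart k (Option ι) g
  /-- the coefficients of the equation -/
  ρ : Fin (e + 2) → MvPolynomial ι k

namespace Blk

variable {k ι : Type} [Field k] {B : AV k ι} {g e : ℕ} (b : Blk B g e)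

/-- The coordinates of the point. -/
def x (a : ι) : k := b.z (some a)

/-- The root. -/
def t : k := b.z none

/-- The equation of the cover. -/
noncomputable def R : MvPolynomial (Option ι) k :=
  ∑ j, rename some (b.ρ j) * X none ^ (j : ℕ)

/-- The ideal of the affine part `x a = 1` of the cover. -/
noncomputable def J (a : ι) : Ideal (MvPolynomial (Option ι) k) :=
  B.I.map (rename some : MvPolynomial ι k →ₐ[k] _) ⊔ Ideal.span {X (some a) - 1, b.R}

/-- The derivative of the equation at the root. -/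
noncomputable def θ : k := (rr b.ρ b.x).derivative.eval b.t

/-- The point lies on the cover, which is unramified there, and the equation is the minimal
polynomial of its root at the generic point. -/
structure Geom (μ : ℕ) : Prop where
  rep : Rep b.P b.x
  on : ∃ a, b.C.a₀ = some a ∧ b.C.On (b.J a) b.z
  atx : b.C.At b.z
  hom : ∀ j, (b.ρ j).IsHomogeneous μ
  lead : eval b.x (b.ρ (Fin.last _)) ≠ 0
  sep : b.θ ≠ 0
  div : ∀ (F : Type) [Field F] [Algebra k F] (x : ι → F) (t : F), (∀ f ∈ B.I, aeval x f = 0) →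
    (rr b.ρ x).eval t = 0 → (∃ a, x a = 1) → aeval x (b.ρ (Fin.last _)) ≠ 0 →
    (∃ I : Fin g → Option ι, AlgebraicIndependent k fun l => (I l).elim t x) →
    ∀ (P : MvPolynomial (Option ι) k) (N : ℕ),
      (Polynomial.X - Polynomial.C t) ^ N ∣ pT x P → rr b.ρ x ^ N ∣ pT x P

variable [NumberField k] [Fintype ι]

/-- The data are small, the root has small height, the equation has large height. -/
structure Good (B₀ μ : ℕ) (ε τ r : ℝ) : Prop extends b.Geom μ where
  smφ : ∀ a, SmallP B₀ (ε * ht b.P) (b.C.φ a)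
  smρ : ∀ j, SmallP B₀ (ε * ht b.P) (b.ρ j)
  low : logHeight₁ b.t ≤ τ * ht b.P
  big : r * ht b.P ≤ logHeight fun j => eval b.x (b.ρ j)

/-- The point lies on a small hypersurface in the coordinates of the chart. -/
def Exit (B' : ℕ) (s : ℝ) : Prop :=
  ∃ q : MvPolynomial (Fin g) ℚ, q ≠ 0 ∧ Pool.Agent.Lib.Common.Subspace.IsInt q ∧
    (∀ ν ∈ q.support, ∀ j, ν j ≤ B') ∧ Pool.Agent.Lib.Common.Subspace.len q ≤ Real.exp s ∧
    aeval (fun j => b.z (b.C.I j)) q = 0

end Blk

/-- The statement of the engine. -/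
def Engine {k ι : Type} [Field k] [NumberField k] [Fintype ι] (B : AV k ι) (g e B₀ μ : ℕ)
    (τ r : ℝ) : Prop :=
  ∃ (m B' : ℕ) (θ ζ ε₀ : ℝ), 0 < θ ∧ 0 < ζ ∧ 0 < ε₀ ∧ ∀ ε : ℝ, 0 < ε → ε ≤ ε₀ → ∃ W : ℝ,
    ∀ (b : Fin (m + 1) → Blk B g e) (j : Fin (m + 1) → ℕ),
      (∀ o, (b o).Good B₀ μ ε τ r) → (∀ o, W ≤ ht (b o).P) →
      (∀ o o', o ≠ o' → ht (b o).P ≤ ζ * ht (b o').P ∨ ht (b o').P ≤ ζ * ht (b o).P) →
      (∀ o, o ≠ 0 → Close θ (j o) (b 0).P (b o).P) →
      ∃ o, (b o).Exit B' (B' * ε * ht (b o).P)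

end Pool.Agent.Lib.MP_651af7_nt.Sh
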