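import Pool.Agent.Lib.MP_651af7_nt.Sh.Loc
import Pool.Agent.Lib.MP_651af7_nt.Sh.EDefs

/-! The branch of the chart of a block is a branch of the cover. -/

namespace Pool.Agent.Lib.MP_651af7_nt.Sh

open MvPolynomial Finset
open Pool.Agent.Lib.MP_651af7_nt.Av Pool.Agent.Lib.MP_651af7_nt.Jn

variable {k ι : Type} [Field k] {B : AV k ι} {g e μ : ℕ}

theorem map_tp {R R' : Type} [CommRing R] [Algebra k R] [CommRing R'] [Algebra k R']
    (f : R →ₐ[k] R') (x : ι → R) (P : MvPolynomial (Option ι) k) :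
    (tp x P).map f = tp (fun a => f (x a)) P := by
  have h := AlgHom.comp_apply (Polynomial.mapAlgHom f)
    (aeval (fun c : Option ι => c.elim Polynomial.X fun a => Polynomial.C (x a))) P
  rw [comp_aeval] at h
  refine h.symm.trans (congrArg (fun y => aeval y P) (funext fun c => ?_))
  cases c <;> simp

theorem aeval_R {R : Type} [CommRing R] [Algebra k R] (b : Blk B g e) (y : Option ι → R) :
    aeval y b.R = (rr b.ρ fun a => y (some a)).eval (y none) := by
  simp only [Blk.R, rr, map_sum, map_mul, map_pow, aeval_X, aeval_rename,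
    Polynomial.eval_finsetSum, Polynomial.eval_mul, Polynomial.eval_C, Polynomial.eval_pow,
    Polynomial.eval_X]
  rfl

theorem th_eq (b : Blk B g e) : th b.ρ b.z = b.θ := rfl

variable [Fintype ι] {b : Blk B g e} {ξ : Option ι → MvPowerSeries (Fin g) k}

theorem Blk.Geom.br_zero (hb : b.Geom μ) (hξ : b.C.Br b.z ξ) :
    ∀ f ∈ B.I, aeval (fun a => ξ (some a)) f = 0 := fun f hf => by
  obtain ⟨a, -, h⟩ := hb.on
  have h1 := hξ.mem h _ (Ideal.mem_sup_left (Ideal.mem_map_of_mem _ hf))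
  rwa [aeval_rename] at h1

theorem Blk.Geom.br_root (hb : b.Geom μ) (hξ : b.C.Br b.z ξ) :
    (rr b.ρ fun a => ξ (some a)).eval (ξ none) = 0 := by
  obtain ⟨a, -, h⟩ := hb.on
  rw [← aeval_R]
  exact hξ.mem h _ (Ideal.mem_sup_right (Ideal.subset_span (by simp)))

theorem Blk.Geom.br_sum (hb : b.Geom μ) (hξ : b.C.Br b.z ξ) :
    ∑ t, aeval (fun a => ξ (some a)) (b.ρ t) * ξ none ^ (t : ℕ) = 0 := by
  simpa only [rr, Polynomial.eval_finsetSum, Polynomial.eval_mul, Polynomial.eval_C,
    Polynomial.eval_pow, Polynomial.eval_X] using hb.br_root hξ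

omit [Fintype ι] in
theorem Blk.Geom.br_one (hb : b.Geom μ) (hξ : b.C.Br b.z ξ) : ∃ a, ξ (some a) = 1 := by
  obtain ⟨a, h, -⟩ := hb.on
  have h1 := hξ.eqn b.C.a₀ fun ⟨j, hj⟩ => b.C.ne j hj
  rw [b.C.φ₀, map_sub, aeval_X, map_one, h] at h1
  exact ⟨a, sub_eq_zero.1 h1⟩

theorem Blk.Geom.bra [CharZero k] (hb : b.Geom μ) (hξ : b.C.Br b.z ξ) : Bra b.ρ b.z ξ := by
  classical
  obtain ⟨a, ha⟩ := hb.br_one hξ
  refine ⟨⟨a, by rw [← hξ.const, ha, map_one]⟩, hξ.const, hb.br_root hξ, hb.sep, hb.lead,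
    fun P N h => ?_⟩
  obtain ⟨F, _, _, f, hf⟩ : ∃ (F : Type) (_ : Field F) (_ : Algebra k F)
      (f : MvPowerSeries (Fin g) k →ₐ[k] F), Function.Injective f :=
    ⟨FractionRing (MvPowerSeries (Fin g) k), inferInstance, inferInstance,
      IsScalarTower.toAlgHom _ _ _, IsFractionRing.injective _ _⟩
  have u0 : IsUnit (aeval (fun a => ξ (some a)) (b.ρ (Fin.last _))) := by
    rw [MvPowerSeries.isUnit_iff_constantCoeff, env_const fun a => hξ.const (some a),
      aeval_eq_eval]
    exact hb.lead.isUnit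
  have u1 : IsUnit ((rr b.ρ fun a => ξ (some a)).coeff (e + 1)) := by
    rwa [← Fin.val_last (e + 1), one_coeff]
  have u2 : IsUnit (rr b.ρ fun a => ξ (some a)).leadingCoeff := by
    rwa [Polynomial.leadingCoeff,
      Polynomial.natDegree_eq_of_le_of_coeff_ne_zero (one_deg _ _) u1.ne_zero]
  refine dvd_of_field (f : MvPowerSeries (Fin g) k →+* F) hf u2 ?_
  rw [one_map_rr, map_tp]
  have i1 : AlgebraicIndependent k fun s => ξ (b.C.I s) := by
    refine jac_indep' ?_
    have e : (fun s t : Fin g => MvPowerSeries.coeff (Finsupp.single t 1) (ξ (b.C.I s))) =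
        fun s => Pi.single s (1 : k) := by
      funext s t
      rw [hξ.coord, map_add, MvPowerSeries.coeff_C, if_neg (by simp), zero_add,
        MvPowerSeries.coeff_X, Pi.single_apply]
      exact if_congr (Finsupp.single_left_inj one_ne_zero) rfl rfl
    rw [e]
    exact Pi.linearIndependent_single_one _ _
  refine hb.div F (fun c => f (ξ (some c))) (f (ξ none)) (fun p hp => ?_) ?_
    ⟨a, by rw [ha, map_one]⟩ ?_ ⟨b.C.I, ?_⟩ P N ?_
  · rw [← comp_aeval, AlgHom.comp_apply, hb.br_zero hξ p hp, map_zero]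
  · rw [← one_map_rr, Polynomial.eval_map]
    exact (Polynomial.eval₂_at_apply (f : MvPowerSeries (Fin g) k →+* F) _).trans
      (by rw [hb.br_root hξ, map_zero])
  · rw [← comp_aeval, AlgHom.comp_apply]
    exact (u0.map f).ne_zero
  · rw [show (fun l => (b.C.I l).elim (f (ξ none)) fun c => f (ξ (some c))) =
      f ∘ fun s => ξ (b.C.I s) from funext fun l => by cases h : b.C.I l <;> simp [h]]
    exact i1.map' hf
  · have h1 := map_dvd (Polynomial.taylorAlgHom (-ξ none)) h
    rw [map_pow, Polynomial.taylorAlgHom_apply, Polynomial.taylorAlgHom_apply,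
      Polynomial.taylor_taylor, neg_add_cancel, Polynomial.taylor_zero, Polynomial.taylor_X,
      map_neg, ← sub_eq_add_neg] at h1
    have h2 := Polynomial.map_dvd (f : MvPowerSeries (Fin g) k →+* F) h1
    rw [map_tp] at h2
    change _ ∣ tp _ P
    simpa using h2

end Pool.Agent.Lib.MP_651af7_nt.Sh
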