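import Pool.Agent.Lib.MP_651af7_nt.Av.ENrm

/-! The universal expansion of the powers of `T` in powers of a polynomial. -/

namespace Pool.Agent.Lib.MP_651af7_nt.Sh

open Finset
open Pool.Agent.Lib.MP_651af7_nt.Av

variable {R R' : Type} [CommRing R] [CommRing R'] {e : ℕ}

/-- The coefficient of `T ^ l * (∑ t, r t * T ^ t) ^ d` in `r (last) ^ j * T ^ j`. -/
def cx (r : Fin (e + 2) → R) : ℕ → ℕ → Fin (e + 1) → R
  | 0, d, l => if d = 0 ∧ l = 0 then 1 else 0
  | j + 1, d, l => (Fin.cons (if d = 0 then 0 else cx r j (d - 1) (Fin.last e))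
      (fun l : Fin e => r (Fin.last _) * cx r j d l.castSucc) : Fin (e + 1) → R) l -
        r l.castSucc * cx r j d (Fin.last e)

/-- The coefficient of `T ^ l * (∑ t, r t * T ^ t) ^ d` in `r (last) ^ J * T ^ j`. -/
def ex (r : Fin (e + 2) → R) (J j d : ℕ) (l : Fin (e + 1)) : R :=
  r (Fin.last _) ^ (J - j) * cx r j d l

variable {r : Fin (e + 2) → R}

theorem cx_zero (d : ℕ) (l : Fin (e + 1)) : cx r 0 d l = if d = 0 ∧ l = 0 then 1 else 0 := rfl

theorem cx_succ_zero (j d : ℕ) : cx r (j + 1) d 0 =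
    (if d = 0 then 0 else cx r j (d - 1) (Fin.last e)) - r 0 * cx r j d (Fin.last e) := rfl

theorem cx_succ_succ (j d : ℕ) (l : Fin e) : cx r (j + 1) d l.succ =
    r (Fin.last _) * cx r j d l.castSucc - r l.succ.castSucc * cx r j d (Fin.last e) := rfl

theorem cx_eq_zero {j d : ℕ} {l : Fin (e + 1)} (h : j < (e + 1) * d + l) : cx r j d l = 0 := by
  induction j generalizing d l with
  | zero =>
    rw [cx_zero, if_neg]
    rintro ⟨rfl, rfl⟩
    simp at h
  | succ j ih =>
    have hl := l.is_le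
    have h1 : cx r j d (Fin.last e) = 0 := ih (by rw [Fin.val_last]; omega)
    induction l using Fin.cases with
    | zero =>
      rw [cx_succ_zero, h1, mul_zero, sub_zero]
      split_ifs with hd
      · rfl
      · obtain ⟨d, rfl⟩ := Nat.exists_eq_succ_of_ne_zero hd
        refine ih ?_
        simp only [Fin.val_zero, Fin.val_last, Nat.succ_eq_add_one, Nat.add_sub_cancel,
          mul_add] at h ⊢
        omega
    | succ l =>
      rw [cx_succ_succ, h1, ih (by rw [Fin.val_succ] at h; rw [Fin.val_castSucc]; omega)]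
      simp

theorem map_cx (f : R →+* R') (j d : ℕ) (l : Fin (e + 1)) :
    f (cx r j d l) = cx (fun t => f (r t)) j d l := by
  induction j generalizing d l with
  | zero =>
    rw [cx_zero, cx_zero]
    split_ifs <;> simp
  | succ j ih =>
    induction l using Fin.cases with
    | zero =>
      rw [cx_succ_zero, cx_succ_zero, map_sub, map_mul, ih]
      split_ifs
      · rw [map_zero]
      · rw [ih]
    | succ l => rw [cx_succ_succ, cx_succ_succ, map_sub, map_mul, map_mul, ih, ih]

theorem map_ex (f : R →+* R') (J j d : ℕ) (l : Fin (e + 1)) :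
    f (ex r J j d l) = ex (fun t => f (r t)) J j d l := by
  rw [ex, ex, map_mul, map_pow, map_cx]

theorem cx_sum (T : R) (j : ℕ) {B : ℕ} (h : j < (e + 1) * B) : r (Fin.last _) ^ j * T ^ j =
    ∑ d ∈ range B, (∑ l, cx r j d l * T ^ (l : ℕ)) * (∑ t, r t * T ^ (t : ℕ)) ^ d := by
  induction j with
  | zero =>
    obtain ⟨B, rfl⟩ : ∃ B', B = B' + 1 := ⟨B - 1, by rcases B with _ | B <;> simp at h ⊢⟩
    rw [sum_range_succ', sum_eq_zero fun d _ => by simp [cx_zero], Fin.sum_univ_succ]
    simp [cx_zero]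
  | succ j ih =>
    obtain ⟨B, rfl⟩ : ∃ B', B = B' + 1 := ⟨B - 1, by rcases B with _ | B <;> simp at h ⊢⟩
    obtain ⟨P, hP⟩ : ∃ P, P = ∑ t, r t * T ^ (t : ℕ) := ⟨_, rfl⟩
    rw [← hP] at ih ⊢
    have h1 : ∀ d, ∑ l, cx r (j + 1) d l * T ^ (l : ℕ) =
        r (Fin.last _) * T * ∑ l, cx r j d l * T ^ (l : ℕ) - cx r j d (Fin.last e) * P +
          if d = 0 then 0 else cx r j (d - 1) (Fin.last e) := fun d => by
      rw [hP, Fin.sum_univ_castSucc (n := e + 1), Fin.sum_univ_succ (n := e),
        Fin.sum_univ_succ (n := e) fun l => r l.castSucc * T ^ (l.castSucc : ℕ),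
        Fin.sum_univ_castSucc (n := e) fun l => cx r j d l * T ^ (l : ℕ)]
      simp only [cx_succ_zero, cx_succ_succ, sub_mul, sum_sub_distrib, mul_add, mul_sum,
        Fin.val_succ, Fin.val_castSucc, Fin.val_last, Fin.val_zero, Fin.castSucc_zero]
      have a1 : ∑ l : Fin e, r (Fin.last _) * cx r j d l.castSucc * T ^ ((l : ℕ) + 1) =
          ∑ l : Fin e, r (Fin.last _) * T * (cx r j d l.castSucc * T ^ (l : ℕ)) :=
        sum_congr rfl fun l _ => by ring
      have a2 : ∑ l : Fin e, r l.succ.castSucc * cx r j d (Fin.last e) * T ^ ((l : ℕ) + 1) =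
          ∑ l : Fin e, cx r j d (Fin.last e) * (r l.succ.castSucc * T ^ ((l : ℕ) + 1)) :=
        sum_congr rfl fun l _ => by ring
      rw [a1, a2]
      ring
    have h2 : cx r j B (Fin.last e) = 0 := cx_eq_zero (by
      rw [Fin.val_last]
      rw [mul_add] at h
      omega)
    have h3 : ∑ d ∈ range (B + 1), (if d = 0 then 0 else cx r j (d - 1) (Fin.last e)) * P ^ d =
        ∑ d ∈ range (B + 1), cx r j d (Fin.last e) * P * P ^ d := by
      rw [sum_range_succ', sum_range_succ _ B, h2]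
      simp only [Nat.add_one_ne_zero, if_false, if_true, Nat.add_sub_cancel, zero_mul, add_zero]
      exact sum_congr rfl fun d _ => by ring
    simp only [h1, add_mul, sub_mul, sum_add_distrib, sum_sub_distrib, h3, sub_add_cancel,
      mul_assoc, ← mul_sum]
    rw [← ih (by omega)]
    ring

/-- The expansion. -/
theorem ex_sum (T : R) {J j B : ℕ} (hJ : j ≤ J) (h : j < (e + 1) * B) :
    r (Fin.last _) ^ J * T ^ j =
      ∑ d ∈ range B, (∑ l, ex r J j d l * T ^ (l : ℕ)) * (∑ t, r t * T ^ (t : ℕ)) ^ d := by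
  simp only [ex, mul_assoc, ← mul_sum]
  rw [← cx_sum T j h, ← mul_assoc, ← pow_add, Nat.sub_add_cancel hJ]

theorem ex_eq_zero {J j d : ℕ} {l : Fin (e + 1)} (h : j < (e + 1) * d + l) : ex r J j d l = 0 := by
  rw [ex, cx_eq_zero h, mul_zero]

theorem cx_lt {j d : ℕ} (l : Fin (e + 1)) (h : j < d) : cx r j d l = 0 :=
  cx_eq_zero (by nlinarith [Nat.zero_le (e * d), Nat.zero_le (l : ℕ)])

/-- A principle for graded properties: `p n x` says that `x` has degree `n` in `r`. -/
theorem cx_ind {p : ℕ → R → Prop} (h0 : ∀ n, p n 0) (h1 : p 0 1)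
    (hs : ∀ n x y, p n x → p n y → p n (x - y)) (hm : ∀ n t x, p n x → p (n + 1) (r t * x))
    (j d : ℕ) (l : Fin (e + 1)) : p (j - d) (cx r j d l) := by
  induction j generalizing d l with
  | zero =>
    rw [cx_zero, Nat.zero_sub]
    split_ifs
    · exact h1
    · exact h0 _
  | succ j ih =>
    have a1 : ∀ t l, p (j + 1 - d) (r t * cx r j d l) := fun t l => by
      rcases le_or_gt d j with h | h
      · rw [Nat.sub_add_comm h]
        exact hm _ _ _ (ih d l)
      · rw [cx_lt l h, mul_zero]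
        exact h0 _
    induction l using Fin.cases with
    | zero =>
      refine hs _ _ _ ?_ (a1 _ _)
      split_ifs with hd
      · exact h0 _
      · rw [show j + 1 - d = j - (d - 1) by omega]
        exact ih _ _
    | succ l => exact hs _ _ _ (a1 _ _) (a1 _ _)

theorem ex_ind {p : ℕ → R → Prop} (h0 : ∀ n, p n 0) (h1 : p 0 1)
    (hs : ∀ n x y, p n x → p n y → p n (x - y)) (hm : ∀ n t x, p n x → p (n + 1) (r t * x))
    {J j : ℕ} (hJ : j ≤ J) (d : ℕ) (l : Fin (e + 1)) : p (J - d) (ex r J j d l) := by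
  rcases le_or_gt d j with h | h
  · have a1 : ∀ n, p (n + (j - d)) (r (Fin.last _) ^ n * cx r j d l) := fun n => by
      induction n with
      | zero => simpa using cx_ind h0 h1 hs hm j d l
      | succ n ih =>
        rw [pow_succ', mul_assoc, add_right_comm]
        exact hm _ _ _ ih
    rw [show J - d = J - j + (j - d) by omega]
    exact a1 _
  · rw [ex, cx_lt l h, mul_zero]
    exact h0 _

/-- Homogeneity. -/
theorem ex_mul (s : R) {J j : ℕ} (hJ : j ≤ J) (d : ℕ) (l : Fin (e + 1)) :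
    ex (fun t => s * r t) J j d l = s ^ (J - d) * ex r J j d l := by
  have h := ex_ind (r := fun t => (Polynomial.X * Polynomial.C (r t) : Polynomial R))
    (p := fun n x => x.eval s = s ^ n * x.eval 1) (fun n => by simp) (by simp)
    (fun n x y a b => by rw [Polynomial.eval_sub, Polynomial.eval_sub, a, b, mul_sub])
    (fun n t x a => by
      simp only [Polynomial.eval_mul, Polynomial.eval_X, Polynomial.eval_C, a]
      ring) hJ d l
  have a1 := map_ex (r := fun t => (Polynomial.X * Polynomial.C (r t) : Polynomial R))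
    (Polynomial.evalRingHom s) J j d l
  have a2 := map_ex (r := fun t => (Polynomial.X * Polynomial.C (r t) : Polynomial R))
    (Polynomial.evalRingHom 1) J j d l
  simp only [Polynomial.coe_evalRingHom, Polynomial.eval_mul, Polynomial.eval_X,
    Polynomial.eval_C, one_mul] at a1 a2
  rwa [a1, a2] at h

theorem ex_whom {σ M : Type} [AddCommMonoid M] {w : σ → M} {μ : M}
    {r : Fin (e + 2) → MvPolynomial σ R} (hr : ∀ t, (r t).IsWeightedHomogeneous w μ) {J j : ℕ}
    (hJ : j ≤ J) (d : ℕ) (l : Fin (e + 1)) :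
    (ex r J j d l).IsWeightedHomogeneous w ((J - d) • μ) :=
  ex_ind (p := fun n x => MvPolynomial.IsWeightedHomogeneous w x (n • μ))
    (fun _ => MvPolynomial.isWeightedHomogeneous_zero _ _ _)
    (by simpa using MvPolynomial.isWeightedHomogeneous_one R w)
    (fun n _ _ a b => (MvPolynomial.weightedHomogeneousSubmodule R w (n • μ)).sub_mem a b)
    (fun n t x a => by
      rw [succ_nsmul']
      exact (hr t).mul a) hJ d l

theorem ex_hom {σ : Type} {μ : ℕ} {r : Fin (e + 2) → MvPolynomial σ R}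
    (hr : ∀ t, (r t).IsHomogeneous μ) {J j : ℕ} (hJ : j ≤ J) (d : ℕ) (l : Fin (e + 1)) :
    (ex r J j d l).IsHomogeneous ((J - d) * μ) := ex_whom hr hJ d l

theorem cx_le {na : Prop} (S : SN R na) {Y : ℝ} (hr : ∀ t, S.N (r t) ≤ Y) (j d : ℕ)
    (l : Fin (e + 1)) : S.N (cx r j d l) ≤ E na 2 ^ j * Y ^ (j - d) := by
  have hY : 0 ≤ Y := (S.nonneg _).trans (hr 0)
  have h0 : ∀ j n, S.N 0 ≤ E na 2 ^ j * Y ^ n := fun j n => by
    rw [S.zero]
    exact mul_nonneg (pow_nonneg (E_nonneg zero_le_two) _) (pow_nonneg hY _)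
  induction j generalizing d l with
  | zero =>
    rw [cx_zero]
    split_ifs
    · simpa using S.one
    · exact h0 _ _
  | succ j ih =>
    have a1 : ∀ t l, S.N (r t * cx r j d l) ≤ E na 2 ^ j * Y ^ (j + 1 - d) := fun t l => by
      rcases le_or_gt d j with h | h
      · rw [Nat.sub_add_comm h, pow_succ', mul_left_comm]
        exact S.mul_le (hr t) (ih d l)
      · rw [cx_lt l h, mul_zero]
        exact h0 _ _
    have a2 : ∀ x y, S.N x ≤ E na 2 ^ j * Y ^ (j + 1 - d) → S.N y ≤ E na 2 ^ j * Y ^ (j + 1 - d) →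
        S.N (x - y) ≤ E na 2 ^ (j + 1) * Y ^ (j + 1 - d) := fun x y hx hy => by
      rw [sub_eq_add_neg, pow_succ', mul_assoc, ← one_add_one_eq_two]
      refine S.add_le ?_ ?_
      · rwa [E_one, one_mul, one_add_one_eq_two]
      · rwa [E_one, one_mul, one_add_one_eq_two, S.neg]
    induction l using Fin.cases with
    | zero =>
      refine a2 _ _ ?_ (a1 _ _)
      split_ifs with hd
      · exact h0 _ _
      · rw [show j + 1 - d = j - (d - 1) by omega]
        exact ih _ _
    | succ l => exact a2 _ _ (a1 _ _) (a1 _ _)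

/-- The size of the coefficients. -/
theorem ex_le {na : Prop} (S : SN R na) {Y : ℝ} (hr : ∀ t, S.N (r t) ≤ Y) {J j : ℕ} (hJ : j ≤ J)
    (d : ℕ) (l : Fin (e + 1)) : S.N (ex r J j d l) ≤ E na 2 ^ J * Y ^ (J - d) := by
  have hY : 0 ≤ Y := (S.nonneg _).trans (hr 0)
  have h2 : 1 ≤ E na 2 := one_le_E one_le_two
  rcases le_or_gt d j with h | h
  · refine (S.mul_le (S.pow_le (hr _) _) (cx_le S hr j d l)).trans ?_
    rw [mul_left_comm, ← pow_add, show J - j + (j - d) = J - d by omega]
    exact mul_le_mul_of_nonneg_right (pow_le_pow_right₀ h2 hJ) (pow_nonneg hY _)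
  · rw [ex, cx_lt l h, mul_zero, S.zero]
    exact mul_nonneg (pow_nonneg (zero_le_one.trans h2) _) (pow_nonneg hY _)

end Pool.Agent.Lib.MP_651af7_nt.Sh
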