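import Pool.Agent.Lib.MP_651af7_nt.As.Defs
import Pool.Agent.Lib.MP_651af7_nt.Rt.Defs

/-! Sheets of finite covers of abelian varieties: the auxiliary section. -/

namespace Pool.Agent.Lib.MP_651af7_nt.Sh

open MvPolynomial Finset
open Av hiding Bad
open As (FB Cf)
open Rt (Col Ix GR)

variable {k ι : Type} [Field k] [NumberField k] {B : AV k ι} {g m : ℕ} (F : FB B g) (Z : Cf m)

/-- The degree in the variable of the fibre. -/
def eT (e : ℕ) (o : Fin m) : ℕ := (e + 1) * Z.e o + e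

/-- The coefficients of the auxiliary section. -/
abbrev Co (e : ℕ) : Type := Col (fun o => F.T (Z.n o)) (eT Z e) → ℤ

/-- The section is a combination of the products of powers of the equations of the fibres whose
exponents are not in `Lw`. -/
def Van {e : ℕ} (ρ : Fin m → Fin (e + 2) → MvPolynomial ι k) (Lw : Finset (Ix Z.e))
    (c : Co F Z e) : Prop :=
  ∀ (R : Type) [CommRing R] [IsDomain R] [Algebra k R] (w x : Fin m → ι → R) (l T : Fin m → R),
    (∀ o, ∀ f ∈ B.I, aeval (w o) f = 0) → (∀ o, aeval (w o) F.Δ ≠ 0) → (∀ o, l o ≠ 0) →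
    (∀ o a, Z.bak B w o a = l o * x o a) → (∀ o, aeval (x o) (ρ o (Fin.last _)) ≠ 0) →
    ∃ G : Ix Z.e → R, (∏ o, aeval (x o) (ρ o (Fin.last _)) ^ (2 * (e + 1) * Z.e o)) *
        GR (eT Z e) c (fun o t => aeval (w o) (F.φ t)) T =
      ∑ d ∈ univ.filter (· ∉ Lw), G d *
        ∏ o, (∑ t, aeval (x o) (ρ o t) * T o ^ (t : ℕ)) ^ (d o : ℕ)

end Pool.Agent.Lib.MP_651af7_nt.Sh
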