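import Pool.Agent.Lib.MP_651af7_nt.As.Row
import Pool.Agent.Lib.MP_651af7_nt.Sh.SDefs
import Pool.Agent.Lib.MP_651af7_nt.Sh.Exp

/-! The conditions on the auxiliary section. -/

namespace Pool.Agent.Lib.MP_651af7_nt.Sh

open MvPolynomial Finset
open Av hiding Bad
open As (FB Cf MH)
open Rt (Col Ix GR)

/-- The coefficients of the expansion, homogeneous of degree `J`. -/
def ey {R : Type} [CommRing R] {e : ℕ} (r : Fin (e + 2) → R) (J j d : ℕ) (l : Fin (e + 1)) : R :=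
  r (Fin.last _) ^ d * ex r J j d l

section ey

variable {R R' : Type} [CommRing R] [CommRing R'] {e : ℕ} {r : Fin (e + 2) → R}

theorem map_ey (f : R →+* R') (J j d : ℕ) (l : Fin (e + 1)) :
    f (ey r J j d l) = ey (fun t => f (r t)) J j d l := by
  rw [ey, ey, map_mul, map_pow, map_ex]

theorem ey_mul (s : R) {J j d : ℕ} (hJ : j ≤ J) (hd : d ≤ J) (l : Fin (e + 1)) :
    ey (fun t => s * r t) J j d l = s ^ J * ey r J j d l := by
  rw [ey, ey, ex_mul s hJ, mul_pow, mul_mul_mul_comm, ← pow_add, Nat.add_sub_cancel' hd]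

theorem ey_le {na : Prop} (S : SN R na) {Y : ℝ} (hr : ∀ t, S.N (r t) ≤ Y) {J j d : ℕ} (hJ : j ≤ J)
    (hd : d ≤ J) (l : Fin (e + 1)) : S.N (ey r J j d l) ≤ E na 2 ^ J * Y ^ J := by
  refine (S.mul_le (S.pow_le (hr _) d) (ex_le S hr hJ d l)).trans (le_of_eq ?_)
  rw [mul_left_comm, ← pow_add, Nat.add_sub_cancel' hd]

end ey

variable {k ι : Type} [Field k] [NumberField k] {B : AV k ι} {g m : ℕ} (F : FB B g) (Z : Cf m)
  {e μ : ℕ} {ρ : Fin m → Fin (e + 2) → MvPolynomial ι k}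

/-- The polynomial attached to one unknown and one forbidden coefficient. -/
noncomputable def row (ρ : Fin m → Fin (e + 2) → MvPolynomial ι k) (d : Ix Z.e)
    (l : Fin m → Fin (e + 1)) (τ : Col (fun o => F.T (Z.n o)) (eT Z e)) :
    MvPolynomial (Fin m × ι) k :=
  ∏ o, (rename (Prod.mk o) (F.φ (τ o).1) *
    ey (fun t => aeval (Z.bak B (fun o a => X (o, a)) o) (ρ o t)) (2 * (e + 1) * Z.e o) (τ o).2
      (d o) (l o))

omit [NumberField k] in
theorem eT_le_J (he : ∀ o, 1 ≤ Z.e o) (o : Fin m) (j : Fin (eT Z e o + 1)) :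
    (j : ℕ) ≤ 2 * (e + 1) * Z.e o := by
  have h1 := j.is_le
  have h2 := Nat.mul_le_mul_left (e + 1) (he o)
  unfold eT at h1
  rw [mul_assoc]
  omega

omit [NumberField k] in
theorem ix_le (e : ℕ) (o : Fin m) (d : Fin (Z.e o + 1)) : (d : ℕ) ≤ 2 * (e + 1) * Z.e o :=
  d.is_le.trans (Nat.le_mul_of_pos_left _ (by positivity))

theorem row_eval (he : ∀ o, 1 ≤ Z.e o) (hρ : ∀ o t, (ρ o t).IsHomogeneous μ) {R : Type}
    [CommRing R] [Algebra k R] {w x : Fin m → ι → R} {s : Fin m → R}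
    (h : ∀ o a, Z.bak B w o a = s o * x o a) (d : Ix Z.e) (l : Fin m → Fin (e + 1))
    (τ : Col (fun o => F.T (Z.n o)) (eT Z e)) :
    aeval (fun p : Fin m × ι => w p.1 p.2) (row F Z ρ d l τ) =
      (∏ o, s o ^ (μ * (2 * (e + 1)) * Z.e o)) * ∏ o, (aeval (w o) (F.φ (τ o).1) *
        ey (fun t => aeval (x o) (ρ o t)) (2 * (e + 1) * Z.e o) (τ o).2 (d o) (l o)) := by
  rw [row, map_prod, ← prod_mul_distrib]
  refine prod_congr rfl fun o _ => ?_
  have h1 : ∀ t, (aeval (fun p : Fin m × ι => w p.1 p.2) : MvPolynomial (Fin m × ι) k →ₐ[k] R)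
      (aeval (Z.bak B (fun o a => (X (o, a) : MvPolynomial (Fin m × ι) k)) o) (ρ o t)) =
      s o ^ μ * aeval (x o) (ρ o t) := fun t => by
    rw [← aeval_mul_of_hom (hρ o t), ← AlgHom.comp_apply, comp_aeval]
    congr 2
    funext a
    rw [Cf.map_bak, ← h]
    simp only [aeval_X]
  have h2 := map_ey (r := fun t => aeval (Z.bak B
      (fun o a => (X (o, a) : MvPolynomial (Fin m × ι) k)) o) (ρ o t))
    ((aeval (fun p : Fin m × ι => w p.1 p.2) : MvPolynomial (Fin m × ι) k →ₐ[k] R) :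
      MvPolynomial (Fin m × ι) k →+* R) (2 * (e + 1) * Z.e o) (τ o).2 (d o) (l o)
  simp only [RingHom.coe_coe, h1] at h2
  rw [ey_mul _ (eT_le_J Z he o _) (ix_le Z e o _), ← pow_mul, ← mul_assoc μ] at h2
  rw [map_mul, aeval_rename, h2]
  exact mul_left_comm _ _ _

variable [Fintype ι]

theorem row_mh (hn : ∀ o, F.em ≤ Z.n o) (he : ∀ o, 1 ≤ Z.e o)
    (hρ : ∀ o t, (ρ o t).IsHomogeneous μ) (d : Ix Z.e) (l : Fin m → Fin (e + 1))
    (τ : Col (fun o => F.T (Z.n o)) (eT Z e)) :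
    MH (Z.NC (μ * (2 * (e + 1)))) (row F Z ρ d l τ) := by
  refine Cf.row_mh_of_scale fun t => ?_
  have h := row_eval F Z he hρ (R := MvPolynomial (Fin m × ι) k)
    (w := fun o a => C (t o) * X (o, a)) (x := Z.bak B fun o a => X (o, a))
    (s := Z.sc fun o => C (t o)) (fun o a => Z.row_bak_mul _ _ o a) d l τ
  have h1 : ∀ o, aeval (fun a => (C (t o) * X (o, a) : MvPolynomial (Fin m × ι) k)) (F.φ (τ o).1) =
      C (t o) ^ Z.n o * rename (Prod.mk o) (F.φ (τ o).1) := fun o => by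
    rw [aeval_mul_of_hom (F.φ_hom (hn o) _), rename_eq_aeval]
    rfl
  have h2 : ∏ o, Z.sc (fun o => (C (t o) : MvPolynomial (Fin m × ι) k)) o ^
      (μ * (2 * (e + 1)) * Z.e o) = _ :=
    Cf.prod_sc { Z with n := fun o => μ * (2 * (e + 1)) * Z.e o } _
  refine h.trans ?_
  simp only [h1, mul_assoc (C (t _) ^ _)]
  rw [h2, prod_mul_distrib, ← mul_assoc, ← prod_mul_distrib]
  congr 1
  refine prod_congr rfl fun o _ => ?_
  rw [← pow_add]
  congr 1
  simp only [Cf.dg, Cf.NC]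
  split_ifs with ho
  · subst ho
    ring
  · ring

theorem row_pl (e μ : ℕ) : ∃ C : ℕ,
    ∀ (m : ℕ) (Z : Cf m) (ρ : Fin m → Fin (e + 2) → MvPolynomial ι k) (v : AbsoluteValue k ℝ)
      (s : Fin m → ℝ), (∀ o, F.em ≤ Z.n o ∧ 1 ≤ Z.n o) →
      (∀ o, o ≠ Z.h → Z.n o * 4 ^ Z.j o = Z.n Z.h) → (∀ o, 1 ≤ Z.e o) → (∀ o, Z.e o ≤ Z.n o) →
      (∀ o t, (ρ o t).IsHomogeneous μ) → (∀ o, 1 ≤ s o) → (∀ o t, pl v (ρ o t) ≤ s o) →
      ∀ d l τ, pl v (row F Z ρ d l τ) ≤ F.s v ^ (C * (m * Z.n Z.h)) * ∏ o, s o ^ (C * Z.e o) := by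
  obtain ⟨c, hc⟩ : ∃ c, c = 2 * (e + 1) := ⟨_, rfl⟩
  refine ⟨2 + c + 3 * μ * c, fun m Z ρ v s hn hj he1 he hρ hs hp d l τ => ?_⟩
  obtain ⟨S, hS⟩ := exists_polSN (σ := Fin m × ι) (absSN v) (t := fun _ => 1) fun _ => zero_le_one
  have hO : S.Ov v := (absSN_ov v).pol (fun _ => zero_le_one) hS
  have hX : ∀ p, S.N (X p) ≤ 1 := fun p => by
    rw [hS]
    exact polN_X _ (fun _ => zero_le_one) p
  have h1 : 1 ≤ F.s v := F.one_le v
  have h0 : 0 ≤ F.s v := zero_le_one.trans h1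
  have h2 := (F.sz v).two
  have hb : ∀ o, ∃ b : ℕ, b * Z.e o ≤ 3 * Z.n Z.h ∧ Z.n o ≤ Z.n Z.h ∧
      ∀ a, S.N (Z.bak B (fun o a => X (o, a)) o a) ≤ F.s v ^ b := fun o => by
    by_cases ho : o = Z.h
    · refine ⟨0, by simp, by rw [ho], fun a => ?_⟩
      rw [Cf.bak, if_pos ho, pow_zero]
      exact hX _
    · have h4 : 1 ≤ 4 ^ Z.j o := Nat.one_le_pow _ _ (by norm_num)
      refine ⟨3 * 4 ^ Z.j o, ?_, ?_, fun a => ?_⟩
      · rw [← hj o ho, mul_assoc, mul_comm (4 ^ Z.j o)]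
        exact Nat.mul_le_mul_left _ (Nat.mul_le_mul_right _ (he o))
      · rw [← hj o ho]
        exact Nat.le_mul_of_pos_right _ h4
      · rw [Cf.bak, if_neg ho]
        refine (hO.ph_le (F.sz v) (fun a => hX (o, a))
          (hO.dbn_le (F.sz v) (fun a => hX (Z.h, a)) (Z.j o)) a B.ao).trans ?_
        rw [one_pow, one_mul, mul_one, ← pow_mul, ← pow_succ']
        exact pow_le_pow_right₀ h1 (by omega)
  have key : ∀ o, S.N (rename (Prod.mk o) (F.φ (τ o).1) *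
      ey (fun t => aeval (Z.bak B (fun o a => X (o, a)) o) (ρ o t)) (2 * (e + 1) * Z.e o) (τ o).2
        (d o) (l o)) ≤
      F.s v ^ ((2 + c + 3 * μ * c) * Z.n Z.h) * s o ^ ((2 + c + 3 * μ * c) * Z.e o) := fun o => by
    obtain ⟨b, hb1, hb2, hb3⟩ := hb o
    have hs0 : 0 ≤ s o := zero_le_one.trans (hs o)
    have hφ : S.N (rename (Prod.mk o) (F.φ (τ o).1)) ≤ F.s v ^ (Z.n o + 1) := by
      rw [rename_eq_aeval]
      refine (hO.aeval_le (F.φ_hom (hn o).1 (τ o).1) zero_le_one fun a => hX (o, a)).trans ?_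
      rw [one_pow, mul_one]
      exact F.φ_pl v _
    have hA : ∀ t, S.N (aeval (Z.bak B (fun o a => X (o, a)) o) (ρ o t)) ≤
        s o * (F.s v ^ b) ^ μ := fun t =>
      (hO.aeval_le (hρ o t) (pow_nonneg h0 b) hb3).trans
        (mul_le_mul_of_nonneg_right (hp o t) (by positivity))
    have hx := (ey_le S hA (eT_le_J Z he1 o (τ o).2) (ix_le Z e o (d o)) (l o)).trans
      (mul_le_mul_of_nonneg_right (pow_le_pow_left₀ (E_nonneg zero_le_two) h2 _) (by positivity))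
    refine (S.mul_le hφ hx).trans ?_
    rw [← hc]
    have e1 : F.s v ^ (Z.n o + 1) * (F.s v ^ (c * Z.e o) * (s o * (F.s v ^ b) ^ μ) ^ (c * Z.e o)) =
        F.s v ^ (Z.n o + 1 + c * Z.e o + μ * c * (b * Z.e o)) * s o ^ (c * Z.e o) := by
      simp only [mul_pow, ← pow_mul]
      ring
    rw [e1]
    have h3 : Z.e o ≤ Z.n Z.h := (he o).trans hb2
    have h4 := (hn Z.h).2
    refine mul_le_mul (pow_le_pow_right₀ h1 ?_)
      (pow_le_pow_right₀ (hs o) (Nat.mul_le_mul_right _ (by omega))) (by positivity) (by positivity)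
    have h5 := Nat.mul_le_mul_left c h3
    have h7 := Nat.mul_le_mul_left (μ * c) hb1
    calc _ ≤ Z.n Z.h + Z.n Z.h + c * Z.n Z.h + μ * c * (3 * Z.n Z.h) := by omega
      _ = _ := by ring
  have h3 := S.prod_le univ fun o _ => key o
  rw [hS] at h3
  refine h3.trans (le_of_eq ?_)
  rw [prod_mul_distrib, prod_const, card_univ, Fintype.card_fin, ← pow_mul, mul_assoc _ (Z.n Z.h),
    mul_comm (Z.n Z.h)]

end Pool.Agent.Lib.MP_651af7_nt.Sh
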