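import Pool.Agent.Lib.MP_651af7_nt.As.Sieg
import Pool.Agent.Lib.MP_651af7_nt.Sh.Row

/-! Construction of the auxiliary section. -/

namespace Pool.Agent.Lib.MP_651af7_nt.Sh

open MvPolynomial Finset
open Av hiding Bad
open As (FB Cf MH)
open Rt (Col Ix GR)

section expand

variable {R : Type} [CommRing R] {m e : ℕ} {T : Fin m → Type} [∀ i, Fintype (T i)] (Z : Cf m)

/-- The coefficients of the expansion of the section. -/
def GX (c : Col T (eT Z e) → ℤ) (f : ∀ i, T i → R) (r : Fin m → Fin (e + 2) → R) (d : Ix Z.e)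
    (l : Fin m → Fin (e + 1)) : R :=
  ∑ τ, (c τ : R) * ∏ o, (f o (τ o).1 * ex (r o) (2 * (e + 1) * Z.e o) (τ o).2 (d o) (l o))

theorem gr_expand (he : ∀ o, 1 ≤ Z.e o) (c : Col T (eT Z e) → ℤ) (f : ∀ i, T i → R)
    (r : Fin m → Fin (e + 2) → R) (t : Fin m → R) :
    (∏ o, r o (Fin.last _) ^ (2 * (e + 1) * Z.e o)) * GR (eT Z e) c f t =
      ∑ d : Ix Z.e, (∑ l : Fin m → Fin (e + 1), GX Z c f r d l * ∏ o, t o ^ (l o : ℕ)) *
        ∏ o, (∑ s, r o s * t o ^ (s : ℕ)) ^ (d o : ℕ) := by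
  have h1 : ∀ τ : Col T (eT Z e), (∏ o, r o (Fin.last _) ^ (2 * (e + 1) * Z.e o)) *
      ((c τ : R) * ∏ o, (f o (τ o).1 * t o ^ ((τ o).2 : ℕ))) =
      ∑ d : Ix Z.e, ∑ l : Fin m → Fin (e + 1), (c τ : R) *
        (∏ o, (f o (τ o).1 * ex (r o) (2 * (e + 1) * Z.e o) (τ o).2 (d o) (l o))) *
        (∏ o, t o ^ (l o : ℕ)) * ∏ o, (∑ s, r o s * t o ^ (s : ℕ)) ^ (d o : ℕ) := fun τ => by
    have h2 : ∀ o, r o (Fin.last _) ^ (2 * (e + 1) * Z.e o) * (f o (τ o).1 * t o ^ ((τ o).2 : ℕ)) =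
        ∑ d : Fin (Z.e o + 1), ∑ l : Fin (e + 1),
          f o (τ o).1 * ex (r o) (2 * (e + 1) * Z.e o) (τ o).2 d l * t o ^ (l : ℕ) *
            (∑ s, r o s * t o ^ (s : ℕ)) ^ (d : ℕ) := fun o => by
      have h3 : ((τ o).2 : ℕ) < (e + 1) * (Z.e o + 1) := by
        have := (τ o).2.is_lt
        unfold eT at this
        rw [mul_add]
        omega
      rw [mul_left_comm, ex_sum (t o) (eT_le_J Z he o _) h3, sum_range, mul_sum]
      refine sum_congr rfl fun d _ => ?_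
      rw [sum_mul, mul_sum]
      exact sum_congr rfl fun l _ => by ring
    rw [mul_left_comm, ← prod_mul_distrib, prod_congr rfl fun o _ => h2 o, Finset.prod_univ_sum,
      Fintype.piFinset_univ, mul_sum]
    refine sum_congr rfl fun d _ => ?_
    rw [Finset.prod_univ_sum, Fintype.piFinset_univ, mul_sum]
    refine sum_congr rfl fun l _ => ?_
    rw [prod_mul_distrib, prod_mul_distrib]
    ring
  rw [GR, mul_sum, sum_congr rfl fun τ _ => h1 τ, sum_comm]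
  refine sum_congr rfl fun d _ => ?_
  rw [sum_comm, sum_mul]
  refine sum_congr rfl fun l _ => ?_
  rw [GX, sum_mul, sum_mul]

end expand

variable {k ι : Type} [Field k] [NumberField k] [Fintype ι] {B : AV k ι} {g : ℕ} (F : FB B g)

theorem siegel (e μ : ℕ) :
    ∃ C : ℝ, 0 ≤ C ∧ ∀ (m : ℕ) (Z : Cf m) (ρ : Fin m → Fin (e + 2) → MvPolynomial ι k)
      (Lw : Finset (Ix Z.e)) (s : Fin m → AbsoluteValue k ℝ → ℝ) (h : Fin m → ℝ),
      (∀ o, F.em ≤ Z.n o ∧ 1 ≤ Z.n o) → (∀ o, o ≠ Z.h → Z.n o * 4 ^ Z.j o = Z.n Z.h) →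
      (∀ o, 1 ≤ Z.e o) → (∀ o, Z.e o ≤ Z.n o) → (∀ o t, (ρ o t).IsHomogeneous μ) →
      (∀ o, Ad (s o) (h o)) → (∀ o t v, pl v (ρ o t) ≤ s o v) →
      2 * (Lw.card * (e + 1) ^ m *
        (∏ o, Fintype.card (F.T (Z.NC (μ * (2 * (e + 1))) o + F.dl))) * Module.finrank ℚ k) ≤
        ∏ o, Fintype.card (F.T (Z.n o)) * (eT Z e o + 1) →
      ∃ c : Co F Z e, c ≠ 0 ∧
        (∀ τ, |(c τ : ℝ)| ≤ Real.exp (C * (1 + m * Z.n Z.h + ∑ o, Z.e o * h o))) ∧
        Van F Z ρ Lw c := by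
  classical
  obtain ⟨Ck, hCk, HK⟩ := Rt.siegK (K := k)
  obtain ⟨C1, H1⟩ := row_pl F e μ
  set E := μ * (2 * (e + 1)) with hE
  have hs0 : 0 ≤ F.hs := F.ad.nonneg
  have hl0 : 0 ≤ Real.log Ck := Real.log_nonneg hCk
  refine ⟨Real.log Ck + ((F.ρ + g + 1 + 2 * (e + 1) : ℕ) : ℝ) +
    ((C1 + (2 + 4 * E) : ℕ) : ℝ) * F.hs + C1, by positivity,
    fun m Z ρ Lw s h hn hj he1 he hρ had hpl hcard => ?_⟩
  have hA := (F.ad.pow ((C1 + (2 + 4 * E)) * (m * Z.n Z.h))).mul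
    (ad_prod univ fun o _ => (had o).pow (C1 * Z.e o))
  have hmh : ∀ d l τ, MH (Z.NC E) (row F Z ρ d l τ) := fun d l τ =>
    row_mh F Z (fun o => (hn o).1) he1 hρ d l τ
  obtain ⟨d₀, hd, hI⟩ := hA.exists_den
    (Λ := ((Lw × (Fin m → Fin (e + 1))) × ∀ o, F.T (Z.NC E o + F.dl)) ×
      Col (fun o => F.T (Z.n o)) (eT Z e))
    (fun a => F.rc (row F Z ρ a.1.1.1.1 a.1.1.2 a.2) a.1.2) (fun a v _ => by
      refine (F.rc_le (hmh _ _ _) v _).trans ?_
      have e1 := H1 m Z ρ v (fun o => s o v) hn hj he1 he hρ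
        (fun o => (had o).one v) (fun o t => hpl o t v) a.1.1.1.1 a.1.1.2 a.2
      have e2 : ∏ o, F.s v ^ (Z.NC E o + 1) ≤ F.s v ^ ((2 + 4 * E) * (m * Z.n Z.h)) := by
        rw [prod_pow_eq_pow_sum]
        exact pow_le_pow_right₀ (F.one_le v) (As.sieg_NC Z E (hn _).2 hj he)
      have e3 : 0 < F.s v := F.ad.pos v
      have e4 : 0 ≤ ∏ o, s o v ^ (C1 * Z.e o) :=
        prod_nonneg fun o _ => pow_nonneg ((had o).pos v).le _
      refine (mul_le_mul e1 e2 (prod_nonneg fun o _ => by positivity) (by positivity)).trans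
        (le_of_eq ?_)
      rw [add_mul C1, pow_add]
      ring)
  have hc : Fintype.card (Col (fun o => F.T (Z.n o)) (eT Z e)) =
      ∏ o, Fintype.card (F.T (Z.n o)) * (eT Z e o + 1) := by
    rw [Fintype.card_pi]
    exact prod_congr rfl fun o _ => by rw [Fintype.card_prod, Fintype.card_fin]
  obtain ⟨c, h0, h1, h2⟩ := HK ((Lw × (Fin m → Fin (e + 1))) × ∀ o, F.T (Z.NC E o + F.dl))
    (Col (fun o => F.T (Z.n o)) (eT Z e))
    (fun i τ => (d₀ : k) * F.rc (row F Z ρ i.1.1.1 i.1.2 τ) i.2) _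
    (Real.one_le_exp hA.nonneg) (fun i τ => hI (i, τ)) (by
      rw [hc, Fintype.card_prod, Fintype.card_prod, Fintype.card_fun, Fintype.card_pi]
      simpa only [Fintype.card_coe, Fintype.card_fin] using hcard) (by
      rw [hc]
      exact prod_pos fun o _ => Nat.mul_pos (F.card_T_pos _) (Nat.succ_pos _))
  refine ⟨c, h0, fun τ => (h2 τ).trans ?_, fun R _ _ _ w x l T hw hΔ hl hb hr => ?_⟩
  · have h3 : Fintype.card (Col (fun o => F.T (Z.n o)) (eT Z e)) ≤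
        2 ^ ((F.ρ + g + 1 + 2 * (e + 1)) * (m * Z.n Z.h)) := by
      rw [hc]
      refine (prod_le_pow_card _ _ (2 ^ ((F.ρ + g + 1 + 2 * (e + 1)) * Z.n Z.h))
        fun o _ => ?_).trans (le_of_eq ?_)
      · have h4 : eT Z e o + 1 ≤ 2 ^ (2 * (e + 1) * Z.e o) :=
          (Nat.succ_le_succ (eT_le_J Z he1 o (Fin.last _))).trans Nat.lt_two_pow_self
        refine (Nat.mul_le_mul (F.card_T_le (hn o).2) h4).trans ?_
        rw [← pow_add, add_mul (F.ρ + g + 1)]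
        exact Nat.pow_le_pow_right two_pos (Nat.add_le_add
          (Nat.mul_le_mul_left _ (As.sieg_n_le Z hj o))
          (Nat.mul_le_mul_left _ ((he o).trans (As.sieg_n_le Z hj o))))
      · rw [card_univ, Fintype.card_fin, ← pow_mul]
        congr 1
        ring
    have h5 : (2 : ℝ) ≤ Real.exp 1 := by linarith [Real.add_one_le_exp 1]
    have h4 : (Fintype.card (Col (fun o => F.T (Z.n o)) (eT Z e)) : ℝ) ≤
        Real.exp (((F.ρ + g + 1 + 2 * (e + 1) : ℕ) : ℝ) * (m * Z.n Z.h)) := by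
      calc _ ≤ (2 : ℝ) ^ ((F.ρ + g + 1 + 2 * (e + 1)) * (m * Z.n Z.h)) := by exact_mod_cast h3
        _ ≤ Real.exp 1 ^ ((F.ρ + g + 1 + 2 * (e + 1)) * (m * Z.n Z.h)) :=
          pow_le_pow_left₀ zero_le_two h5 _
        _ = _ := by rw [← Real.exp_nat_mul, mul_one, Nat.cast_mul, Nat.cast_mul]
    refine (mul_le_mul_of_nonneg_right h4 (by positivity)).trans ?_
    have h6 : ∑ o, ((C1 * Z.e o : ℕ) : ℝ) * h o = C1 * ∑ o, (Z.e o : ℝ) * h o := by
      rw [mul_sum]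
      exact sum_congr rfl fun o _ => by rw [Nat.cast_mul, mul_assoc]
    have h7 : 0 ≤ ∑ o, (Z.e o : ℝ) * h o :=
      sum_nonneg fun o _ => mul_nonneg (Nat.cast_nonneg _) (had o).nonneg
    rw [h6, Nat.cast_mul, Nat.cast_mul m]
    conv_lhs => rw [← Real.exp_log (one_pos.trans_le hCk)]
    rw [← Real.exp_add, ← Real.exp_add, Real.exp_le_exp]
    generalize ∑ o, (Z.e o : ℝ) * h o = y at h7 ⊢
    have hx : (0 : ℝ) ≤ m * Z.n Z.h := by positivity
    generalize (m : ℝ) * Z.n Z.h = x at hx ⊢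
    have ha : (0 : ℝ) ≤ ((F.ρ + g + 1 + 2 * (e + 1) : ℕ) : ℝ) := Nat.cast_nonneg _
    generalize ((F.ρ + g + 1 + 2 * (e + 1) : ℕ) : ℝ) = a at ha ⊢
    have hb : (0 : ℝ) ≤ ((C1 + (2 + 4 * E) : ℕ) : ℝ) := Nat.cast_nonneg _
    generalize ((C1 + (2 + 4 * E) : ℕ) : ℝ) = b at hb ⊢
    have hc1 : (0 : ℝ) ≤ C1 := Nat.cast_nonneg _
    have := mul_nonneg hb hs0
    nlinarith [mul_nonneg hl0 hx, mul_nonneg hl0 h7, mul_nonneg ha h7, mul_nonneg this h7,
      mul_nonneg hc1 hx]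
  · have hG : ∀ d ∈ Lw, ∀ l', GX Z c (fun o t => aeval (w o) (F.φ t))
        (fun o t => aeval (x o) (ρ o t)) d l' = 0 := fun d hd' l' => by
      have h3 : ∀ ω : ∀ o, F.T (Z.NC E o + F.dl),
          ∑ τ, (c τ : k) * F.rc (row F Z ρ d l' τ) ω = 0 := fun ω => by
        have h4 := h1 ((⟨d, hd'⟩, l'), ω)
        refine mul_left_cancel₀ (Nat.cast_ne_zero.2 hd.ne' : (d₀ : k) ≠ 0) ?_
        rw [mul_zero, mul_sum, ← h4]
        exact sum_congr rfl fun τ _ => by ring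
      refine mul_left_cancel₀ (mul_ne_zero (mul_ne_zero
        (prod_ne_zero_iff.2 fun o (_ : o ∈ univ) => hΔ o)
        (prod_ne_zero_iff.2 fun o (_ : o ∈ univ) => pow_ne_zero (E * Z.e o) (hl o)))
        (prod_ne_zero_iff.2 fun o (_ : o ∈ univ) => pow_ne_zero (d o : ℕ) (hr o))) ?_
      have h4 : ∀ τ : Col (fun o => F.T (Z.n o)) (eT Z e),
          (∏ o, aeval (w o) F.Δ) * (∏ o, l o ^ (E * Z.e o)) *
          (∏ o, aeval (x o) (ρ o (Fin.last _)) ^ (d o : ℕ)) * ((c τ : R) *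
          ∏ o, (aeval (w o) (F.φ (τ o).1) *
            ex (fun t => aeval (x o) (ρ o t)) (2 * (e + 1) * Z.e o) (τ o).2 (d o) (l' o))) =
          ∑ ω : ∀ o, F.T (Z.NC E o + F.dl),
            algebraMap k R ((c τ : k) * F.rc (row F Z ρ d l' τ) ω) *
              ∏ o, aeval (w o) (F.φ (ω o)) := fun τ => by
        have e1 := F.rc_expand (hmh d l' τ) hw
        rw [row_eval F Z he1 hρ hb] at e1
        simp only [map_mul, map_intCast, mul_assoc, ← mul_sum]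
        rw [← e1]
        simp only [ey, prod_mul_distrib, hE, mul_assoc]
        ring
      rw [mul_zero, GX, mul_sum, sum_congr rfl fun τ _ => h4 τ, sum_comm]
      refine sum_eq_zero fun ω _ => ?_
      rw [← sum_mul, ← map_sum, h3, map_zero, zero_mul]
    refine ⟨fun d => ∑ l' : Fin m → Fin (e + 1), GX Z c (fun o t => aeval (w o) (F.φ t))
      (fun o t => aeval (x o) (ρ o t)) d l' * ∏ o, T o ^ (l' o : ℕ), ?_⟩
    rw [gr_expand Z he1 c _ (fun o t => aeval (x o) (ρ o t)) T]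
    refine (sum_subset (filter_subset _ _) fun d _ hd' => ?_).symm
    rw [sum_eq_zero, zero_mul]
    intro l' _
    rw [hG d (by simpa using hd') l', zero_mul]

end Pool.Agent.Lib.MP_651af7_nt.Sh
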