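import Pool.Agent.Lib.MP_651af7_nt.As.Cnt
import Pool.Agent.Lib.MP_651af7_nt.Rt.Cher
import Pool.Agent.Lib.MP_651af7_nt.Sh.Sieg

/-! Counting the conditions; the auxiliary section with index close to one half. -/

namespace Pool.Agent.Lib.MP_651af7_nt.Sh

open MvPolynomial Finset
open Av hiding Bad
open As (FB Cf)
open Rt (Col Ix GR Low)

variable {k ι : Type} [Field k] [NumberField k] {B : AV k ι} {g : ℕ} (F : FB B g)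

theorem count {m : ℕ} (Z : Cf m) (e E : ℕ) {η δ W : ℝ} {w : Fin m → ℝ} (hη : 0 ≤ η) (hδ : 0 ≤ δ)
    (hW : 0 < W) (hn : ∀ o, o ≠ Z.h → Z.n o * 4 ^ Z.j o = Z.n Z.h) (h1 : ∀ o, 1 ≤ Z.n o)
    (h2 : ∀ o, 2 * F.em ≤ Z.n o) (h3 : ∀ o, 2 * (F.dl : ℝ) ≤ η * Z.n o)
    (he : ∀ o, (Z.e o : ℝ) ≤ 2 * η * Z.n o) (hw : ∀ o, 0 ≤ w o) (h4 : ∀ o, Z.e o * w o ≤ W)
    (h5 : ∀ o, (1 - δ) * W ≤ Z.e o * w o) (h6 : g * (18 * E + 2) * η ≤ δ ^ 2 / 4)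
    (h7 : 2 * (Module.finrank ℚ k : ℝ) ≤ Real.exp (δ ^ 2 * m / 4)) :
    2 * ((Low Z.e w ((1 / 2 - δ) * m * W)).card * (e + 1) ^ m *
      (∏ o, Fintype.card (F.T (Z.NC E o + F.dl))) * Module.finrank ℚ k) ≤
      ∏ o, Fintype.card (F.T (Z.n o)) * (eT Z e o + 1) := by
  have a1 := Rt.card_low Z.e w hW hδ hw h4 h5
  have a2 := As.count F Z E hη hn h1 h2 h3 he
  have a3 : ∏ o, (eT Z e o + 1) = (e + 1) ^ m * ∏ o, (Z.e o + 1) := by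
    rw [prod_congr rfl fun o _ => show eT Z e o + 1 = (e + 1) * (Z.e o + 1) by
      unfold eT
      ring, prod_mul_distrib, prod_const, card_univ, Fintype.card_fin]
  rw [prod_mul_distrib, a3, ← Nat.cast_le (α := ℝ)]
  push_cast
  have a4 : Real.exp (g * (18 * E + 2) * η * m) ≤ Real.exp (δ ^ 2 * m / 4) :=
    Real.exp_le_exp.2 (by linarith [mul_le_mul_of_nonneg_right h6 (Nat.cast_nonneg (α := ℝ) m)])
  have p1 : 0 ≤ ∏ o, (Fintype.card (F.T (Z.n o)) : ℝ) := by positivity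
  have p2 : 0 ≤ ∏ o, ((Z.e o : ℝ) + 1) := by positivity
  have a5 := mul_le_mul a1 (a2.trans (mul_le_mul_of_nonneg_right a4 p1)) (by positivity)
    (by positivity)
  have a6 : Real.exp (-(δ ^ 2 * m / 2)) * Real.exp (δ ^ 2 * m / 4) *
      Real.exp (δ ^ 2 * m / 4) = 1 := by
    rw [← Real.exp_add, ← Real.exp_add, ← Real.exp_zero]
    congr 1
    ring
  have a7 := mul_le_mul a5 h7 (by positivity) (by positivity)
  have a8 := mul_le_mul_of_nonneg_right a7 (show 0 ≤ ((e : ℝ) + 1) ^ m by positivity)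
  calc _ = ((Low Z.e w ((1 / 2 - δ) * m * W)).card : ℝ) *
        (∏ o, (Fintype.card (F.T (Z.NC E o + F.dl)) : ℝ)) * (2 * Module.finrank ℚ k) *
          ((e : ℝ) + 1) ^ m := by ring
    _ ≤ _ := a8
    _ = Real.exp (-(δ ^ 2 * m / 2)) * Real.exp (δ ^ 2 * m / 4) * Real.exp (δ ^ 2 * m / 4) *
        ((∏ o, (Fintype.card (F.T (Z.n o)) : ℝ)) * (((e : ℝ) + 1) ^ m *
          ∏ o, ((Z.e o : ℝ) + 1))) := by ring
    _ = _ := by rw [a6, one_mul]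

/-- The auxiliary section. -/
theorem exists_sec [Fintype ι] (e μ : ℕ) : ∃ C : ℝ, 0 ≤ C ∧ ∀ δ : ℝ, 0 < δ → ∃ (η : ℝ) (m₀ : ℕ),
    0 < η ∧ η ≤ 1 / 2 ∧ ∀ (m : ℕ) (Z : Cf m) (ρ : Fin m → Fin (e + 2) → MvPolynomial ι k)
      (s : Fin m → AbsoluteValue k ℝ → ℝ) (h w : Fin m → ℝ) (W : ℝ), m₀ ≤ m → 0 < W →
      (∀ o, o ≠ Z.h → Z.n o * 4 ^ Z.j o = Z.n Z.h) → (∀ o, 2 * F.em ≤ Z.n o) →
      (∀ o, 2 * (F.dl : ℝ) ≤ η * Z.n o) → (∀ o, 1 ≤ Z.e o) →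
      (∀ o, (Z.e o : ℝ) ≤ 2 * η * Z.n o) → (∀ o, 0 ≤ w o) → (∀ o, Z.e o * w o ≤ W) →
      (∀ o, (1 - δ) * W ≤ Z.e o * w o) → (∀ o t, (ρ o t).IsHomogeneous μ) →
      (∀ o, Ad (s o) (h o)) → (∀ o t v, pl v (ρ o t) ≤ s o v) →
      ∃ c : Co F Z e, c ≠ 0 ∧
        (∀ τ, |(c τ : ℝ)| ≤ Real.exp (C * (1 + m * Z.n Z.h + ∑ o, Z.e o * h o))) ∧
        Van F Z ρ (Low Z.e w ((1 / 2 - δ) * m * W)) c := by
  obtain ⟨C, hC, H⟩ := siegel F e μ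
  refine ⟨C, hC, fun δ hδ => ?_⟩
  obtain ⟨a, ha⟩ : ∃ a : ℝ, a = g * (18 * (μ * (2 * (e + 1)) : ℕ) + 2) := ⟨_, rfl⟩
  have a0 : 0 ≤ a := by rw [ha]; positivity
  obtain ⟨m₀, hm⟩ := exists_nat_ge (2 * (Module.finrank ℚ k : ℝ) / (δ ^ 2 / 4))
  rw [div_le_iff₀ (by positivity)] at hm
  refine ⟨min (1 / 2) (δ ^ 2 / 4 / (a + 1)), m₀, by positivity, min_le_left _ _,
    fun m Z ρ s h w W h0 hW hn h2 h3 he1 he hw h4 h5 hρ had hpl => ?_⟩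
  obtain ⟨η, hη⟩ : ∃ η : ℝ, η = min (1 / 2) (δ ^ 2 / 4 / (a + 1)) := ⟨_, rfl⟩
  rw [← hη] at h3 he
  have e0 : 0 < η := by rw [hη]; positivity
  have e1 : η ≤ 1 / 2 := hη ▸ min_le_left _ _
  have e2 : η * (a + 1) ≤ δ ^ 2 / 4 :=
    (le_div_iff₀ (by positivity)).1 (hη ▸ min_le_right _ _)
  have hen : ∀ o, Z.e o ≤ Z.n o := fun o => by
    have := mul_le_mul_of_nonneg_right e1 (Nat.cast_nonneg (α := ℝ) (Z.n o))
    exact_mod_cast (show (Z.e o : ℝ) ≤ Z.n o by linarith [he o])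
  have h1 : ∀ o, 1 ≤ Z.n o := fun o => (he1 o).trans (hen o)
  refine H m Z ρ _ s h (fun o => ⟨by have := h2 o; omega, h1 o⟩) hn he1 hen hρ had hpl
    (count F Z e _ e0.le hδ.le hW hn h1 h2 h3 he hw h4 h5 (by rw [← ha]; linarith) ?_)
  have a1 : (m₀ : ℝ) ≤ m := by exact_mod_cast h0
  have a2 := mul_le_mul_of_nonneg_right a1 (show 0 ≤ δ ^ 2 / 4 by positivity)
  linarith [Real.add_one_le_exp (δ ^ 2 * m / 4)]

end Pool.Agent.Lib.MP_651af7_nt.Sh
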