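import Pool.Agent.Lib.MP_651af7_nt.Sh.ACore
import Pool.Agent.Lib.MP_651af7_nt.Un.Voc

/-! Equal heights of the components of a cover over a moving coset: vocabulary. -/

namespace Pool.Agent.Lib.MP_651af7_nt.Sh

open MvPolynomial Height Filter
open Pool.Agent.Lib.MP_651af7_nt.Av Pool.Agent.Lib.MP_651af7_nt.Av.AV
open Pool.Agent.Lib.MP_651af7_nt.As (gv)
open Pool.Agent.Lib.MP_651af7_nt.Jn (rr)
open IntermediateField (adjoin)

/-- The irreducible factors of `p` over `M` have their share of the height. -/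
def EqH {k α : Type} [Field k] [NumberField k] (U : Ultrafilter α) (q : α → ℝ) {M : Type} [Field M]
    [Algebra M (Up U k)] (p : Polynomial M) : Prop :=
  ∀ (P : Polynomial M) (e d : ℕ) (a : α → Fin (e + 1) → k) (b : α → Fin (d + 1) → k),
    P.Monic → Irreducible P → P ∣ p → p.natDegree = e → P.natDegree = d →
    (∀ j : Fin (e + 1), algebraMap M (Up U k) (p.coeff j) = germ U fun m => a m j) →
    (∀ j : Fin (d + 1), algebraMap M (Up U k) (P.coeff j) = germ U fun m => b m j) →
    ∀ ε : ℝ, 0 < ε → ∀ᶠ m in U, d * logHeight (a m) ≤ e * logHeight (b m) + ε * q m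

/-- The equation is geometrically irreducible over the function field of `A`. -/
def GeoG {k ι : Type} [Field k] [Fintype ι] (A : AV k ι) {e : ℕ}
    (ρ : Fin (e + 2) → MvPolynomial ι k) : Prop :=
  ∀ (K : Type) [Field K] [Algebra k K] [Algebra.IsAlgebraic k K],
    Nc.MinG (Un.bc A K) fun j => map (algebraMap k K) (ρ j)

/-- The components of a geometrically irreducible cover over a moving coset have equal heights. -/
def SeqEq (k ι : Type) [Field k] [NumberField k] [Fintype ι] : Prop :=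
  ∀ (α : Type) (U : Ultrafilter α) (A B : AV k ι) (h : Sub A B) (x : α → A.Pt k) (y : α → B.Pt k)
    (a : α → A.Pt k) (hH : Tendsto (fun n => ht (y n)) U atTop) (Z : A.Pt (Up U k))
    (Y : B.Pt (Up U k)) (aK : A.Pt (Sm k hH)) (a' : α → ι → k), Coset h x y a hH Z Y aK a' →
    Gen A.I Z.co → ∀ (e μ : ℕ) (ρ : Fin (e + 2) → MvPolynomial ι k),
    (∀ j, (ρ j).IsHomogeneous μ) → ρ (Fin.last _) ∉ A.I → GeoG A ρ →
    ∀ (a₁ b₀ : ι) (v : α → ι → k), (∀ᶠ n in U, Rep (y n) (v n) ∧ v n a₁ = 1 ∧ ∃ c : k, c ≠ 0 ∧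
      ∀ (G : MvPolynomial ι k) (d : ℕ), G.IsHomogeneous d →
        eval (v n) (A.shift (a' n) G b₀) = c ^ d * eval (x n).co G) →
    ∀ p : Polynomial (adjoin (Sm k hH) (Set.range (gv U v))),
      p.map (algebraMap _ (Up U k)) = rr (fun j => A.shift aK.co (ρ j) b₀) (gv U v) →
      EqH (k := k) U (fun n => ht (y n)) p

end Pool.Agent.Lib.MP_651af7_nt.Sh
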