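import Pool.Agent.Lib.MP_651af7_nt.Sh.Pres
import Pool.Agent.Lib.MP_651af7_nt.Jn.Defs
import Pool.Agent.Lib.MP_651af7_nt.Cn.EFrame

/-! The section on the branches: it does not vanish, and its order in the fibres is large. -/

namespace Pool.Agent.Lib.MP_651af7_nt.Sh

open MvPolynomial Finset
open Av hiding Bad
open Av.AV
open As (FB Cf)
open Rt (Col Ix GR)
open Jn (vE)

variable {k ι O : Type} [Field k] {g : ℕ}

/-- The branches in the ring of all variables. -/
noncomputable def xs (ξ : O → Option ι → MvPowerSeries (Fin g) k) (o : O) (c : Option ι) :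
    MvPowerSeries (O × Fin (g + 1)) k := MvPowerSeries.rename (vE g o) (ξ o c)

/-- The coordinate of the fibre, moved off the branch. -/
noncomputable def ts (ξ : O → Option ι → MvPowerSeries (Fin g) k) (o : O) :
    MvPowerSeries (O × Fin (g + 1)) k := xs ξ o none + MvPowerSeries.X (o, 0)

theorem xs_aeval {σ : Type} (ξ : O → Option ι → MvPowerSeries (Fin g) k) (o : O)
    (j : σ → Option ι) (f : MvPolynomial σ k) : aeval (fun a => xs ξ o (j a)) f =
      MvPowerSeries.rename (vE g o) (aeval (fun a => ξ o (j a)) f) := by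
  rw [← AlgHom.comp_apply, comp_aeval]
  rfl

theorem env_const' {σ : Type} {y : ι → MvPowerSeries σ k} {x : ι → k}
    (h : ∀ a, MvPowerSeries.constantCoeff (y a) = x a) (P : MvPolynomial ι k) :
    MvPowerSeries.constantCoeff (aeval y P) = eval x P := by
  rw [← cc_apply, ← AlgHom.comp_apply, comp_aeval]
  exact congrArg (fun y => aeval y P) (_root_.funext h)

variable {z : O → Option ι → k} {C : O → Chart k (Option ι) g}
  {ξ : O → Option ι → MvPowerSeries (Fin g) k}

theorem xs_const (hξ : ∀ o, (C o).Br (z o) (ξ o)) (o : O) (c : Option ι) :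
    MvPowerSeries.constantCoeff (xs ξ o c) = z o c := by
  rw [xs, MvPowerSeries.constantCoeff_rename, (hξ o).const]

theorem xs_one (hξ : ∀ o, (C o).Br (z o) (ξ o)) (o : O) : xs ξ o (C o).a₀ = 1 := by
  have h := (hξ o).eqn (C o).a₀ fun ⟨l, hl⟩ => (C o).ne l hl
  rw [(C o).φ₀, map_sub, aeval_X, map_one, sub_eq_zero] at h
  rw [xs, h, map_one]

theorem xs_indep [CharZero k] [Fintype O] (hξ : ∀ o, (C o).Br (z o) (ξ o)) :
    AlgebraicIndependent k (Sum.elim (fun o => MvPowerSeries.X (o, 0))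
      fun s : O × Fin g => xs ξ s.1 ((C s.1).I s.2)) := by
  classical
  refine jac_indep' ?_
  have e : (fun (s : O ⊕ O × Fin g) (t : O × Fin (g + 1)) =>
      MvPowerSeries.coeff (Finsupp.single t 1) (Sum.elim (fun o => MvPowerSeries.X (o, 0))
        (fun s : O × Fin g => xs ξ s.1 ((C s.1).I s.2)) s)) = (fun s => Pi.single s (1 : k)) ∘
          Sum.elim (fun o => (o, 0)) fun s : O × Fin g => (s.1, s.2.succ) := by
    funext s t
    rcases s with o | ⟨o, l⟩
    · rw [Sum.elim_inl, MvPowerSeries.coeff_X, Function.comp_apply, Pi.single_apply]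
      exact if_congr (Finsupp.single_left_inj one_ne_zero) rfl rfl
    · rw [Sum.elim_inr, xs, (hξ _).coord, map_add, MvPowerSeries.rename_C, MvPowerSeries.rename_X,
        map_add, MvPowerSeries.coeff_C, if_neg (by simp), zero_add, MvPowerSeries.coeff_X,
        Function.comp_apply, Pi.single_apply]
      exact if_congr (Finsupp.single_left_inj one_ne_zero) rfl rfl
  rw [e]
  refine (Pi.linearIndependent_single_one _ _).comp _ ?_
  rintro (a | ⟨a, l⟩) (b | ⟨b, l'⟩) h <;> simp_all [eq_comm (a := (0 : Fin (g + 1)))]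

theorem shift_indep {L M : Type} [Field L] [Field M] [Algebra L M] {U : O → M}
    (hU : AlgebraicIndependent L U) (t : O → L) :
    AlgebraicIndependent L fun o => algebraMap L M (t o) + U o := by
  have h : AlgebraicIndependent L fun o => (MvPolynomial.C (t o) + X o : MvPolynomial O L) := by
    refine Function.LeftInverse.injective
      (g := aeval fun o => (X o - MvPolynomial.C (t o) : MvPolynomial O L)) fun f => ?_
    rw [← AlgHom.comp_apply, comp_aeval]
    simp
  simpa using hU.aeval_of_algebraicIndependent h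

theorem frame_gen [CharZero k] [Fintype O] [Fintype ι] {M : Type} [Field M] [Algebra k M]
    {B : AV k ι} (hg : B.dim ≤ g) {e : ℕ} {ρ : O → Fin (e + 2) → MvPolynomial ι k}
    {p : O → B.Pt M} {w : O → Option ι → M} {U : O → M}
    (hp : ∀ o, Rep (p o) fun a => w o (some a)) (h1 : ∀ o, ∃ a, w o (some a) = 1)
    (hR : ∀ o, ∑ t, aeval (fun a => w o (some a)) (ρ o t) * w o none ^ (t : ℕ) = 0)
    (hl : ∀ o, aeval (fun a => w o (some a)) (ρ o (Fin.last _)) ≠ 0) {J : O → Fin g → Option ι}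
    (hi : AlgebraicIndependent k (Sum.elim U fun s : O × Fin g => w s.1 (J s.1 s.2)))
    (ha : ∀ o c, w o c ∈ (AlgebraicIndependent.matroid k M).closure
      (Set.range fun l => w o (J o l))) :
    Ind p ∧ ∃ L : IntermediateField k M, (∀ o c, w o c ∈ L) ∧
      AlgebraicIndependent L fun o => w o none + U o := by
  obtain ⟨h2, h3⟩ := AlgebraicIndependent.sumElim_iff.1 hi
  constructor
  · obtain ⟨L, hL, hS⟩ := tr_cl (K := k) (⋃ o, rat (p o).co)
    have a1 : ∀ o a, w o (some a) ∈ L := fun o a => by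
      obtain ⟨b, hb⟩ := h1 o
      refine hS (Set.mem_iUnion.2 ⟨o, ?_⟩)
      rw [B.tr_rat_rep (hp o)]
      exact ⟨(a, b), by simp [hb]⟩
    have a2 : ∀ o c, w o c ∈ L := by
      rintro o (_ | a)
      · refine cl_sub hL subset_rfl ?_
        rw [AlgebraicIndependent.matroid_closure_eq]
        have hm : ∀ t, aeval (fun a => w o (some a)) (ρ o t) ∈ Algebra.adjoin k (L : Set M) :=
          fun t => Algebra.subset_adjoin (tr_aeval_mem L (a1 o) _)
        refine ⟨∑ t, Polynomial.C (⟨_, hm t⟩ : Algebra.adjoin k (L : Set M)) *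
          Polynomial.X ^ (t : ℕ), fun h0 => hl o ?_, ?_⟩
        · have h4 := congrArg (fun q => (q.coeff (e + 1) : M)) h0
          simp only [Polynomial.finsetSum_coeff, Polynomial.coeff_C_mul_X_pow] at h4
          rw [sum_eq_single (Fin.last _) (fun t _ ht => if_neg fun e => ht (Fin.ext e.symm))
            (by simp)] at h4
          simpa using h4
        · simp only [map_sum, map_mul, map_pow, Polynomial.aeval_X, Polynomial.aeval_C]
          exact hR o
      · exact a1 o a
    have a3 := (card_le_td h2 (S := L) fun s => a2 _ _).trans (tr_td_le hL.le)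
    rw [ENat.card_eq_coe_fintype_card, Fintype.card_prod, Fintype.card_fin] at a3
    exact (Nat.cast_le.2 (Nat.mul_le_mul_left _ hg)).trans a3
  · obtain ⟨L, hL, hS⟩ := tr_cl (K := k) (Set.range fun s : O × Fin g => w s.1 (J s.1 s.2))
    have a1 : ∀ o c, w o c ∈ L := fun o c => cl_sub hL (by
      rintro _ ⟨l, rfl⟩
      exact hS ⟨(o, l), rfl⟩) (ha o c)
    suffices h : AlgebraicIndependent L U from
      ⟨L, a1, shift_indep h fun o => (⟨w o none, a1 o none⟩ : L)⟩
    let _ : Algebra (Algebra.adjoin k (Set.range fun s : O × Fin g => w s.1 (J s.1 s.2))) L :=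
      (Subalgebra.inclusion (T := L.toSubalgebra) (Algebra.adjoin_le hS)).toAlgebra
    have : IsScalarTower (Algebra.adjoin k (Set.range fun s : O × Fin g => w s.1 (J s.1 s.2)))
      L M := .of_algebraMap_eq fun _ => rfl
    have : Algebra.IsAlgebraic
        (Algebra.adjoin k (Set.range fun s : O × Fin g => w s.1 (J s.1 s.2))) L := ⟨fun x =>
      (isAlgebraic_algebraMap_iff (algebraMap L M).injective).1
        ((hL.trans AlgebraicIndependent.matroid_closure_eq).le x.2)⟩
    exact h3.extendScalars L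

theorem lift_rep {σ : Type} {B : AV k ι} {Q : B.Pt (MvPowerSeries σ k)} {s : ι → k}
    (h : Rep (B.map (cc k σ) Q) s) : ∃ S, Rep Q S ∧ ∀ a, MvPowerSeries.constantCoeff (S a) = s a := by
  obtain ⟨u, hu⟩ := ((rep_co Q).map (cc k σ)).exists_smul h
  refine ⟨_, (rep_co Q).smul (u.isUnit.map (MvPowerSeries.C (σ := σ))), fun a => ?_⟩
  rw [map_mul, MvPowerSeries.constantCoeff_C, hu, cc_apply]

/-- The section on the branches. -/
theorem frame [NumberField k] [Fintype ι] {B : AV k ι} {g₀ m e : ℕ} (F : FB B g₀) (Z : Cf m)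
    (hg : B.dim ≤ g) (hn : ∀ o, F.em ≤ Z.n o) {P : Fin m → B.Pt k} {z : Fin m → Option ι → k}
    {C : Fin m → Chart k (Option ι) g} {ξ : Fin m → Option ι → MvPowerSeries (Fin g) k}
    {ρ : Fin m → Fin (e + 2) → MvPolynomial ι k} (hP : ∀ o, Rep (P o) fun a => z o (some a))
    (ha : ∀ o, ∃ a, (C o).a₀ = some a) (hat : ∀ o, (C o).At (z o))
    (hξ : ∀ o, (C o).Br (z o) (ξ o))
    (hI : ∀ o, ∀ f ∈ B.I, aeval (fun a => ξ o (some a)) f = 0)
    (hR : ∀ o, ∑ t, aeval (fun a => ξ o (some a)) (ρ o t) * ξ o none ^ (t : ℕ) = 0)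
    (hl : ∀ o, eval (fun a => z o (some a)) (ρ o (Fin.last _)) ≠ 0) {s : Fin m → ι → k}
    (hs : ∀ o, o ≠ Z.h → Rep (P o + 2 ^ Z.j o • P Z.h) (s o)) {c : Co F Z e} (hc : c ≠ 0)
    {Lw : Finset (Ix Z.e)} (hV : Van F Z ρ Lw c) :
    ∃ f : MvPowerSeries (Fin m × Fin (g + 1)) k, f ≠ 0 ∧
      (∀ a, ∃ U, MvPowerSeries.constantCoeff U = ∏ o ∈ univ.erase Z.h, s o (a o) ^ Z.n o ∧
        GR (eT Z e) c (Z.Fa F a fun o b => xs ξ o (some b)) (ts ξ) = U * f) ∧
      ∀ γ, MvPowerSeries.coeff γ f ≠ 0 → ∃ d, d ∉ Lw ∧ ∀ o, (d o : ℕ) ≤ γ (o, 0) := by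
  classical
  let R := MvPowerSeries (Fin m × Fin (g + 1)) k
  have : IsDomain R := NoZeroDivisors.to_isDomain _
  let M := FractionRing R
  let G := IsScalarTower.toAlgHom k R M
  have hG : Function.Injective G := IsFractionRing.injective R _
  choose p h1 h2 using fun o => exists_rep_rename (vE g o) (ξ := fun a => ξ o (some a)) (hP o)
    (fun a => (hξ o).const _) (hI o)
  have h3 : ∀ o, IsUnit (aeval (fun a => xs ξ o (some a)) (ρ o (Fin.last _))) := fun o => by
    rw [MvPowerSeries.isUnit_iff_constantCoeff]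
    exact (env_const' (fun a => xs_const hξ o (some a)) _).symm ▸ (hl o).isUnit
  have h4 : ∀ o, ∑ t, aeval (fun a => xs ξ o (some a)) (ρ o t) * xs ξ o none ^ (t : ℕ) = 0 :=
    fun o => by
      have h := congrArg (MvPowerSeries.rename (vE g o)) (hR o)
      simp only [map_sum, map_mul, map_pow, map_zero, ← xs_aeval] at h
      exact h
  obtain ⟨h5, L, h6, h7⟩ := frame_gen hg (ρ := ρ) (w := fun o c => G (xs ξ o c))
    (U := fun o => G (MvPowerSeries.X (o, 0))) (J := fun o => (C o).I)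
    (fun o => (h1 o).map G) (fun o => (ha o).imp fun a h => by rw [← h, xs_one hξ, map_one])
    (fun o => by
      simpa only [map_sum, map_mul, map_pow, map_zero, par_map_aeval] using congrArg G (h4 o))
    (fun o => by
      rw [← par_map_aeval, map_ne_zero_iff _ hG]
      exact (h3 o).ne_zero)
    (by
      refine (congrArg (fun v => AlgebraicIndependent k v) (_root_.funext ?_)).mp ((xs_indep hξ).map' hG)
      rintro (o | s) <;> rfl)
    fun o a => Cn.eframe_alg (C o) (fun d => G (xs ξ o d)) a fun h1 => by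
      rw [← par_map_aeval, ← par_map_aeval, xs_aeval ξ o fun d => d, xs_aeval ξ o fun d => d,
        (hξ o).eqn _ h1, map_zero, map_zero, map_ne_zero_iff _ hG]
      refine ⟨rfl, fun h2 => ((hat o) _ h1).2.ne_zero ?_⟩
      rw [← env_const (hξ o).const, ← MvPowerSeries.constantCoeff_rename
        (vE g o : Fin g ↪ Fin m × Fin (g + 1)), h2, map_zero]
  have h8 : ∀ o, ∃ S : ι → R, o ≠ Z.h → Rep (p o + 2 ^ Z.j o • p Z.h) S ∧
      ∀ a, MvPowerSeries.constantCoeff (S a) = s o a := fun o => by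
    by_cases ho : o = Z.h
    · exact ⟨0, fun h => absurd ho h⟩
    · exact (lift_rep (by rw [map_add, map_nsmul, h2, h2]; exact hs o ho)).imp fun _ h _ => h
  choose S hS using h8
  obtain ⟨f, f1, f2, f3⟩ := frame_ring Z F hn (x := fun o b => xs ξ o (some b)) h1
    (fun o ho => (hS o ho).1) h5 (fun o b => h6 o _) (T := ts ξ)
    (by simpa only [ts, map_add] using h7) c
  refine ⟨f, f2 hc, fun a => ⟨_, ?_, f1 a⟩, fun γ hγ => ?_⟩
  · rw [map_prod]
    exact prod_congr rfl fun o ho => by rw [map_pow, (hS o (ne_of_mem_erase ho)).2]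
  · obtain ⟨H, hH⟩ := f3 ρ Lw hV fun o => (h3 o).ne_zero
    obtain ⟨V, hV⟩ : IsUnit (∏ o, aeval (fun a => xs ξ o (some a)) (ρ o (Fin.last _)) ^
      (2 * (e + 1) * Z.e o)) := IsUnit.prod_univ_iff.2 fun o => (h3 o).pow _
    rw [← hV, ← Units.eq_inv_mul_iff_mul_eq, mul_sum] at hH
    rw [hH, map_sum] at hγ
    obtain ⟨d, hd, h9⟩ := exists_ne_zero_of_sum_ne_zero hγ
    refine ⟨d, (mem_filter.1 hd).2, fun o => not_lt.1 fun hlt => h9 ?_⟩
    refine MvPowerSeries.X_pow_dvd_iff.1 (Dvd.dvd.mul_left (Dvd.dvd.mul_left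
      ((pow_dvd_pow_of_dvd ?_ _).trans (dvd_prod_of_mem (fun o => (∑ t, aeval (fun b =>
        xs ξ o (some b)) (ρ o t) * ts ξ o ^ (t : ℕ)) ^ (d o : ℕ)) (mem_univ o))) _) _) γ hlt
    rw [← sub_zero (∑ t, _), ← h4 o, ← sum_sub_distrib]
    refine dvd_sum fun t _ => ?_
    rw [← mul_sub]
    refine Dvd.dvd.mul_left ?_ _
    simpa only [ts, add_sub_cancel_left] using sub_dvd_pow_sub_pow (ts ξ o) (xs ξ o none) t

end Pool.Agent.Lib.MP_651af7_nt.Sh
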