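import Pool.Agent.Lib.MP_651af7_nt.Sh.Loc
import Pool.Agent.Lib.MP_651af7_nt.Sh.Frame
import Pool.Agent.Lib.MP_651af7_nt.As.Fa
import Pool.Agent.Lib.MP_651af7_nt.As.Red
import Pool.Agent.Lib.MP_651af7_nt.Jn.Glob

/-! The global inequality. -/

namespace Pool.Agent.Lib.MP_651af7_nt.Sh

open MvPolynomial Finset Height
open Av hiding Bad
open Av.AV
open Vj (gsum)
open As (FB Cf)
open Rt (Col Ix GR)
open Jn (vE unc rr Gs gs_prod gs_nm gs_val gs_ad)

variable {k ι : Type} [Field k] [NumberField k] [Fintype ι] {B : AV k ι} {g₀ g m e μ : ℕ}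

omit [NumberField k] [Fintype ι] in
theorem GR_le {R : Type} [CommRing R] {na : Prop} (S : SN R na) {T : Fin m → Type}
    [∀ i, Fintype (T i)] {M N : Fin m → ℕ} (hN : ∀ o, Fintype.card (T o) ≤ 2 ^ N o)
    {c : Col T M → ℤ} {H : ℝ} (hH : 1 ≤ H) (hc : ∀ τ, |(c τ : ℝ)| ≤ H) {f : ∀ i, T i → R}
    {t : Fin m → R} {Y : Fin m → ℝ} (hY : ∀ o, 0 ≤ Y o) (hf : ∀ o τ, S.N (f o τ) ≤ Y o)
    (ht : ∀ o, S.N (t o) ≤ 1) :
    S.N (GR M c f t) ≤ E na H * (∏ o, E na 2 ^ (N o + M o)) * ∏ o, Y o := by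
  have h0 : 0 ≤ E na H * ∏ o, Y o :=
    mul_nonneg (E_nonneg (zero_le_one.trans hH)) (prod_nonneg fun o _ => hY o)
  refine (S.sum_le_card univ h0 fun τ _ => S.mul_le ((S.intCast_le _).trans (E_mono (hc τ)))
    (S.prod_le _ fun o _ => (S.mul_le (hf o _) (S.pow_le (ht o) _)).trans_eq
      (by rw [one_pow, mul_one]))).trans ?_
  rw [mul_comm (E na H) (∏ o, E na 2 ^ (N o + M o)), mul_assoc, prod_pow_eq_pow_sum]
  refine mul_le_mul_of_nonneg_right (E_le_pow le_rfl ?_) h0
  rw [card_univ, Fintype.card_pi, ← prod_pow_eq_pow_sum]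
  norm_cast
  refine prod_le_prod' fun o _ => ?_
  rw [Fintype.card_prod, Fintype.card_fin, pow_add]
  exact Nat.mul_le_mul (hN o) Nat.lt_two_pow_self

omit [NumberField k] [Fintype ι] in
theorem GR_deg {T : Fin m → Type} [∀ i, Fintype (T i)] (M : Fin m → ℕ) (c : Col T M → ℤ)
    (f : ∀ i, T i → MvPolynomial (Fin m × ι) k) {ν : Fin m × Option ι →₀ ℕ}
    (hν : ν ∈ (GR M c (fun o t => rename (Prod.map id some) (f o t))
      fun o => (X (o, none) : MvPolynomial (Fin m × Option ι) k)).support) (o : Fin m) :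
    ν (o, none) ≤ M o := by
  classical
  refine (monomial_le_degreeOf (o, none) hν).trans ((degreeOf_sum_le _ _ _).trans
    (Finset.sup_le fun τ _ => ?_))
  rw [← map_intCast (C : k →+* _)]
  refine (degreeOf_C_mul_le _ _ _).trans ((degreeOf_prod_le _ _ _).trans ?_)
  have h1 : ∀ o', degreeOf (o, none) (rename (Prod.map id some) (f o' (τ o').1) *
      (X (o', none) : MvPolynomial (Fin m × Option ι) k) ^ ((τ o').2 : ℕ)) ≤
        if o = o' then M o else 0 := fun o' => by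
    have h2 : degreeOf (o, none) (rename (Prod.map id some) (f o' (τ o').1) :
        MvPolynomial (Fin m × Option ι) k) = 0 := by
      by_contra h
      obtain ⟨p, -, hp⟩ := mem_image.1 (vars_rename _ _ (mem_vars_iff_degreeOf_ne_zero.2 h))
      simpa using congrArg Prod.snd hp
    refine (degreeOf_mul_le _ _ _).trans ?_
    rw [h2, zero_add]
    refine (degreeOf_pow_le _ _ _).trans ?_
    rw [degreeOf_X]
    by_cases h : o = o'
    · subst h
      simpa using (τ o).2.is_le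
    · simp [h]
  exact (sum_le_sum fun o' _ => h1 o').trans_eq (by simp)

omit [NumberField k] in
theorem nm_opt (v : AbsoluteValue k ℝ) {w : Option ι → k} (h : 1 ≤ nm v fun a => w (some a)) :
    nm v w ≤ nm v (fun a => w (some a)) * max 1 (v (w none)) := by
  obtain ⟨c, hc⟩ := exists_nm v w
  rw [← hc]
  rcases c with _ | a
  · exact (le_max_right _ _).trans (le_mul_of_one_le_left (by positivity) h)
  · exact (le_nm v (fun a => w (some a)) a).trans
      (le_mul_of_one_le_right (by linarith) (le_max_left _ _))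

omit [NumberField k] in
theorem val_le (v : AbsoluteValue k ℝ) {P : MvPolynomial ι k} (hP : P.IsHomogeneous μ) {s : ℝ}
    (hs : pl v P ≤ s) (x : ι → k) : v (eval x P) ≤ s * nm v x ^ μ := by
  have h := (absSN_ov v).aeval_le hP (nm_nn v x) (le_nm v x)
  rw [aeval_eq_eval] at h
  exact h.trans (mul_le_mul_of_nonneg_right hs (pow_nonneg (nm_nn v x) _))

omit [NumberField k] in
theorem th_le (v : AbsoluteValue k ℝ) {ρ : Fin (e + 2) → MvPolynomial ι k}
    (hρ : ∀ l, (ρ l).IsHomogeneous μ) {s : ℝ} (hs : ∀ l, pl v (ρ l) ≤ s) (w : Option ι → k) :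
    v (th ρ w) ≤ E (IsNonarchimedean v) 2 ^ (2 * e + 2) * (s * nm v (fun a => w (some a)) ^ μ) *
      max 1 (v (w none)) ^ (e + 1) := by
  have h0 : 0 ≤ s * nm v (fun a => w (some a)) ^ μ := (v.nonneg _).trans (val_le v (hρ 0) (hs 0) _)
  have h1 := os_eval (absSN v) (p := (rr ρ fun a => w (some a)).derivative) (z := w none)
    (m := s * nm v (fun a => w (some a)) ^ μ * E (IsNonarchimedean v) 2 ^ (e + 1)) (b := e + 1)
    (Z := max 1 (v (w none))) (fun i => ?_)
    ((Polynomial.natDegree_derivative_le _).trans ((Nat.sub_le _ _).trans (Jn.one_deg _ _)))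
    (le_max_right _ _) (le_max_left _ _)
  · exact h1.trans_eq (by ring)
  rw [Polynomial.coeff_derivative]
  by_cases hi : i + 1 < e + 2
  · refine (absSN v).mul_le ?_ ?_
    · rw [show i + 1 = (⟨i + 1, hi⟩ : Fin (e + 2)) from rfl, Jn.one_coeff, aeval_eq_eval]
      exact val_le v (hρ _) (hs _) _
    · rw [← Nat.cast_succ]
      refine ((absSN v).natCast_le _).trans (E_le_pow le_rfl ?_)
      exact_mod_cast (Nat.lt_succ_iff.1 hi).trans Nat.lt_two_pow_self.le
  · rw [Polynomial.coeff_eq_zero_of_natDegree_lt ((Jn.one_deg _ _).trans_lt (by omega)), zero_mul,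
      (absSN v).zero]
    exact mul_nonneg h0 (pow_nonneg (E_nonneg zero_le_two) _)

omit [Fintype ι] in
theorem aeval_GR (F : FB B g₀) (Z : Cf m) (M : Fin m → ℕ) (c : Col (fun o => F.T (Z.n o)) M → ℤ)
    (a : Fin m → ι) {R : Type} [CommRing R] [Algebra k R] (ζ : Fin m × Option ι → R) :
    aeval ζ (GR M c (fun o t => rename (Prod.map id some)
      (Z.Fa F a (fun o b => (X (o, b) : MvPolynomial (Fin m × ι) k)) o t))
      fun o => (X (o, none) : MvPolynomial (Fin m × Option ι) k)) =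
      GR M c (Z.Fa F a fun o b => ζ (o, some b)) fun o => ζ (o, none) := by
  refine (map_GR (aeval ζ : MvPolynomial (Fin m × Option ι) k →ₐ[k] R).toRingHom _ _ _ _).trans ?_
  simp only [AlgHom.toRingHom_eq_coe, RingHom.coe_coe, aeval_X, aeval_rename, As.Cf.map_Fa]
  rfl

/-- The product formula applied to the leading coefficient of the section. -/
theorem global_ineq (F : FB B g₀) (e μ : ℕ) : ∃ C : ℝ, 0 ≤ C ∧
    ∀ {g m : ℕ} (Z : Cf m) {ρ : Fin m → Fin (e + 2) → MvPolynomial ι k}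
      {w : Fin m → Option ι → k} {ξ : Fin m → Option ι → MvPowerSeries (Fin g) k}
      {P : Fin m → B.Pt k} (c : Co F Z e) {H : ℝ} {q s : Fin m → AbsoluteValue k ℝ → ℝ}
      {h₂ h' : Fin m → ℝ} {S : Fin m → ι → k} {f : MvPowerSeries (Fin m × Fin (g + 1)) k}
      (γ : Fin m → Fin (g + 1) →₀ ℕ),
      (∀ o, F.em ≤ Z.n o ∧ 1 ≤ Z.n o) → (∀ o l, (ρ o l).IsHomogeneous μ) →
      (∀ o, Bra (ρ o) (w o) (ξ o)) → (∀ o, Rep (P o) fun a => w o (some a)) → 1 ≤ H →
      (∀ τ, |(c τ : ℝ)| ≤ H) → (∀ o, Ad (q o) (h₂ o)) → (∀ o v a, Geo v (q o v) (ξ o a)) →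
      (∀ o, Ad (s o) (h' o)) → (∀ o l v, pl v (ρ o l) ≤ s o v) →
      (∀ o, o ≠ Z.h → Rep (P o + 2 ^ Z.j o • P Z.h) (S o)) →
      (∀ a, ∃ U, MvPowerSeries.constantCoeff U = ∏ o ∈ univ.erase Z.h, S o (a o) ^ Z.n o ∧
        GR (eT Z e) c (Z.Fa F a fun o b => xs ξ o (some b)) (ts ξ) = U * f) →
      (∀ (U : MvPowerSeries (Fin m × Fin (g + 1)) k) (γ' : Fin m × Fin (g + 1) →₀ ℕ),
        toLex (fun o => γ' (o, 0)) < toLex (fun o => γ o 0) →
          MvPowerSeries.coeff γ' (U * f) = 0) →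
      MvPowerSeries.coeff (unc γ) f ≠ 0 →
      (∀ U : MvPowerSeries (Fin m × Fin (g + 1)) k, MvPowerSeries.coeff (unc γ) (U * f) =
        MvPowerSeries.constantCoeff U * MvPowerSeries.coeff (unc γ) f) →
      (∀ o, (e + 1) * γ o 0 ≤ eT Z e o) ∧
      ∑ o, γ o 0 * (logHeight (fun l => eval (fun a => w o (some a)) (ρ o l)) +
          (e + 1) * logHeight₁ (w o none)) +
        ∑ o ∈ univ.erase Z.h, Z.n o * ht (P o + 2 ^ Z.j o • P Z.h) ≤
        totalWeight k * Real.log H + ∑ o, Z.dg o * (ht (P o) + C) +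
          ∑ o, eT Z e o * (logHeight₁ (w o none) + C) +
          ∑ o, (γ o).tail.degree *
            (h₂ o + C * (h' o + ht (P o) + logHeight₁ (w o none) + 1)) := by
  obtain ⟨c₂, hc₂⟩ : ∃ c₂, Ad (fun v : AbsoluteValue k ℝ => E (IsNonarchimedean v) 2) c₂ :=
    ⟨_, ad_E one_le_two⟩
  have c0 := hc₂.nonneg
  have f0 := F.ad.nonneg
  obtain ⟨C, hC⟩ : ∃ C : ℝ,
    C = (F.ρ + g₀ + μ + 15 * e + 24) * c₂ + 2 * F.hs + (3 * μ + 2 * e + 3) := ⟨_, rfl⟩
  refine ⟨C, by rw [hC]; positivity, ?_⟩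
  intro g m Z ρ w ξ P c H q s h₂ h' S f γ hn hρ hb hP hH hc aq hq as hs hS hf hlex h0 hmin
  have : Nonempty ι := ⟨B.ao⟩
  obtain ⟨G, hG⟩ : ∃ G : (Fin m → ι) → MvPolynomial (Fin m × Option ι) k, ∀ a,
    G a = GR (eT Z e) c (fun o t => rename (Prod.map id some)
      (Z.Fa F a (fun o b => (X (o, b) : MvPolynomial (Fin m × ι) k)) o t)) fun o => X (o, none) :=
    ⟨_, fun _ => rfl⟩
  have hM : ∀ a, ∀ ν ∈ (G a).support, ∀ o, ν (o, none) ≤ eT Z e o := fun a ν hν =>
    GR_deg _ _ _ (hG a ▸ hν)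
  choose U hU₁ hU₂ using hf
  have eG : ∀ a, aeval (xo fun o => shf (ξ o)) (G a) = U a * f := fun a => by
    rw [hG, aeval_GR, ← hU₂]
    simp only [xo_shf_some, xo_shf_none]
    rfl
  have hx : ∀ o, (fun a => w o (some a)) ≠ 0 := fun o => Cn.rep_ne (hP o)
  have hw : ∀ o, w o ≠ 0 := fun o h => hx o (funext fun a => congrFun h (some a))
  have hr : ∀ o, (fun l => eval (fun a => w o (some a)) (ρ o l)) ≠ 0 := fun o h =>
    (hb o).lead (congrFun h _)
  have hv : ∀ v : AbsoluteValue k ℝ, ∃ a, v (MvPowerSeries.coeff (unc γ) (U a * f)) =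
      (∏ o ∈ univ.erase Z.h, nm v (S o) ^ Z.n o) * v (MvPowerSeries.coeff (unc γ) f) := fun v => by
    choose a ha using fun o => exists_nm v (S o)
    exact ⟨a, by simp only [hmin, hU₁, map_mul, map_prod, map_pow, ha]⟩
  have box : ∀ o, (e + 1) * γ o 0 ≤ eT Z e o := by
    classical
    obtain ⟨a, ha⟩ := hv AbsoluteValue.trivial
    refine loc_box hb (G a) _ γ (hM a) (fun γ' h => by rw [eG]; exact hlex _ γ' h) fun h => ?_
    rw [← eG, h, map_zero] at ha
    exact (mul_pos (prod_pos fun o ho => pow_pos (nm_pos _ (Cn.rep_ne (hS o (ne_of_mem_erase ho))))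
      _) (AbsoluteValue.pos _ h0)).ne ha
  refine ⟨box, ?_⟩
  have key := Gs.le ((gs_prod fun o : univ.erase Z.h =>
    (gs_nm (Cn.rep_ne (hS o (ne_of_mem_erase o.2)))).pow (Z.n o)).mul (gs_val h0))
    ((((gs_ad (ad_E (k := k) hH)).mul (gs_prod fun o =>
      (gs_ad hc₂).pow ((F.ρ + g₀ + 1) * Z.n o + eT Z e o))).mul (gs_prod fun o =>
        (((gs_ad F.ad).pow 2).mul ((gs_ad hc₂).mul (gs_nm (hx o)))).pow (Z.dg o))).mul
      (gs_prod fun o => ((((gs_ad hc₂).pow ((10 * e + 19) * eT Z e o)).mul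
        (((gs_val (hb o).sep).div (gs_nm (hr o))).pow (γ o 0))).mul
        ((gs_ad (ad_max (w o none))).pow (eT Z e o - (e + 1) * γ o 0))).mul
        (((gs_ad (aq o)).mul (((gs_ad (as o)).mul ((gs_ad hc₂).pow (μ + 13 * e + 22))).mul
          (((gs_nm (hw o)).pow (μ + e + 1)).mul ((gs_ad (ad_max (th (ρ o) (w o))⁻¹)).mul
            (gs_ad (ad_max (eval (fun a => w o (some a)) (ρ o (Fin.last _)))⁻¹)))))).pow
          (γ o).tail.degree))) fun v hv' => by
    obtain ⟨a, ha⟩ := hv v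
    have h1 := loc_le hv' (fun o l => (hρ o l).totalDegree_le) (fun o => (as o).one v)
      (fun o l => hs o l v) hb (fun o => (aq o).one v) (fun o => hq o v) (G a) _ γ (hM a)
      (fun γ' h => by rw [eG]; exact hlex _ γ' h)
      (Λ := E (IsNonarchimedean v) H *
        (∏ o, E (IsNonarchimedean v) 2 ^ ((F.ρ + g₀ + 1) * Z.n o + eT Z e o)) *
        ∏ o, (F.s v ^ 2 * (E (IsNonarchimedean v) 2 * nm v fun a => w o (some a))) ^ Z.dg o)
      fun N hN h2 h3 => by
        obtain ⟨Fb, b1, b2, b3⟩ := Z.Fa_le F hn hN (F.sz v) (fun n t => F.φ_pl v t) a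
          (fun o => mul_nonneg (hc₂.pos v).le (nm_nn _ _)) h3
        rw [hG, aeval_GR, ← b3]
        exact GR_le N (fun o => F.card_T_le (hn o).2) hH hc b1 b2 h2
    rw [eG, ha, ← prod_coe_sort] at h1
    exact h1
  have b1 := (ad_E (k := k) hH).le
  have b2 := sum_le_sum fun o (_ : o ∈ univ) => show
      (((F.ρ + g₀ + 1) * Z.n o + eT Z e o : ℕ) : ℝ) *
          gsum (fun v : AbsoluteValue k ℝ => Real.log (E (IsNonarchimedean v) 2)) +
        (Z.dg o : ℝ) * ((2 : ℕ) * gsum (fun v => Real.log (F.s v)) +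
          (gsum (fun v : AbsoluteValue k ℝ => Real.log (E (IsNonarchimedean v) 2)) +
            logHeight fun a => w o (some a))) +
        ((((10 * e + 19) * eT Z e o : ℕ) : ℝ) *
            gsum (fun v : AbsoluteValue k ℝ => Real.log (E (IsNonarchimedean v) 2)) +
          γ o 0 * (0 + -1 * logHeight fun l => eval (fun a => w o (some a)) (ρ o l)) +
          ((eT Z e o - (e + 1) * γ o 0 : ℕ) : ℝ) *
            gsum (fun v => Real.log (max 1 (v (w o none)))) +
          (γ o).tail.degree * (gsum (fun v => Real.log (q o v)) +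
            (gsum (fun v => Real.log (s o v)) + ((μ + 13 * e + 22 : ℕ) : ℝ) *
              gsum (fun v : AbsoluteValue k ℝ => Real.log (E (IsNonarchimedean v) 2)) +
            (((μ + e + 1 : ℕ) : ℝ) * logHeight (w o) +
              (gsum (fun v => Real.log (max 1 (v (th (ρ o) (w o))⁻¹))) + gsum fun v =>
                Real.log (max 1 (v (eval (fun a => w o (some a)) (ρ o (Fin.last _)))⁻¹))))))) +
        γ o 0 * (logHeight (fun l => eval (fun a => w o (some a)) (ρ o l)) +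
          (e + 1) * logHeight₁ (w o none)) ≤
      Z.dg o * (ht (P o) + C) + eT Z e o * (logHeight₁ (w o none) + C) +
        (γ o).tail.degree * (h₂ o + C * (h' o + ht (P o) + logHeight₁ (w o none) + 1)) by
    have n0 : Ad (fun v => nm v fun a => w o (some a)) (ht (P o)) := by
      obtain ⟨a, ha⟩ := (hb o).one
      exact ht_eq (hP o) ▸ ad_nm (x := fun a => w o (some a)) ha
    have c1 := (ad_max (th (ρ o) (w o))⁻¹).le
    have c2 := (ad_max (eval (fun a => w o (some a)) (ρ o (Fin.last _)))⁻¹).le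
    rw [logHeight₁_inv] at c1 c2
    have c3 := (((hc₂.pow _).mul ((as o).mul (n0.pow μ))).mul
      ((ad_max (w o none)).pow (e + 1))).logHeight₁_le fun v _ =>
        th_le v (hρ o) (fun l => hs o l v) (w o)
    have c4 := ((as o).mul (n0.pow μ)).logHeight₁_le fun v _ =>
      val_le v (hρ o (Fin.last _)) (hs o _ v) fun a => w o (some a)
    have c5 := Gs.le (gs_nm (hw o)) (gs_ad (n0.mul (ad_max (w o none)))) fun v _ =>
      nm_opt v ((hb o).one_le v)
    replace c5 := c5.trans (n0.mul (ad_max (w o none))).le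
    have p1 := n0.nonneg
    have p2 := (as o).nonneg
    have p3 := zero_le_logHeight₁ (w o none)
    have e0 : (0 : ℝ) ≤ e := Nat.cast_nonneg e
    have m0 : (0 : ℝ) ≤ μ := Nat.cast_nonneg μ
    have r0 : (0 : ℝ) ≤ F.ρ + g₀ := by positivity
    have d1 : (Z.n o : ℝ) ≤ Z.dg o := by exact_mod_cast Z.n_le_dg o
    have d2 := mul_le_mul_of_nonneg_left (ad_max (w o none)).le
      (Nat.cast_nonneg (α := ℝ) (eT Z e o - (e + 1) * γ o 0))
    rw [← ht_eq (hP o)]
    have l1 := hc₂.le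
    have l2 := F.ad.le
    have l3 := (aq o).le
    have l4 := (as o).le
    generalize gsum (fun v : AbsoluteValue k ℝ => Real.log (E (IsNonarchimedean v) 2)) = x at *
    have d3 := mul_le_mul_of_nonneg_left l1
      (Nat.cast_nonneg (α := ℝ) ((F.ρ + g₀ + 1) * Z.n o + eT Z e o))
    have d4 := mul_le_mul_of_nonneg_left l1 (Nat.cast_nonneg (α := ℝ) ((10 * e + 19) * eT Z e o))
    have d5 := mul_le_mul_of_nonneg_right d1 (show 0 ≤ (F.ρ + g₀ + 1) * c₂ by positivity)
    have d6 := mul_le_mul_of_nonneg_left (show 2 * gsum (fun v => Real.log (F.s v)) +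
      (x + ht (P o)) + (F.ρ + g₀ + 1) * c₂ ≤ ht (P o) + C by
        linarith [mul_nonneg e0 c0, mul_nonneg m0 c0]) (Nat.cast_nonneg (α := ℝ) (Z.dg o))
    have d7 := mul_le_mul_of_nonneg_left (show (10 * e + 20) * c₂ ≤ C by
      linarith [mul_nonneg e0 c0, mul_nonneg m0 c0, mul_nonneg r0 c0])
      (Nat.cast_nonneg (α := ℝ) (eT Z e o))
    have d8 := mul_le_mul_of_nonneg_left l1 (show (0 : ℝ) ≤ μ + 13 * e + 22 by positivity)
    have d9 := mul_le_mul_of_nonneg_left c5 (show (0 : ℝ) ≤ μ + e + 1 by positivity)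
    have C1 : (μ + 15 * e + 24) * c₂ ≤ C := by linarith [mul_nonneg r0 c0]
    have C2 : 3 * μ + 2 * e + 3 ≤ C := by
      linarith [mul_nonneg e0 c0, mul_nonneg m0 c0, mul_nonneg r0 c0]
    have d10 := mul_le_mul_of_nonneg_right C2
      (show 0 ≤ h' o + ht (P o) + logHeight₁ (w o none) by positivity)
    push_cast at c3
    have d11 := mul_le_mul_of_nonneg_left (show gsum (fun v => Real.log (q o v)) +
      (gsum (fun v => Real.log (s o v)) + (μ + 13 * e + 22) * x +
        ((μ + e + 1) * logHeight (w o) +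
          (gsum (fun v => Real.log (max 1 (v (th (ρ o) (w o))⁻¹))) + gsum fun v =>
            Real.log (max 1 (v (eval (fun a => w o (some a)) (ρ o (Fin.last _)))⁻¹))))) ≤
      h₂ o + C * (h' o + ht (P o) + logHeight₁ (w o none) + 1) by
        linarith [mul_nonneg e0 p1, mul_nonneg e0 p2, mul_nonneg e0 p3, mul_nonneg m0 p1,
          mul_nonneg m0 p2, mul_nonneg m0 p3]) (Nat.cast_nonneg (α := ℝ) (γ o).tail.degree)
    rw [Nat.cast_sub (box o)] at d2 ⊢
    push_cast at d2 d3 d4 ⊢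
    linarith
  have b3 : ∑ o : univ.erase Z.h, (Z.n o : ℝ) * logHeight (S o) =
      ∑ o ∈ univ.erase Z.h, Z.n o * ht (P o + 2 ^ Z.j o • P Z.h) := by
    rw [← sum_coe_sort (univ.erase Z.h)]
    exact sum_congr rfl fun o _ => by rw [ht_eq (hS o (ne_of_mem_erase o.2))]
  rw [sum_add_distrib, sum_add_distrib, sum_add_distrib, sum_add_distrib (g := fun o => _ * (h₂ o + _)),
    sum_add_distrib (g := fun o => _ * (logHeight₁ (w o none) + C))] at b2
  linarith

end Pool.Agent.Lib.MP_651af7_nt.Sh
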