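import Pool.Agent.Lib.MP_651af7_nt.As.Red
import Pool.Agent.Lib.MP_651af7_nt.Av.GeoA3
import Pool.Agent.Lib.MP_651af7_nt.Av.Tr

/-! Independent generic points. -/

namespace Pool.Agent.Lib.MP_651af7_nt.Sh

open MvPolynomial Finset
open Av hiding Bad
open Av.AV
open As (FB Cf)

section field

variable {K M : Type} [Field K] [Field M] [Algebra K M]

theorem cl_sub {L : IntermediateField K M} {S₀ : Set M}
    (hL : (L : Set M) = (AlgebraicIndependent.matroid K M).closure S₀) {S : Set M} (hS : S ⊆ L) :
    (AlgebraicIndependent.matroid K M).closure S ⊆ L :=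
  hL ▸ Matroid.closure_subset_closure_of_subset_closure (hL ▸ hS)

theorem td_tower {L : IntermediateField K M} {S : Set M}
    (hL : (L : Set M) = (AlgebraicIndependent.matroid K M).closure S) (T : Set M) :
    td K (S ∪ T) ≤ td K S + td L T := by
  obtain ⟨J, -, -, h3, h4⟩ := exists_td_basis L T
  obtain ⟨L', hL', hS'⟩ := tr_cl (K := K) (S ∪ J)
  refine (tr_td_le (S := S ∪ J) ?_).trans ((td_union_le _ _).trans
    (add_le_add_right ((td_le_encard J).trans h3.le) _))
  rw [← hL']
  refine Set.union_subset (Set.subset_union_left.trans hS') fun a ha => cl_sub hL' subset_rfl ?_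
  rw [AlgebraicIndependent.matroid_closure_eq]
  have h5 : (Algebra.adjoin L J).toSubring ≤ (Algebra.adjoin K (L' : Set M)).toSubring := by
    intro x hx
    refine Algebra.subset_adjoin ?_
    induction hx using Algebra.adjoin_induction with
    | mem x hx => exact hS' (.inr hx)
    | algebraMap r =>
      exact hL'.ge (Matroid.closure_subset_closure _ Set.subset_union_left (hL.le r.2))
    | add x y _ _ a b => exact L'.add_mem a b
    | mul x y _ _ a b => exact L'.mul_mem a b
  exact (h4 a ha).ringHom_of_comp_eq (Subring.inclusion h5) (RingHom.id M)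
    (Subring.inclusion_injective h5) rfl

/-- Products of families that are independent over the values of the other families. -/
theorem li_prod {O : Type} [Fintype O] [DecidableEq O] {T : O → Type} [∀ o, Fintype (T o)]
    {f : ∀ o, T o → M} (L : O → IntermediateField K M) (h1 : ∀ o o', o' ≠ o → ∀ t, f o' t ∈ L o)
    (h2 : ∀ o, LinearIndependent (L o) (f o)) :
    LinearIndependent K fun τ : ∀ o, T o => ∏ o, f o (τ o) := by
  classical
  refine Fintype.linearIndependent_iff.2 fun c hc σ => ?_
  have key : ∀ s : Finset O, ∑ τ : ∀ o, T o with ∀ o ∈ s, τ o = σ o,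
      c τ • ∏ o ∈ sᶜ, f o (τ o) = 0 := fun s => by
    induction s using Finset.induction_on with
    | empty => simpa using hc
    | insert a s ha ih =>
      have h3 : ∀ t, ∑ τ : ∀ o, T o with (∀ o ∈ s, τ o = σ o) ∧ τ a = t,
          c τ • ∏ o ∈ (insert a s)ᶜ, f o (τ o) ∈ L a := fun t =>
        sum_mem fun τ _ => (L a).smul_mem (prod_mem fun o ho => h1 a o (fun e => by simp [e] at ho) _)
      have h4 := Fintype.linearIndependent_iff.1 (h2 a) (fun t => ⟨_, h3 t⟩) (by
        rw [← ih, ← sum_fiberwise (g := fun τ : ∀ o, T o => τ a)]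
        refine sum_congr rfl fun t _ => ?_
        rw [filter_filter, IntermediateField.smul_def, smul_eq_mul, sum_mul]
        refine sum_congr rfl fun τ hτ => ?_
        rw [← (mem_filter.1 hτ).2.2, smul_mul_assoc, compl_insert,
          prod_erase_mul _ (fun o => f o (τ o)) (mem_compl.2 ha)]) (σ a)
      refine Eq.trans ?_ (congrArg Subtype.val h4)
      exact sum_congr (filter_congr fun τ _ => by rw [forall_mem_insert, and_comm]) fun _ _ => rfl
  have h := key univ
  rw [sum_eq_single σ (fun τ hτ h => absurd (by simpa [funext_iff] using hτ) h)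
    (by simp)] at h
  simpa using h

end field

variable {k ι M O : Type} [Field k] [Fintype ι] [Field M] [Algebra k M] {B : AV k ι} [Fintype O]

/-- The points form a generic point of the power of `B`. -/
def Ind (p : O → B.Pt M) : Prop :=
  ((Fintype.card O * B.dim : ℕ) : ℕ∞) ≤ td k (⋃ o, rat (p o).co)

theorem td_biUnion (p : O → B.Pt M) (s : Finset O) :
    td k (⋃ o ∈ s, rat (p o).co) ≤ (s.card * B.dim : ℕ) := by
  classical
  induction s using Finset.induction_on with
  | empty => simp [td]
  | insert a s ha ih =>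
    rw [set_biUnion_insert, card_insert_of_notMem ha, add_mul, one_mul, add_comm, Nat.cast_add]
    exact (td_union_le _ _).trans (add_le_add (B.td_le_dim (rep_co _).zero) ih)

variable {p : O → B.Pt M}

theorem Ind.gen (h : Ind p) (o : O) : ∃ L : IntermediateField k M,
    (∀ o', o' ≠ o → rat (p o').co ⊆ L) ∧ Gen (B.IK L) (p o).co := by
  classical
  obtain ⟨L, hL, hS⟩ := tr_cl (K := k) (⋃ o' ∈ univ.erase o, rat (p o').co)
  refine ⟨L, fun o' ho' => (Set.subset_biUnion_of_mem (u := fun o' => rat (p o').co)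
    (mem_erase.2 ⟨ho', mem_univ _⟩)).trans hS, ?_⟩
  obtain ⟨a, ha⟩ := (rep_co (p o)).unit
  refine (B.gen_iff (fun e => ha.ne_zero (congrFun e a)) (rep_co _).zero).2
    (le_antisymm (B.td_le_dim (rep_co _).zero) ?_)
  have h1 := td_tower hL (rat (p o).co)
  rw [Set.union_comm, ← set_biUnion_insert o _ fun o => rat (p o).co,
    insert_erase (mem_univ o)] at h1
  simp only [mem_univ, Set.iUnion_true] at h1
  have h2 := (h.trans h1).trans (add_le_add_left (td_biUnion p _) _)
  rw [← card_univ, ← card_erase_add_one (mem_univ o), add_mul, one_mul, Nat.cast_add] at h2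
  exact (ENat.add_le_add_iff_left (ENat.natCast_ne_top _)).1 h2

theorem Ind.gen₀ (h : Ind p) {o : O} {y : ι → M} (hy : Rep (p o) y) {f : MvPolynomial ι k} {n : ℕ}
    (hn : f.IsHomogeneous n) (hf : f ∉ B.I) : aeval y f ≠ 0 := fun h0 => by
  obtain ⟨L, -, hL⟩ := h.gen o
  obtain ⟨u, hu⟩ := hy
  rw [show y = fun a => u * (p o).co a from funext hu, aeval_mul_of_hom hn] at h0
  refine hf (B.mem_IK_iff.1 (hL _ n (hn.map _) ?_))
  rw [aeval_map_algebraMap]
  exact (mul_eq_zero.1 h0).resolve_left (pow_ne_zero _ u.ne_zero)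

/-- Subtracting multiples of one of the points. -/
theorem Ind.shear [DecidableEq O] (h : Ind p) (o₀ : O) (N : O → ℕ) :
    Ind fun o => if o = o₀ then p o₀ else p o - N o • p o₀ := by
  obtain ⟨L, hL, hS⟩ := tr_cl (K := k)
    (⋃ o, rat (if o = o₀ then p o₀ else p o - N o • p o₀).co)
  refine h.trans (tr_td_le ?_)
  rw [← hL]
  have h1 := fun o => (Set.subset_iUnion
    (fun o => rat (if o = o₀ then p o₀ else p o - N o • p o₀).co) o).trans hS
  have h2 : rat (p o₀).co ⊆ L := by simpa using h1 o₀
  have h3 : ∀ P Q : B.Pt M, rat P.co ⊆ L → rat Q.co ⊆ L →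
      rat (P + Q).co ⊆ L ∧ rat (P - Q).co ⊆ L := fun P Q hP hQ =>
    (B.rat_add_sub (K := k) P Q).imp (·.trans (cl_sub hL (Set.union_subset hP hQ)))
      (·.trans (cl_sub hL (Set.union_subset hP hQ)))
  have h4 : ∀ n : ℕ, rat (n • p o₀).co ⊆ L := fun n => by
    induction n with
    | zero => simpa using (h3 _ _ h2 h2).2
    | succ n ih => exact succ_nsmul (p o₀) n ▸ (h3 _ _ ih h2).1
  refine Set.iUnion_subset fun o => ?_
  by_cases ho : o = o₀
  · rwa [ho]
  · have h5 := h1 o
    rw [if_neg ho] at h5
    simpa using (h3 _ _ h5 (h4 (N o))).1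

variable [NumberField k] {g : ℕ} (F : FB B g)

omit [Fintype ι] in
theorem φ_li {L : Type} [Field L] [Algebra k L] [Algebra L M] [IsScalarTower k L M] {y : ι → M}
    (hy : Gen (B.IK L) y) {n : ℕ} (hn : F.em ≤ n) :
    LinearIndependent L fun t : F.T n => aeval y (F.φ t) := by
  refine Fintype.linearIndependent_iff.2 fun c hc t => ?_
  have h1 := hy (∑ t, C (c t) * MvPolynomial.map (algebraMap k L) (F.φ t)) n
    (IsHomogeneous.sum _ _ _ fun t _ => by
      simpa using (isHomogeneous_C ι (c t)).mul ((F.φ_hom hn t).map _)) (by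
      rw [← hc, map_sum]
      exact sum_congr rfl fun t _ => by
        rw [map_mul, aeval_C, aeval_map_algebraMap, Algebra.smul_def])
  refine (Module.forall_dual_apply_eq_zero_iff k (c t)).1 fun l => ?_
  have h2 := trCw_mem l h1
  have h3 : trCw l (∑ t, C (c t) * MvPolynomial.map (algebraMap k L) (F.φ t)) =
      ∑ t, C (l (c t)) * F.φ t := by
    ext μ
    simp only [coeff_trCw, coeff_sum, coeff_C_mul, coeff_map, map_sum]
    refine sum_congr rfl fun t _ => ?_
    rw [mul_comm, ← Algebra.smul_def, map_smul, smul_eq_mul, mul_comm]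
  exact congrFun (F.φ_indep _ (h3 ▸ h2)) t

/-- The products of the basic forms are independent. -/
theorem Ind.li [DecidableEq O] (h : Ind p) {y : O → ι → M} (hy : ∀ o, Rep (p o) (y o)) {n : O → ℕ}
    (hn : ∀ o, F.em ≤ n o) :
    LinearIndependent k fun τ : ∀ o, F.T (n o) => ∏ o, aeval (y o) (F.φ (τ o)) := by
  choose L h1 h2 using h.gen
  choose v hv hv' using fun o => B.tr_rep_rat (p o)
  choose u hu using fun o => (hv o).exists_smul (hy o)
  have h3 := li_prod (f := fun o (t : F.T (n o)) => aeval (v o) (F.φ t)) L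
    (fun o o' ho t => tr_aeval_mem (L o) (fun a => h1 o o' ho (hv' o' a)) _) fun o =>
      φ_li F (fun f d hd hf => h2 o f d hd (by
        obtain ⟨w, hw⟩ := (hv o).exists_smul (rep_co _)
        rw [show (p o).co = fun a => w * v o a from funext hw, aeval_mul_of_hom hd, hf, mul_zero]))
        (hn o)
  refine Fintype.linearIndependent_iff.2 fun c hc => Fintype.linearIndependent_iff.1 h3 c
    (mul_left_cancel₀ (prod_ne_zero_iff.2 fun o (_ : o ∈ univ) =>
      pow_ne_zero (n o) (u o).ne_zero) ?_)
  rw [mul_zero, ← hc, mul_sum]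
  refine sum_congr rfl fun τ _ => ?_
  rw [mul_smul_comm, ← prod_mul_distrib]
  exact congrArg _ (prod_congr rfl fun o _ => by
    rw [show y o = fun a => u o * v o a from funext (hu o), aeval_mul_of_hom (F.φ_hom (hn o) _)])

end Pool.Agent.Lib.MP_651af7_nt.Sh
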