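import Pool.Agent.Lib.MP_651af7_nt.Sh.LocB
import Pool.Agent.Lib.MP_651af7_nt.Jn.Loc

/-! The local inequality. -/

namespace Pool.Agent.Lib.MP_651af7_nt.Sh

open MvPolynomial Finset
open Pool.Agent.Lib.MP_651af7_nt.Av Pool.Agent.Lib.MP_651af7_nt.Jn

variable {k ι O : Type} [Field k] {g e : ℕ}

theorem xo_raw_none (ξ : O → Option ι → MvPowerSeries (Fin g) k) (o : O) :
    xo (fun o => raw (ξ o)) (o, none) = MvPowerSeries.X (o, 0) := by
  simp only [xo, raw, Option.elim, MvPowerSeries.rename_X]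
  rfl

theorem xo_raw_some (ξ : O → Option ι → MvPowerSeries (Fin g) k) (o : O) (a : ι) :
    xo (fun o => raw (ξ o)) (o, some a) = MvPowerSeries.rename (vE g o) (ξ o (some a)) := by
  simp only [xo, raw, Option.elim, MvPowerSeries.rename_rename]
  rfl

theorem xo_shf_none (ξ : O → Option ι → MvPowerSeries (Fin g) k) (o : O) :
    xo (fun o => shf (ξ o)) (o, none) =
      MvPowerSeries.rename (vE g o) (ξ o none) + MvPowerSeries.X (o, 0) := by
  simp only [xo, shf, Option.elim, map_add, MvPowerSeries.rename_X, MvPowerSeries.rename_rename]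
  rfl

theorem xo_shf_some (ξ : O → Option ι → MvPowerSeries (Fin g) k) (o : O) (a : ι) :
    xo (fun o => shf (ξ o)) (o, some a) = MvPowerSeries.rename (vE g o) (ξ o (some a)) := by
  simp only [xo, shf, Option.elim, MvPowerSeries.rename_rename]
  rfl

variable [NumberField k] [Fintype ι] [Fintype O] [LinearOrder O] {v : AbsoluteValue k ℝ}

/-- The blocks are treated one after the other; the blocks not yet treated carry coefficients in
the variable `T`, the others in the shifted variable. -/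
theorem loc_le (hv : Adm v) {ρ : O → Fin (e + 2) → MvPolynomial ι k} {D : ℕ}
    (hD : ∀ o l, (ρ o l).totalDegree ≤ D) {s : O → ℝ} (s1 : ∀ o, 1 ≤ s o)
    (hs : ∀ o l, pl v (ρ o l) ≤ s o) {w : O → Option ι → k}
    {ξ : O → Option ι → MvPowerSeries (Fin g) k} (hb : ∀ o, Bra (ρ o) (w o) (ξ o)) {q : O → ℝ}
    (hq : ∀ o, 1 ≤ q o) (hG : ∀ o a, Geo v (q o) (ξ o a)) (G : MvPolynomial (O × Option ι) k)
    (M : O → ℕ) (γ : O → Fin (g + 1) →₀ ℕ) {Λ : ℝ} (hM : ∀ μ ∈ G.support, ∀ o, μ (o, none) ≤ M o)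
    (h0 : ∀ γ' : O × Fin (g + 1) →₀ ℕ, toLex (fun o => γ' (o, 0)) < toLex (fun o => γ o 0) →
      MvPowerSeries.coeff γ' (aeval (xo fun o => shf (ξ o)) G) = 0)
    (hΛ : ∀ S : SN (MvPowerSeries (O × Fin (g + 1)) k) (IsNonarchimedean v), S.Ov v →
      (∀ o, S.N (xo (fun o => raw (ξ o)) (o, none)) ≤ 1) →
      (∀ o a, S.N (xo (fun o => raw (ξ o)) (o, some a)) ≤
        E (IsNonarchimedean v) 2 * nm v fun a => w o (some a)) →
      S.N (aeval (xo fun o => raw (ξ o)) G) ≤ Λ) :
    v (MvPowerSeries.coeff (unc γ) (aeval (xo fun o => shf (ξ o)) G)) ≤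
      Λ * ∏ o, E (IsNonarchimedean v) 2 ^ ((10 * e + 19) * M o) *
        (v (th (ρ o) (w o)) / nm v fun l => eval (fun a => w o (some a)) (ρ o l)) ^ γ o 0 *
        max 1 (v (w o none)) ^ (M o - (e + 1) * γ o 0) *
        (q o * (s o * E (IsNonarchimedean v) 2 ^ (D + 13 * e + 22) * shr v (ρ o) D (w o))) ^
          (γ o).tail.degree := by
  obtain ⟨ε, hε⟩ : ∃ ε, ε = E (IsNonarchimedean v) 2 := ⟨_, rfl⟩
  have e1 : 1 ≤ ε := hε ▸ one_le_E one_le_two
  obtain ⟨R, hR⟩ : ∃ R : O → ℝ, ∀ o,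
    R o = q o * (s o * ε ^ (D + 3 * e + 3) * shr v (ρ o) D (w o)) := ⟨_, fun _ => rfl⟩
  have qR : ∀ o, q o ≤ R o := fun o => by
    rw [hR]
    exact le_mul_of_one_le_right (by linarith [hq o]) (one_le_mul_of_one_le_of_one_le
      (one_le_mul_of_one_le_of_one_le (s1 o) (one_le_pow₀ e1)) ((hb o).one_le_shr v D))
  have R0 : ∀ o, 0 < R o := fun o => by linarith [hq o, qR o]
  obtain ⟨z, hz⟩ : ∃ z : O → ℝ, ∀ o, z o =
    (v (th (ρ o) (w o)) / nm v fun l => eval (fun a => w o (some a)) (ρ o l)) ^ γ o 0 *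
      max 1 (v (w o none)) ^ (M o - (e + 1) * γ o 0) := ⟨_, fun _ => rfl⟩
  have z0 : ∀ o, 0 ≤ z o := fun o => hz o ▸ mul_nonneg
    (pow_nonneg (div_nonneg (v.nonneg _) (nm_nn v _)) _) (by positivity)
  refine loc_lim (∑ o, (γ o).tail.degree) fun lam l0 l1 => ?_
  have t0 : ∀ o, 0 < lam / R o := fun o => div_pos l0 (R0 o)
  obtain ⟨t, ht⟩ : ∃ t : O × Fin (g + 1) → ℝ,
    t = fun p => Fin.cases (motive := fun _ => ℝ) 1 (fun _ => lam / R p.1) p.2 := ⟨_, rfl⟩
  have t1 : ∀ p, 0 ≤ t p := fun ⟨o, l⟩ => by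
    rw [ht]
    exact Fin.cases zero_le_one (fun _ => (t0 o).le) l
  obtain ⟨S, hS⟩ := exists_serSN (absSN v) t1 (unc fun o => Finsupp.cons (M o) (γ o).tail)
  have hO : S.Ov v := (absSN_ov v).ser t1 hS
  have a2 := hΛ S hO (fun o => by
      rw [xo_raw_none, hS]
      exact (loc_X v t1 _ _).trans_eq (by rw [ht]; rfl)) fun o a => by
    rw [xo_raw_some]
    refine Cn.near_le hO le_rfl (le_trans ?_ ((hb o).one_le v)) (le_nm v (fun a => w o (some a)) a)
    rw [hS, ← (hb o).const]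
    refine serN_rename_sub (absSN v) (vE g o) t1 (ξ o (some a)) (by linarith [hq o]) zero_le_one
      le_rfl (hG o _) fun j => ?_
    rw [ht]
    change lam / R o * q o ≤ 1
    rw [div_mul_eq_mul_div, div_le_one (R0 o)]
    exact (mul_le_of_le_one_left (by linarith [hq o]) l1.le).trans (qR o)
  have L0 := (S.nonneg _).trans a2
  obtain ⟨B, hB⟩ : ∃ B, ∀ o, γ o 0 < B :=
    ⟨univ.sup (fun o => γ o 0) + 1, fun o => Nat.lt_succ_of_le (le_sup (f := fun o => γ o 0)
      (mem_univ o))⟩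
  have hu : ∀ (γ' : O → Bool × (Fin (g + 1) →₀ ℕ)) o β,
      MvPowerSeries.coeff (unc fun o' => (Function.update γ' o β o').2)
        (aeval (xo fun o' => mix (ξ o') (Function.update γ' o β o').1) G) =
      MvPowerSeries.coeff (unc (Function.update (fun o' => (γ' o').2) o β.2)) (aeval
        (xo (Function.update (fun o' => mix (ξ o') (γ' o').1) o (mix (ξ o) β.1))) G) :=
    fun γ' o β => by
      rw [show (fun o' => (Function.update γ' o β o').2) = _ from
          funext (Function.apply_update (fun _ b => b.2) γ' o β),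
        show (fun o' => mix (ξ o') (Function.update γ' o β o').1) = _ from
          funext (Function.apply_update (fun o' b => mix (ξ o') b.1) γ' o β)]
  have key := chain (B := Bool × (Fin (g + 1) →₀ ℕ))
    (fun γ' => v (MvPowerSeries.coeff (unc fun o => (γ' o).2)
      (aeval (xo fun o => mix (ξ o) (γ' o).1) G)))
    (fun β => if β.1 then β.2 0 else B)
    (fun o β => β.1 = false ∧ β.2 0 ≤ M o ∧ β.2.tail ≤ (γ o).tail)
    (fun o β => (lam / R o) ^ β.2.tail.degree) (fun o => (true, γ o))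
    (fun o => ε ^ ((10 * e + 19) * (M o + (γ o).tail.degree)) * z o)
    (fun o β => pow_pos (t0 o) _) (fun o => mul_nonneg (by positivity) (z0 o))
    (fun γ' ⟨o, k1, k2⟩ => by
      have k3 : ∀ o' n, n < B → (if (γ' o').1 then (γ' o').2 0 else B) = n →
          (γ' o').1 = true ∧ (γ' o').2 0 = n := fun o' n h1 h2 => by
        split_ifs at h2 with h3
        · exact ⟨h3, h2⟩
        · omega
      have k4 := fun o' (h : o' < o) => k3 o' _ (hB o') (k1 o' h)
      have k5 := k3 o _ (lt_trans k2 (hB o)) rfl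
      rw [mix_zero ξ G (· ≤ o) (fun o => (γ' o).2) (fun γ'' h => h0 _ ⟨o, fun o' h' => ?_, ?_⟩)
        _ fun o' h => ?_, map_zero]
      · change γ'' o' 0 = γ o' 0
        rw [h o' h'.le, (k4 o' h').2]
      · change γ'' o 0 < γ o 0
        rw [h o le_rfl, k5.2]
        exact k2
      · exact h.eq_or_lt.elim (fun h => h ▸ k5.1) fun h => (k4 o' h).1)
    (fun o γ' Λ' L1 f1 f2 => by
      obtain ⟨P, p1, p2⟩ := exists_slice' (fun o => mix (ξ o) (γ' o).1) G o fun o => (γ' o).2
      simp only [hu, ← p2] at f1 f2 ⊢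
      rw [hz, ← mul_assoc, hε]
      refine one_le hv (hD o) (s1 o) (hs o) (hb o) (hq o) (hG o) l0 l1 (by rw [hR, hε]) P (M o)
        (γ o) L1 (fun μ hμ => ?_) (fun β hβ => v.eq_zero.1 (f1 (true, β) hβ))
        fun β k1 k2 => f2 (false, β) ⟨rfl, k1, k2⟩
      obtain ⟨ν, hν, e⟩ := p1 μ hμ
      simpa only [e] using hM ν hν o)
    L0 fun γ' h => by
      rw [← loc_wt (fun o => lam / R o) fun o => (γ' o).2, ← ht,
        show (fun o => mix (ξ o) (γ' o).1) = fun o => raw (ξ o) from funext fun o => by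
          rw [(h o).1, mix]]
      refine le_trans ?_ a2
      rw [hS]
      refine coeff_le_serN (absSN v) t1 _ fun ⟨o, l⟩ => ?_
      rw [unc_apply, unc_apply]
      exact Fin.cases (h o).2.1 (fun j => (h o).2.2 j) l
  simp only [div_pow, prod_div_distrib, prod_pow_eq_pow_sum] at key
  rw [← mul_div_assoc, div_le_iff₀ (prod_pos fun o _ => pow_pos (R0 o) _), mul_comm _ Λ, mul_assoc,
    ← prod_mul_distrib] at key
  refine key.trans (le_of_eq (congrArg _ (prod_congr rfl fun o _ => ?_)))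
  rw [← hε, hz, hR]
  ring

omit [NumberField k] in
/-- The lexicographically first exponents are bounded by the degrees. -/
theorem loc_box {ρ : O → Fin (e + 2) → MvPolynomial ι k} {w : O → Option ι → k}
    {ξ : O → Option ι → MvPowerSeries (Fin g) k} (hb : ∀ o, Bra (ρ o) (w o) (ξ o))
    (G : MvPolynomial (O × Option ι) k) (M : O → ℕ) (γ : O → Fin (g + 1) →₀ ℕ)
    (hM : ∀ μ ∈ G.support, ∀ o, μ (o, none) ≤ M o)
    (h0 : ∀ γ' : O × Fin (g + 1) →₀ ℕ, toLex (fun o => γ' (o, 0)) < toLex (fun o => γ o 0) →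
      MvPowerSeries.coeff γ' (aeval (xo fun o => shf (ξ o)) G) = 0)
    (h1 : MvPowerSeries.coeff (unc γ) (aeval (xo fun o => shf (ξ o)) G) ≠ 0) (o : O) :
    (e + 1) * γ o 0 ≤ M o := by
  obtain ⟨P, p1, p2⟩ := exists_slice (fun o => shf (ξ o)) G o γ
  have d1 : (tp (fun a => ξ o (some a)) P).natDegree ≤ M o := tp_natDegree _ fun μ hμ => by
    obtain ⟨ν, hν, e⟩ := p1 μ hμ
    simpa only [e] using hM ν hν o
  have d2 : (rr (ρ o) fun a => ξ o (some a)).natDegree = e + 1 :=
    Polynomial.natDegree_eq_of_le_of_coeff_ne_zero (one_deg _ _) fun h => (hb o).lead (by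
      rw [← aeval_eq_eval, ← env_const fun a => (hb o).const (some a), ← one_coeff, Fin.val_last,
        h, map_zero])
  have d3 := Polynomial.natDegree_le_of_dvd ((hb o).div P (γ o 0)
    (Polynomial.X_pow_dvd_iff.2 fun i hi => MvPowerSeries.ext fun α => by
      rw [← coeff_emb, ← aeval_shf, p2, map_zero]
      refine h0 _ ⟨o, fun o' h => ?_, ?_⟩
      · change Function.update γ o _ o' 0 = γ o' 0
        rw [Function.update_of_ne h.ne]
      · change Function.update γ o _ o 0 < γ o 0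
        rwa [Function.update_self, Finsupp.cons_zero])) fun h => h1 (by
      rw [← Function.update_eq_self o γ, ← p2, aeval_shf, h, map_zero, map_zero, map_zero])
  rw [Polynomial.natDegree_pow, d2, mul_comm] at d3
  exact d3.trans d1

end Pool.Agent.Lib.MP_651af7_nt.Sh
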