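import Pool.Agent.Lib.MP_651af7_nt.Jn.Ten

/-! Coefficients of series in several blocks, in the fibre variable and in its shift. -/

namespace Pool.Agent.Lib.MP_651af7_nt.Sh

open MvPolynomial Finset
open Pool.Agent.Lib.MP_651af7_nt.Av Pool.Agent.Lib.MP_651af7_nt.Jn

variable {k κ ι O : Type} [Field k] {g r : ℕ}

/-- The value of `P` at `(T, x)` as a polynomial in `T`. -/
noncomputable def tp {R : Type} [CommRing R] [Algebra k R] (x : ι → R)
    (P : MvPolynomial (Option ι) k) : Polynomial R :=
  aeval (fun c : Option ι => c.elim Polynomial.X fun a => Polynomial.C (x a)) P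

/-- The series `(T, x)`. -/
noncomputable def raw (ξ : Option ι → MvPowerSeries (Fin g) k) :
    Option ι → MvPowerSeries (Fin (g + 1)) k :=
  fun c => c.elim (MvPowerSeries.X 0) fun a => MvPowerSeries.rename (vS g) (ξ (some a))

/-- The series `(t + U, x)`. -/
noncomputable def shf (ξ : Option ι → MvPowerSeries (Fin g) k) :
    Option ι → MvPowerSeries (Fin (g + 1)) k :=
  fun c => c.elim (MvPowerSeries.rename (vS g) (ξ none) + MvPowerSeries.X 0)
    fun a => MvPowerSeries.rename (vS g) (ξ (some a))

/-- A polynomial over the series in `g` variables as a series in `g + 1` variables. -/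
noncomputable def emb (k : Type) [Field k] (g : ℕ) :
    Polynomial (MvPowerSeries (Fin g) k) →ₐ[k] MvPowerSeries (Fin (g + 1)) k :=
  Polynomial.eval₂AlgHom (MvPowerSeries.rename (vS g)) (MvPowerSeries.X 0)
    fun _ => Commute.all _ _

theorem coeff_emb (p : Polynomial (MvPowerSeries (Fin g) k)) (j : ℕ) (α : Fin g →₀ ℕ) :
    MvPowerSeries.coeff (Finsupp.cons j α) (emb k g p) = MvPowerSeries.coeff α (p.coeff j) := by
  rw [emb]
  induction p using Polynomial.induction_on' with
  | add p q hp hq => rw [map_add, map_add, hp, hq, Polynomial.coeff_add, map_add]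
  | monomial n a =>
    rw [Polynomial.eval₂AlgHom_apply, Polynomial.eval₂_monomial, MvPowerSeries.X_pow_eq,
      Polynomial.coeff_monomial, RingHom.coe_coe]
    split_ifs with e
    · rw [show Finsupp.cons j α = Finsupp.embDomain (vS g) α + Finsupp.single 0 n from
        Finsupp.ext fun i => ?_, MvPowerSeries.coeff_add_mul_monomial, mul_one,
        MvPowerSeries.coeff_embDomain_rename]
      refine Fin.cases ?_ (fun i => ?_) i
      · rw [Finsupp.add_apply, Finsupp.embDomain_of_notMem_range _ _ _ fun ⟨_, e⟩ =>
          Fin.succ_ne_zero _ e, Finsupp.single_eq_same, zero_add, e, Finsupp.cons_zero]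
      · rw [Finsupp.add_apply, Finsupp.single_eq_of_ne (Fin.succ_ne_zero _), add_zero,
          Finsupp.cons_succ]
        exact (Finsupp.embDomain_apply_self (vS g) _ i).symm
    · rw [MvPowerSeries.coeff_mul_monomial, map_zero]
      split_ifs with h1
      · rw [MvPowerSeries.coeff_rename_eq_zero, zero_mul]
        rintro ⟨β, h2⟩
        have h3 := DFunLike.congr_fun h2 0
        have h4 := h1 0
        rw [Finsupp.mapDomain_of_notMem_range _ _ fun ⟨_, e⟩ => Fin.succ_ne_zero _ e,
          Finsupp.tsub_apply] at h3
        rw [Finsupp.single_eq_same, Finsupp.cons_zero] at h3 h4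
        omega
      · rfl

theorem aeval_raw (ξ : Option ι → MvPowerSeries (Fin g) k) (P : MvPolynomial (Option ι) k) :
    aeval (raw ξ) P = emb k g (tp (fun a => ξ (some a)) P) := by
  rw [tp, ← AlgHom.comp_apply, comp_aeval]
  refine congrArg (fun w => aeval w P) (funext fun c => ?_)
  cases c <;> simp [raw, emb]

theorem taylor_tp {R : Type} [CommRing R] [Algebra k R] (z : R) (x : ι → R)
    (P : MvPolynomial (Option ι) k) : Polynomial.taylor z (tp x P) =
      aeval (fun c : Option ι => c.elim (Polynomial.X + Polynomial.C z)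
        fun a => Polynomial.C (x a)) P := by
  have h := AlgHom.comp_apply ((Polynomial.taylorAlgHom z).restrictScalars k)
    (aeval (fun c : Option ι => c.elim Polynomial.X fun a => Polynomial.C (x a))) P
  rw [comp_aeval] at h
  refine h.symm.trans (congrArg (fun w => aeval w P) (funext fun c => ?_))
  cases c <;> simp

theorem aeval_shf (ξ : Option ι → MvPowerSeries (Fin g) k) (P : MvPolynomial (Option ι) k) :
    aeval (shf ξ) P = emb k g (Polynomial.taylor (ξ none) (tp (fun a => ξ (some a)) P)) := by
  rw [taylor_tp, ← AlgHom.comp_apply, comp_aeval]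
  refine congrArg (fun w => aeval w P) (funext fun c => ?_)
  cases c <;> simp [shf, emb, add_comm]

theorem raw_eq_zero {ξ : Option ι → MvPowerSeries (Fin g) k} {P : MvPolynomial (Option ι) k}
    (h : aeval (shf ξ) P = 0) : aeval (raw ξ) P = 0 := by
  have h1 : Polynomial.taylor (ξ none) (tp (fun a => ξ (some a)) P) = 0 :=
    Polynomial.ext fun j => MvPowerSeries.ext fun α => by
      rw [← coeff_emb, ← aeval_shf, h, map_zero, Polynomial.coeff_zero, map_zero]
  rw [aeval_raw, Polynomial.taylor_injective _ (h1.trans (map_zero _).symm), map_zero]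

theorem tp_monomial [Fintype ι] {R : Type} [CommRing R] [Algebra k R] (x : ι → R)
    (μ : Option ι →₀ ℕ) (c : k) : tp x (monomial μ c) =
      Polynomial.X ^ μ none * Polynomial.C (c • ∏ a, x a ^ μ (some a)) := by
  rw [tp, aeval_mono, ← Polynomial.smul_C, mul_smul_comm]
  simp only [Fintype.prod_option, Option.elim, map_prod, map_pow]

theorem tp_natDegree [Fintype ι] {R : Type} [CommRing R] [Algebra k R] (x : ι → R)
    {P : MvPolynomial (Option ι) k} {M : ℕ} (h : ∀ μ ∈ P.support, μ none ≤ M) :
    (tp x P).natDegree ≤ M := by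
  rw [P.as_sum, tp, map_sum]
  refine Polynomial.natDegree_sum_le_of_forall_le _ _ fun μ hμ => ?_
  rw [← tp, tp_monomial]
  exact (Polynomial.natDegree_mul_C_le _ _).trans ((Polynomial.natDegree_X_pow_le _).trans (h μ hμ))

variable [Fintype O]

/-- Fix the exponents and the series outside the block `o`. -/
theorem exists_slice' [Fintype κ] [DecidableEq O] (ζ : O → κ → MvPowerSeries (Fin r) k)
    (G : MvPolynomial (O × κ) k) (o : O) (γ : O → Fin r →₀ ℕ) : ∃ P : MvPolynomial κ k,
      (∀ μ ∈ P.support, ∃ ν ∈ G.support, ∀ b, μ b = ν (o, b)) ∧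
      ∀ z β, MvPowerSeries.coeff β (aeval z P) = MvPowerSeries.coeff
        (unc (Function.update γ o β)) (aeval (xo (Function.update ζ o z)) G) := by
  classical
  refine ⟨∑ ν ∈ G.support, monomial (Finsupp.equivFunOnFinite.symm fun b => ν (o, b))
    (coeff ν G * ∏ o' ∈ Finset.univ.erase o,
      MvPowerSeries.coeff (γ o') (∏ b, ζ o' b ^ ν (o', b))), fun μ hμ => ?_, fun z β => ?_⟩
  · obtain ⟨ν, hν, h⟩ := Finset.mem_biUnion.1 (support_sum hμ)
    rw [Finset.mem_singleton.1 (support_monomial_subset h)]
    exact ⟨ν, hν, fun _ => rfl⟩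
  · conv_rhs => rw [G.as_sum]
    simp only [map_sum]
    refine Finset.sum_congr rfl fun ν _ => ?_
    rw [coeff_xo_monomial, aeval_mono, map_smul, smul_eq_mul,
      ← Finset.prod_erase_mul _ _ (Finset.mem_univ o), Function.update_self, Function.update_self,
      mul_assoc]
    exact congrArg _ (congrArg (· * _) (Finset.prod_congr rfl fun o' h => by
      rw [Function.update_of_ne (Finset.ne_of_mem_erase h),
        Function.update_of_ne (Finset.ne_of_mem_erase h)]))

variable [Fintype ι]

/-- The series of a block according to a flag. -/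
noncomputable def mix (ξ : Option ι → MvPowerSeries (Fin g) k) :
    Bool → Option ι → MvPowerSeries (Fin (g + 1)) k
  | true => shf ξ
  | false => raw ξ

/-- A vanishing that does not depend on the blocks outside `A` holds for all flags there. -/
theorem mix_zero [DecidableEq O] (ξ : O → Option ι → MvPowerSeries (Fin g) k)
    (G : MvPolynomial (O × Option ι) k) (A : O → Prop) (γ : O → Fin (g + 1) →₀ ℕ)
    (h : ∀ γ' : O → Fin (g + 1) →₀ ℕ, (∀ o, A o → γ' o = γ o) →
      MvPowerSeries.coeff (unc γ') (aeval (xo fun o => shf (ξ o)) G) = 0)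
    (f : O → Bool) (hf : ∀ o, A o → f o = true) :
    MvPowerSeries.coeff (unc γ) (aeval (xo fun o => mix (ξ o) (f o)) G) = 0 := by
  have key : ∀ S : Finset O, ∀ f : O → Bool, (∀ o, A o → f o = true) → (∀ o ∉ S, f o = true) →
      ∀ γ' : O → Fin (g + 1) →₀ ℕ, (∀ o, A o → γ' o = γ o) →
      MvPowerSeries.coeff (unc γ') (aeval (xo fun o => mix (ξ o) (f o)) G) = 0 := fun S => by
    induction S using Finset.induction_on with
    | empty =>
      intro f _ h2 γ' h3
      obtain rfl : f = fun _ => true := funext fun o => h2 o (notMem_empty o)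
      exact h γ' h3
    | insert a s _ ih =>
      intro f h1 h2 γ' h3
      cases ha : f a with
      | true =>
        exact ih f h1 (fun o ho => by
          rcases eq_or_ne o a with rfl | hne
          · exact ha
          · exact h2 o fun h => (mem_insert.1 h).elim hne ho) γ' h3
      | false =>
        have a1 : ¬A a := fun h => by simp [h1 a h] at ha
        obtain ⟨P, -, p2⟩ := exists_slice' (fun o => mix (ξ o) (f o)) G a γ'
        have e1 : aeval (shf (ξ a)) P = 0 := MvPowerSeries.ext fun β => by
          rw [p2, map_zero, show Function.update (fun o => mix (ξ o) (f o)) a (shf (ξ a)) =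
            fun o => mix (ξ o) (Function.update f a true o) from funext fun o => by
              rcases eq_or_ne o a with rfl | hne
              · rw [Function.update_self, Function.update_self, mix]
              · rw [Function.update_of_ne hne, Function.update_of_ne hne]]
          refine ih _ (fun o ho => ?_) (fun o ho => ?_) _ fun o ho => ?_
          · rw [Function.update_of_ne fun e : o = a => a1 (e ▸ ho), h1 o ho]
          · rcases eq_or_ne o a with rfl | hne
            · exact Function.update_self ..
            · rw [Function.update_of_ne hne]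
              exact h2 o fun h => (mem_insert.1 h).elim hne ho
          · rw [Function.update_of_ne fun e : o = a => a1 (e ▸ ho), h3 o ho]
        have e2 := p2 (raw (ξ a)) (γ' a)
        rw [raw_eq_zero e1, map_zero, Function.update_eq_self,
          show raw (ξ a) = (fun o => mix (ξ o) (f o)) a by simp only [ha, mix],
          Function.update_eq_self] at e2
        exact e2.symm
  exact key univ f hf (fun o h => absurd (mem_univ o) h) γ fun _ _ => rfl

/-- The coefficient of `U ^ d` is a polynomial in the coordinates. -/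
theorem exists_dU (G : MvPolynomial (O × Option ι) k) (d : O → ℕ) :
    ∃ G' : MvPolynomial (O × Option ι) k,
      (∀ μ, ∃ (n : ℕ) (ν : O × Option ι →₀ ℕ), μ ≤ ν ∧ n ≤ 2 ^ (∑ o, ν (o, none)) ∧
        coeff μ G' = n * coeff ν G) ∧
      ∀ (ξ : O → Option ι → MvPowerSeries (Fin g) k) (α : O → Fin g →₀ ℕ),
        MvPowerSeries.coeff (unc α) (aeval (xo ξ) G') =
        MvPowerSeries.coeff (unc fun o => Finsupp.cons (d o) (α o))
          (aeval (xo fun o => shf (ξ o)) G) := by
  classical
  obtain ⟨δ, hδ⟩ : ∃ δ : O × Option ι →₀ ℕ, ∀ p, δ p = p.2.elim (d p.1) fun _ => 0 :=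
    ⟨Finsupp.equivFunOnFinite.symm _, fun _ => rfl⟩
  refine ⟨∑ μ ∈ G.support, monomial (μ - δ) ((∏ o, (μ (o, none)).choose (d o) : ℕ) * coeff μ G),
    fun μ => ⟨∏ o, ((μ + δ) (o, none)).choose (d o), μ + δ, le_self_add, ?_, ?_⟩, fun ξ α => ?_⟩
  rotate_left
  · rw [coeff_sum, Finset.sum_eq_single (μ + δ) (fun ν _ h => ?_)
      fun h => by rw [notMem_support_iff.1 h, mul_zero, map_zero, coeff_zero], coeff_monomial,
      if_pos (add_tsub_cancel_right _ _)]
    rw [coeff_monomial]
    split_ifs with h1
    · by_cases h2 : δ ≤ ν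
      · exact absurd (by rw [← h1, tsub_add_cancel_of_le h2]) h
      · obtain ⟨⟨o, c⟩, h3⟩ := not_forall.1 fun h3 => h2 (Finsupp.le_def.2 h3)
        rw [hδ] at h3
        cases c with
        | none => rw [prod_eq_zero (mem_univ o) (Nat.choose_eq_zero_of_lt (not_le.1 h3)),
            Nat.cast_zero, zero_mul]
        | some a => exact absurd (Nat.zero_le _) h3
    · rfl
  · conv_rhs => rw [G.as_sum]
    simp only [map_sum]
    refine Finset.sum_congr rfl fun μ _ => ?_
    rw [coeff_xo_monomial, coeff_xo_monomial, mul_comm _ (coeff μ G), mul_assoc, Nat.cast_prod,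
      ← Finset.prod_mul_distrib]
    refine congrArg _ (Finset.prod_congr rfl fun o _ => ?_)
    have h := coeff_emb (Polynomial.taylor (ξ o none) (tp (fun a => ξ o (some a))
      (monomial (Finsupp.equivFunOnFinite.symm fun b => μ (o, b)) (1 : k)))) (d o) (α o)
    rw [← aeval_shf, aeval_mono, tp_monomial, one_smul, one_smul, Polynomial.taylor_mul,
      Polynomial.taylor_C, Polynomial.taylor_pow, Polynomial.taylor_X, Polynomial.coeff_mul_C,
      Polynomial.coeff_X_add_C_pow, mul_comm (_ ^ _), mul_assoc, ← nsmul_eq_mul, map_nsmul,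
      nsmul_eq_mul] at h
    refine Eq.trans ?_ h.symm
    simp [Fintype.prod_option, hδ]
  · rw [← Finset.prod_pow_eq_pow_sum]
    exact Finset.prod_le_prod' fun o _ => Nat.choose_le_two_pow _ _

end Pool.Agent.Lib.MP_651af7_nt.Sh
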