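import Pool.Agent.Lib.MP_651af7_nt.Sh.OneS
import Pool.Agent.Lib.MP_651af7_nt.Sh.LocA
import Pool.Agent.Lib.MP_651af7_nt.Jn.OneB

/-! The estimate for one block. -/

namespace Pool.Agent.Lib.MP_651af7_nt.Sh

open MvPolynomial Finset
open Pool.Agent.Lib.MP_651af7_nt.Av Pool.Agent.Lib.MP_651af7_nt.Jn

variable {k ι : Type} [Field k] {g e : ℕ}

/-- The derivative of the equation at the point `w = (t, x)`. -/
noncomputable def th {R : Type} [CommRing R] [Algebra k R] (ρ : Fin (e + 2) → MvPolynomial ι k)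
    (w : Option ι → R) : R := (rr ρ fun a => w (some a)).derivative.eval (w none)

theorem map_th {R R' : Type} [CommRing R] [Algebra k R] [CommRing R'] [Algebra k R']
    (f : R →ₐ[k] R') (ρ : Fin (e + 2) → MvPolynomial ι k) (w : Option ι → R) :
    f (th ρ w) = th ρ fun c => f (w c) := by
  rw [th, th, ← one_map_rr, Polynomial.derivative_map, Polynomial.eval_map]
  exact (Polynomial.eval₂_at_apply (f : R →+* R') _).symm

/-- A branch `ξ` at the point `w` of the cover with the equation `ρ`, unramified at `w`. -/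
structure Bra (ρ : Fin (e + 2) → MvPolynomial ι k) (w : Option ι → k)
    (ξ : Option ι → MvPowerSeries (Fin g) k) : Prop where
  one : ∃ a, w (some a) = 1
  const : ∀ c, MvPowerSeries.constantCoeff (ξ c) = w c
  root : (rr ρ fun a => ξ (some a)).eval (ξ none) = 0
  sep : th ρ w ≠ 0
  lead : eval (fun a => w (some a)) (ρ (Fin.last _)) ≠ 0
  div : ∀ (P : MvPolynomial (Option ι) k) (N : ℕ),
    Polynomial.X ^ N ∣ Polynomial.taylor (ξ none) (tp (fun a => ξ (some a)) P) →
      rr ρ (fun a => ξ (some a)) ^ N ∣ tp (fun a => ξ (some a)) P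

/-- The factor by which the radius shrinks. -/
noncomputable def shr (v : AbsoluteValue k ℝ) (ρ : Fin (e + 2) → MvPolynomial ι k) (D : ℕ)
    (w : Option ι → k) : ℝ := nm v w ^ (D + e + 1) * (max 1 (v (th ρ w)⁻¹) *
      max 1 (v (eval (fun a => w (some a)) (ρ (Fin.last _)))⁻¹))

variable [NumberField k] [Fintype ι] {v : AbsoluteValue k ℝ}

omit [NumberField k] in
theorem Bra.one_le {ρ : Fin (e + 2) → MvPolynomial ι k} {w : Option ι → k}
    {ξ : Option ι → MvPowerSeries (Fin g) k} (h : Bra ρ w ξ) (v : AbsoluteValue k ℝ) :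
    1 ≤ nm v fun a => w (some a) := by
  obtain ⟨a, ha⟩ := h.one
  simpa only [ha, map_one] using le_nm v (fun a => w (some a)) a

omit [NumberField k] in
theorem Bra.one_le' {ρ : Fin (e + 2) → MvPolynomial ι k} {w : Option ι → k}
    {ξ : Option ι → MvPowerSeries (Fin g) k} (h : Bra ρ w ξ) (v : AbsoluteValue k ℝ) :
    1 ≤ nm v w := by
  obtain ⟨a, ha⟩ := h.one
  simpa only [ha, map_one] using le_nm v w (some a)

omit [NumberField k] in
theorem Bra.one_le_shr {ρ : Fin (e + 2) → MvPolynomial ι k} {w : Option ι → k}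
    {ξ : Option ι → MvPowerSeries (Fin g) k} (h : Bra ρ w ξ) (v : AbsoluteValue k ℝ) (D : ℕ) :
    1 ≤ shr v ρ D w :=
  one_le_mul_of_one_le_of_one_le (one_le_pow₀ (h.one_le' v))
    (one_le_mul_of_one_le_of_one_le (le_max_left _ _) (le_max_left _ _))

omit [NumberField k] [Fintype ι] in
theorem geo_near {f : MvPowerSeries (Fin g) k} {q τ : ℝ} (q0 : 0 ≤ q) (hf : Geo v q f)
    (h0 : 0 ≤ τ) (h1 : τ * q ≤ 1) (κ : Fin g →₀ ℕ) {M : ℝ} (M1 : 1 ≤ M)
    (hM : v (MvPowerSeries.constantCoeff f) ≤ M) :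
    serN (absSN v) (fun _ => τ) κ f ≤ E (IsNonarchimedean v) 2 * M := by
  have i0 : ∀ _ : Fin g, 0 ≤ τ := fun _ => h0
  obtain ⟨S, hS⟩ := exists_serSN (absSN v) i0 κ
  rw [← hS]
  refine Cn.near_le ((absSN_ov v).ser i0 hS) le_rfl (le_trans ?_ M1) hM
  have z := serN_rename_sub (absSN v) (Function.Embedding.refl _) i0 (κ := κ) f
    q0 zero_le_one le_rfl hf fun _ => h1
  rw [← hS] at z
  exact le_of_eq_of_le (congrArg (fun x => S.N (x - _)) (MvPowerSeries.rename_id_apply _).symm) z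

/-- The estimate for one block. -/
theorem one_le (hv : Adm v) {ρ : Fin (e + 2) → MvPolynomial ι k} {D : ℕ}
    (hD : ∀ l, (ρ l).totalDegree ≤ D) {s : ℝ} (s1 : 1 ≤ s) (hs : ∀ l, pl v (ρ l) ≤ s)
    {w : Option ι → k} {ξ : Option ι → MvPowerSeries (Fin g) k} (hb : Bra ρ w ξ) {q lam t : ℝ}
    (q1 : 1 ≤ q) (hq : ∀ a, Geo v q (ξ a)) (l0 : 0 < lam) (l1 : lam < 1)
    (ht : t = lam / (q * (s * E (IsNonarchimedean v) 2 ^ (D + 3 * e + 3) * shr v ρ D w)))
    (P : MvPolynomial (Option ι) k) (M : ℕ) (γ : Fin (g + 1) →₀ ℕ) {Λ : ℝ} (hΛ : 0 ≤ Λ)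
    (hM : ∀ μ ∈ P.support, μ none ≤ M)
    (hz : ∀ β : Fin (g + 1) →₀ ℕ, β 0 < γ 0 → MvPowerSeries.coeff β (aeval (shf ξ) P) = 0)
    (hP : ∀ β : Fin (g + 1) →₀ ℕ, β 0 ≤ M → β.tail ≤ γ.tail →
      v (MvPowerSeries.coeff β (aeval (raw ξ) P)) * t ^ β.tail.degree ≤ Λ) :
    v (MvPowerSeries.coeff γ (aeval (shf ξ) P)) * t ^ γ.tail.degree ≤
      E (IsNonarchimedean v) 2 ^ ((10 * e + 19) * (M + γ.tail.degree)) *
        (v (th ρ w) / nm v fun l => eval (fun a => w (some a)) (ρ l)) ^ γ 0 *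
        max 1 (v (w none)) ^ (M - (e + 1) * γ 0) * Λ := by
  obtain ⟨ε, hε⟩ : ∃ ε, ε = E (IsNonarchimedean v) 2 := ⟨_, rfl⟩
  have e1 : 1 ≤ ε := hε ▸ one_le_E one_le_two
  have n1 := hb.one_le' v
  have q0 : 0 < q := one_pos.trans_le q1
  have t0 := v.pos hb.sep
  have t0' := v.pos hb.lead
  have y0 : 0 < nm v fun l => eval (fun a => w (some a)) (ρ l) :=
    t0'.trans_le (le_nm v (fun l => eval (fun a => w (some a)) (ρ l)) _)
  rw [← hε] at ht ⊢
  rw [← Finsupp.cons_tail γ, aeval_shf, coeff_emb, Finsupp.cons_tail]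
  have d1 := tp_natDegree (fun a => ξ (some a)) hM
  by_cases hN : M < γ 0
  · rw [Polynomial.coeff_eq_zero_of_natDegree_lt
      (((Polynomial.natDegree_taylor _ _).trans_le d1).trans_lt hN), map_zero, map_zero, zero_mul]
    positivity
  obtain ⟨m, hm⟩ : ∃ m, m = max 1 (v (th ρ w)⁻¹) := ⟨_, rfl⟩
  obtain ⟨m', hm'⟩ : ∃ m', m' = max 1 (v (eval (fun a => w (some a)) (ρ (Fin.last _)))⁻¹) :=
    ⟨_, rfl⟩
  have m1 : 1 ≤ m := hm ▸ le_max_left _ _
  have m1' : 1 ≤ m' := hm' ▸ le_max_left _ _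
  have m2 : ∀ {x : k} {y : ℝ}, 0 < v x → y = max 1 (v x⁻¹) → 1 ≤ v x * y := fun h0 h => by
    rw [← mul_inv_cancel₀ h0.ne', ← map_inv₀, h]
    exact mul_le_mul_of_nonneg_left (le_max_right _ _) h0.le
  obtain ⟨W, hW⟩ : ∃ W, W = s * ε ^ (D + 3 * e + 3) * nm v w ^ (D + e + 1) := ⟨_, rfl⟩
  have W1 : 1 ≤ W := hW ▸ one_le_mul_of_one_le_of_one_le
    (one_le_mul_of_one_le_of_one_le s1 (one_le_pow₀ e1)) (one_le_pow₀ n1)
  have t1 : (fun _ : Fin g => lam / (W * (m * m')) * q⁻¹) = fun _ => t := funext fun _ => by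
    rw [ht, shr, ← hm, ← hm', hW]
    field_simp
  have i0 : ∀ _ : Fin g, 0 ≤ q⁻¹ := fun _ => inv_nonneg.2 q0.le
  obtain ⟨S, hS⟩ := exists_serSN (absSN v) i0 γ.tail
  have o1 : S.Ov v := (absSN_ov v).ser i0 hS
  have c0 : ∀ l, MvPowerSeries.constantCoeff ((rr ρ fun a => ξ (some a)).coeff (l : Fin (e + 2))) =
      eval (fun a => w (some a)) (ρ l) := fun l => by
    rw [one_coeff, env_const fun a => hb.const (some a), aeval_eq_eval]
  have c1 : MvPowerSeries.constantCoeff (th ρ ξ) = th ρ w := by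
    rw [← cc_apply, map_th]
    exact congrArg _ (funext hb.const)
  have c2 : (rr ρ fun a => ξ (some a)).natDegree = e + 1 :=
    Polynomial.natDegree_eq_of_le_of_coeff_ne_zero (one_deg _ _) fun h => hb.lead (by
      rw [← c0, Fin.val_last, h, map_zero])
  have b0 : ∀ c, S.N (ξ c) ≤ ε * nm v w := fun c => by
    rw [hS, hε]
    exact geo_near q0.le (hq c) (inv_nonneg.2 q0.le) (inv_mul_cancel₀ q0.ne').le _
      n1 (hb.const c ▸ le_nm v w c)
  have b1 : 1 ≤ ε * nm v w := one_le_mul_of_one_le_of_one_le e1 n1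
  have b2 : ∀ i, S.N ((rr ρ fun a => ξ (some a)).coeff i) ≤ s * (ε * nm v w) ^ D := fun i => by
    by_cases hi : i < e + 2
    · rw [show i = (⟨i, hi⟩ : Fin (e + 2)) from rfl, one_coeff]
      exact (o1.aeval_le' (hD _) b1 fun a => b0 _).trans
        (mul_le_mul_of_nonneg_right (hs _) (by positivity))
    · rw [Polynomial.coeff_eq_zero_of_natDegree_lt (by omega), S.zero]
      positivity
  have b3 : ∀ i, S.N ((rr ρ fun a => ξ (some a)).derivative.coeff i) ≤
      s * (ε * nm v w) ^ D * ε ^ (e + 1) := fun i => by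
    rw [Polynomial.coeff_derivative]
    by_cases h : i ≤ e + 1
    · refine S.mul_le (b2 _) ?_
      rw [← Nat.cast_succ]
      exact (S.natCast_le _).trans ((on_E i).trans (hε ▸ pow_le_pow_right₀ (hε ▸ e1) h))
    · rw [Polynomial.coeff_eq_zero_of_natDegree_lt (by omega), zero_mul, S.zero]
      positivity
  have b4 := os_eval S b3 (b := e) ((Polynomial.natDegree_derivative_le _).trans (by omega))
    (b0 none) b1
  rw [← hε] at b4
  have wm : 0 < W * (m * m') := by positivity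
  have g1 : lam / (W * (m * m')) ≤ 1 := (div_le_one wm).2 (l1.le.trans
    (one_le_mul_of_one_le_of_one_le W1 (one_le_mul_of_one_le_of_one_le m1 m1')))
  obtain ⟨j, hj⟩ := exists_nm v fun l => eval (fun a => w (some a)) (ρ l)
  have key := one_S hv i0 d1 c2 (d := γ 0) (κ := γ.tail) (hb.div P _
    (Polynomial.X_pow_dvd_iff.2 fun i hi => MvPowerSeries.ext fun α => by
      rw [← coeff_emb, ← aeval_shf, hz _ (by rwa [Finsupp.cons_zero]), map_zero]))
    hb.root (W := W) (γ := lam / (W * (m * m'))) (Z := ε * max 1 (v (w none))) (fun i => by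
      rw [← hS, hW]
      refine (b2 i).trans ?_
      rw [mul_pow, ← mul_assoc]
      gcongr s * ε ^ ?_ * nm v w ^ ?_ <;> omega) (by
      rw [← hS, hW]
      refine b4.trans ?_
      rw [show ε ^ e * (s * (ε * nm v w) ^ D * ε ^ (e + 1) * (ε * nm v w) ^ e) =
        s * ε ^ (D + 3 * e + 1) * nm v w ^ (D + e) by ring]
      gcongr s * ε ^ ?_ * nm v w ^ ?_ <;> omega) hΛ (fun i a ha => by
      rw [t1, wt_const]
      by_cases hi : i ≤ M
      · simpa only [aeval_raw, coeff_emb, Finsupp.tail_cons] using hP (Finsupp.cons i a)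
          (by rwa [Finsupp.cons_zero]) (by rwa [Finsupp.tail_cons])
      · rwa [Polynomial.coeff_eq_zero_of_natDegree_lt (by omega), map_zero, map_zero, zero_mul])
    (by positivity) g1 (c1 ▸ hb.sep : MvPowerSeries.constantCoeff (th ρ ξ) ≠ 0) (by
      change _ ≤ v (MvPowerSeries.constantCoeff (th ρ ξ))
      rw [c1, div_mul_eq_mul_div, div_le_iff₀ wm]
      have := mul_le_mul (m2 t0 hm) m1' zero_le_one (by positivity)
      nlinarith [mul_le_mul_of_nonneg_left this (zero_le_one.trans W1)]) (j₁ := Fin.last (e + 1))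
    (by
      rw [c0, div_mul_eq_mul_div, div_le_iff₀ wm]
      have := mul_le_mul (m2 t0' hm') m1 zero_le_one (by positivity)
      nlinarith [mul_le_mul_of_nonneg_left this (zero_le_one.trans W1)])
    (one_le_mul_of_one_le_of_one_le e1 (le_max_left _ _)) (by
      rw [hε]
      refine geo_near q0.le (hq none) (by positivity) ?_ _ (le_max_left _ _)
        (hb.const none ▸ le_max_right _ _)
      rwa [mul_assoc, inv_mul_cancel₀ q0.ne', mul_one]) j (le_refl γ.tail)
  change _ ≤ _ * v (MvPowerSeries.constantCoeff (th ρ ξ)) ^ _ * _ at key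
  rw [t1, wt_const, c1, c0, hj, ← hε] at key
  rw [div_pow, show ∀ a b c d f : ℝ, a * (b / c) * d * f = a * f * b * d / c from
    fun _ _ _ _ _ => by ring, le_div_iff₀ (pow_pos y0 _)]
  refine key.trans ?_
  rw [mul_pow, show ∀ a b c d f : ℝ, a * b * c * (d * f) = a * d * b * c * f from
    fun _ _ _ _ _ => by ring, ← pow_add]
  gcongr
  nlinarith [Nat.sub_le M ((e + 1) * γ 0), Nat.mul_le_mul_left (5 * e + 9) (not_lt.1 hN),
    Nat.zero_le (e * γ.tail.degree)]

end Pool.Agent.Lib.MP_651af7_nt.Sh
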