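import Pool.Agent.Lib.MP_651af7_nt.Sh.EDefs
import Pool.Agent.Lib.MP_651af7_nt.Jn.Glob

/-! Numerical lemmas. -/

namespace Pool.Agent.Lib.MP_651af7_nt.Sh

open Finset Height
open Av hiding Bad

/-- The final contradiction. -/
theorem num_main {O : Type} [Fintype O] {w d T dg κ κ' hρ ht h₂ h' : O → ℝ}
    {D V p lH c E τ r δ C A κr κ₁ : ℝ} (hw : ∀ o, 1 ≤ w o) (hd : ∀ o, 0 ≤ d o)
    (hκ : ∀ o, 0 ≤ κ o) (hκ' : ∀ o, κ o ≤ κ' o) (hT : ∀ o, E * d o ≤ T o)
    (hρ' : ∀ o, r * w o ≤ hρ o) (ht' : ∀ o, ht o ≤ τ * w o) (hτ : 0 ≤ τ) (hE : 0 ≤ E)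
    (hr : 0 ≤ r) (hC : 0 ≤ C) (hκr : 0 ≤ κr) (hκ₁ : 0 ≤ κ₁)
    (hh₂ : ∀ o, h₂ o = κr * ((1 + τ) * w o + 1)) (hh' : ∀ o, h' o ≤ κ₁ * w o)
    (hA : A = κr * (2 + τ) + C * (κ₁ + τ + 2))
    (h1 : ∑ o, d o * (hρ o + E * ht o) + p ≤ lH + ∑ o, dg o * (w o + C) +
      ∑ o, T o * (ht o + C) + ∑ o, κ o * (h₂ o + C * (h' o + w o + ht o + 1)))
    (h2 : ∑ o, dg o * w o ≤ p + 2 * D + c)
    (h3 : lH + c + C * (∑ o, dg o + ∑ o, T o) ≤ 2 * D)
    (h4 : (A + 1) * ∑ o, w o * κ' o < D) (h5 : (1 / 2 - δ) * V ≤ ∑ o, d o * w o)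
    (h6 : ∑ o, T o * w o ≤ E * (1 + δ) * V)
    (h7 : 5 * D ≤ ((r - E * τ) / 2 - δ * (r + 2 * (E * τ))) * V) : False := by
  have hw0 : ∀ o, 0 ≤ w o := fun o => zero_le_one.trans (hw o)
  have A0 : 0 ≤ A := by rw [hA]; positivity
  have s1 : (r + E * τ) * ∑ o, d o * w o + ∑ o, T o * (ht o + C) ≤
      ∑ o, d o * (hρ o + E * ht o) + τ * ∑ o, T o * w o + C * ∑ o, T o := by
    simp only [mul_sum, ← sum_add_distrib]
    refine sum_le_sum fun o _ => ?_
    have e1 := mul_le_mul_of_nonneg_left (hρ' o) (hd o)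
    have e2 := mul_le_mul_of_nonneg_left (ht' o) (sub_nonneg.2 (hT o))
    linarith
  have s2 : ∑ o, κ o * (h₂ o + C * (h' o + w o + ht o + 1)) ≤ (A + 1) * ∑ o, w o * κ' o := by
    rw [mul_sum]
    refine sum_le_sum fun o _ => ?_
    have e1 : h₂ o + C * (h' o + w o + ht o + 1) ≤ (A + 1) * w o := by
      have e2 := mul_le_mul_of_nonneg_left (hw o) hκr
      have e3 := mul_le_mul_of_nonneg_left (show h' o + w o + ht o + 1 ≤ (κ₁ + τ + 2) * w o by
        linarith [hh' o, ht' o, hw o]) hC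
      rw [hh₂, hA]
      linarith [hw0 o]
    have e3 := (mul_le_mul_of_nonneg_left e1 (hκ o)).trans (mul_le_mul_of_nonneg_right (hκ' o)
      (mul_nonneg (by linarith) (hw0 o)))
    linarith
  have s3 : ∑ o, dg o * (w o + C) = ∑ o, dg o * w o + C * ∑ o, dg o := by
    simp only [mul_sum, ← sum_add_distrib]
    exact sum_congr rfl fun o _ => by ring
  have s4 := mul_le_mul_of_nonneg_left h5 (add_nonneg hr (mul_nonneg hE hτ))
  have s5 := mul_le_mul_of_nonneg_left h6 hτ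
  linarith

variable {k ι : Type} [Field k] [NumberField k] [Fintype ι]

theorem ht_opt {z : Option ι → k} {a : ι} (ha : z (some a) = 1) :
    logHeight z ≤ logHeight (fun b => z (some b)) + logHeight₁ (z none) := by
  have h1 : z ≠ 0 := fun h => one_ne_zero (ha.symm.trans (congrFun h _))
  have h2 : (fun b => z (some b)) ≠ 0 := fun h => one_ne_zero (ha.symm.trans (congrFun h _))
  have h3 := (Jn.gs_nm h1).le ((Jn.gs_nm h2).mul (Jn.gs_ad (ad_max (z none)))) fun v _ => by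
    have e1 : 1 ≤ nm v fun b => z (some b) := by
      simpa only [ha, map_one] using le_nm v (fun b => z (some b)) a
    obtain ⟨c, hc⟩ := exists_nm v z
    rw [← hc]
    rcases c with _ | c
    · exact (le_max_right 1 _).trans (le_mul_of_one_le_left (by positivity) e1)
    · exact (le_nm v (fun b => z (some b)) c).trans
        (le_mul_of_one_le_right (nm_nn _ _) (le_max_left _ _))
  linarith [(ad_max (z none)).le]

end Pool.Agent.Lib.MP_651af7_nt.Sh
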