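import Pool.Agent.Lib.MP_651af7_nt.Sh.Frame
import Pool.Agent.Lib.MP_651af7_nt.Jn.Ord

/-! The section as a polynomial: size, degrees, and the coefficients of the powers of `U`. -/

namespace Pool.Agent.Lib.MP_651af7_nt.Sh

open MvPolynomial Finset
open Av hiding Bad
open As (FB Cf)
open Rt (Col Ix GR)
open Jn (vE unc)

theorem coeff_tower {k O A : Type} [Field k] [Fintype O] [CommRing A] [Algebra k A] {g : ℕ}
    (f : A →ₐ[k] MvPowerSeries (O × Fin g) k) (Q : MvPolynomial O A) (d : O → ℕ)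
    (α : O → Fin g →₀ ℕ) :
    MvPowerSeries.coeff (unc fun o => Finsupp.cons (d o) (α o))
      (aevalTower ((MvPowerSeries.rename ((Function.Embedding.refl O).prodMap (Jn.vS g))).comp f)
        (fun o => MvPowerSeries.X (o, 0)) Q) =
      MvPowerSeries.coeff (unc α) (f (coeff (Finsupp.equivFunOnFinite.symm d) Q)) := by
  classical
  induction Q using MvPolynomial.induction_on' with
  | add p q hp hq => rw [map_add, map_add, hp, hq, coeff_add, map_add, map_add]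
  | monomial ν a =>
    have h1 : ∏ o, (MvPowerSeries.X (o, 0) : MvPowerSeries (O × Fin (g + 1)) k) ^ ν o =
        MvPowerSeries.monomial (unc fun o => Finsupp.cons (ν o) 0) 1 := by
      simp only [MvPowerSeries.X_pow_eq]
      rw [MvPowerSeries.prod_monomial, prod_const_one]
      congr 2
      refine Finsupp.ext fun ⟨o, l⟩ => ?_
      rw [Finsupp.finsetSum_apply, sum_eq_single o
        (fun o' _ h => Finsupp.single_eq_of_ne fun e => h (congrArg Prod.fst e).symm) (by simp)]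
      induction l using Fin.cases <;> simp [Finsupp.single_eq_of_ne]
    have h2 : ∀ (β : O × Fin g →₀ ℕ) (o : O), Finsupp.embDomain
        ((Function.Embedding.refl O).prodMap (Jn.vS g)) β (o, 0) = 0 := fun β o =>
      Finsupp.embDomain_of_notMem_range _ _ _ fun ⟨_, e⟩ => Fin.succ_ne_zero _ (congrArg Prod.snd e)
    rw [monomial_eq, map_mul, aevalTower_C, Finsupp.prod_fintype _ _ fun _ => pow_zero _, map_prod]
    simp only [map_pow, aevalTower_X]
    rw [h1, ← Finsupp.prod_fintype _ _ fun _ => pow_zero _, ← monomial_eq, coeff_monomial,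
      AlgHom.comp_apply]
    split_ifs with e
    · rw [show (unc fun o => Finsupp.cons (d o) (α o)) = Finsupp.embDomain
          ((Function.Embedding.refl O).prodMap (Jn.vS g)) (unc α) +
            unc fun o => Finsupp.cons (ν o) 0 from Finsupp.ext fun ⟨o, l⟩ => ?_,
        MvPowerSeries.coeff_add_mul_monomial, mul_one, MvPowerSeries.coeff_embDomain_rename]
      rw [Finsupp.add_apply]
      induction l using Fin.cases with
      | zero => simp [h2, e]
      | succ l =>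
        simp only [Jn.unc_apply, Finsupp.cons_succ, Finsupp.zero_apply, add_zero]
        exact (Finsupp.embDomain_apply_self
          ((Function.Embedding.refl O).prodMap (Jn.vS g)) (unc α) (o, l)).symm
    · rw [MvPowerSeries.coeff_mul_monomial, map_zero, map_zero]
      split_ifs with h3
      · rw [MvPowerSeries.coeff_rename_eq_zero, zero_mul]
        rintro ⟨β, h4⟩
        refine e (Finsupp.ext fun o => ?_)
        have h5 := DFunLike.congr_fun h4 (o, 0)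
        have h6 := h3 (o, 0)
        rw [← Finsupp.embDomain_eq_mapDomain, h2, Finsupp.tsub_apply] at h5
        simp only [Jn.unc_apply, Finsupp.cons_zero] at h5 h6
        change ν o = d o
        omega
      · rfl

variable {k ι R R' : Type} [Field k] [NumberField k] [CommRing R] [Algebra k R] [CommRing R']
  [Algebra k R'] {B : AV k ι} {g m e : ℕ} (F : FB B g) (Z : Cf m)

theorem map_sec (f : R →ₐ[k] R') (c : Co F Z e) (a : Fin m → ι) (y : Fin m → ι → R)
    (T : Fin m → R) : f (GR (eT Z e) c (Z.Fa F a y) T) =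
      GR (eT Z e) c (Z.Fa F a fun o b => f (y o b)) fun o => f (T o) := by
  refine (map_GR (f : R →+* R') _ _ _ _).trans ?_
  congr 1
  funext o t
  exact Z.map_Fa F f a y o t

/-- The exponent in the direct bound. -/
def cD (e : ℕ) : ℕ := F.ρ + g + 2 * e + 4

theorem eT_le (hn : ∀ o, F.em ≤ Z.n o ∧ 1 ≤ Z.n o) (he : ∀ o, Z.e o ≤ Z.n o) (o : Fin m) :
    eT Z e o ≤ (2 * e + 1) * Z.n o := by
  have h1 := Nat.mul_le_mul_left (e + 1) (he o)
  have h2 := Nat.mul_le_mul_left e (hn o).2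
  unfold eT
  nlinarith

theorem sec_le' (hn : ∀ o, F.em ≤ Z.n o ∧ 1 ≤ Z.n o) (he : ∀ o, Z.e o ≤ Z.n o)
    {v : AbsoluteValue k ℝ} {S : SN R (IsNonarchimedean v)} (hS : S.Ov v) {s : ℝ} (hs : Sz₀ B v s)
    (hφ : ∀ (n : ℕ) (t : F.T n), pl v (F.φ t) ≤ s ^ (n + 1)) (a : Fin m → ι) {y : Fin m → ι → R}
    {T : Fin m → R} {Y τ : Fin m → ℝ} (hY : ∀ o, 0 ≤ Y o) (hy : ∀ o b, S.N (y o b) ≤ Y o)
    (hτ : ∀ o, 1 ≤ τ o) (hT : ∀ o, S.N (T o) ≤ τ o) {c : Co F Z e} {H : ℝ} (hH : 0 ≤ H)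
    (hc : ∀ t, |(c t : ℝ)| ≤ H) : S.N (GR (eT Z e) c (Z.Fa F a y) T) ≤
      E (IsNonarchimedean v) H * ∏ o, (s ^ cD F e * Y o) ^ Z.dg o * τ o ^ eT Z e o := by
  obtain ⟨Fb, h0, h1, h2⟩ := Z.Fa_le F hn hS hs hφ a hY hy
  have s1 : 1 ≤ s := one_le_of_two hs.two
  have s0 : 0 ≤ s := zero_le_one.trans s1
  have t0 : ∀ o, 0 ≤ τ o := fun o => zero_le_one.trans (hτ o)
  have h3 : 0 ≤ E (IsNonarchimedean v) H * ∏ o, Fb o * τ o ^ eT Z e o :=
    mul_nonneg (E_nonneg hH) (prod_nonneg fun o _ => mul_nonneg (h0 o) (pow_nonneg (t0 o) _))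
  refine (S.sum_le_card _ h3 fun t _ => S.mul_le ((S.intCast_le _).trans (E_mono (hc t)))
    (S.prod_le _ fun o _ => S.mul_le (h1 o _) ((S.pow_le (hT o) _).trans
      (pow_le_pow_right₀ (hτ o) (t o).2.is_le)))).trans ?_
  have h4 : ((univ : Finset (Col (fun o => F.T (Z.n o)) (eT Z e))).card : ℝ) ≤
      2 ^ ∑ o, (F.ρ + g + 2 * e + 2) * Z.dg o := by
    rw [card_univ, Fintype.card_pi, ← prod_pow_eq_pow_sum]
    push_cast
    refine prod_le_prod (fun _ _ => Nat.cast_nonneg _) fun o _ => ?_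
    rw [Fintype.card_prod, Fintype.card_fin]
    have h5 := Nat.mul_le_mul (F.card_T_le (hn o).2) (Nat.lt_two_pow_self (n := eT Z e o))
    rw [← pow_add] at h5
    have h6 := eT_le F Z (e := e) hn he o
    have h7 := Nat.mul_le_mul_left (F.ρ + g + 2 * e + 2) (Z.n_le_dg o)
    exact_mod_cast h5.trans (Nat.pow_le_pow_right two_pos (by nlinarith))
  refine (mul_le_mul_of_nonneg_right (E_le_pow hs.two h4) h3).trans (le_of_eq ?_)
  rw [mul_left_comm, prod_mul_distrib, h2, ← prod_pow_eq_pow_sum, ← mul_assoc (∏ o, _),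
    ← prod_mul_distrib, ← prod_mul_distrib]
  refine congrArg _ (prod_congr rfl fun o _ => ?_)
  rw [pow_mul, ← mul_pow, ← mul_assoc, ← pow_add, cD]

/-- The direct bound. -/
theorem sec_le (hn : ∀ o, F.em ≤ Z.n o ∧ 1 ≤ Z.n o) (he : ∀ o, Z.e o ≤ Z.n o)
    {v : AbsoluteValue k ℝ} {S : SN R (IsNonarchimedean v)} (hS : S.Ov v) (a : Fin m → ι)
    {y : Fin m → ι → R} {T : Fin m → R} {Y τ : Fin m → ℝ} (hY : ∀ o, 0 ≤ Y o)
    (hy : ∀ o b, S.N (y o b) ≤ Y o) (hτ : ∀ o, 1 ≤ τ o) (hT : ∀ o, S.N (T o) ≤ τ o) {c : Co F Z e}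
    {H : ℝ} (hH : 0 ≤ H) (hc : ∀ t, |(c t : ℝ)| ≤ H) : S.N (GR (eT Z e) c (Z.Fa F a y) T) ≤
      E (IsNonarchimedean v) H * ∏ o, (F.s v ^ cD F e * Y o) ^ Z.dg o * τ o ^ eT Z e o :=
  sec_le' F Z hn he hS (F.sz v) (fun _ t => F.φ_pl v t) a hY hy hτ hT hH hc

/-- The coefficient of `U ^ d` in the section at `(x, t + U)`. -/
noncomputable def GD (c : Co F Z e) (a : Fin m → ι) (d : Fin m → ℕ) :
    MvPolynomial (Fin m × Option ι) k :=
  coeff (Finsupp.equivFunOnFinite.symm d) (GR (eT Z e) c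
    (Z.Fa F a fun o b => (C (X (o, some b)) : MvPolynomial (Fin m) (MvPolynomial _ k)))
    fun o => C (X (o, none)) + X o)

/-- The section as a polynomial. -/
noncomputable def GP (c : Co F Z e) (a : Fin m → ι) : MvPolynomial (Fin m × Option ι) k :=
  GR (eT Z e) c (Z.Fa F a fun o b => X (o, some b)) fun o => X (o, none)

theorem aeval_GP (c : Co F Z e) (a : Fin m → ι) (y : Fin m × Option ι → R) :
    aeval y (GP F Z c a) =
      GR (eT Z e) c (Z.Fa F a fun o b => y (o, some b)) fun o => y (o, none) := by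
  rw [GP, map_sec]
  simp only [aeval_X]

theorem coeff_GD {r : ℕ} (c : Co F Z e) (a : Fin m → ι) (d : Fin m → ℕ)
    (ξ : Fin m → Option ι → MvPowerSeries (Fin r) k) (α : Fin m → Fin r →₀ ℕ) :
    MvPowerSeries.coeff (unc α) (aeval (xo ξ) (GD F Z c a d)) =
      MvPowerSeries.coeff (unc fun o => Finsupp.cons (d o) (α o))
        (GR (eT Z e) c (Z.Fa F a fun o b => xs ξ o (some b)) (ts ξ)) := by
  rw [GD, ← coeff_tower, map_sec]
  simp only [map_add, aevalTower_C, aevalTower_X, AlgHom.comp_apply, aeval_X, xo,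
    MvPowerSeries.rename_rename]
  rfl

theorem GD_le' (hn : ∀ o, F.em ≤ Z.n o ∧ 1 ≤ Z.n o) (he : ∀ o, Z.e o ≤ Z.n o)
    {v : AbsoluteValue k ℝ} {s : ℝ} (hs : Sz₀ B v s)
    (hφ : ∀ (n : ℕ) (t : F.T n), pl v (F.φ t) ≤ s ^ (n + 1)) (a : Fin m → ι)
    {t : Fin m × Option ι → ℝ} (ht : ∀ p, 0 ≤ t p) {Y τ : Fin m → ℝ} (hY : ∀ o, 0 ≤ Y o)
    (hy : ∀ o b, t (o, some b) ≤ Y o) (hτ : ∀ o, 1 ≤ τ o) (hT : ∀ o, t (o, none) ≤ τ o)
    {c : Co F Z e} {H : ℝ} (hH : 0 ≤ H) (hc : ∀ t, |(c t : ℝ)| ≤ H) (μ : Fin m × Option ι →₀ ℕ) :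
    (∀ d, v (coeff μ (GD F Z c a d)) * wt t μ ≤ E (IsNonarchimedean v) H *
      ∏ o, (s ^ cD F e * Y o) ^ Z.dg o * (s * τ o) ^ eT Z e o) ∧
    v (coeff μ (GP F Z c a)) * wt t μ ≤ E (IsNonarchimedean v) H *
      ∏ o, (s ^ cD F e * Y o) ^ Z.dg o * τ o ^ eT Z e o := by
  obtain ⟨S, hS⟩ := exists_polSN (absSN v) ht
  have hO : S.Ov v := (absSN_ov v).pol ht hS
  have hX : ∀ p, S.N (X p) ≤ t p := fun p => hS ▸ polN_X _ ht p
  have h1 : ∀ P, v (coeff μ P) * wt t μ ≤ S.N P := fun P => hS ▸ coeff_le_polN (absSN v) ht P μ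
  refine ⟨fun d => (h1 _).trans ?_, (h1 _).trans (sec_le' F Z hn he hO hs hφ a hY
    (fun o b => (hX _).trans (hy o b)) hτ (fun o => (hX _).trans (hT o)) hH hc)⟩
  obtain ⟨S', hS'⟩ := exists_polSN (σ := Fin m) S (t := fun _ => 1) fun _ => zero_le_one
  have hC : ∀ P, S'.N (C P) ≤ S.N P := fun P => hS' ▸ polN_C _ (fun _ => zero_le_one) P
  have h2 := coeff_le_polN S (t := fun _ => 1) (fun _ => zero_le_one) (GR (eT Z e) c
    (Z.Fa F a fun o b => (C (X (o, some b)) : MvPolynomial (Fin m) (MvPolynomial _ k)))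
    fun o => C (X (o, none)) + X o) (Finsupp.equivFunOnFinite.symm d)
  rw [wt_one, mul_one, ← hS'] at h2
  refine h2.trans (sec_le' F Z hn he (hO.pol (fun _ => zero_le_one) hS') hs hφ a hY
    (fun o b => ((hC _).trans (hX _)).trans (hy o b))
    (fun o => one_le_mul_of_one_le_of_one_le (one_le_of_two hs.two) (hτ o)) (fun o => ?_) hH hc)
  refine (S'.add_le (s := 1) (t := 1) (M := τ o) ?_ ?_).trans ?_
  · rw [E_one, one_mul]
    exact ((hC _).trans (hX _)).trans (hT o)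
  · rw [E_one, one_mul, hS']
    exact (polN_X _ (fun _ => zero_le_one) _).trans (hτ o)
  · rw [one_add_one_eq_two]
    exact mul_le_mul_of_nonneg_right hs.two (zero_le_one.trans (hτ o))

/-- The coefficients. -/
theorem GD_coeff (hn : ∀ o, F.em ≤ Z.n o ∧ 1 ≤ Z.n o) (he : ∀ o, Z.e o ≤ Z.n o)
    (v : AbsoluteValue k ℝ) (a : Fin m → ι) {c : Co F Z e} {H : ℝ} (hH : 0 ≤ H)
    (hc : ∀ t, |(c t : ℝ)| ≤ H) (d : Fin m → ℕ) (μ : Fin m × Option ι →₀ ℕ) :
    v (coeff μ (GD F Z c a d)) ≤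
      E (IsNonarchimedean v) H * ∏ o, F.s v ^ ((cD F e + 2 * e + 1) * Z.dg o) := by
  have h := (GD_le' F Z hn he (F.sz v) (fun _ t => F.φ_pl v t) a (t := fun _ => 1) (Y := fun _ => 1)
    (τ := fun _ => 1) (fun _ => zero_le_one) (fun _ => zero_le_one) (fun _ _ => le_rfl)
    (fun _ => le_rfl) (fun _ => le_rfl) hH hc μ).1 d
  rw [wt_one, mul_one] at h
  refine h.trans (mul_le_mul_of_nonneg_left (prod_le_prod (fun o _ => ?_) fun o _ => ?_)
    (E_nonneg hH))
  · have := (F.ad.pos v).le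
    positivity
  · rw [mul_one, mul_one, ← pow_mul, ← pow_add]
    have h1 := (eT_le F Z (e := e) hn he o).trans (Nat.mul_le_mul_left _ (Z.n_le_dg o))
    exact pow_le_pow_right₀ (F.one_le v) (by nlinarith)

theorem deg_aux (hn : ∀ o, F.em ≤ Z.n o ∧ 1 ≤ Z.n o) (he : ∀ o, Z.e o ≤ Z.n o) [Fintype ι]
    (a : Fin m → ι) (c : Co F Z e) {μ : Fin m × Option ι →₀ ℕ}
    (h : (∃ d, μ ∈ (GD F Z c a d).support) ∨ μ ∈ (GP F Z c a).support) (o : Fin m) :
    μ (o, none) ≤ eT Z e o ∧ ∀ b, μ (o, some b) ≤ Z.dg o := by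
  classical
  obtain ⟨v, hna, hv, hv1⟩ := Jn.exists_triv k
  have key : ∀ (p : Fin m × Option ι) (Y τ : Fin m → ℝ), (∀ o, 1 ≤ Y o) → (∀ o, 1 ≤ τ o) →
      (∀ o b, p = (o, some b) → 2 ≤ Y o) → (∀ o, p = (o, none) → 2 ≤ τ o) →
      (2 : ℝ) ^ μ p ≤ ∏ o, Y o ^ Z.dg o * τ o ^ eT Z e o := fun p Y τ h1 h2 h3 h4 => by
    have h5 := GD_le' F Z hn he (v := v) (s := 1)
      ⟨(E_pos_case hna _).le, fun _ _ => Jn.pl_le_one hna hv _, fun _ => hv _⟩
      (fun _ _ => by rw [one_pow]; exact Jn.pl_le_one hna hv _) a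
      (t := fun q => if q = p then 2 else 1) (Y := Y) (τ := τ)
      (fun q => by split_ifs <;> norm_num) (fun o => zero_le_one.trans (h1 o))
      (fun o b => by
        split_ifs with h
        exacts [h3 o b h.symm, h1 o]) h2
      (fun o => by
        split_ifs with h
        exacts [h4 o h.symm, h2 o]) (H := ∑ t, |(c t : ℝ)|) (sum_nonneg fun _ _ => abs_nonneg _)
      (fun t => single_le_sum (f := fun t => |(c t : ℝ)|) (fun _ _ => abs_nonneg _) (mem_univ t)) μ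
    simp only [E_pos_case hna, one_pow, one_mul, wt_eq, ite_pow, prod_ite_eq', mem_univ,
      if_true] at h5
    rcases h with ⟨d, h⟩ | h
    · simpa only [hv1 _ (mem_support_iff.1 h), one_mul] using h5.1 d
    · simpa only [hv1 _ (mem_support_iff.1 h), one_mul] using h5.2
  refine ⟨?_, fun b => ?_⟩
  · have h1 := key (o, none) (fun _ => 1) (fun o' => if o' = o then 2 else 1) (fun _ => le_rfl)
      (fun _ => by split_ifs <;> norm_num) (fun _ _ h => by simp at h)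
      fun o' h => by rw [if_pos (congrArg Prod.fst h).symm]
    simp only [one_pow, one_mul, ite_pow, prod_ite_eq', mem_univ, if_true] at h1
    exact (pow_le_pow_iff_right₀ one_lt_two).1 h1
  · have h1 := key (o, some b) (fun o' => if o' = o then 2 else 1) (fun _ => 1)
      (fun _ => by split_ifs <;> norm_num) (fun _ => le_rfl)
      (fun o' _ h => by rw [if_pos (congrArg Prod.fst h).symm]) fun _ h => by simp at h
    simp only [one_pow, mul_one, ite_pow, prod_ite_eq', mem_univ, if_true] at h1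
    exact (pow_le_pow_iff_right₀ one_lt_two).1 h1

theorem GP_deg (hn : ∀ o, F.em ≤ Z.n o ∧ 1 ≤ Z.n o) (he : ∀ o, Z.e o ≤ Z.n o) [Fintype ι]
    (a : Fin m → ι) (c : Co F Z e) : ∀ μ ∈ (GP F Z c a).support, ∀ o, μ (o, none) ≤ eT Z e o :=
  fun _ h o => (deg_aux F Z hn he a c (.inr h) o).1

theorem GD_deg (hn : ∀ o, F.em ≤ Z.n o ∧ 1 ≤ Z.n o) (he : ∀ o, Z.e o ≤ Z.n o) [Fintype ι]
    (a : Fin m → ι) (c : Co F Z e) (d : Fin m → ℕ) :
    ∀ μ ∈ (GD F Z c a d).support, ∀ p, μ p ≤ (2 * e + 1) * Z.dg p.1 := by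
  rintro μ h ⟨o, _ | b⟩
  · exact (deg_aux F Z hn he a c (.inl ⟨d, h⟩) o).1.trans
      ((eT_le F Z hn he o).trans (Nat.mul_le_mul_left _ (Z.n_le_dg o)))
  · exact ((deg_aux F Z hn he a c (.inl ⟨d, h⟩) o).2 b).trans
      (Nat.le_mul_of_pos_left _ (Nat.succ_pos _))

end Pool.Agent.Lib.MP_651af7_nt.Sh
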