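import Pool.Agent.Lib.MP_651af7_nt.Sh.Glob
import Pool.Agent.Lib.MP_651af7_nt.Sh.Pol
import Pool.Agent.Lib.MP_651af7_nt.Sh.Bra
import Pool.Agent.Lib.MP_651af7_nt.Sh.Cnt
import Pool.Agent.Lib.MP_651af7_nt.Sh.Num
import Pool.Agent.Lib.MP_651af7_nt.Av.EMain

/-! The auxiliary construction: choice of the parameters and conclusion. -/

namespace Pool.Agent.Lib.MP_651af7_nt.Sh

open MvPolynomial Finset Height
open Av hiding Bad
open Av.AV
open As (FB Cf)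
open Rt (Col Ix GR)
open Jn (unc exists_unc exists_lex)

variable {k ι : Type} [Field k] [NumberField k] [Fintype ι] {B : AV k ι} {g₀ g : ℕ}

theorem engine (F : FB B g₀) (hg : B.dim ≤ g) (e B₀ μ : ℕ) {τ r : ℝ} (hτ : 0 ≤ τ)
    (hr : (e + 1) * τ < r) : Engine B g e B₀ μ τ r := by
  classical
  obtain ⟨Cs, hCs, hsec⟩ := exists_sec F e μ
  obtain ⟨C, hC, hglob⟩ := global_ineq F e μ
  obtain ⟨κM, hκM, hpl⟩ := exists_ad_pl k ι B₀
  obtain ⟨κr, hκr, hrad⟩ := exists_rad k (Option ι) g B₀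
  obtain ⟨Ch, hCh, hadd⟩ := B.ht_add_ge
  obtain ⟨E', hE⟩ : ∃ E' : ℝ, E' = e + 1 := ⟨_, rfl⟩
  have hE1 : 1 ≤ E' := by rw [hE]; exact le_add_of_nonneg_left (Nat.cast_nonneg e)
  have hE0 : 0 ≤ E' := zero_le_one.trans hE1
  rw [← hE] at hr
  have hEτ : 0 ≤ E' * τ := mul_nonneg hE0 hτ
  have hr0 : 0 < r := hEτ.trans_lt hr
  obtain ⟨δ, hδ0, hδ1, hδ2⟩ : ∃ δ : ℝ, 0 < δ ∧ δ < 1 ∧
      δ * (r + 2 * (E' * τ)) ≤ (r - E' * τ) / 4 := by
    refine ⟨(r - E' * τ) / 4 / (r + 2 * (E' * τ)), div_pos (by linarith) (by linarith),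
      (div_lt_one (by linarith)).2 (by linarith), le_of_eq (div_mul_cancel₀ _ ?_)⟩
    exact (show 0 < r + 2 * (E' * τ) by linarith).ne'
  obtain ⟨η, m₀, hη0, hη1, hsec⟩ := hsec δ hδ0
  obtain ⟨m, hm⟩ := exists_nat_ge (max (m₀ : ℝ) (20 / (η * (r - E' * τ))))
  rw [max_le_iff, div_le_iff₀ (mul_pos hη0 (by linarith))] at hm
  obtain ⟨mm, hmm⟩ : ∃ mm : ℝ, mm = (m + 1 : ℕ) := ⟨_, rfl⟩
  have hmm1 : (m : ℝ) + 1 = mm := by rw [hmm]; push_cast; rfl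
  have hmm0 : 1 ≤ mm := by linarith [Nat.cast_nonneg (α := ℝ) m]
  obtain ⟨M, hM⟩ := exists_nat_ge (max (max (2 / (η * δ)) (2 * F.dl / η)) (2 * F.em))
  simp only [max_le_iff, div_le_iff₀ hη0, div_le_iff₀ (mul_pos hη0 hδ0)] at hM
  have hM0 : 0 < M := Nat.pos_of_ne_zero fun h => by
    have := hM.1.1
    rw [h, Nat.cast_zero, zero_mul] at this
    linarith
  obtain ⟨tw, htw⟩ : ∃ tw : ℝ, tw = totalWeight k := ⟨_, rfl⟩
  have htw0 : 0 ≤ tw := by rw [htw]; positivity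
  obtain ⟨κ₁, hκ₁⟩ : ∃ c : ℝ, c = Fintype.card (Fin (e + 2)) * (2 * κM) := ⟨_, rfl⟩
  have hκ₁0 : 0 ≤ κ₁ := by rw [hκ₁]; positivity
  obtain ⟨K', hK'⟩ : ∃ K : ℝ, K = tw * Cs * κ₁ * mm := ⟨_, rfl⟩
  have hK'0 : 0 ≤ K' := by rw [hK']; positivity
  obtain ⟨K, hK⟩ : ∃ K : ℝ, K = (2 * e + 1) * (2 * mm + 4) + 1 + K' := ⟨_, rfl⟩
  have hK1 : 0 ≤ (2 * e + 1 : ℝ) * (2 * mm + 4) := by positivity
  have hK0 : 0 < K := by linarith
  obtain ⟨A, hA⟩ : ∃ A : ℝ, A = κr * (2 + τ) + C * (κ₁ + τ + 2) := ⟨_, rfl⟩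
  have hA0 : 0 ≤ A := by rw [hA]; positivity
  obtain ⟨B', ζ, hζ, hnv⟩ := nvk k (Option ι) (Fin (m + 1)) g B₀ (θ := 1 / ((A + 1) * K))
    (by positivity)
  obtain ⟨cG, hcG⟩ : ∃ c : ℝ, c = (cD F e + 2 * e + 1 : ℕ) * F.hs := ⟨_, rfl⟩
  have hcG0 : 0 ≤ cG := hcG ▸ mul_nonneg (Nat.cast_nonneg _) F.ad.nonneg
  obtain ⟨a, ha⟩ : ∃ a : ℝ, a = tw * Cs * (1 + mm) + mm * Ch + C * (5 * mm + (2 * e + 1) * mm) +
    cG * (5 * mm) := ⟨_, rfl⟩
  refine ⟨m, B', 1 / (2 * mm), ζ, 1 / (K' + 1), by positivity, hζ, by positivity,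
    fun ε hε hε0 => ?_⟩
  rw [le_div_iff₀ (by positivity)] at hε0
  have hε1 : ε ≤ 1 := by nlinarith
  obtain ⟨Wn, hWn⟩ := hnv ε hε
  refine ⟨max (max Wn 1) (max (1 / ε) (a / ε)), fun b j hG hW hsep hN => ?_⟩
  simp only [max_le_iff, div_le_iff₀' hε, forall_and] at hW
  obtain ⟨⟨hW0, hW1⟩, hW2, hW3⟩ := hW
  obtain ⟨w, hw⟩ : ∃ w : Fin (m + 1) → ℝ, w = fun o => ht (b o).P := ⟨_, rfl⟩
  have hw' : ∀ o, ht (b o).P = w o := fun o => by rw [hw]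
  simp only [hw'] at hW0 hW1 hW2 hW3 hsep ⊢
  have hw0 : ∀ o, 0 < w o := fun o => zero_lt_one.trans_le (hW1 o)
  obtain ⟨J, hJ⟩ : ∃ J, ∀ o, j o ≤ J := ⟨univ.sup j, fun o => le_sup (mem_univ o)⟩
  obtain ⟨nh, hnh⟩ : ∃ nh : ℝ, nh = (M * 4 ^ J : ℕ) := ⟨_, rfl⟩
  have hnh1 : 1 ≤ nh := by rw [hnh]; exact_mod_cast (show 0 < M * 4 ^ J by positivity)
  have hnh0 : 0 ≤ nh := zero_le_one.trans hnh1
  obtain ⟨D₀, hD₀⟩ : ∃ D : ℝ, D = nh * w 0 := ⟨_, rfl⟩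
  have hD1 : w 0 ≤ D₀ := hD₀ ▸ le_mul_of_one_le_left (hw0 0).le hnh1
  have hD0 : 0 < D₀ := (hw0 0).trans_le hD1
  obtain ⟨Z, hZh, hZj, hZ0, hn, hnM, hZe⟩ : ∃ Z : Cf (m + 1), Z.h = 0 ∧ Z.j = j ∧
      (Z.n Z.h : ℝ) = nh ∧ (∀ o, o ≠ Z.h → Z.n o * 4 ^ Z.j o = Z.n Z.h) ∧ (∀ o, M ≤ Z.n o) ∧
      ∀ o, Z.e o = ⌊η * D₀ / w o⌋₊ := by
    refine ⟨⟨0, j, fun o => M * 4 ^ (if o = 0 then J else J - j o), fun o => ⌊η * D₀ / w o⌋₊⟩,
      rfl, rfl, by simp [hnh], fun o ho => ?_, fun o => Nat.le_mul_of_pos_right _ (by positivity),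
      fun _ => rfl⟩
    have ho' : o ≠ 0 := ho
    simp only [if_neg ho', if_true]
    rw [mul_assoc, ← pow_add, Nat.sub_add_cancel (hJ o)]
  have hC' : ∀ o, o ≠ Z.h → Close (1 / (2 * mm)) (Z.j o) (b Z.h).P (b o).P := by
    rw [hZh, hZj]
    exact hN
  have hDZ : (Z.n Z.h : ℝ) * w Z.h = D₀ := by rw [hZ0, hZh, hD₀]
  have c1 : ∀ o, o ≠ Z.h → w o ≤ 2 * (4 ^ Z.j o * w Z.h) := fun o ho => by
    simpa only [hw'] using (hC' o ho).2.1
  have c2 : ∀ o, o ≠ Z.h → 4 ^ Z.j o * w Z.h ≤ 2 * w o := fun o ho => by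
    simpa only [hw'] using (hC' o ho).2.2
  have hnM' : ∀ o, (M : ℝ) ≤ Z.n o := fun o => by exact_mod_cast hnM o
  have hn2 : ∀ o, 2 * F.em ≤ Z.n o := fun o => by exact_mod_cast hM.2.trans (hnM' o)
  have hn1 : ∀ o, F.em ≤ Z.n o ∧ 1 ≤ Z.n o := fun o =>
    ⟨by have := hn2 o; omega, hM0.trans_le (hnM o)⟩
  have hV0 : 0 < η * D₀ := mul_pos hη0 hD0
  have e0 : ∀ o, w o ≤ δ * (η * D₀) := fun o => by
    have h2 := Z.n_mul_le hn (hw0 _).le c1 o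
    have h3 := mul_le_mul_of_nonneg_right (hnM' o) (hw0 o).le
    have h4 := mul_le_mul_of_nonneg_right hM.1.1 (hw0 o).le
    have h5 := mul_le_mul_of_nonneg_left (h3.trans h2) (mul_pos hη0 hδ0).le
    rw [hDZ] at h5
    linarith
  have e1 : ∀ o, Z.e o * w o ≤ η * D₀ := fun o => by
    rw [hZe, ← le_div_iff₀ (hw0 o)]
    exact Nat.floor_le (div_nonneg hV0.le (hw0 o).le)
  have e2 : ∀ o, (1 - δ) * (η * D₀) ≤ Z.e o * w o := fun o => by
    have h1 := (div_lt_iff₀ (hw0 o)).1 (Nat.lt_floor_add_one (η * D₀ / w o))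
    rw [hZe]
    linarith [e0 o]
  have e3 : ∀ o, (Z.e o : ℝ) ≤ 2 * η * Z.n o := fun o => by
    have h1 := mul_le_mul_of_nonneg_left (Z.le_n_mul hn (hw0 _).le c2 o) hη0.le
    rw [hDZ] at h1
    exact le_of_mul_le_mul_right (by linarith [e1 o]) (hw0 o)
  have e4 : ∀ o, Z.e o ≤ Z.n o := fun o => by
    exact_mod_cast (e3 o).trans (mul_le_of_le_one_left (Nat.cast_nonneg _) (by linarith))
  have e5 : ∑ o, (Z.n o : ℝ) ≤ mm * nh := by
    have := sum_le_sum fun o (_ : o ∈ univ) => (Nat.cast_le (α := ℝ)).2 (Z.n_le hn o)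
    rwa [sum_const, card_univ, Fintype.card_fin, nsmul_eq_mul, ← hmm, hZ0] at this
  have e6 : ∑ o, (eT Z e o : ℝ) ≤ (2 * e + 1) * (mm * nh) := by
    refine le_trans ?_ (mul_le_mul_of_nonneg_left e5 (by positivity))
    rw [mul_sum]
    exact sum_le_sum fun o _ => by exact_mod_cast eT_le F Z hn1 e4 o
  have e7 : ∑ o, Z.e o * w o ≤ mm * D₀ := by
    have := sum_le_sum fun o (_ : o ∈ univ) =>
      (e1 o).trans (mul_le_of_le_one_left hD0.le (by linarith : η ≤ 1))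
    rwa [sum_const, card_univ, Fintype.card_fin, nsmul_eq_mul, ← hmm] at this
  have e9 : ∑ o, (Z.dg o : ℝ) ≤ 5 * mm * nh := by
    rw [hmm, ← hZ0]
    exact_mod_cast Z.sum_dg hn
  choose s as hs using fun o (t : Fin (e + 2)) => hpl ((b o).ρ t) (ε * w o)
    (mul_nonneg hε.le (hw0 o).le) (hw' o ▸ (hG o).smρ t)
  choose s' as' hs' using fun o => esize_fam' (as o)
  have as'' : ∀ o, Ad (s' o) (κ₁ * (ε * w o)) := fun o => (as' o).mono (by
    have h1 := mul_le_mul_of_nonneg_left (hW2 o)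
      (show 0 ≤ Fintype.card (Fin (e + 2)) * κM by positivity)
    rw [hκ₁]
    linarith)
  have hs'' : ∀ o t v, pl v ((b o).ρ t) ≤ s' o v := fun o t v => (hs o t v).trans (hs' o t v)
  obtain ⟨c, hc0, hcH, hV⟩ := hsec (m + 1) Z (fun o => (b o).ρ) s' _ w (η * D₀)
    (by exact_mod_cast hm.1.trans (le_add_of_nonneg_right zero_le_one)) hV0 hn hn2
    (fun o => hM.1.2.trans (by
      rw [mul_comm]
      exact mul_le_mul_of_nonneg_left (hnM' o) hη0.le))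
    (fun o => Nat.pos_of_ne_zero fun h => by
      have h1 := e2 o
      rw [h, Nat.cast_zero, zero_mul] at h1
      exact absurd (mul_pos (sub_pos.2 hδ1) hV0) (not_lt.2 h1))
    e3 (fun o => (hw0 o).le) e1 e2 (fun o => (hG o).hom) as'' hs''
  obtain ⟨lH, hlH⟩ : ∃ lH, lH = Cs * (1 + mm * nh + κ₁ * (ε * ∑ o, Z.e o * w o)) := ⟨_, rfl⟩
  have hlH0 : 0 ≤ lH := by
    have : 0 ≤ ∑ o, Z.e o * w o := sum_nonneg fun o _ => mul_nonneg (Nat.cast_nonneg _) (hw0 o).le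
    rw [hlH]
    positivity
  have hcH' : ∀ t, |(c t : ℝ)| ≤ Real.exp lH := fun t => (hcH t).trans (le_of_eq (by
    rw [hlH, hZ0, ← hmm, mul_sum, mul_sum]
    congr 3
    exact sum_congr rfl fun o _ => by ring))
  have hH := Real.one_le_exp hlH0
  have f1 : tw * lH ≤ nh * (tw * Cs * (1 + mm)) + K' * (ε * D₀) := by
    have h1 := mul_le_mul_of_nonneg_left e7 (show 0 ≤ tw * Cs * κ₁ * ε by positivity)
    have h2 := mul_le_mul_of_nonneg_left hnh1 (mul_nonneg htw0 hCs)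
    rw [hlH, hK']
    linarith
  have f2 : nh * a ≤ ε * D₀ := by
    rw [hD₀, mul_left_comm]
    exact mul_le_mul_of_nonneg_left (hW3 0) hnh0
  have f3 : 0 ≤ nh * (mm * Ch) := by positivity
  have f4 : 0 ≤ nh * (C * (5 * mm + (2 * e + 1) * mm)) := by positivity
  have f5 : 0 ≤ nh * (cG * (5 * mm)) := by positivity
  rw [ha] at f2
  have hb : ∀ o, (b o).Geom μ := fun o => (hG o).toGeom
  choose ξ hξ using fun o => (b o).C.exists_br (hb o).atx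
  have hbr := fun o => (hb o).bra (hξ o)
  choose q aq hq using fun o => hrad (b o).C (b o).z (ξ o) ((1 + τ) * w o) (hb o).atx (hξ o)
    (by
      obtain ⟨a₁, h1⟩ := (hbr o).one
      have h2 := ht_eq (hb o).rep
      have h3 := (hG o).low
      rw [hw'] at h2 h3
      exact (ht_opt h1).trans (by rw [add_mul, one_mul]; exact add_le_add h2.ge h3))
    fun a => ⟨((hG o).smφ a).1, fun ν => (((hG o).smφ a).2 ν).trans
      (hw' o ▸ mul_le_mul_of_nonneg_right (by linarith) (ht_nonneg _))⟩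
  have hS : ∀ o, o ≠ Z.h → Rep ((b o).P + 2 ^ Z.j o • (b Z.h).P)
      ((b o).P + 2 ^ Z.j o • (b Z.h).P).co := fun o _ => rep_co _
  obtain ⟨f, hf0, hf, hord⟩ := frame F Z hg (fun o => (hn1 o).1) (P := fun o => (b o).P)
    (z := fun o => (b o).z) (C := fun o => (b o).C) (ρ := fun o => (b o).ρ)
    (fun o => (hb o).rep) (fun o => (hb o).on.imp fun _ h => h.1) (fun o => (hb o).atx) hξ
    (fun o => (hb o).br_zero (hξ o)) (fun o => (hb o).br_sum (hξ o)) (fun o => (hb o).lead) hS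
    hc0 hV
  obtain ⟨d₀, l1, l2, l3⟩ := exists_lex hf0
  choose a₁ u₁ using fun o => (rep_co ((b o).P + 2 ^ Z.j o • (b Z.h).P)).unit
  obtain ⟨U, hU, hf₁⟩ := hf a₁
  have g2 := fun α => (coeff_GD F Z c a₁ d₀ ξ α).trans (congrArg _ hf₁)
  have aG := (ad_E (k := k) hH).mul
    (ad_prod univ fun o _ => F.ad.pow ((cD F e + 2 * e + 1) * Z.dg o))
  have s1 := mul_nonneg hK1 hD0.le
  have s2 := mul_nonneg hK'0 hD0.le
  refine (hWn w (fun o => (b o).C) (fun o => (b o).z) ξ hW0 hsep (fun o => (hb o).atx) hξ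
    (fun o a => hw' o ▸ (hG o).smφ a) (K * D₀) (GD F Z c a₁ d₀) _
    (by rw [hK]; linarith [hW0 0]) (fun ν hν p => ?_) (aG.mono ?_)
    (fun ν v _ => GD_coeff F Z hn1 e4 v a₁ (zero_le_one.trans hH) hcH' d₀ ν) ?_).resolve_left ?_
  · have h1 : (ν p : ℝ) ≤ (2 * e + 1) * Z.dg p.1 := by
      exact_mod_cast GD_deg F Z hn1 e4 a₁ c d₀ ν hν p
    have h2 := mul_le_mul_of_nonneg_left h1 (hw0 p.1).le
    have h3 := Z.dg_mul_le hn (hw0 _).le c1 p.1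
    rw [hDZ, ← hmm] at h3
    have h4 := mul_le_mul_of_nonneg_left h3 (show (0 : ℝ) ≤ 2 * e + 1 by positivity)
    rw [hK]
    linarith
  · have h1 : ∑ o, (((cD F e + 2 * e + 1) * Z.dg o : ℕ) : ℝ) * F.hs = cG * ∑ o, (Z.dg o : ℝ) := by
      rw [mul_sum, hcG]
      exact sum_congr rfl fun o _ => by push_cast; ring
    have h2 := mul_le_mul_of_nonneg_left e9 hcG0
    have h3 := mul_nonneg hε.le s1
    rw [Real.log_exp, ← htw, h1, hK]
    linarith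
  · obtain ⟨γ, k1, k2⟩ := l2 U (hU ▸ prod_ne_zero_iff.2 fun o _ => pow_ne_zero _ (u₁ o).ne_zero)
    obtain ⟨γ, rfl⟩ := exists_unc γ
    refine fun h => k2 ?_
    have k3 := g2 fun o => (γ o).tail
    rw [h, map_zero] at k3
    rw [k3]
    congr 3
    funext o
    rw [← k1 o]
    exact (Finsupp.cons_tail _).symm
  rintro ⟨κ', k1, k2⟩
  obtain ⟨κ', rfl⟩ := exists_unc κ'
  rw [g2] at k2
  obtain ⟨γ, k3, k4, k5, k6⟩ := l3 _ _ (fun o => by simp) k2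
  obtain ⟨γ, rfl⟩ := exists_unc γ
  obtain ⟨h1, h2⟩ := hglob Z c γ hn1 (fun o => (hb o).hom) hbr (fun o => (hb o).rep) hH hcH' aq hq
    as'' hs'' hS hf (fun U γ' h => l1 U γ' (funext k4 ▸ h)) k5 k6
  obtain ⟨d, hd1, hd2⟩ := hord _ k5
  have h9 := Z.sum_dg_sub hn (hw0 _).le c1 (θ := 1 / (2 * mm)) (by positivity) hCh
    (p := fun o => ht ((b o).P + 2 ^ Z.j o • (b Z.h).P)) fun o ho => by
      simpa only [hw'] using hadd _ _ _ _ (hC' o ho)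
  rw [hDZ, hZ0, ← hmm, show 1 + 2 * (1 / (2 * mm)) * mm = 2 by field_simp; ring] at h9
  simp only [hw', Real.log_exp, ← htw, ← hE] at h2
  refine num_main (V := mm * (η * D₀)) (δ := δ) (r := r) (τ := τ) hW1
    (fun _ => Nat.cast_nonneg _) (fun _ => Nat.cast_nonneg _) (fun o => Nat.cast_le.2 ?_)
    (fun o => by rw [hE]; exact_mod_cast h1 o) (fun o => hw' o ▸ (hG o).big)
    (fun o => hw' o ▸ (hG o).low) hτ hE0 hr0.le hC hκr hκ₁0 (fun _ => rfl)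
    (fun o => mul_le_mul_of_nonneg_left (mul_le_of_le_one_left (hw0 o).le hε1) hκ₁0) hA h2 h9 ?_
    (κ' := fun o => bdeg (unc κ') o) ?_ ?_ ?_ ?_
  · rw [Finsupp.degree_eq_sum]
    exact sum_le_sum fun l _ => by simpa [Finsupp.tail_apply] using k3 (o, l.succ)
  · have h3 := mul_le_mul_of_nonneg_left (add_le_add e9 e6) hC
    have h4 := mul_le_mul_of_nonneg_right hε0 hD0.le
    have h5 := mul_le_mul_of_nonneg_right hε1 hD0.le
    linarith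
  · have h3 : 1 / ((A + 1) * K) * (K * D₀) = D₀ / (A + 1) := by field_simp
    rw [h3, lt_div_iff₀' (by positivity)] at k1
    exact k1
  · simp only [Rt.Low, mem_filter, mem_univ, true_and, not_lt, ← hmm] at hd1
    rw [← mul_assoc]
    exact hd1.trans (sum_le_sum fun o _ =>
      mul_le_mul_of_nonneg_right (Nat.cast_le.2 (hd2 o)) (hw0 o).le)
  · have h3 : ∀ o, eT Z e o * w o ≤ E' * (1 + δ) * (η * D₀) := fun o => by
      have h4 := mul_le_mul_of_nonneg_left (e1 o) hE0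
      have h5 := mul_le_mul_of_nonneg_left (e0 o) hE0
      have h6 : (eT Z e o : ℝ) = E' * Z.e o + (E' - 1) := by
        rw [hE, eT]
        push_cast
        ring
      rw [h6]
      linarith [hw0 o]
    have := sum_le_sum fun o (_ : o ∈ univ) => h3 o
    rw [sum_const, card_univ, Fintype.card_fin, nsmul_eq_mul, ← hmm] at this
    linarith
  · have h3 := mul_le_mul_of_nonneg_right hδ2 (show 0 ≤ mm * (η * D₀) by positivity)
    have h4 := mul_le_mul_of_nonneg_right hm.2 hD0.le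
    have h5 : 0 ≤ η * (r - E' * τ) * D₀ := mul_nonneg (mul_nonneg hη0.le (by linarith)) hD0.le
    rw [← hmm1] at h3 ⊢
    linarith

end Pool.Agent.Lib.MP_651af7_nt.Sh
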