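import Pool.Agent.Lib.MP_651af7_nt.Sh.OVoc

/-! Minimality for the translated equation. -/

namespace Pool.Agent.Lib.MP_651af7_nt.Sh

open MvPolynomial
open Pool.Agent.Lib.MP_651af7_nt.Av Pool.Agent.Lib.MP_651af7_nt.Av.AV

variable {k ι : Type} [Field k] [Fintype ι] {e μ d : ℕ} {ρ : Fin (e + 2) → MvPolynomial ι k}

/-- Forms in `v` are, up to a common factor, forms in the coordinates of the translated point. -/
theorem min_shift {A B : AV k ι} (h : Sub A B) {Θ : MvPolynomial ι k} {a : A.Pt k} {a' : ι → k}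
    (ha : Rep a a') {b₀ : ι}
    (hm : ∀ (F : Type) [Field F] [Algebra k F] (b : B.Pt F) (v : ι → F), Gen B.I b.co →
      Rep (h.inc F b + A.map (Algebra.ofId k F) a) v → aeval v Θ ≠ 0 → Min ρ v)
    (h0 : ∃ c, A.shift a' (X c) b₀ ∉ B.I) (hΘ : Θ.IsHomogeneous d) (h1 : A.shift a' Θ b₀ ∉ B.I)
    (F : Type) [Field F] [Algebra k F] (v : ι → F) (hv : v ≠ 0) (hz : ∀ f ∈ B.I, aeval v f = 0)
    (hg : Gen B.I v) : Min (fun j => A.shift a' (ρ j) b₀) v := by
  obtain ⟨b, hb⟩ := exists_rep_of_ne hv hz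
  obtain ⟨c₀, h0⟩ := h0
  have ha' : Rep (A.map (Algebra.ofId k F) a) fun c => algebraMap k F (a' c) :=
    ha.map (Algebra.ofId k F)
  have h2 : A.ph c₀ b₀ v (fun c => algebraMap k F (a' c)) ≠ 0 := fun h2 =>
    h0 (hg _ _ (shift_hom a' (isHomogeneous_X k c₀) b₀) (by rwa [aeval_shift, aeval_X]))
  have hw := rep_add (h.rep_inc hb) ha' h2.isUnit
  have h3 : Gen B.I b.co := fun f n hf h3 => hg f n hf (by
    obtain ⟨u, hu⟩ := hb
    rw [funext hu, aeval_mul_of_hom hf, h3, mul_zero])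
  have h4 := hm F b _ h3 hw fun h4 => h1 (hg _ _ (shift_hom a' hΘ b₀) (by rwa [aeval_shift]))
  obtain ⟨c₁, c₂, h5⟩ := exists_unit_ph hw ha'
  have h6 := rep_sub hw ha' h5
  rw [add_sub_cancel_right] at h6
  obtain ⟨u, hu⟩ := (h.rep_inc hb).exists_smul h6
  intro t ht τ n hτ h7 j
  have h8 : ∀ j, aeval (fun c => A.ph c b₀ v fun c => algebraMap k F (a' c))
      (aeval (fun c => A.ph c₁ c (X : ι → MvPolynomial ι k) fun c => C (a' c)) (τ j)) =
        (u : F) ^ n * aeval v (τ j) := fun j => by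
    rw [← aeval_mul_of_hom (hτ j), ← AlgHom.comp_apply, comp_aeval]
    simp only [map_ph, aeval_X, aeval_C, hu]
  have h9 := h4 t (by simpa only [aeval_shift] using ht)
    (fun j => aeval (fun c => A.ph c₁ c (X : ι → MvPolynomial ι k) fun c => C (a' c)) (τ j)) (2 * n)
    (fun j => (hτ j).aeval _ fun c => ph_hom a' c₁ c)
    (by simp only [h8, mul_assoc, ← Finset.mul_sum, h7, mul_zero]) j
  rw [h8] at h9
  exact (mul_eq_zero.1 h9).resolve_left (pow_ne_zero _ u.ne_zero)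

end Pool.Agent.Lib.MP_651af7_nt.Sh
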