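import Pool.Agent.Lib.MP_651af7_nt.Sh.OCoreA
import Pool.Agent.Lib.MP_651af7_nt.Sh.OShf

/-! The contradiction along an ultrafilter. -/

namespace Pool.Agent.Lib.MP_651af7_nt.Sh

open MvPolynomial Height Filter
open Pool.Agent.Lib.MP_651af7_nt.Av Pool.Agent.Lib.MP_651af7_nt.Av.AV
open Pool.Agent.Lib.MP_651af7_nt.Cn (gv)
open Pool.Agent.Lib.MP_651af7_nt.Jn (rr)

variable {k ι : Type} [Field k] [NumberField k] [Fintype ι] {α : Type} {U : Ultrafilter α}
  {e μ : ℕ}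

/-- The engine excludes a family of good blocks with independent coordinates. -/
theorem Engine.false {B : AV k ι} {g B₀ : ℕ} {τ r : ℝ} (heng : Engine B g e B₀ μ τ r)
    (b : α → Blk B g e) (hH : Tendsto (fun n => ht (b n).P) U atTop)
    (hb : ∀ ε : ℝ, 0 < ε → ∀ᶠ n in U, (b n).Good B₀ μ ε τ r) {I : Fin g → Option ι}
    (hI : ∀ n, (b n).C.I = I) (hind : AlgebraicIndependent (Sm k hH)
      fun j => (germ U fun n => (b n).z (I j) : Up U k)) : False := by
  obtain ⟨m, B', θ, ζ, ε₀, hθ, hζ, hε₀, heng⟩ := heng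
  obtain ⟨δ, hδ, hex⟩ := exists_not_exit hH (fun n j => (b n).z (I j)) hind B'
  have hε : 0 < min ε₀ (δ / (B' + 1)) := lt_min hε₀ (by positivity)
  obtain ⟨W, hW⟩ := heng _ hε (min_le_left _ _)
  obtain ⟨T, hT, hcone⟩ := B.cone U (fun n => (b n).P) hH hθ
  obtain ⟨f, hf, hsep⟩ := exists_chain hH ((((hb _ hε).and hex).and
    (hH.eventually_ge_atTop W)).and (show ∀ᶠ n in U, n ∈ T from hT)) hζ
  have hj : ∀ o : Fin (m + 1), ∃ j, o ≠ 0 → Close θ j (b (f 0)).P (b (f o)).P := fun o => by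
    by_cases h : o = 0
    · exact ⟨0, fun h' => (h' h).elim⟩
    · exact (hcone (f 0) (hf 0).2 (f o) (hf o).2
        (hsep 0 _ (Nat.pos_of_ne_zero fun h' => h (Fin.ext h'))).1).imp fun _ h _ => h
  choose j hj using hj
  obtain ⟨o, q, h0, h3, h4, h5, h6⟩ := hW (fun o => b (f o)) j (fun o => (hf _).1.1.1)
    (fun o => (hf _).1.2) (fun o o' h => (lt_or_gt_of_ne (Fin.val_injective.ne h)).imp
      (fun h => (hsep _ _ h).2) fun h => (hsep _ _ h).2) hj
  refine (hf o).1.1.2 q h0 h3 h4 (h5.trans (Real.exp_le_exp.2 ?_)) (by simpa only [hI] using h6)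
  refine mul_le_mul_of_nonneg_right ?_ (ht_nonneg _)
  calc (B' : ℝ) * min ε₀ (δ / (B' + 1)) ≤ (B' + 1) * (δ / (B' + 1)) := by
        gcongr
        · linarith
        · exact min_le_right _ _
    _ = δ := by field_simp

variable {A : AV k ι} {ρ : Fin (e + 2) → MvPolynomial ι k}

theorem seq_false (heng : ∀ (B : AV k ι) (B₀ μ : ℕ) (τ r : ℝ), 0 ≤ τ → (e + 1) * τ < r →
      Engine B B.dim e B₀ μ τ r)
    (hρ : ∀ j, (ρ j).IsHomogeneous μ) (hl : ρ (Fin.last _) ∉ A.I) (hG : Gm A ρ) (x : α → A.Pt k)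
    (t : α → k) (hx : Tendsto (fun n => ht (x n)) U atTop)
    (hgen : ∀ (f : MvPolynomial ι k) (n : ℕ), f.IsHomogeneous n → f ∉ A.I →
      ∀ᶠ l in U, eval (x l).co f ≠ 0)
    (h0 : ∀ n, ∑ j, eval (x n).co (ρ j) * t n ^ (j : ℕ) = 0) {ε : ℝ} (hε : 0 < ε)
    (hbad : ∀ᶠ n in U, (e + 1) * logHeight₁ (t n) + ε * ht (x n) ≤
      logHeight fun j => eval (x n).co (ρ j)) : False := by
  classical
  obtain ⟨B, h, y, a, hH, Z, Y, aK, a', H⟩ := A.exists_coset x hx
  have hX : Gen A.I Z.co := fun f n hf h1 => by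
    by_contra h2
    obtain ⟨l, h3, h4⟩ := (((aeval_germ_co H.gX hf).1 h1).and (hgen f n hf h2)).exists
    exact h4 h3
  have hY : td (Sm k hH) (rat Y.co) = B.dim := Cn.Cos.gen (h := h) ⟨H.gX, H.gY, H.gens, H.add,
    H.sub, H.co, H.rep, H.small, H.lo, 1, .of_forall fun n => (one_mul _).ge⟩
  obtain ⟨Θ, d, hΘ, hΘ', hm⟩ := hG B h (infinite_pt hH)
  obtain ⟨a₁, b₀, v, hv⟩ := exists_norm H
  obtain ⟨w, hw⟩ : ∃ w : α → Option ι → k, w = fun n c => c.elim (t n) (v n) := ⟨_, rfl⟩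
  have w1 : ∀ n, (fun c => w n (some c)) = v n := fun n => by rw [hw]; rfl
  have w2 : ∀ n, w n none = t n := fun n => by rw [hw]; rfl
  have hroot : ∀ᶠ n in U, ∑ j, eval (v n) (A.shift (a' n) (ρ j) b₀) * t n ^ (j : ℕ) = 0 :=
    hv.mono fun n ⟨_, _, c, _, g⟩ => by
      simp only [g _ _ (hρ _), mul_assoc, ← Finset.mul_sum, h0, mul_zero]
  have hlead : ∀ᶠ n in U, eval (v n) (A.shift (a' n) (ρ (Fin.last _)) b₀) ≠ 0 := by
    filter_upwards [hv, hgen _ _ (hρ _) hl] with n ⟨_, _, c, g1, g⟩ g2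
    rw [g _ _ (hρ _)]
    exact mul_ne_zero (pow_ne_zero _ g1) g2
  obtain ⟨m, P, hP⟩ := Submodule.fg_iff_exists_fin_generating_family.1
    (IsNoetherian.noetherian B.I)
  have hP' : Ideal.span (Set.range P) = B.I := hP
  have r1 : ∀ f : MvPolynomial (Option ι) k, Repr U (map (algebraMap (Sm k hH) (Up U k))
      (map (algebraMap k (Sm k hH)) f)) fun _ => f := fun f => by
    rw [MvPolynomial.map_map, ← IsScalarTower.algebraMap_eq]
    exact Repr.const f
  obtain ⟨g, B₁, Cn, I, hg, hC, hat, hsm, hind⟩ := exists_charts (hH := hH) w (c := some a₁)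
    (hv.mono fun n g => (congrFun (w1 n) a₁).trans g.2.1) (J := Option (Option (Fin m)))
    (P := fun j => j.elim (∑ j, rename some (A.shift aK.co (ρ j) b₀) * X none ^ (j : ℕ))
      fun j => map (algebraMap k _) (j.elim (X (some a₁) - 1) fun j => rename some (P j)))
    (p := fun n j => j.elim (∑ j, rename some (A.shift (a' n) (ρ j) b₀) * X none ^ (j : ℕ))
      fun j => j.elim (X (some a₁) - 1) fun j => rename some (P j))
    (by
      rintro (_ | j)
      · simp only [Option.elim, map_sum, map_mul, map_pow, map_X]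
        refine Repr.sum _ fun j => Repr.mul ?_ (Repr.X_pow _ _)
        have := (repr_shift H (ρ j) b₀).comp (G := fun c => X (some c)) (g := fun _ c => X (some c))
          fun c => by simpa only [pow_one] using Repr.X_pow (U := U) (k := k) (some c) 1
        rw [map_rename]
        simpa only [rename_eq_aeval, Function.comp_def] using this
      · exact r1 _)
    (by
      filter_upwards [hv, hroot] with n g1 g2
      rintro (_ | _ | j)
      · simp only [Option.elim, map_sum, map_mul, map_pow, eval_X, eval_rename, Function.comp_def,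
          w1, w2]
        exact g2
      · simp only [Option.elim, map_sub, eval_X, map_one, congrFun (w1 n) a₁, g1.2.1, sub_self]
      · simp only [Option.elim, eval_rename, Function.comp_def, w1]
        exact g1.1.zero _ (hP' ▸ Ideal.subset_span ⟨j, rfl⟩))
  have hYv : Rep Y (gv U v) := H.gY.rep (hv.mono fun n g => g.1)
  have hgd : g = B.dim := by
    have e1 : ∀ j, aeval (gv U v) (A.shift aK.co (ρ j) b₀) =
        germ U fun n => eval (v n) (A.shift (a' n) (ρ j) b₀) := fun j =>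
      (repr_shift H (ρ j) b₀).aeval' v
    have e2 := le_td (ρ := fun j => A.shift aK.co (ρ j) b₀) (x := gv U v) (t := germ U t) (g := g)
      (by
        simp only [rr_eval, e1, ← map_pow, ← map_mul, ← map_sum]
        exact germ_eq_zero.2 (hroot.mono fun n g => by simpa using g))
      ⟨a₁, ((germ_eq U).2 (hv.mono fun n g => g.2.1)).trans (map_one (germ U))⟩
      (by rw [e1]; exact germ_ne_zero.2 hlead) ⟨I, by
        convert hind using 2 with l
        rw [hw]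
        cases I l <;> rfl⟩
    rw [← B.tr_rat_rep hYv, hY] at e2
    have e3 : td (Sm k hH) (rat (gv U v)) ≤ td (Sm k hH) (rat (gv U w)) := td_mono (by
      rintro _ ⟨⟨c, c'⟩, rfl⟩
      exact ⟨(some c, some c'), by rw [hw]; rfl⟩)
    rw [← B.tr_rat_rep hYv, hY, hg] at e3
    exact_mod_cast le_antisymm e2 e3
  subst hgd
  obtain ⟨C₀, hC₀⟩ := logHeight_eval_le' hρ
  obtain ⟨C₁, hC₁, hadd⟩ := A.ht_add_le one_pos
  have hxy : ∀ᶠ n in U, ht (x n) ≤ 3 * ht (y n) := by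
    filter_upwards [((H.lo.add (Lo.const hH 1)).const_mul (c := C₁ + 1) (by linarith)) 1 one_pos]
      with n g
    have g1 := (hadd (h.inc k (y n)) (a n)).1
    rw [← H.add, ht_inc] at g1
    have := ht_nonneg (a n)
    linarith
  have e0 : (0 : ℝ) < e + 1 := by positivity
  obtain ⟨τ, hτ, hsl⟩ := exists_slope (U := U) (f := fun n => logHeight₁ (t n))
    (H := fun n => ht (y n)) (K := 3 * μ + 1) (δ := ε / (4 * (e + 1))) (by positivity) (by
      filter_upwards [hbad, hxy, hH.eventually_gt_atTop 0, hH.eventually_ge_atTop C₀]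
        with n g1 g2 g3 g4
      have g5 := hC₀ (x n).co
      have g6 := zero_le_logHeight₁ (t n)
      have g7 := mul_le_mul_of_nonneg_left g2 (Nat.cast_nonneg (α := ℝ) μ)
      have g8 := mul_nonneg hε.le (ht_nonneg (x n))
      have g9 := mul_nonneg (Nat.cast_nonneg (α := ℝ) e) g6
      change _ ≤ C₀ + μ * ht (x n) at g5
      exact ⟨g3, g6, by linarith⟩)
  have hδ : (e + 1) * (ε / (4 * (e + 1))) = ε / 4 := by field_simp
  refine (heng B (max B₁ (2 * μ)) (2 * μ) (τ + ε / (4 * (e + 1))) ((e + 1) * τ + ε / 2)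
    (by positivity) (by rw [mul_add, hδ]; linarith)).false
    (fun n => ⟨y n, w n, Cn n, fun j => A.shift (a' n) (ρ j) b₀⟩) hH (fun η hη => ?_)
    (fun n => (hC n).2) hind
  have hsρ : ∀ᶠ n in U, ∀ j, SmallP (max B₁ (2 * μ)) (η * ht (y n)) (A.shift (a' n) (ρ j) b₀) :=
    eventually_all.2 fun j => (repr_shift H (ρ j) b₀).small hH
      ((shift_hom _ (hρ j) _).totalDegree_le.trans (le_max_right _ _)) hη
  filter_upwards [hv, hat, hsm η hη, hsρ, hlead, seq_sep hρ hl hG hx H.gX hX h0, hsl, hbad, H.le,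
    H.rep, hgen _ _ hΘ hΘ'] with n ⟨g1, g2, c, g3, g4⟩ g5 g6 g7 g8 g9 g10 g11 g12 g13 g14
  have n1 : ∀ (G : MvPolynomial ι k) (d : ℕ), G.IsHomogeneous d → eval (x n).co G ≠ 0 →
      A.shift (a' n) G b₀ ∉ B.I := fun G d h1 h2 h3 => by
    have h4 := g1.zero _ h3
    rw [aeval_eq_eval, g4 G d h1] at h4
    exact mul_ne_zero (pow_ne_zero _ g3) h2 h4
  have x1 : (⟨y n, w n, Cn n, fun j => A.shift (a' n) (ρ j) b₀⟩ : Blk B B.dim e).x = v n := w1 n
  have x2 : (⟨y n, w n, Cn n, fun j => A.shift (a' n) (ρ j) b₀⟩ : Blk B B.dim e).t = t n := w2 n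
  refine ⟨⟨x1 ▸ g1, ⟨a₁, (hC n).1, fun f hf => g5.2 f (SetLike.le_def.1 (sup_le ?_ ?_) hf)⟩, g5.1,
    fun j => shift_hom _ (hρ j) _, x1 ▸ g8, ?_, div_of_min (fun j => shift_hom _ (hρ j) _)
      (min_shift h g13 (hm (a n)) ?_ hΘ (n1 _ _ hΘ g14))⟩,
    fun c => ⟨(g6 c).1.trans (le_max_left _ _), (g6 c).2⟩, g7, x2 ▸ g10.2, ?_⟩
  · rw [← hP', Ideal.map_span, Ideal.span_le]
    rintro _ ⟨_, ⟨j, rfl⟩, rfl⟩
    exact Ideal.subset_span ⟨some (some j), rfl⟩
  · rw [Ideal.span_le]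
    rintro _ (rfl | rfl)
    exacts [Ideal.subset_span ⟨some none, rfl⟩, Ideal.subset_span ⟨none, rfl⟩]
  · rw [Blk.θ, x1, x2, th_sum]
    simp only [aeval_eq_eval, g4 _ _ (hρ _), mul_left_comm _ (c ^ μ), mul_assoc (c ^ μ),
      ← Finset.mul_sum]
    exact mul_ne_zero (pow_ne_zero _ g3) g9
  · obtain ⟨l, hl⟩ := (rep_co (x n)).unit
    exact ⟨l, n1 _ _ (isHomogeneous_X _ _) (by rw [eval_X]; exact hl.ne_zero)⟩
  · rw [x1]
    simp only [g4 _ _ (hρ _), logHeight_mul_left (pow_ne_zero μ g3)]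
    have := mul_le_mul_of_nonneg_left g10.1 e0.le
    have := mul_le_mul_of_nonneg_left g12 hε.le
    linarith

theorem core_of (heng : ∀ (B : AV k ι) (B₀ μ : ℕ) (τ r : ℝ), 0 ≤ τ → (e + 1) * τ < r →
      Engine B B.dim e B₀ μ τ r)
    (hρ : ∀ j, (ρ j).IsHomogeneous μ) (hl : ρ (Fin.last _) ∉ A.I) (hG : Gm A ρ) : Core A ρ := by
  intro ε hε
  by_contra hcon
  have hp := A.isPrime
  let β := {z : A.Pt k × k // ∑ j, eval z.1.co (ρ j) * z.2 ^ (j : ℕ) = 0}
  let T := {t : MvPolynomial ι k × ℕ × ℝ // t.1.IsHomogeneous t.2.1 ∧ t.1 ∉ A.I}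
  let S : T → Set β := fun t => {z | eval z.1.1.co t.1.1 ≠ 0 ∧
    (e + 1) * logHeight₁ z.1.2 + ε * ht z.1.1 + t.1.2.2 < logHeight fun j => eval z.1.1.co (ρ j)}
  have hS : ∀ t, (S t).Nonempty := fun t => by
    by_contra h
    refine hcon ⟨t.1.1, t.1.2.1, t.1.2.2, t.2.1, t.2.2, fun x s h0 hz h1 h2 =>
      not_lt.1 fun h3 => h ?_⟩
    obtain ⟨P, u, hu⟩ := exists_rep_of_ne (A := A) h0 (by simpa only [aeval_eq_eval] using hz)
    obtain rfl : x = fun a => u * P.co a := funext hu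
    simp only [eval_mul_of_hom (hρ _), logHeight_mul_left u.ne_zero,
      logHeight_mul_left (pow_ne_zero μ u.ne_zero), mul_assoc, ← Finset.mul_sum] at h2 h3
    rw [eval_mul_of_hom t.2.1] at h1
    exact ⟨⟨(P, s), (mul_eq_zero.1 h2).resolve_left (pow_ne_zero μ u.ne_zero)⟩,
      right_ne_zero_of_mul h1, h3⟩
  have hdir : Directed (· ≥ ·) fun t => 𝓟 (S t) := fun t t' =>
    ⟨⟨(t.1.1 * t'.1.1, t.1.2.1 + t'.1.2.1, max t.1.2.2 t'.1.2.2), t.2.1.mul t'.2.1,
      fun h => (hp.mem_or_mem h).elim t.2.2 t'.2.2⟩,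
      principal_mono.2 fun z hz => ⟨left_ne_zero_of_mul (map_mul (eval z.1.1.co) _ _ ▸ hz.1),
        lt_of_le_of_lt (by gcongr; exact le_max_left _ _) hz.2⟩,
      principal_mono.2 fun z hz => ⟨right_ne_zero_of_mul (map_mul (eval z.1.1.co) _ _ ▸ hz.1),
        lt_of_le_of_lt (by gcongr; exact le_max_right _ _) hz.2⟩⟩
  have h1 : (1 : MvPolynomial ι k) ∉ A.I := (Ideal.ne_top_iff_one _).1 hp.ne_top
  have : Nonempty β := (hS ⟨(1, 0, 0), isHomogeneous_one _ _, h1⟩).to_type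
  have hne := iInf_neBot_of_directed hdir fun t => principal_neBot_iff.2 (hS t)
  have hU : ∀ t, ∀ᶠ z in Ultrafilter.of (⨅ t, 𝓟 (S t)), z ∈ S t := fun t =>
    (Ultrafilter.of_le _).trans (iInf_le _ t) (mem_principal_self _)
  obtain ⟨C₀, hC₀⟩ := logHeight_eval_le' hρ
  refine seq_false heng hρ hl hG (U := Ultrafilter.of (⨅ t, 𝓟 (S t))) (fun z => z.1.1)
    (fun z => z.1.2) (tendsto_atTop.2 fun W => ?_)
    (fun f n hf h => (hU ⟨(f, n, 0), hf, h⟩).mono fun _ h => h.1) (fun z => z.2) hε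
    ((hU ⟨(1, 0, 0), isHomogeneous_one _ _, h1⟩).mono fun z hz => by simpa using hz.2.le)
  refine (hU ⟨(1, 0, C₀ + μ * W), isHomogeneous_one _ _, h1⟩).mono fun z hz => ?_
  have h2 : (e + 1) * logHeight₁ z.1.2 + ε * ht z.1.1 + (C₀ + μ * W) < _ := hz.2
  have h3 : _ ≤ C₀ + μ * ht z.1.1 := hC₀ z.1.1.co
  have h4 := mul_nonneg hε.le (ht_nonneg z.1.1)
  have h5 := mul_nonneg (show (0 : ℝ) ≤ e + 1 by positivity) (zero_le_logHeight₁ z.1.2)
  exact (lt_of_mul_lt_mul_left (by linarith : (μ : ℝ) * W < μ * ht z.1.1) μ.cast_nonneg).le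

end Pool.Agent.Lib.MP_651af7_nt.Sh
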