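import Pool.Agent.Lib.MP_651af7_nt.Sh.OGen
import Pool.Agent.Lib.MP_651af7_nt.Cn.SBlk
import Pool.Agent.Lib.MP_651af7_nt.Av.SeqS

/-! Charts, slopes and translated equations along an ultrafilter. -/

namespace Pool.Agent.Lib.MP_651af7_nt.Sh

open MvPolynomial Height Filter
open Pool.Agent.Lib.MP_651af7_nt.Av Pool.Agent.Lib.MP_651af7_nt.Av.AV
open Pool.Agent.Lib.MP_651af7_nt.Cn (gv)
open Pool.Agent.Lib.MP_651af7_nt.Jn (rr)

variable {k ι : Type} [Field k] [NumberField k] [Fintype ι] {α : Type} {U : Ultrafilter α}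
  {e μ : ℕ}

theorem exists_charts {κ J : Type} [Fintype κ] [Finite J] {H : α → ℝ} {hH : Tendsto H U atTop}
    (w : α → κ → k) {c : κ} (hc : ∀ᶠ n in U, w n c = 1) {P : J → MvPolynomial κ (Sm k hH)}
    {p : α → J → MvPolynomial κ k}
    (hP : ∀ j, Repr U (map (algebraMap _ (Up U k)) (P j)) fun n => p n j)
    (h0 : ∀ᶠ n in U, ∀ j, eval (w n) (p n j) = 0) :
    ∃ (g B₀ : ℕ) (Cn : α → Chart k κ g) (I : Fin g → κ), td (Sm k hH) (rat (gv U w)) = g ∧
      (∀ n, (Cn n).a₀ = c ∧ (Cn n).I = I) ∧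
      (∀ᶠ n in U, (Cn n).At (w n) ∧ (Cn n).On (Ideal.span (Set.range (p n))) (w n)) ∧
      (∀ ε : ℝ, 0 < ε → ∀ᶠ n in U, ∀ a, SmallP B₀ (ε * H n) ((Cn n).φ a)) ∧
      AlgebraicIndependent (Sm k hH) fun j => (germ U fun n => w n (I j) : Up U k) := by
  classical
  have : CharZero (Sm k hH) := charZero_of_injective_algebraMap (algebraMap k _).injective
  obtain ⟨r, D, ha₀, hat, hr, hind, hon⟩ := exists_chart (K := Sm k hH) (gv U w) c
    (((germ_eq U).2 hc).trans (map_one (germ U)))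
  obtain ⟨Cn, hD, hD0⟩ := Cn.sblk_reprC (U := U) (k := k) D
  have g4 : ∀ᶠ n in U, ∀ j, ∃ s, IsUnit (aeval (w n) s) ∧ s * p n j ∈ (Cn n).ideal := by
    refine eventually_all.2 fun j => ?_
    obtain ⟨s, hs, hs'⟩ := hon (P j) (by
      rw [RingHom.mem_ker]
      exact ((hP j).aeval' w).trans (germ_eq_zero.2 (h0.mono fun n hn => hn j)))
    obtain ⟨t, ht⟩ := exists_repr (map (algebraMap (Sm k hH) (Up U k)) s)
    rw [show aeval (gv U w) s = _ from ht.aeval' w, germ_isUnit] at hs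
    have h2 := Ideal.mem_map_of_mem (MvPolynomial.map (algebraMap (Sm k hH) (Up U k))) hs'
    rw [D.ideal_eq, Ideal.map_span, ← Set.range_comp, map_mul] at h2
    have h3 := Repr.mem_span (g := fun n (a : ↥(Set.range D.I)ᶜ) => (Cn n).φ a)
      (fun a => hD.φ a) (ht.mul (hP j)) h2
    refine (hs.and h3).mono fun n hn => ⟨t n, hn.1, ?_⟩
    rw [Chart.ideal, hD.I, Set.image_eq_range]
    exact hn.2
  obtain ⟨B₁, hB₁⟩ := Finite.exists_le fun a => (D.φ a).totalDegree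
  refine ⟨r, B₁, Cn, D.I, hr, fun n => ⟨(hD0 n).trans ha₀, hD.I n⟩, ?_,
    fun ε hε => eventually_all.2 fun a => (hD.φ a).small hH (hB₁ a) hε, hind⟩
  filter_upwards [hD.atx hat, g4] with n h1 h2
  refine ⟨h1, (Cn n).on_span ?_⟩
  rintro _ ⟨j, rfl⟩
  exact h2 j

theorem exists_slope {f H : α → ℝ} {K δ : ℝ} (hδ : 0 < δ)
    (h : ∀ᶠ n in U, 0 < H n ∧ 0 ≤ f n ∧ f n ≤ K * H n) :
    ∃ τ : ℝ, 0 ≤ τ ∧ ∀ᶠ n in U, τ * H n ≤ f n ∧ f n ≤ (τ + δ) * H n := by
  obtain ⟨i, hi⟩ := Ultrafilter.eventually_exists_iff.1 (h.mono fun n hn =>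
    (⟨⟨⌊f n / (δ * H n)⌋₊, Nat.lt_succ_of_le (Nat.floor_mono (by
      rw [div_le_div_iff₀ (mul_pos hδ hn.1) hδ]
      nlinarith [hn.2.2]))⟩, rfl⟩ : ∃ i : Fin (⌊K / δ⌋₊ + 1), ⌊f n / (δ * H n)⌋₊ = i))
  refine ⟨i * δ, by positivity, ?_⟩
  filter_upwards [h, hi] with n h1 h2
  have h3 := mul_pos hδ h1.1
  have h4 := Nat.floor_le (div_nonneg h1.2.1 h3.le)
  have h5 := Nat.lt_floor_add_one (f n / (δ * H n))
  rw [h2, le_div_iff₀ h3] at h4
  rw [h2, div_lt_iff₀ h3] at h5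
  constructor <;> linarith

theorem infinite_pt {B : AV k ι} {y : α → B.Pt k} (hH : Tendsto (fun n => ht (y n)) U atTop) :
    Infinite (B.Pt k) := by
  by_contra h
  rw [not_infinite_iff_finite] at h
  obtain ⟨C, hC⟩ := Finite.exists_le fun P : B.Pt k => ht P
  obtain ⟨n, hn⟩ := (hH.eventually_gt_atTop C).exists
  exact hn.not_ge (hC _)

omit [NumberField k] [Fintype ι] in
theorem th_sum {R : Type} [CommRing R] [Algebra k R] (ρ : Fin (e + 2) → MvPolynomial ι k)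
    (x : ι → R) (t : R) : (rr ρ x).derivative.eval t =
      ∑ j : Fin (e + 1), ((j : ℕ) + 1 : R) * aeval x (ρ j.succ) * t ^ (j : ℕ) := by
  rw [rr, Fin.sum_univ_succ]
  simp only [map_add, map_sum, Polynomial.derivative_C_mul, Polynomial.derivative_X_pow,
    Polynomial.eval_add, Polynomial.eval_finsetSum, Polynomial.eval_mul, Polynomial.eval_C,
    Polynomial.eval_pow, Polynomial.eval_X, Fin.val_zero, Fin.val_succ, Nat.cast_zero, zero_mul,
    mul_zero, zero_add, Nat.add_sub_cancel, Nat.cast_add_one, Polynomial.eval_natCast,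
    Polynomial.eval_one, map_one, map_natCast]
  exact Finset.sum_congr rfl fun _ _ => by ring

/-- The cover is unramified at the members of a generic family. -/
theorem seq_sep {A : AV k ι} {ρ : Fin (e + 2) → MvPolynomial ι k}
    (hρ : ∀ j, (ρ j).IsHomogeneous μ) (hl : ρ (Fin.last _) ∉ A.I) (hG : Gm A ρ) {x : α → A.Pt k}
    {t : α → k} (hx : Tendsto (fun n => ht (x n)) U atTop) {X : A.Pt (Up U k)}
    (gX : IsGerm U X x) (hX : Gen A.I X.co)
    (h0 : ∀ n, ∑ j, eval (x n).co (ρ j) * t n ^ (j : ℕ) = 0) :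
    ∀ᶠ n in U,
      ∑ j : Fin (e + 1), ((j : ℕ) + 1 : k) * eval (x n).co (ρ j.succ) * t n ^ (j : ℕ) ≠ 0 := by
  have h : Sub A A := ⟨fun P hP => by rwa [Algebra.algebraMap_self, MvPolynomial.map_id],
    fun a b => by rw [Algebra.algebraMap_self, MvPolynomial.map_id], rfl, fun _ => rfl⟩
  obtain ⟨Θ, d, h1, h2, h3⟩ := hG A h (infinite_pt hx)
  have h4 : ∀ (f : MvPolynomial ι k) (n : ℕ), f.IsHomogeneous n → f ∉ A.I →
      aeval (fun a => germ U fun n => (x n).co a) f ≠ 0 := fun f n hf h5 h6 => by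
    rw [aeval_germ, germ_eq_zero, ← aeval_germ_co gX hf] at h6
    exact h5 (hX f n hf h6)
  have h5 := (h3 0 _ X _ hX (by rw [map_zero, add_zero]; exact h.rep_inc gX) (h4 _ _ h1 h2)).sep hρ
    (h4 _ _ (hρ _) hl) (t := germ U t) (by
      simp only [aeval_germ, ← map_pow, ← map_mul, ← map_sum]
      refine germ_eq_zero.2 (.of_forall fun n => ?_)
      simpa using h0 n)
  rw [← germ_ne_zero]
  refine fun h6 => h5 (Eq.trans ?_ h6)
  have h7 : ∀ j : ℕ, ((j : Up U k) + 1) = germ U ((j : α → k) + 1) := fun j => by simp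
  simp only [aeval_germ, h7, ← map_pow, ← map_mul, ← map_sum]
  exact congrArg _ (funext fun n => by simp)

variable {A B : AV k ι} {h : Sub A B} {x : α → A.Pt k} {y : α → B.Pt k} {a : α → A.Pt k}
  {hH : Tendsto (fun n => ht (y n)) U atTop} {X : A.Pt (Up U k)} {Y : B.Pt (Up U k)}
  {aK : A.Pt (Sm k hH)} {a' : α → ι → k}

omit [Fintype ι] in
theorem repr_shift (H : Coset h x y a hH X Y aK a') (G : MvPolynomial ι k) (b : ι) :
    Repr U (map (algebraMap _ (Up U k)) (A.shift aK.co G b)) fun n => A.shift (a' n) G b := by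
  have hXr : ∀ d : ι, Repr U (map (algebraMap (Sm k hH) (Up U k)) (MvPolynomial.X d))
      fun _ => (MvPolynomial.X d : MvPolynomial ι k) := fun d => by
    simpa only [map_X] using Repr.const (U := U) (MvPolynomial.X d : MvPolynomial ι k)
  have hCr : ∀ d, Repr U (map (algebraMap (Sm k hH) (Up U k)) (C (aK.co d)))
      fun n => (C (a' n d) : MvPolynomial ι k) := fun d => by
    simpa only [map_C, H.co, evP, Pi.evalRingHom_apply] using
      repr_lift (U := U) (C (fun n => a' n d) : MvPolynomial ι (α → k))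
  exact Cn.sblk_comp (G := fun c => A.ph c b MvPolynomial.X fun e => C (aK.co e))
    (Gn := fun n c => A.ph c b MvPolynomial.X fun e => C (a' n e))
    (fun c => Cn.sblk_comp (Gn := fun n => Sum.elim MvPolynomial.X fun e => C (a' n e))
      (Sum.rec hXr hCr) _) G

/-- Normalised coordinates of `y`, and the values of the translated forms. -/
theorem exists_norm (H : Coset h x y a hH X Y aK a') : ∃ (a₁ b₀ : ι) (v : α → ι → k),
    ∀ᶠ n in U, Rep (y n) (v n) ∧ v n a₁ = 1 ∧ ∃ c : k, c ≠ 0 ∧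
      ∀ (G : MvPolynomial ι k) (d : ℕ), G.IsHomogeneous d →
        eval (v n) (A.shift (a' n) G b₀) = c ^ d * eval (x n).co G := by
  obtain ⟨a₁, h1⟩ := Ultrafilter.eventually_exists_iff.1
    (Eventually.of_forall (f := U) fun n => (rep_co (y n)).unit)
  obtain ⟨b₀, h2⟩ := Ultrafilter.eventually_exists_iff.1
    (show ∀ᶠ n in U, ∃ b, ∃ c : k, c ≠ 0 ∧ ∀ l, A.ph l b
        (fun l => ((y n).co a₁)⁻¹ * (y n).co l) (a' n) = c * (x n).co l from by
      filter_upwards [h1, H.rep] with n g1 g2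
      obtain ⟨p, hp, he⟩ := exists_ph_eq (h.rep_inc ((rep_co (y n)).div g1.ne_zero)) g2
        (s := (x n).co) (H.add n ▸ rep_co (x n))
      obtain ⟨b, hb⟩ := hp.unit
      exact ⟨b, p b, hb.ne_zero, fun l => he l b⟩)
  refine ⟨a₁, b₀, fun n l => ((y n).co a₁)⁻¹ * (y n).co l, ?_⟩
  filter_upwards [h1, h2] with n g1 ⟨c, g2, g3⟩
  refine ⟨(rep_co (y n)).div g1.ne_zero, inv_mul_cancel₀ g1.ne_zero, c, g2, fun G d hG => ?_⟩
  rw [← aeval_eq_eval, aeval_shift, aeval_eq_eval, ← eval_mul_of_hom hG]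
  exact congrArg (fun z => eval z G) (funext g3)

end Pool.Agent.Lib.MP_651af7_nt.Sh
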