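import Pool.Agent.Lib.MP_651af7_nt.Sh.EDefs
import Pool.Agent.Lib.MP_651af7_nt.Jn.ODiv

/-! A minimal equation divides with multiplicity. -/

namespace Pool.Agent.Lib.MP_651af7_nt.Sh

open MvPolynomial
open Pool.Agent.Lib.MP_651af7_nt.Av
open Pool.Agent.Lib.MP_651af7_nt.Jn (rr rr_coeff div_pow_dvd)

variable {k ι : Type} [Field k] {e : ℕ} {F : Type} [Field F] [Algebra k F] {x : ι → F} {t : F}

theorem div_hom {a : ι} (ha : x a = 1) (f : MvPolynomial ι k) : ∃ M : ℕ, ∀ n : ℕ, M ≤ n →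
    ∃ f' : MvPolynomial ι k, f'.IsHomogeneous n ∧ aeval x f' = aeval x f := by
  induction f using MvPolynomial.induction_on' with
  | monomial μ c =>
    refine ⟨μ.degree, fun n hn => ⟨monomial μ c * X a ^ (n - μ.degree), ?_, by simp [ha]⟩⟩
    have h := (isHomogeneous_monomial c (rfl : μ.degree = _)).mul
      (isHomogeneous_X_pow (R := k) a (n - μ.degree))
    rwa [Nat.add_sub_cancel' hn] at h
  | add f g hf hg =>
    obtain ⟨M, hM⟩ := hf
    obtain ⟨M', hM'⟩ := hg
    refine ⟨M + M', fun n hn => ?_⟩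
    obtain ⟨f', h1, h2⟩ := hM n (by omega)
    obtain ⟨g', h3, h4⟩ := hM' n (by omega)
    exact ⟨f' + g', h1.add h3, by rw [map_add, map_add, h2, h4]⟩

/-- The root `t` has degree more than `e` over the field generated by `x`. -/
theorem div_deg (h1 : ∃ a, x a = 1)
    (hm : ∀ (τ : Fin (e + 1) → MvPolynomial ι k) (d : ℕ), (∀ j, (τ j).IsHomogeneous d) →
      ∑ j, aeval x (τ j) * t ^ (j : ℕ) = 0 → ∀ j, aeval x (τ j) = 0)
    (q : Polynomial (IntermediateField.adjoin k (Set.range x))) (hq : q.degree < (e + 1 : ℕ))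
    (h0 : Polynomial.aeval t q = 0) : q = 0 := by
  classical
  obtain ⟨a, ha⟩ := h1
  have hK' : ∀ y : IntermediateField.adjoin k (Set.range x), ∃ r s : MvPolynomial ι k,
      aeval x s ≠ 0 ∧ aeval x r = aeval x s * (y : F) := fun y => by
    obtain ⟨r, s, hy⟩ := (IntermediateField.mem_adjoin_range_iff k x _).1 y.2
    by_cases hs : aeval x s = 0
    · exact ⟨0, 1, by simp, by rw [hy, hs]; simp⟩
    · exact ⟨r, s, hs, by rw [hy, mul_div_cancel₀ _ hs]⟩
  choose r s hs hrs using fun j : Fin (e + 1) => hK' (q.coeff j)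
  choose M hM using fun j => div_hom ha (r j * ∏ i ∈ Finset.univ.erase j, s i)
  choose f hf hf' using fun j => hM j (∑ j, M j)
    (Finset.single_le_sum (fun _ _ => Nat.zero_le _) (Finset.mem_univ j))
  have hv : ∀ j, aeval x (f j) = (∏ i, aeval x (s i)) * (q.coeff j : F) := fun j => by
    rw [hf', map_mul, map_prod, hrs, ← Finset.mul_prod_erase _ _ (Finset.mem_univ j)]
    ring
  have h3 := hm f _ hf (by
    rw [Polynomial.aeval_eq_sum_range' (n := e + 1) (by
      by_cases hq0 : q = 0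
      · simp [hq0]
      · exact (Polynomial.natDegree_lt_iff_degree_lt hq0).2 hq), Finset.sum_range] at h0
    rw [← mul_zero (∏ i, aeval x (s i)), ← h0, Finset.mul_sum]
    refine Finset.sum_congr rfl fun j _ => ?_
    rw [hv, mul_assoc]
    rfl)
  ext i
  by_cases hi : i < e + 1
  · have h4 := h3 ⟨i, hi⟩
    rw [hv] at h4
    exact (mul_eq_zero.1 h4).resolve_left (Finset.prod_ne_zero_iff.2 fun i _ => hs i)
  · rw [Polynomial.coeff_eq_zero_of_degree_lt (hq.trans_le (by exact_mod_cast not_lt.1 hi))]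
    rfl

theorem exists_lift_rr (ρ : Fin (e + 2) → MvPolynomial ι k) (x : ι → F) :
    ∃ r : Polynomial (IntermediateField.adjoin k (Set.range x)),
      r.map (algebraMap _ F) = rr ρ x ∧ r.natDegree ≤ e + 1 := by
  have hK : ∀ f : MvPolynomial ι k, aeval x f ∈ IntermediateField.adjoin k (Set.range x) :=
    fun f => (IntermediateField.mem_adjoin_range_iff k x _).2 ⟨f, 1, by simp⟩
  refine ⟨∑ j : Fin (e + 2), Polynomial.C ⟨_, hK (ρ j)⟩ * Polynomial.X ^ (j : ℕ), ?_,
    Polynomial.natDegree_sum_le_of_forall_le _ _ fun l _ =>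
      (Polynomial.natDegree_C_mul_X_pow_le _ _).trans l.is_le⟩
  simp only [rr, Polynomial.map_sum, Polynomial.map_mul, Polynomial.map_C, Polynomial.map_pow,
    Polynomial.map_X]
  rfl

/-- The root of a minimal equation is simple. -/
theorem min_sep [CharZero k] {ρ : Fin (e + 2) → MvPolynomial ι k} (h1 : ∃ a, x a = 1)
    (hl : aeval x (ρ (Fin.last _)) ≠ 0)
    (hm : ∀ (τ : Fin (e + 1) → MvPolynomial ι k) (d : ℕ), (∀ j, (τ j).IsHomogeneous d) →
      ∑ j, aeval x (τ j) * t ^ (j : ℕ) = 0 → ∀ j, aeval x (τ j) = 0) :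
    (rr ρ x).derivative.eval t ≠ 0 := by
  obtain ⟨r, hr, hd⟩ := exists_lift_rr ρ x
  intro h
  rw [← hr, Polynomial.derivative_map, Polynomial.eval_map, ← Polynomial.aeval_def] at h
  have h2 := div_deg h1 hm _ (Polynomial.degree_le_natDegree.trans_lt (by
    exact_mod_cast (Polynomial.natDegree_derivative_le r).trans_lt (by omega))) h
  have h3 := congrArg (fun q => (q.map (algebraMap _ F)).coeff e) h2
  have : CharZero F := charZero_of_injective_algebraMap (algebraMap k F).injective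
  simp only [← Polynomial.derivative_map, hr, Polynomial.coeff_derivative, Polynomial.map_zero,
    Polynomial.coeff_zero] at h3
  rw [← Fin.val_last (e + 1), rr_coeff] at h3
  exact mul_ne_zero hl (Nat.cast_add_one_ne_zero e) h3

/-- The field `div` of `Blk.Geom`. -/
theorem min_div [CharZero k] {ρ : Fin (e + 2) → MvPolynomial ι k} (h0 : (rr ρ x).eval t = 0)
    (h1 : ∃ a, x a = 1) (hl : aeval x (ρ (Fin.last _)) ≠ 0)
    (hm : ∀ (τ : Fin (e + 1) → MvPolynomial ι k) (d : ℕ), (∀ j, (τ j).IsHomogeneous d) →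
      ∑ j, aeval x (τ j) * t ^ (j : ℕ) = 0 → ∀ j, aeval x (τ j) = 0)
    (P : MvPolynomial (Option ι) k) (N : ℕ) (hP : (Polynomial.X - Polynomial.C t) ^ N ∣ pT x P) :
    rr ρ x ^ N ∣ pT x P := by
  have hs := min_sep h1 hl hm
  obtain ⟨r, hr, hd⟩ := exists_lift_rr ρ x
  have hI := div_deg h1 hm
  obtain ⟨π, hπ⟩ : ∃ π : Polynomial (IntermediateField.adjoin k (Set.range x)),
      π.map (algebraMap _ F) = pT x P := by
    clear hP
    induction P using MvPolynomial.induction_on with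
    | C c => exact ⟨Polynomial.C (algebraMap k _ c), by rw [Polynomial.map_C, pT, aeval_C]; rfl⟩
    | add f g hf hg =>
      obtain ⟨y, hy⟩ := hf
      obtain ⟨z, hz⟩ := hg
      exact ⟨y + z, by rw [Polynomial.map_add, hy, hz, pT, pT, pT, map_add]⟩
    | mul_X f c hf =>
      obtain ⟨y, hy⟩ := hf
      rcases c with _ | c
      · exact ⟨y * Polynomial.X, by
          rw [Polynomial.map_mul, hy, Polynomial.map_X, pT, pT, map_mul, aeval_X]; rfl⟩
      · exact ⟨y * Polynomial.C ⟨_, IntermediateField.subset_adjoin _ _ ⟨c, rfl⟩⟩, by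
          rw [Polynomial.map_mul, hy, Polynomial.map_C, pT, pT, map_mul, aeval_X]; rfl⟩
  let ψ : Polynomial (IntermediateField.adjoin k (Set.range x)) →+* Polynomial F :=
    (Polynomial.taylorAlgHom t).toRingHom.comp (Polynomial.mapRingHom (algebraMap _ F))
  have hψ : ∀ q, ψ q = Polynomial.taylor t (q.map (algebraMap _ F)) := fun _ => rfl
  have z0 : ∀ q, Polynomial.X ∣ ψ q ↔ Polynomial.aeval t q = 0 := fun q => by
    rw [hψ, Polynomial.X_dvd_iff, Polynomial.taylor_coeff_zero, Polynomial.eval_map,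
      Polynomial.aeval_def]
  have r0 : Polynomial.aeval t r = 0 := by
    rw [Polynomial.aeval_def, ← Polynomial.eval_map, hr, h0]
  obtain ⟨s, hs1⟩ := (z0 r).2 r0
  have hs' : ¬ Polynomial.X ∣ s := fun h3 => hs (by
    rw [← Polynomial.taylor_coeff_one, ← hr, ← hψ, hs1, Polynomial.coeff_X_mul,
      Polynomial.X_dvd_iff.1 h3])
  have hr0 : r ≠ 0 := fun h3 => hs (by rw [← hr, h3]; simp)
  have hd' : ∀ q, Polynomial.X ∣ ψ q → r ∣ q := fun q hq => by
    refine EuclideanDomain.mod_eq_zero.1 (hI _ ((Polynomial.degree_mod_lt q hr0).trans_le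
      (Polynomial.degree_le_natDegree.trans (by exact_mod_cast hd))) ?_)
    rw [EuclideanDomain.mod_eq_sub_mul_div, map_sub, map_mul, r0, (z0 q).1 hq, zero_mul, sub_zero]
  have h2 := map_dvd (Polynomial.taylorAlgHom t) hP
  rw [map_pow, Polynomial.taylorAlgHom_apply, Polynomial.taylorAlgHom_apply, map_sub,
    Polynomial.taylor_X, Polynomial.taylor_C, add_sub_cancel_right, ← hπ, ← hψ] at h2
  rw [← hπ, ← hr, ← Polynomial.map_pow]
  exact Polynomial.map_dvd _ (div_pow_dvd ψ hs1 hs' hd' N π h2)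

end Pool.Agent.Lib.MP_651af7_nt.Sh
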