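import Pool.Agent.Lib.MP_651af7_nt.Cn.SCos
import Pool.Agent.Lib.MP_651af7_nt.Av.Fin

/-! Sheets of finite covers of abelian varieties: vocabulary of the outer part. -/

namespace Pool.Agent.Lib.MP_651af7_nt.Sh

open MvPolynomial Height
open Pool.Agent.Lib.MP_651af7_nt.Av Pool.Agent.Lib.MP_651af7_nt.Av.AV

variable {k ι : Type} [Field k] {e : ℕ}

/-- The roots of the equation of the fibre through `v` satisfy no equation of smaller degree. -/
def Min (ρ : Fin (e + 2) → MvPolynomial ι k) {F : Type} [Field F] [Algebra k F] (v : ι → F) :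
    Prop :=
  ∀ t : F, ∑ j, aeval v (ρ j) * t ^ (j : ℕ) = 0 →
    ∀ (τ : Fin (e + 1) → MvPolynomial ι k) (d : ℕ), (∀ j, (τ j).IsHomogeneous d) →
      ∑ j, aeval v (τ j) * t ^ (j : ℕ) = 0 → ∀ j, aeval v (τ j) = 0

/-- The equation of the cover over the function field of the cone defined by `q`. -/
noncomputable def fq {N : ℕ} (ρ : Fin N → MvPolynomial ι k) (q : Ideal (MvPolynomial ι k)) :
    Polynomial (FractionRing (MvPolynomial ι k ⧸ q)) :=
  ∑ j : Fin N, Polynomial.monomial j (algebraMap (MvPolynomial ι k) _ (ρ j))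

/-- The equation stays minimal on the general coset of every infinite abelian subvariety. -/
def Gm (A : AV k ι) (ρ : Fin (e + 2) → MvPolynomial ι k) : Prop :=
  ∀ (B : AV k ι) (h : Sub A B), Infinite (B.Pt k) →
    ∃ (Θ : MvPolynomial ι k) (d : ℕ), Θ.IsHomogeneous d ∧ Θ ∉ A.I ∧
      ∀ (a : A.Pt k) (F : Type) [Field F] [Algebra k F] (b : B.Pt F) (v : ι → F), Gen B.I b.co →
        Rep (h.inc F b + A.map (Algebra.ofId k F) a) v → aeval v Θ ≠ 0 → Min ρ v

/-- A rational root has its share of the height. -/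
def Core [NumberField k] [Fintype ι] (A : AV k ι) (ρ : Fin (e + 2) → MvPolynomial ι k) : Prop :=
  ∀ ε : ℝ, 0 < ε → ∃ (Θ : MvPolynomial ι k) (d : ℕ) (C : ℝ), Θ.IsHomogeneous d ∧ Θ ∉ A.I ∧
    ∀ (x : ι → k) (t : k), x ≠ 0 → (∀ f ∈ A.I, eval x f = 0) → eval x Θ ≠ 0 →
      ∑ j, eval x (ρ j) * t ^ (j : ℕ) = 0 →
        logHeight (fun j => eval x (ρ j)) ≤ (e + 1) * logHeight₁ t + ε * logHeight x + C

end Pool.Agent.Lib.MP_651af7_nt.Sh
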