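import Pool.Agent.Lib.MP_651af7_nt.Sh.ODiv
import Pool.Agent.Lib.MP_651af7_nt.Sh.OVoc

/-! Generic points of the cover. -/

namespace Pool.Agent.Lib.MP_651af7_nt.Sh

open MvPolynomial Finset
open Pool.Agent.Lib.MP_651af7_nt.Av Pool.Agent.Lib.MP_651af7_nt.Av.AV
open Pool.Agent.Lib.MP_651af7_nt.Jn (rr rr_coeff)

variable {k ι : Type} [Field k] {e g : ℕ} {F : Type} [Field F] [Algebra k F] {x : ι → F} {t : F}
  {ρ : Fin (e + 2) → MvPolynomial ι k}

theorem rr_eval {R : Type} [CommRing R] [Algebra k R] (ρ : Fin (e + 2) → MvPolynomial ι k)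
    (x : ι → R) (t : R) : (rr ρ x).eval t = ∑ j, aeval x (ρ j) * t ^ (j : ℕ) := by
  simp only [rr, Polynomial.eval_finsetSum, Polynomial.eval_mul, Polynomial.eval_C,
    Polynomial.eval_pow, Polynomial.eval_X]

/-- Independent coordinates of a point of the cover bound the dimension of its image. -/
theorem le_td (h0 : (rr ρ x).eval t = 0) (h1 : ∃ a, x a = 1)
    (hl : aeval x (ρ (Fin.last _)) ≠ 0)
    (hi : ∃ I : Fin g → Option ι, AlgebraicIndependent k fun l => (I l).elim t x) :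
    (g : ℕ∞) ≤ td k (rat x) := by
  obtain ⟨I, hI⟩ := hi
  obtain ⟨b, hb⟩ := h1
  have a1 : ∀ a, x a ∈ Algebra.adjoin k (rat x) := fun a =>
    Algebra.subset_adjoin ⟨(a, b), by simp [hb]⟩
  have a2 : ∀ f : MvPolynomial ι k, aeval x f ∈ Algebra.adjoin k (rat x) := fun f =>
    (Algebra.adjoin_le (by rintro _ ⟨a, rfl⟩; exact a1 a) :
      Algebra.adjoin k (Set.range x) ≤ _) (Algebra.adjoin_range_eq_range_aeval k x ▸ ⟨f, rfl⟩)
  have a3 := card_le_td hI (S := Set.range fun l => (I l).elim t x) fun l => ⟨l, rfl⟩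
  rw [ENat.card_eq_coe_fintype_card, Fintype.card_fin] at a3
  refine a3.trans (td_le_of_isAlgebraic ?_)
  rintro _ ⟨l, rfl⟩
  rcases h : I l with _ | a <;> simp only [h, Option.elim]
  · refine ⟨∑ j, Polynomial.C (⟨_, a2 (ρ j)⟩ : Algebra.adjoin k (rat x)) *
      Polynomial.X ^ (j : ℕ), fun h2 => hl ?_, ?_⟩
    · have h4 := congrArg (fun q => (q.coeff (e + 1) : F)) h2
      simp only [Polynomial.finsetSum_coeff, Polynomial.coeff_C_mul_X_pow] at h4
      rw [sum_eq_single (Fin.last _) (fun j _ hj => if_neg fun e => hj (Fin.ext e.symm))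
        (by simp)] at h4
      simpa using h4
    · simp only [map_sum, map_mul, map_pow, Polynomial.aeval_X, Polynomial.aeval_C]
      exact (rr_eval ρ x t).symm.trans h0
  · exact isAlgebraic_algebraMap (⟨_, a1 a⟩ : Algebra.adjoin k (rat x))

variable [Fintype ι] {B : AV k ι}

theorem gen_of_ind (hg : B.dim ≤ g) (hz : ∀ f ∈ B.I, aeval x f = 0) (h0 : (rr ρ x).eval t = 0)
    (h1 : ∃ a, x a = 1) (hl : aeval x (ρ (Fin.last _)) ≠ 0)
    (hi : ∃ I : Fin g → Option ι, AlgebraicIndependent k fun l => (I l).elim t x) :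
    Gen B.I x := fun f n hn hf => by
  have h2 : x ≠ 0 := fun h => h1.elim fun a ha => zero_ne_one (ha ▸ (congrFun h a).symm)
  have h3 := (B.gen_iff (K := k) h2 hz).2 (le_antisymm (B.td_le_dim hz)
    ((Nat.cast_le.2 hg).trans (le_td h0 h1 hl hi))) f n hn hf
  refine B.mem_IK_iff.1 (?_ : MvPolynomial.map (algebraMap k k) f ∈ B.IK k)
  rwa [Algebra.algebraMap_self, MvPolynomial.map_id]

/-- The field `div` of `Blk.Geom` from minimality at the generic points. -/
theorem geom_div [CharZero k] (hg : B.dim ≤ g)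
    (hm : ∀ (F : Type) [Field F] [Algebra k F] (x : ι → F), (∀ f ∈ B.I, aeval x f = 0) →
      Gen B.I x → (∃ a, x a = 1) → Min ρ x)
    (F : Type) [Field F] [Algebra k F] (x : ι → F) (t : F) (hz : ∀ f ∈ B.I, aeval x f = 0)
    (h0 : (rr ρ x).eval t = 0) (h1 : ∃ a, x a = 1) (hl : aeval x (ρ (Fin.last _)) ≠ 0)
    (hi : ∃ I : Fin g → Option ι, AlgebraicIndependent k fun l => (I l).elim t x)
    (P : MvPolynomial (Option ι) k) (N : ℕ) (hP : (Polynomial.X - Polynomial.C t) ^ N ∣ pT x P) :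
    rr ρ x ^ N ∣ pT x P :=
  min_div h0 h1 hl (hm F x hz (gen_of_ind hg hz h0 h1 hl hi) h1 t ((rr_eval ρ x t).symm.trans h0))
    P N hP

variable [CharZero k] {μ : ℕ}

omit [Fintype ι] in
theorem Min.sep {F : Type} [Field F] [Algebra k F] {v : ι → F} (h : Min ρ v)
    (hρ : ∀ j, (ρ j).IsHomogeneous μ) (h1 : aeval v (ρ (Fin.last _)) ≠ 0) {t : F}
    (ht : ∑ j, aeval v (ρ j) * t ^ (j : ℕ) = 0) :
    ∑ j : Fin (e + 1), ((j : ℕ) + 1 : F) * aeval v (ρ j.succ) * t ^ (j : ℕ) ≠ 0 := fun h2 => by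
  have : CharZero F := charZero_of_injective_algebraMap (algebraMap k F).injective
  have h3 : ∀ j : Fin (e + 1), aeval v (((j : ℕ) + 1) • ρ j.succ) =
      ((j : ℕ) + 1 : F) * aeval v (ρ j.succ) := fun j => by
    rw [map_nsmul, nsmul_eq_mul, Nat.cast_add_one]
  have h4 := h t ht (fun j => ((j : ℕ) + 1) • ρ j.succ) μ
    (fun j => (homogeneousSubmodule _ _ _).toAddSubmonoid.nsmul_mem (hρ _) _)
    (by simpa only [h3] using h2) (Fin.last e)
  rw [h3, Fin.succ_last] at h4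
  exact mul_ne_zero (Nat.cast_add_one_ne_zero _) h1 h4

theorem div_of_min {B : AV k ι} (hρ : ∀ j, (ρ j).IsHomogeneous μ)
    (hm : ∀ (F : Type) [Field F] [Algebra k F] (v : ι → F), v ≠ 0 → (∀ f ∈ B.I, aeval v f = 0) →
      Gen B.I v → Min ρ v)
    (F : Type) [Field F] [Algebra k F] (x : ι → F) (t : F) (hx : ∀ f ∈ B.I, aeval x f = 0)
    (ht : (rr ρ x).eval t = 0) (h0 : ∃ a, x a = 1) (h1 : aeval x (ρ (Fin.last _)) ≠ 0)
    (hI : ∃ I : Fin B.dim → Option ι, AlgebraicIndependent k fun l => (I l).elim t x)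
    (P : MvPolynomial (Option ι) k) (N : ℕ)
    (hP : (Polynomial.X - Polynomial.C t) ^ N ∣ pT x P) : rr ρ x ^ N ∣ pT x P := by
  have _ := hρ
  exact geom_div le_rfl (fun F _ _ x h2 h3 h4 => hm F x
    (fun h => h4.elim fun a ha => zero_ne_one (ha ▸ (congrFun h a).symm)) h2 h3) F x t hx ht h0 h1
    hI P N hP

end Pool.Agent.Lib.MP_651af7_nt.Sh
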