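import Pool.Agent.Lib.MP_651af7_nt.Sh.OCore
import Pool.Agent.Lib.MP_651af7_nt.Sh.Main
import Pool.Agent.Lib.MP_651af7_nt.As.FBa

/-! A rational root has its share of the height. -/

namespace Pool.Agent.Lib.MP_651af7_nt.Sh

open MvPolynomial
open Pool.Agent.Lib.MP_651af7_nt.Av

theorem core {k ι : Type} [Field k] [NumberField k] [Fintype ι] {e μ : ℕ} {A : AV k ι}
    {ρ : Fin (e + 2) → MvPolynomial ι k} (hρ : ∀ j, (ρ j).IsHomogeneous μ)
    (hl : ρ (Fin.last _) ∉ A.I) (hG : Gm A ρ) : Core A ρ :=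
  core_of (fun B B₀ μ _ _ h1 h2 => (As.exists_fb B).elim fun F => engine F le_rfl e B₀ μ h1 h2)
    hρ hl hG

end Pool.Agent.Lib.MP_651af7_nt.Sh
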