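import Pool.Agent.Lib.MP_651af7_nt.Jn.One

/-! One block: the first coefficient of the expansion at a moving root. -/

namespace Pool.Agent.Lib.MP_651af7_nt.Sh

open Finset MvPowerSeries
open Pool.Agent.Lib.MP_651af7_nt.Av Pool.Agent.Lib.MP_651af7_nt.Jn

section sn

variable {A : Type} [CommRing A] {na : Prop} (S : SN A na)

theorem os_taylor {R Q : Polynomial A} {z : A} (h1 : R.eval z = 0) (d : ℕ) :
    (Polynomial.taylor z (R ^ d * Q)).coeff d = R.derivative.eval z ^ d * Q.eval z := by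
  obtain ⟨R1, hR⟩ : Polynomial.X ∣ Polynomial.taylor z R := by
    rw [Polynomial.X_dvd_iff, Polynomial.taylor_coeff_zero, h1]
  have h2 : R1.coeff 0 = R.derivative.eval z := by
    rw [← Polynomial.taylor_coeff_one, hR, Polynomial.coeff_X_mul]
  have h3 := Polynomial.coeff_X_pow_mul (R1 ^ d * Polynomial.taylor z Q) d 0
  rw [zero_add] at h3
  rw [Polynomial.taylor_mul, Polynomial.taylor_pow, hR, mul_pow, mul_assoc, h3,
    Polynomial.mul_coeff_zero, Polynomial.taylor_coeff_zero, ← h2,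
    Polynomial.coeff_zero_eq_eval_zero, Polynomial.coeff_zero_eq_eval_zero, Polynomial.eval_pow]

theorem os_eval {p : Polynomial A} {z : A} {m Z : ℝ} {b : ℕ} (hp : ∀ i, S.N (p.coeff i) ≤ m)
    (hb : p.natDegree ≤ b) (hz : S.N z ≤ Z) (Z1 : 1 ≤ Z) :
    S.N (p.eval z) ≤ E na 2 ^ b * (m * Z ^ b) := by
  have m0 : 0 ≤ m := (S.nonneg _).trans (hp 0)
  rw [Polynomial.eval_eq_sum_range' (Nat.lt_succ_of_le hb)]
  refine (S.sum_le_card _ (by positivity) fun j hj => ?_).trans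
    (mul_le_mul_of_nonneg_right (by rw [card_range]; exact on_E b) (by positivity))
  exact S.mul_le (hp j) ((S.pow_le hz j).trans
    (pow_le_pow_right₀ Z1 (Nat.lt_succ_iff.1 (mem_range.1 hj))))

end sn

variable {k τ : Type} [Field k] [NumberField k] {v : AbsoluteValue k ℝ}

/-- One block. `z` is a root of `R`, and `P` is a multiple of `R ^ d`. -/
theorem one_S (hv : Adm v) {t : τ → ℝ} (ht : ∀ s, 0 ≤ t s) {κ : τ →₀ ℕ}
    {P R : Polynomial (MvPowerSeries τ k)} {z : MvPowerSeries τ k} {n e d : ℕ}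
    (hP : P.natDegree ≤ n) (hR : R.natDegree = e) (hd : R ^ d ∣ P) (h1 : R.eval z = 0)
    {W M γ Z : ℝ} (hW : ∀ i, serN (absSN v) t κ (R.coeff i) ≤ W)
    (hW' : serN (absSN v) t κ (R.derivative.eval z) ≤ W) (M0 : 0 ≤ M)
    (hM : ∀ i, ∀ a ≤ κ, v (coeff a (P.coeff i)) * wt (fun s => γ * t s) a ≤ M) (g0 : 0 ≤ γ)
    (g1 : γ ≤ 1) (hθ : constantCoeff (R.derivative.eval z) ≠ 0)
    (hg : γ * W ≤ v (constantCoeff (R.derivative.eval z))) {j₁ : ℕ}
    (hg' : γ * W ≤ v (constantCoeff (R.coeff j₁))) (Z1 : 1 ≤ Z)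
    (hz : serN (absSN v) (fun s => γ * t s) κ z ≤ Z) (j : ℕ) {α : τ →₀ ℕ} (hα : α ≤ κ) :
    v (coeff α ((Polynomial.taylor z P).coeff d)) * wt (fun s => γ * t s) α *
        v (constantCoeff (R.coeff j)) ^ d ≤
      E (IsNonarchimedean v) 2 ^ ((5 * e + 4) * (n + d + κ.degree)) * M *
        v (constantCoeff (R.derivative.eval z)) ^ d * Z ^ (n - e * d) := by
  obtain ⟨Q, rfl⟩ := hd
  have ht' : ∀ s, 0 ≤ γ * t s := fun s => mul_nonneg g0 (ht s)
  obtain ⟨S, hS⟩ := exists_serSN (absSN v) ht' κ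
  obtain ⟨ε, hε⟩ : ∃ ε, ε = E (IsNonarchimedean v) 2 := ⟨_, rfl⟩
  have e1 : 1 ≤ ε := hε ▸ one_le_E one_le_two
  have e0 : 0 ≤ ε := zero_le_one.trans e1
  obtain ⟨θ, hθ'⟩ : ∃ θ, θ = v (constantCoeff (R.derivative.eval z)) := ⟨_, rfl⟩
  have t0 : 0 < θ := hθ' ▸ v.pos hθ
  have hR0 : R ≠ 0 := fun h => hθ (by simp [h])
  have hQ : Q.natDegree ≤ n - e * d := by
    by_cases h : Q = 0
    · simp [h]
    · rw [Polynomial.natDegree_mul (pow_ne_zero d hR0) h, Polynomial.natDegree_pow, hR,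
        mul_comm] at hP
      omega
  obtain ⟨j₀, -, hj₀⟩ := exists_max_image (range (e + 1))
    (fun i => v (constantCoeff (R.coeff i))) ⟨0, by simp⟩
  obtain ⟨Y, hY⟩ : ∃ Y, Y = v (constantCoeff (R.coeff j₀)) := ⟨_, rfl⟩
  have hy : ∀ i, v (constantCoeff (R.coeff i)) ≤ Y := fun i => by
    by_cases h : i ≤ e
    · exact hY ▸ hj₀ i (mem_range.2 (Nat.lt_succ_of_le h))
    · rw [Polynomial.coeff_eq_zero_of_natDegree_lt (by omega), map_zero, map_zero, hY]
      exact v.nonneg _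
  have Y0 : 0 < Y := by
    by_contra h
    refine hθ ?_
    have h2 : R.map (constantCoeff (σ := τ) (R := k)) = 0 := Polynomial.ext fun i => by
      rw [Polynomial.coeff_map, Polynomial.coeff_zero]
      exact v.eq_zero.1 (le_antisymm ((hy i).trans (not_lt.1 h)) (v.nonneg _))
    rw [← Polynomial.eval₂_at_apply, ← Polynomial.eval_map, ← Polynomial.derivative_map, h2]
    simp
  have x0 : ∀ f, serN (absSN v) t κ f ≤ W → S.N (C (constantCoeff f) - f) ≤ γ * W := fun f hf => by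
    rw [hS]
    exact (on_shrink _ ht g0 g1 _).trans
      ((mul_le_mul_of_nonneg_right hf g0).trans_eq (mul_comm _ _))
  have t1 : γ * W ≤ ε ^ (2 * e) * Y :=
    (hg'.trans (hy j₁)).trans (le_mul_of_one_le_left Y0.le (one_le_pow₀ e1))
  have m1 : ∀ i, serN (absSN v) (fun s => γ * t s) κ ((R ^ d * Q).coeff i) ≤ ε ^ κ.degree * M :=
    fun i => hε ▸ on_card _ M0 (hM i)
  have q1 := fun (μ : τ →₀ ℕ) (hμ : μ ≤ κ) => one_quot hv ht' hP (hQ.trans (Nat.sub_le _ _)) hR.le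
    m1 (fun i => (hS ▸ x0 _ (hW i) : serN (absSN v) (fun s => γ * t s) κ _ ≤ γ * W).trans
      (hε ▸ t1)) hy hY.symm Y0 hμ
  have yd := pow_pos Y0 d
  have q2 : ∀ i, S.N (Q.coeff i) ≤ ε ^ κ.degree *
      (ε ^ (2 * n + (e + 1) * d + (5 * e + 2) * κ.degree) * (ε ^ κ.degree * M) / Y ^ d) := fun i => by
    rw [hS]
    refine (on_card _ (M := ε ^ (2 * n + (e + 1) * d + (5 * e + 2) * κ.degree) *
      (ε ^ κ.degree * M) / Y ^ d) (by positivity) fun μ hμ => ?_).trans_eq (by rw [← hε])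
    rw [le_div_iff₀ yd]
    exact (q1 μ hμ i).trans_eq (by rw [← hε])
  have q3 := os_eval S q2 hQ (hS ▸ hz) Z1
  have t2 : S.N (R.derivative.eval z) ≤ ε * θ := by
    have a3 : S.N (C (constantCoeff (R.derivative.eval z))) ≤ θ := by
      rw [hS]
      exact (serN_C _ ht' _).trans hθ'.symm.le
    have a4 := S.sub_le (s := 1) (t := 1) (a3.trans_eq (by rw [E_one, one_mul]))
      (((x0 _ hW').trans (hθ' ▸ hg)).trans_eq (by rw [E_one, one_mul]))
    rwa [sub_sub_cancel, one_add_one_eq_two, ← hε] at a4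
  have f1 := S.mul_le (S.pow_le t2 d) q3
  rw [← os_taylor h1, hS, ← hε] at f1
  have f2 := (coeff_le_serN (absSN v) ht' _ hα).trans f1
  rw [← hε, ← hθ']
  have Z0 : 0 < Z := one_pos.trans_le Z1
  refine (mul_le_mul f2 (pow_le_pow_left₀ (v.nonneg _) (hy j) d) (pow_nonneg (v.nonneg _) d)
    (by positivity)).trans ?_
  have f3 : (ε * θ) ^ d * (ε ^ (n - e * d) * (ε ^ κ.degree *
      (ε ^ (2 * n + (e + 1) * d + (5 * e + 2) * κ.degree) * (ε ^ κ.degree * M) / Y ^ d) *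
        Z ^ (n - e * d))) * Y ^ d =
      ε ^ (2 * n + (n - e * d) + (e + 2) * d + (5 * e + 4) * κ.degree) * M * θ ^ d *
        Z ^ (n - e * d) := by
    field_simp
    ring
  rw [f3]
  refine mul_le_mul_of_nonneg_right (mul_le_mul_of_nonneg_right (mul_le_mul_of_nonneg_right
    (pow_le_pow_right₀ e1 ?_) M0) (pow_nonneg t0.le d)) (by positivity)
  nlinarith [Nat.zero_le (e * n), Nat.zero_le (e * d), Nat.sub_le n (e * d)]

end Pool.Agent.Lib.MP_651af7_nt.Sh
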