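import Pool.Agent.Lib.MP_651af7_nt.Sh.Pol
import Pool.Agent.Lib.MP_651af7_nt.Sh.Loc

/-! The section as a polynomial, with no relation between the degrees. -/

namespace Pool.Agent.Lib.MP_651af7_nt.Sh

open MvPolynomial Finset
open Av hiding Bad
open As (FB Cf)
open Rt (Col Ix GR)
open Jn (vE unc)

variable {k ι R : Type} [Field k] [NumberField k] [CommRing R] [Algebra k R] {B : AV k ι}
  {g m e : ℕ} (F : FB B g) (Z : Cf m)

/-- The exponent in the direct bound. -/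
def cP : ℕ := F.ρ + g + 3

theorem aeval_shf_GP {r : ℕ} (c : Co F Z e) (a : Fin m → ι)
    (ξ : Fin m → Option ι → MvPowerSeries (Fin r) k) :
    aeval (xo fun o => shf (ξ o)) (GP F Z c a) =
      GR (eT Z e) c (Z.Fa F a fun o b => xs ξ o (some b)) (ts ξ) := by
  simp only [aeval_GP, xo_shf_none, xo_shf_some]
  rfl

theorem sec_bd' (hn : ∀ o, F.em ≤ Z.n o ∧ 1 ≤ Z.n o)
    {v : AbsoluteValue k ℝ} {S : SN R (IsNonarchimedean v)} (hS : S.Ov v) {s : ℝ} (hs : Sz₀ B v s)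
    (hφ : ∀ (n : ℕ) (t : F.T n), pl v (F.φ t) ≤ s ^ (n + 1)) (a : Fin m → ι) {y : Fin m → ι → R}
    {T : Fin m → R} {Y τ : Fin m → ℝ} (hY : ∀ o, 0 ≤ Y o) (hy : ∀ o b, S.N (y o b) ≤ Y o)
    (hτ : ∀ o, 1 ≤ τ o) (hT : ∀ o, S.N (T o) ≤ τ o) {c : Co F Z e} {H : ℝ} (hH : 0 ≤ H)
    (hc : ∀ t, |(c t : ℝ)| ≤ H) : S.N (GR (eT Z e) c (Z.Fa F a y) T) ≤
      E (IsNonarchimedean v) H * ∏ o, (s ^ cP F * Y o) ^ Z.dg o * (s * τ o) ^ eT Z e o := by
  obtain ⟨Fb, h0, h1, h2⟩ := Z.Fa_le F hn hS hs hφ a hY hy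
  have s1 : 1 ≤ s := one_le_of_two hs.two
  have s0 : 0 ≤ s := zero_le_one.trans s1
  have t0 : ∀ o, 0 ≤ τ o := fun o => zero_le_one.trans (hτ o)
  have h3 : 0 ≤ E (IsNonarchimedean v) H * ∏ o, Fb o * τ o ^ eT Z e o :=
    mul_nonneg (E_nonneg hH) (prod_nonneg fun o _ => mul_nonneg (h0 o) (pow_nonneg (t0 o) _))
  refine (S.sum_le_card _ h3 fun t _ => S.mul_le ((S.intCast_le _).trans (E_mono (hc t)))
    (S.prod_le _ fun o _ => S.mul_le (h1 o _) ((S.pow_le (hT o) _).trans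
      (pow_le_pow_right₀ (hτ o) (t o).2.is_le)))).trans ?_
  have h4 : ((univ : Finset (Col (fun o => F.T (Z.n o)) (eT Z e))).card : ℝ) ≤
      2 ^ ∑ o, ((F.ρ + g + 1) * Z.dg o + eT Z e o) := by
    rw [card_univ, Fintype.card_pi, ← prod_pow_eq_pow_sum]
    push_cast
    refine prod_le_prod (fun _ _ => Nat.cast_nonneg _) fun o _ => ?_
    rw [Fintype.card_prod, Fintype.card_fin]
    have h5 := Nat.mul_le_mul (F.card_T_le (hn o).2) (Nat.lt_two_pow_self (n := eT Z e o))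
    rw [← pow_add] at h5
    have h7 := Nat.mul_le_mul_left (F.ρ + g + 1) (Z.n_le_dg o)
    exact_mod_cast h5.trans (Nat.pow_le_pow_right two_pos (by nlinarith))
  refine (mul_le_mul_of_nonneg_right (E_le_pow hs.two h4) h3).trans (le_of_eq ?_)
  rw [mul_left_comm, prod_mul_distrib, h2, ← prod_pow_eq_pow_sum, ← mul_assoc (∏ o, _),
    ← prod_mul_distrib, ← prod_mul_distrib]
  refine congrArg _ (prod_congr rfl fun o _ => ?_)
  rw [pow_add, pow_mul, cP, show F.ρ + g + 3 = F.ρ + g + 1 + 2 from rfl, pow_add s _ 2]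
  simp only [mul_pow]
  ring

/-- The direct bound. -/
theorem sec_bd (hn : ∀ o, F.em ≤ Z.n o ∧ 1 ≤ Z.n o)
    {v : AbsoluteValue k ℝ} {S : SN R (IsNonarchimedean v)} (hS : S.Ov v) (a : Fin m → ι)
    {y : Fin m → ι → R} {T : Fin m → R} {Y τ : Fin m → ℝ} (hY : ∀ o, 0 ≤ Y o)
    (hy : ∀ o b, S.N (y o b) ≤ Y o) (hτ : ∀ o, 1 ≤ τ o) (hT : ∀ o, S.N (T o) ≤ τ o) {c : Co F Z e}
    {H : ℝ} (hH : 0 ≤ H) (hc : ∀ t, |(c t : ℝ)| ≤ H) : S.N (GR (eT Z e) c (Z.Fa F a y) T) ≤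
      E (IsNonarchimedean v) H * ∏ o, (F.s v ^ cP F * Y o) ^ Z.dg o * (F.s v * τ o) ^ eT Z e o :=
  sec_bd' F Z hn hS (F.sz v) (fun _ t => F.φ_pl v t) a hY hy hτ hT hH hc

theorem GP_bd' (hn : ∀ o, F.em ≤ Z.n o ∧ 1 ≤ Z.n o) {v : AbsoluteValue k ℝ} {s : ℝ}
    (hs : Sz₀ B v s) (hφ : ∀ (n : ℕ) (t : F.T n), pl v (F.φ t) ≤ s ^ (n + 1)) (a : Fin m → ι)
    {t : Fin m × Option ι → ℝ} (ht : ∀ p, 0 ≤ t p) {Y τ : Fin m → ℝ} (hY : ∀ o, 0 ≤ Y o)
    (hy : ∀ o b, t (o, some b) ≤ Y o) (hτ : ∀ o, 1 ≤ τ o) (hT : ∀ o, t (o, none) ≤ τ o)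
    {c : Co F Z e} {H : ℝ} (hH : 0 ≤ H) (hc : ∀ t, |(c t : ℝ)| ≤ H) (μ : Fin m × Option ι →₀ ℕ) :
    v (coeff μ (GP F Z c a)) * wt t μ ≤ E (IsNonarchimedean v) H *
      ∏ o, (s ^ cP F * Y o) ^ Z.dg o * (s * τ o) ^ eT Z e o := by
  obtain ⟨S, hS⟩ := exists_polSN (absSN v) ht
  have hX : ∀ p, S.N (X p) ≤ t p := fun p => hS ▸ polN_X _ ht p
  have h1 : ∀ P, v (coeff μ P) * wt t μ ≤ S.N P := fun P => hS ▸ coeff_le_polN (absSN v) ht P μ
  exact (h1 _).trans (sec_bd' F Z hn ((absSN_ov v).pol ht hS) hs hφ a hY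
    (fun o b => (hX _).trans (hy o b)) hτ (fun o => (hX _).trans (hT o)) hH hc)

/-- The coefficients. -/
theorem GP_coeff (hn : ∀ o, F.em ≤ Z.n o ∧ 1 ≤ Z.n o) (v : AbsoluteValue k ℝ) (a : Fin m → ι)
    {c : Co F Z e} {H : ℝ} (hH : 0 ≤ H) (hc : ∀ t, |(c t : ℝ)| ≤ H) (μ : Fin m × Option ι →₀ ℕ) :
    v (coeff μ (GP F Z c a)) ≤
      E (IsNonarchimedean v) H * ∏ o, F.s v ^ (cP F * (Z.dg o + eT Z e o)) := by
  have h := GP_bd' F Z hn (F.sz v) (fun _ t => F.φ_pl v t) a (t := fun _ => 1) (Y := fun _ => 1)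
    (τ := fun _ => 1) (fun _ => zero_le_one) (fun _ => zero_le_one) (fun _ _ => le_rfl)
    (fun _ => le_rfl) (fun _ => le_rfl) hH hc μ
  rw [wt_one, mul_one] at h
  refine h.trans (mul_le_mul_of_nonneg_left (prod_le_prod (fun o _ => ?_) fun o _ => ?_)
    (E_nonneg hH))
  · have := (F.ad.pos v).le
    positivity
  · rw [mul_one, mul_one, ← pow_mul, ← pow_add, mul_add]
    exact pow_le_pow_right₀ (F.one_le v)
      (Nat.add_le_add_left (Nat.le_mul_of_pos_left _ (Nat.succ_pos _)) _)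

/-- The degrees. -/
theorem GP_supp (hn : ∀ o, F.em ≤ Z.n o ∧ 1 ≤ Z.n o) [Fintype ι] (a : Fin m → ι) (c : Co F Z e)
    {μ : Fin m × Option ι →₀ ℕ} (h : μ ∈ (GP F Z c a).support) (o : Fin m) :
    μ (o, none) ≤ eT Z e o ∧ ∀ b, μ (o, some b) ≤ Z.dg o := by
  classical
  obtain ⟨v, hna, hv, hv1⟩ := Jn.exists_triv k
  have key : ∀ (p : Fin m × Option ι) (Y τ : Fin m → ℝ), (∀ o, 1 ≤ Y o) → (∀ o, 1 ≤ τ o) →
      (∀ o b, p = (o, some b) → 2 ≤ Y o) → (∀ o, p = (o, none) → 2 ≤ τ o) →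
      (2 : ℝ) ^ μ p ≤ ∏ o, Y o ^ Z.dg o * τ o ^ eT Z e o := fun p Y τ h1 h2 h3 h4 => by
    have h5 := GP_bd' F Z hn (v := v) (s := 1)
      ⟨(E_pos_case hna _).le, fun _ _ => Jn.pl_le_one hna hv _, fun _ => hv _⟩
      (fun _ _ => by rw [one_pow]; exact Jn.pl_le_one hna hv _) a
      (t := fun q => if q = p then 2 else 1) (Y := Y) (τ := τ)
      (fun q => by split_ifs <;> norm_num) (fun o => zero_le_one.trans (h1 o))
      (fun o b => by
        split_ifs with h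
        exacts [h3 o b h.symm, h1 o]) h2
      (fun o => by
        split_ifs with h
        exacts [h4 o h.symm, h2 o]) (H := ∑ t, |(c t : ℝ)|) (sum_nonneg fun _ _ => abs_nonneg _)
      (fun t => single_le_sum (f := fun t => |(c t : ℝ)|) (fun _ _ => abs_nonneg _) (mem_univ t)) μ
    simpa only [E_pos_case hna, one_pow, one_mul, wt_eq, ite_pow, prod_ite_eq', mem_univ,
      if_true, hv1 _ (mem_support_iff.1 h)] using h5
  refine ⟨?_, fun b => ?_⟩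
  · have h1 := key (o, none) (fun _ => 1) (fun o' => if o' = o then 2 else 1) (fun _ => le_rfl)
      (fun _ => by split_ifs <;> norm_num) (fun _ _ h => by simp at h)
      fun o' h => by rw [if_pos (congrArg Prod.fst h).symm]
    simp only [one_pow, one_mul, ite_pow, prod_ite_eq', mem_univ, if_true] at h1
    exact (pow_le_pow_iff_right₀ one_lt_two).1 h1
  · have h1 := key (o, some b) (fun o' => if o' = o then 2 else 1) (fun _ => 1)
      (fun _ => by split_ifs <;> norm_num) (fun _ => le_rfl)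
      (fun o' _ h => by rw [if_pos (congrArg Prod.fst h).symm]) fun _ h => by simp at h
    simp only [one_pow, mul_one, ite_pow, prod_ite_eq', mem_univ, if_true] at h1
    exact (pow_le_pow_iff_right₀ one_lt_two).1 h1

end Pool.Agent.Lib.MP_651af7_nt.Sh
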