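import Pool.Agent.Lib.MP_651af7_nt.Sh.Ind
import Pool.Agent.Lib.MP_651af7_nt.Sh.SDefs
import Pool.Agent.Lib.MP_651af7_nt.As.Fa
import Pool.Agent.Lib.MP_651af7_nt.Av.ELam
import Pool.Agent.Lib.MP_651af7_nt.Av.ParA

/-! The section in all presentations; it does not vanish and it satisfies the conditions. -/

namespace Pool.Agent.Lib.MP_651af7_nt.Sh

open MvPolynomial Finset
open Av hiding Bad
open Av.AV
open As (FB Cf)
open Rt (Col Ix GR)

theorem mon_li {L M O : Type} [Field L] [Field M] [Algebra L M] [Fintype O] [DecidableEq O]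
    {T : O → M} (hT : AlgebraicIndependent L T) (e : O → ℕ) :
    LinearIndependent L fun j : ∀ o, Fin (e o + 1) => ∏ o, T o ^ (j o : ℕ) := by
  have h := ((basisMonomials O L).linearIndependent.comp
    (fun j : ∀ o, Fin (e o + 1) => Finsupp.equivFunOnFinite.symm fun o => (j o : ℕ))
    fun j j' h => funext fun o => Fin.ext
      (congrFun (Finsupp.equivFunOnFinite.symm.injective h) o)).map' (aeval T).toLinearMap
      (LinearMap.ker_eq_bot.2 hT)
  refine (congrArg (fun v => LinearIndependent L v) (_root_.funext fun j => ?_)).mp h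
  simp [aeval_monomial, Finsupp.prod_fintype]

theorem map_GR {R R' : Type} [CommRing R] [CommRing R'] {m : ℕ} {T : Fin m → Type}
    [∀ i, Fintype (T i)] (φ : R →+* R') (e : Fin m → ℕ) (c : Col T e → ℤ) (f : ∀ i, T i → R)
    (t : Fin m → R) : φ (GR e c f t) = GR e c (fun i τ => φ (f i τ)) fun i => φ (t i) := by
  simp [GR]

theorem GR_mul {R : Type} [CommRing R] {m : ℕ} {T : Fin m → Type} [∀ i, Fintype (T i)]
    (e : Fin m → ℕ) (c : Col T e → ℤ) (s : Fin m → R) (f : ∀ i, T i → R) (t : Fin m → R) :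
    GR e c (fun i τ => s i * f i τ) t = (∏ i, s i) * GR e c f t := by
  simp only [GR, mul_sum, mul_assoc, prod_mul_distrib]
  exact sum_congr rfl fun τ _ => by ring

variable {k ι M R : Type} [Field k] [Field M] [Algebra k M] [CommRing R] [Algebra k R]
  {B : AV k ι} {g m e : ℕ} (Z : Cf m)

theorem GR_ne {T : Fin m → Type} [∀ i, Fintype (T i)] [CharZero k] {L : IntermediateField k M}
    {f : ∀ i, T i → M} (hL : ∀ i τ, f i τ ∈ L)
    (hf : LinearIndependent k fun τ : ∀ i, T i => ∏ i, f i (τ i)) {t : Fin m → M}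
    (ht : AlgebraicIndependent L t) {d : Fin m → ℕ} {c : Col T d → ℤ} (hc : c ≠ 0) :
    GR d c f t ≠ 0 := fun h0 => hc (by
  have h1 : LinearIndependent k fun τ : ∀ i, T i => (∏ i, ⟨f i (τ i), hL i _⟩ : L) :=
    LinearIndependent.of_comp L.val.toLinearMap (by
      convert hf using 2
      simp)
  have h2 := (linearIndependent_smul h1 (mon_li ht d)).comp
    (fun τ : Col T d => ((fun i => (τ i).1), fun i => (τ i).2)) fun τ τ' h => funext fun i =>
      Prod.ext (congrFun (Prod.mk.inj h).1 i) (congrFun (Prod.mk.inj h).2 i)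
  funext τ
  refine Int.cast_injective (α := k) ((Fintype.linearIndependent_iff.1 h2 (fun τ => (c τ : k))
    ?_ τ).trans (by simp))
  rw [← h0, GR]
  refine sum_congr rfl fun τ _ => ?_
  simp [IntermediateField.smul_def, prod_mul_distrib, Int.cast_smul_eq_zsmul])

variable [IsLocalRing R] {p : Fin m → B.Pt R} {x S : Fin m → ι → R}

theorem exists_Y (hx : ∀ o, Rep (p o) (x o))
    (hS : ∀ o, o ≠ Z.h → Rep (p o + 2 ^ Z.j o • p Z.h) (S o)) :
    ∃ Y : Fin m → ι → R, (∀ o, Rep (Z.YY p o) (Y o)) ∧ Y Z.h = x Z.h ∧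
      ∀ a o c, Z.arm B a x o c = (if o = Z.h then 1 else S o (a o)) * Y o c := by
  have key : ∀ o, ∃ Y : ι → R, Rep (Z.YY p o) Y ∧ (o = Z.h → Y = x Z.h) ∧
      ∀ a c, Z.arm B a x o c = (if o = Z.h then 1 else S o (a o)) * Y c := fun o => by
    unfold Cf.YY Cf.arm
    by_cases ho : o = Z.h
    · exact ⟨x Z.h, by simpa only [if_pos ho] using hx _, fun _ => rfl, fun a c => by
        rw [if_pos ho, if_pos ho, one_mul]⟩
    · obtain ⟨u, hu⟩ := law (hx o) ((hx Z.h).dbn (Z.j o)) (hS o ho) (rep_co _)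
      refine ⟨_, by simpa only [if_neg ho] using (rep_co _).smul u.isUnit, fun h => absurd h ho,
        fun a c => ?_⟩
      rw [if_neg ho, if_neg ho, hu, mul_left_comm]
  choose Y h1 h2 h3 using key
  exact ⟨Y, h1, h2 _ rfl, fun a o c => h3 o a c⟩

theorem map_YY (G : R →ₐ[k] M) (o : Fin m) :
    B.map G (Z.YY p o) = Z.YY (fun o => B.map G (p o)) o := by
  unfold Cf.YY
  split_ifs
  · rfl
  · rw [map_sub, map_nsmul]

variable [NumberField k] [Fintype ι] [IsDomain R] (F : FB B g)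

/-- The section up to the factor of the presentation. -/
theorem frame_ring (hn : ∀ o, F.em ≤ Z.n o) (hx : ∀ o, Rep (p o) (x o))
    (hS : ∀ o, o ≠ Z.h → Rep (p o + 2 ^ Z.j o • p Z.h) (S o)) {G : R →ₐ[k] M}
    (hI : Ind fun o => B.map G (p o)) {L : IntermediateField k M}
    (hL : ∀ o c, G (x o c) ∈ L) {T : Fin m → R} (hT : AlgebraicIndependent L fun o => G (T o))
    (c : Co F Z e) : ∃ f : R,
      (∀ a, GR (eT Z e) c (Z.Fa F a x) T = (∏ o ∈ univ.erase Z.h, S o (a o) ^ Z.n o) * f) ∧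
      (c ≠ 0 → f ≠ 0) ∧
      ∀ (ρ : Fin m → Fin (e + 2) → MvPolynomial ι k) (Lw : Finset (Ix Z.e)), Van F Z ρ Lw c →
        (∀ o, aeval (x o) (ρ o (Fin.last _)) ≠ 0) → ∃ H : Ix Z.e → R,
          (∏ o, aeval (x o) (ρ o (Fin.last _)) ^ (2 * (e + 1) * Z.e o)) * f =
            ∑ d ∈ univ.filter (· ∉ Lw), H d *
              ∏ o, (∑ t, aeval (x o) (ρ o t) * T o ^ (t : ℕ)) ^ (d o : ℕ) := by
  obtain ⟨Y, h1, h2, h3⟩ := exists_Y Z hx hS
  have hY : Ind (Z.YY fun o => B.map G (p o)) := hI.shear Z.h fun o => 2 ^ Z.j o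
  have h4 : ∀ o, Rep (Z.YY (fun o => B.map G (p o)) o) fun c => G (Y o c) := fun o =>
    map_YY Z G o ▸ (h1 o).map G
  have h5 : ∀ a, GR (eT Z e) c (Z.Fa F a x) T = (∏ o ∈ univ.erase Z.h, S o (a o) ^ Z.n o) *
      GR (eT Z e) c (fun o t => aeval (Y o) (F.φ t)) T := fun a => by
    have e1 : Z.Fa F a x = fun o t =>
        (if o = Z.h then 1 else S o (a o)) ^ Z.n o * aeval (Y o) (F.φ t) := by
      funext o t
      rw [Cf.Fa, funext (h3 a o), aeval_mul_of_hom (F.φ_hom (hn o) t)]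
    rw [e1, GR_mul, ← mul_prod_erase _ _ (mem_univ Z.h), if_pos rfl, one_pow, one_mul]
    exact congrArg (· * _) (prod_congr rfl fun o ho => by rw [if_neg (ne_of_mem_erase ho)])
  refine ⟨_, h5, fun hc h0 => ?_, fun ρ Lw hV hρ => ?_⟩
  · have h6 : ∀ o, ∃ a, IsUnit (if o = Z.h then 1 else S o a) := fun o => by
      split_ifs with ho
      · exact ⟨B.ao, isUnit_one⟩
      · exact (hS o ho).unit
    choose a ha using h6
    have h7 : ∀ o, Rep (Z.YY (fun o => B.map G (p o)) o) (Z.arm B a (fun o c => G (x o c)) o) :=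
      fun o => by
        have h8 := (h4 o).smul ((ha o).map G)
        simp only [← map_mul, ← h3, Z.map_arm] at h8
        exact h8
    refine GR_ne (L := L) (f := Z.Fa F a fun o c => G (x o c)) (fun o t => ?_)
      (hY.li F h7 hn) hT hc ?_
    · exact Z.map_Fa F L.val a (fun o c => ⟨_, hL o c⟩) o t ▸ Subtype.property _
    · have h8 := congrArg G (h5 a)
      rw [h0, mul_zero, map_zero] at h8
      rw [← h8]
      refine Eq.trans ?_ (map_GR (G : R →+* M) _ _ _ _).symm
      congr 1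
      funext o t
      exact (Z.map_Fa F G a x o t).symm
  · have h6 : ∀ o, ∃ l : R, l ≠ 0 ∧ ∀ a, Z.bak B Y o a = l * x o a := fun o => by
      unfold Cf.bak
      by_cases ho : o = Z.h
      · exact ⟨1, one_ne_zero, fun a => by rw [if_pos ho, h2, ho, one_mul]⟩
      · have a1 := h1 o
        rw [Cf.YY, if_neg ho] at a1
        obtain ⟨u, hu⟩ := law a1 ((h2 ▸ hx Z.h).dbn (Z.j o)) (s := x o)
          (by rw [sub_add_cancel]; exact hx o) (rep_co _)
        refine ⟨u * (p o - 2 ^ Z.j o • p Z.h - 2 ^ Z.j o • p Z.h).co B.ao,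
          mul_ne_zero u.ne_zero fun h0 => ?_, fun a => by
          rw [if_neg ho, hu, mul_assoc, mul_comm (x o a)]⟩
        refine (hI.shear Z.h fun o => 2 ^ Z.j o + 2 ^ Z.j o).gen₀ (o := o)
          (y := fun c => G ((p o - 2 ^ Z.j o • p Z.h - 2 ^ Z.j o • p Z.h).co c)) ?_
          (isHomogeneous_X k B.ao) (B.IK_self ▸ B.X_ao_notMem k) (by rw [aeval_X, h0, map_zero])
        have a2 := (rep_co (p o - 2 ^ Z.j o • p Z.h - 2 ^ Z.j o • p Z.h)).map G
        rw [sub_sub, ← add_nsmul, map_sub, map_nsmul] at a2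
        simpa only [if_neg ho, sub_sub, ← add_nsmul] using a2
    choose l hl hl' using h6
    exact hV R Y x l T (fun o => (h1 o).zero) (fun o h0 => hY.gen₀ (h4 o) F.hΔ F.notMem (by
      rw [← par_map_aeval, h0, map_zero])) hl hl' hρ

end Pool.Agent.Lib.MP_651af7_nt.Sh
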